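import Pool.Agent.Lib.MP_ad7336_sd.Defs

set_option autoImplicit false

namespace Pool.Agent.Lib.MP_ad7336_sd

open Finset Filter
open scoped Classical

namespace AL1x

theorem inv1 {a b c k e d x y x' y' : ℤ} (h : Rot a b c k e d x y x' y') :
    k * x = (e + b * d) * x' + c * d * y' := by
  apply mul_left_cancel₀ h.pos.ne'
  have h1 := h.h1
  have h2 := h.h2
  have h3 := h.nm
  linear_combination (-(e + b * d)) * h1 - c * d * h2 - x * h3

theorem inv2 {a b c k e d x y x' y' : ℤ} (h : Rot a b c k e d x y x' y') :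
    k * y = -(a * d * x') + e * y' := by
  apply mul_left_cancel₀ h.pos.ne'
  have h1 := h.h1
  have h2 := h.h2
  have h3 := h.nm
  linear_combination (a * d) * h1 - e * h2 - y * h3

theorem nd {a b c k e d x y x' y' : ℤ} {p : ℕ} (hp : p.Prime)
    (h : Rot a b c k e d x y x' y') (hk : (p : ℤ) ∣ k) : ¬ (p : ℤ) ∣ d := by
  intro hd
  have hP : Prime (p : ℤ) := Nat.prime_iff_prime_int.mp hp
  have h1 : (p : ℤ) ∣ e ^ 2 := by
    have e1 : e ^ 2 = k * k - d * (b * e + a * c * d) := by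
      have := h.nm
      linear_combination this
    rw [e1]
    exact dvd_sub (dvd_mul_of_dvd_left hk _) (dvd_mul_of_dvd_left hd _)
  exact hP.not_isUnit (h.cop.isUnit_of_dvd' (hP.dvd_of_dvd_pow h1) hd)

theorem eig {F : Type} [Field F] {a b c ρ e d X Y X' Y' : F} (hρ : ρ ^ 2 - b * ρ + a * c = 0)
    (hd : d ≠ 0) (hn : e ^ 2 + b * e * d + a * c * d ^ 2 = 0) (h1 : 0 = e * X - c * d * Y)
    (h2 : 0 = a * d * X + (e + b * d) * Y) (h3 : 0 = (e + b * d) * X' + c * d * Y')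
    (h4 : 0 = -(a * d * X') + e * Y') :
    (ρ * X + c * Y = 0 ∧ a * X + (b - ρ) * Y = 0) ∨
      (ρ * X' + c * Y' = 0 ∧ a * X' + (b - ρ) * Y' = 0) := by
  have h0 : (e + ρ * d) * (e + (b - ρ) * d) = 0 := by
    linear_combination hn - d ^ 2 * hρ
  rcases mul_eq_zero.mp h0 with h5 | h5
  · left
    constructor
    · apply mul_left_cancel₀ hd
      linear_combination h1 + X * h5
    · apply mul_left_cancel₀ hd
      linear_combination (-1 : F) * h2 - Y * h5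
  · right
    constructor
    · apply mul_left_cancel₀ hd
      linear_combination (-1 : F) * h3 - X' * h5
    · apply mul_left_cancel₀ hd
      linear_combination h4 + Y' * h5

theorem lin {F : Type} [Field F] {a b c ρ : F} (hρ : ρ ^ 2 - b * ρ + a * c = 0)
    (hD : 4 * a * c - b ^ 2 ≠ 0) : ∃ α β : F, β ≠ 0 ∧ ∀ e d X Y X' Y' : F, d ≠ 0 →
      e ^ 2 + b * e * d + a * c * d ^ 2 = 0 → 0 = e * X - c * d * Y →
      0 = a * d * X + (e + b * d) * Y → 0 = (e + b * d) * X' + c * d * Y' →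
      0 = -(a * d * X') + e * Y' → α * X + β * Y = 0 ∨ α * X' + β * Y' = 0 := by
  by_cases hc : c = 0
  · by_cases hb : b - ρ = 0
    · refine ⟨a, b - (b - ρ), ?_, fun e d X Y X' Y' hd hn h1 h2 h3 h4 => ?_⟩
      · intro h0
        apply hD
        have hb0 : b = 0 := by linear_combination h0 + hb
        rw [hc, hb0]
        ring
      · have hρ' : (b - ρ) ^ 2 - b * (b - ρ) + a * c = 0 := by linear_combination hρ
        exact (eig hρ' hd hn h1 h2 h3 h4).imp And.right And.right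
    · exact ⟨a, b - ρ, hb, fun e d X Y X' Y' hd hn h1 h2 h3 h4 =>
        (eig hρ hd hn h1 h2 h3 h4).imp And.right And.right⟩
  · exact ⟨ρ, c, hc, fun e d X Y X' Y' hd hn h1 h2 h3 h4 =>
      (eig hρ hd hn h1 h2 h3 h4).imp And.left And.left⟩

theorem cz {p : ℕ} {u v : ℤ} (h : u = v) : (u : ZMod p) = (v : ZMod p) := by rw [h]

end AL1x

theorem rot_ex {a b c m x y x' y' : ℤ} (hm : 0 < m) (h1 : qf a b c x y = m)
    (h2 : qf a b c x' y' = m) : ∃ k e d, Rot a b c k e d x y x' y' ∧ k ∣ m := by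
  have n0 : (a * x * x' + b * x' * y + c * y * y') ^ 2 +
      b * (a * x * x' + b * x' * y + c * y * y') * (x * y' - x' * y) +
      a * c * (x * y' - x' * y) ^ 2 = m ^ 2 := by
    rw [sq m]
    nth_rewrite 1 [← h1]
    rw [← h2]
    unfold qf
    ring
  have n1 : m * x' = (a * x * x' + b * x' * y + c * y * y') * x - c * (x * y' - x' * y) * y := by
    rw [← h1]
    unfold qf
    ring
  have n2 : m * y' = a * (x * y' - x' * y) * x +
      ((a * x * x' + b * x' * y + c * y * y') + b * (x * y' - x' * y)) * y := by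
    rw [← h1]
    unfold qf
    ring
  generalize a * x * x' + b * x' * y + c * y * y' = e0 at n0 n1 n2
  generalize x * y' - x' * y = d0 at n0 n1 n2
  have hg : 0 < Int.gcd e0 d0 := by
    rw [Int.gcd_pos_iff]
    by_contra hc
    push Not at hc
    rw [hc.1, hc.2] at n0
    nlinarith
  obtain ⟨e, d, hed, he, hd⟩ := Int.exists_gcd_one hg
  have hg' : (0 : ℤ) < (Int.gcd e0 d0 : ℤ) := by exact_mod_cast hg
  generalize (Int.gcd e0 d0 : ℤ) = g at he hd hg'
  subst he hd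
  have hgm : g ∣ m := by
    rw [← Int.pow_dvd_pow_iff (n := 2) (by norm_num), ← n0]
    exact ⟨e ^ 2 + b * e * d + a * c * d ^ 2, by ring⟩
  obtain ⟨k, rfl⟩ := hgm
  refine ⟨k, e, d, ⟨(mul_pos_iff_of_pos_left hg').mp hm, Int.isCoprime_iff_gcd_eq_one.mpr hed,
    ?_, ?_, ?_⟩, dvd_mul_left _ _⟩
  · apply mul_left_cancel₀ (pow_ne_zero 2 hg'.ne')
    linear_combination n0
  · apply mul_left_cancel₀ hg'.ne'
    linear_combination n1
  · apply mul_left_cancel₀ hg'.ne'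
    linear_combination n2

theorem loc_d {a b c k e d x y x' y' : ℤ} {p : ℕ} (hp : p.Prime)
    (h : Rot a b c k e d x y x' y') (hk : (p : ℤ) ∣ k) :
    ¬ (p : ℤ) ∣ d ∧ ∃ ρ : ℤ, (p : ℤ) ∣ ρ ^ 2 - b * ρ + a * c := by
  have hd := AL1x.nd hp h hk
  refine ⟨hd, ?_⟩
  have hP : Prime (p : ℤ) := Nat.prime_iff_prime_int.mp hp
  obtain ⟨u, v, huv⟩ := (hP.irreducible.coprime_iff_not_dvd).mpr hd
  obtain ⟨t, ht⟩ := hk
  refine ⟨-(e * v), v ^ 2 * p * t ^ 2 + b * e * v * u + a * c * u * (1 + v * d), ?_⟩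
  have h3 := h.nm
  rw [ht] at h3
  linear_combination v ^ 2 * h3 - (b * e * v + a * c * (1 + v * d)) * huv

theorem loc_r {a b c k e d x y x' y' : ℤ} {p : ℕ} (hp : p.Prime)
    (h : Rot a b c k e d x y x' y') (hk : (p : ℤ) ∣ k) (hD : ¬ (p : ℤ) ∣ 4 * a * c - b ^ 2)
    (h1 : (p : ℤ) ∣ x - x') (h2 : (p : ℤ) ∣ y - y') : (p : ℤ) ∣ x ∧ (p : ℤ) ∣ y := by
  have hd := AL1x.nd hp h hk
  have hP : Prime (p : ℤ) := Nat.prime_iff_prime_int.mp hp
  have ht : ¬ (p : ℤ) ∣ 2 * e + b * d := by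
    intro ht
    have e1 : (4 * a * c - b ^ 2) * d ^ 2 = k * (4 * k) - (2 * e + b * d) * (2 * e + b * d) := by
      have := h.nm
      linear_combination 4 * this
    have h3 : (p : ℤ) ∣ (4 * a * c - b ^ 2) * d ^ 2 := by
      rw [e1]
      exact dvd_sub (dvd_mul_of_dvd_left hk _) (dvd_mul_of_dvd_left ht _)
    rcases hP.dvd_or_dvd h3 with h4 | h4
    · exact hD h4
    · exact hd (hP.dvd_of_dvd_pow h4)
  have i1 := AL1x.inv1 h
  have i2 := AL1x.inv2 h
  have j1 := h.h1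
  have j2 := h.h2
  obtain ⟨t, rfl⟩ := hk
  obtain ⟨u, hu⟩ := h1
  obtain ⟨v, hv⟩ := h2
  constructor
  · refine (hP.dvd_or_dvd (a := 2 * e + b * d) ?_).resolve_left ht
    refine ⟨t * x + t * x' + (e + b * d) * u + c * d * v, ?_⟩
    linear_combination (-1 : ℤ) * i1 - j1 + (e + b * d) * hu + c * d * hv
  · refine (hP.dvd_or_dvd (a := 2 * e + b * d) ?_).resolve_left ht
    refine ⟨t * y + t * y' - a * d * u + e * v, ?_⟩
    linear_combination (-1 : ℤ) * i2 - j2 - a * d * hu + e * hv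

theorem loc_sift {a b c r ρ : ℤ} (s₁ s₂ : ℤ) {p : ℕ} (hp : p.Prime) (hr : ¬ (p : ℤ) ∣ r)
    (hD : ¬ (p : ℤ) ∣ 4 * a * c - b ^ 2) (hρ : (p : ℤ) ∣ ρ ^ 2 - b * ρ + a * c) :
    ∃ H : ℤ → ℤ, ∀ i j i' j' k e d : ℤ,
      Rot a b c k e d (s₁ + r * i) (s₂ + r * j) (s₁ + r * i') (s₂ + r * j') → (p : ℤ) ∣ k →
      (p : ℤ) ∣ j - H i ∨ (p : ℤ) ∣ j' - H i' := by
  have := Fact.mk hp
  have z : ∀ u : ℤ, (p : ℤ) ∣ u ↔ (u : ZMod p) = 0 := fun u =>
    (ZMod.intCast_zmod_eq_zero_iff_dvd u p).symm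
  rw [z] at hr hD hρ
  push_cast at hD hρ
  obtain ⟨α, β, hβ, H⟩ := AL1x.lin hρ hD
  refine ⟨fun i => (((-(s₂ : ZMod p) - α * (s₁ + r * i) / β) / r).val : ℤ),
    fun i j i' j' k e d h hk => ?_⟩
  have hd := AL1x.nd hp h hk
  rw [z] at hd hk
  have h0 := AL1x.cz (p := p) h.nm
  have h1 := AL1x.cz (p := p) h.h1
  have h2 := AL1x.cz (p := p) h.h2
  have h3 := AL1x.cz (p := p) (AL1x.inv1 h)
  have h4 := AL1x.cz (p := p) (AL1x.inv2 h)
  push_cast at h0 h1 h2 h3 h4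
  rw [hk] at h0 h1 h2 h3 h4
  rw [zero_mul] at h1 h2 h3 h4
  rw [zero_pow (by norm_num)] at h0
  refine (H _ _ _ _ _ _ hd h0 h1 h2 h3 h4).imp (fun h5 => ?_) (fun h5 => ?_)
  all_goals
    rw [z]
    push_cast
    rw [ZMod.natCast_zmod_val]
    field_simp
    linear_combination h5

theorem rot_tr {a b c k e d x y x' y' : ℤ} (h : Rot a b c k e d x y x' y')
    (hD : b ^ 2 < 4 * a * c) (hd : d ≠ 0) :
    4 * a * c - b ^ 2 ≤ 4 * k ^ 2 ∧ |d| ≤ 2 * k ∧ |2 * e + b * d| < 2 * k ∧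
      k * qf a b c (x' - x) (y' - y) = (2 * k - (2 * e + b * d)) * qf a b c x y := by
  have hk := h.pos
  have e1 : (2 * e + b * d) ^ 2 + (4 * a * c - b ^ 2) * d ^ 2 = (2 * k) ^ 2 := by
    have := h.nm
    linear_combination 4 * this
  have hd2 : 1 ≤ d ^ 2 := by
    have : 0 < d ^ 2 := by positivity
    omega
  have hs := sq_nonneg (2 * e + b * d)
  have hD1 : 1 ≤ 4 * a * c - b ^ 2 := by omega
  refine ⟨by nlinarith, ?_, ?_, ?_⟩
  · exact abs_le_of_sq_le_sq' (by nlinarith) (by omega) |> abs_le.mpr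
  · exact abs_lt_of_sq_lt_sq (by nlinarith) (by omega)
  · apply mul_left_cancel₀ hk.ne'
    have e2 : k * (k * qf a b c (x' - x) (y' - y)) =
        qf a b c (k * x' - k * x) (k * y' - k * y) := by
      unfold qf
      ring
    rw [e2, h.h1, h.h2]
    have h3 := h.nm
    unfold qf
    linear_combination (a * x ^ 2 + b * x * y + c * y ^ 2) * h3

theorem rot_den {a b c k e d s₁ s₂ r i j i' j' : ℤ}
    (h : Rot a b c k e d (s₁ + r * i) (s₂ + r * j) (s₁ + r * i') (s₂ + r * j'))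
    (hD : b ^ 2 < 4 * a * c) (hd : d ≠ 0) (hs : Cop3 s₁ s₂ r) (hr : 0 < r) : r < 4 * k ^ 2 := by
  obtain ⟨-, -, ht, -⟩ := rot_tr h hD hd
  have hk := h.pos
  rw [abs_lt] at ht
  have h1 := h.h1
  have h2 := h.h2
  have h3 := h.nm
  have u1 : r ∣ (e - k) * s₁ - c * d * s₂ :=
    ⟨k * i' - e * i + c * d * j, by linear_combination (-1 : ℤ) * h1⟩
  have u2 : r ∣ a * d * s₁ + (e - k + b * d) * s₂ :=
    ⟨k * j' - a * d * i - (e + b * d) * j, by linear_combination (-1 : ℤ) * h2⟩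
  have v1 : r ∣ k * (2 * k - (2 * e + b * d)) * s₁ := by
    have e1 : k * (2 * k - (2 * e + b * d)) * s₁ =
        (e - k + b * d) * ((e - k) * s₁ - c * d * s₂) +
          c * d * (a * d * s₁ + (e - k + b * d) * s₂) := by
      linear_combination (-s₁) * h3
    rw [e1]
    exact dvd_add (dvd_mul_of_dvd_right u1 _) (dvd_mul_of_dvd_right u2 _)
  have v2 : r ∣ k * (2 * k - (2 * e + b * d)) * s₂ := by
    have e1 : k * (2 * k - (2 * e + b * d)) * s₂ =
        (e - k) * (a * d * s₁ + (e - k + b * d) * s₂) -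
          a * d * ((e - k) * s₁ - c * d * s₂) := by
      linear_combination (-s₂) * h3
    rw [e1]
    exact dvd_sub (dvd_mul_of_dvd_right u2 _) (dvd_mul_of_dvd_right u1 _)
  have v3 : r ∣ k * (2 * k - (2 * e + b * d)) * (Int.gcd s₁ s₂ : ℤ) := by
    rw [Int.gcd_eq_gcd_ab, mul_add, ← mul_assoc, ← mul_assoc]
    exact dvd_add (dvd_mul_of_dvd_left v1 _) (dvd_mul_of_dvd_left v2 _)
  have hc : IsCoprime r (Int.gcd s₁ s₂ : ℤ) := by
    rw [Int.isCoprime_iff_gcd_eq_one]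
    by_contra hc
    obtain ⟨p, hp, hpd⟩ := Nat.exists_prime_and_dvd hc
    have q0 : (p : ℤ) ∣ (Int.gcd r (Int.gcd s₁ s₂ : ℤ) : ℤ) := Int.natCast_dvd_natCast.mpr hpd
    have q1 : (p : ℤ) ∣ (Int.gcd s₁ s₂ : ℤ) := q0.trans (Int.gcd_dvd_right _ _)
    exact hs p hp ⟨q1.trans (Int.gcd_dvd_left _ _), q1.trans (Int.gcd_dvd_right _ _),
      q0.trans (Int.gcd_dvd_left _ _)⟩
  have v4 : r ∣ k * (2 * k - (2 * e + b * d)) := hc.dvd_of_dvd_mul_right v3
  have v5 := Int.le_of_dvd (mul_pos hk (by omega)) v4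
  nlinarith [ht.1]

end Pool.Agent.Lib.MP_ad7336_sd
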