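import Pool.Agent.Lib.MP_ad7336_sd.AL1

set_option autoImplicit false

namespace Pool.Agent.Lib.MP_ad7336_sd

open Finset Filter
open scoped Classical

namespace AL2x

/-- Colour of a vector modulo `p`: an eigenvector whose eigenvalue has the smaller representative. -/
def Col (a b c : ℤ) (p : ℕ) (x y : ℤ) : Prop := ∃ l : ZMod p,
  -(c : ZMod p) * y = l * x ∧ (a : ZMod p) * x + b * y = l * y ∧ l.val < ((b : ZMod p) - l).val

theorem col_iff {a b c x y : ℤ} {p : ℕ} [Fact p.Prime] {l : ZMod p}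
    (hw : ¬ ((p : ℤ) ∣ x ∧ (p : ℤ) ∣ y)) (h1 : -(c : ZMod p) * y = l * x)
    (h2 : (a : ZMod p) * x + b * y = l * y) :
    Col a b c p x y ↔ l.val < ((b : ZMod p) - l).val := by
  refine ⟨?_, fun h => ⟨l, h1, h2, h⟩⟩
  rintro ⟨l', g1, g2, g3⟩
  have : l' = l := by
    by_contra hne
    have hne' : l' - l ≠ 0 := sub_ne_zero.2 hne
    have e1 : (l' - l) * (x : ZMod p) = 0 := by linear_combination h1 - g1
    have e2 : (l' - l) * (y : ZMod p) = 0 := by linear_combination h2 - g2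
    exact hw ⟨(ZMod.intCast_zmod_eq_zero_iff_dvd x p).1 ((mul_eq_zero.1 e1).resolve_left hne'),
      (ZMod.intCast_zmod_eq_zero_iff_dvd y p).1 ((mul_eq_zero.1 e2).resolve_left hne')⟩
  rwa [this] at g3

theorem core {a b c k e d x y x' y' : ℤ} {p : ℕ} (hp : p.Prime)
    (h : Rot a b c k e d x y x' y') (hk : (p : ℤ) ∣ k) (hD : ¬ (p : ℤ) ∣ 4 * a * c - b ^ 2)
    (hw : ¬ ((p : ℤ) ∣ x ∧ (p : ℤ) ∣ y)) (hw' : ¬ ((p : ℤ) ∣ x' ∧ (p : ℤ) ∣ y')) :
    ¬ (Col a b c p x y ↔ Col a b c p x' y') := by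
  haveI : Fact p.Prime := ⟨hp⟩
  have hd : (d : ZMod p) ≠ 0 := fun h0 =>
    (loc_d hp h hk).1 ((ZMod.intCast_zmod_eq_zero_iff_dvd d p).1 h0)
  have hk0 : (k : ZMod p) = 0 := (ZMod.intCast_zmod_eq_zero_iff_dvd k p).2 hk
  have hkne : k ≠ 0 := h.pos.ne'
  have r1 : k * x = (e + b * d) * x' + c * d * y' := by
    apply mul_left_cancel₀ hkne
    linear_combination (-x) * h.nm - (e + b * d) * h.h1 - c * d * h.h2
  have r2 : k * y = -(a * d) * x' + e * y' := by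
    apply mul_left_cancel₀ hkne
    linear_combination (-y) * h.nm + a * d * h.h1 - e * h.h2
  have c1 := congrArg (Int.cast : ℤ → ZMod p) h.h1
  have c2 := congrArg (Int.cast : ℤ → ZMod p) h.h2
  have c3 := congrArg (Int.cast : ℤ → ZMod p) r1
  have c4 := congrArg (Int.cast : ℤ → ZMod p) r2
  have c5 := congrArg (Int.cast : ℤ → ZMod p) h.nm
  push_cast at c1 c2 c3 c4 c5
  rw [hk0] at c1 c2 c3 c4 c5
  obtain ⟨l, hl⟩ : ∃ l : ZMod p, (e : ZMod p) = -(l * d) :=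
    ⟨-(e : ZMod p) * (d : ZMod p)⁻¹, by field_simp⟩
  rw [hl] at c1 c2 c3 c4 c5
  have e1 : -(c : ZMod p) * y = l * x := by
    apply mul_left_cancel₀ hd
    linear_combination -c1
  have e2 : (a : ZMod p) * x + b * y = l * y := by
    apply mul_left_cancel₀ hd
    linear_combination -c2
  have e3 : -(c : ZMod p) * y' = (b - l) * x' := by
    apply mul_left_cancel₀ hd
    linear_combination c3
  have e4 : (a : ZMod p) * x' + b * y' = (b - l) * y' := by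
    apply mul_left_cancel₀ hd
    linear_combination c4
  have e5 : l ^ 2 - b * l + a * c = 0 := by
    apply mul_left_cancel₀ (pow_ne_zero 2 hd)
    linear_combination c5
  have hne : l ≠ (b : ZMod p) - l := by
    intro h0
    apply hD
    rw [← ZMod.intCast_zmod_eq_zero_iff_dvd]
    push_cast
    linear_combination 4 * e5 - (2 * l - b) * h0
  rw [col_iff hw e1 e2, col_iff hw' e3 e4, sub_sub_cancel]
  have : l.val ≠ ((b : ZMod p) - l).val := fun h0 => hne (ZMod.val_injective p h0)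
  omega

/-- Exponent of `p` in the content of a vector. -/
def vv (p : ℕ) (w : ℤ × ℤ) : ℕ := (Int.gcd w.1 w.2).factorization p

theorem vv_dvd (p : ℕ) (w : ℤ × ℤ) : (p : ℤ) ^ vv p w ∣ w.1 ∧ (p : ℤ) ^ vv p w ∣ w.2 := by
  have h : (p : ℤ) ^ vv p w ∣ (Int.gcd w.1 w.2 : ℤ) := by
    exact_mod_cast Nat.ordProj_dvd (Int.gcd w.1 w.2) p
  exact ⟨h.trans (Int.gcd_dvd_left _ _), h.trans (Int.gcd_dvd_right _ _)⟩

theorem vv_prim {p : ℕ} (hp : p.Prime) {w : ℤ × ℤ} (hw : ¬ (w.1 = 0 ∧ w.2 = 0)) :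
    ¬ ((p : ℤ) ∣ w.1 / (p : ℤ) ^ vv p w ∧ (p : ℤ) ∣ w.2 / (p : ℤ) ^ vv p w) := by
  rintro ⟨h1, h2⟩
  have hg : Int.gcd w.1 w.2 ≠ 0 := fun h0 => hw (Int.gcd_eq_zero_iff.1 h0)
  have k1 : (p : ℤ) ^ (vv p w + 1) ∣ w.1 := by
    rw [← Int.mul_ediv_cancel' (vv_dvd p w).1, pow_succ]
    exact mul_dvd_mul_left _ h1
  have k2 : (p : ℤ) ^ (vv p w + 1) ∣ w.2 := by
    rw [← Int.mul_ediv_cancel' (vv_dvd p w).2, pow_succ]
    exact mul_dvd_mul_left _ h2
  have k3 : p ^ (vv p w + 1) ∣ Int.gcd w.1 w.2 := by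
    have := Int.dvd_coe_gcd k1 k2
    exact_mod_cast this
  exact Nat.pow_succ_factorization_not_dvd hg hp k3

theorem rot_div {a b c k e d x y x' y' t : ℤ} (ht : t ≠ 0) (h : Rot a b c k e d x y x' y')
    (h1 : t ∣ x) (h2 : t ∣ y) (h3 : t ∣ x') (h4 : t ∣ y') :
    Rot a b c k e d (x / t) (y / t) (x' / t) (y' / t) := by
  obtain ⟨x, rfl⟩ := h1
  obtain ⟨y, rfl⟩ := h2
  obtain ⟨x', rfl⟩ := h3
  obtain ⟨y', rfl⟩ := h4
  simp only [Int.mul_ediv_cancel_left _ ht]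
  refine ⟨h.pos, h.cop, h.nm, ?_, ?_⟩
  · apply mul_left_cancel₀ ht
    linear_combination h.h1
  · apply mul_left_cancel₀ ht
    linear_combination h.h2

theorem card_primes {m : ℤ} {z J : ℕ} (hz : 2 ≤ z) (hm : 0 < m) (hJ : m < (z : ℤ) ^ J) :
    (m.natAbs.primeFactors.filter (z < ·)).card ≤ J := by
  set P := m.natAbs.primeFactors.filter (z < ·) with hP
  have h1 : z ^ P.card ≤ ∏ p ∈ P, p :=
    Finset.pow_card_le_prod P (fun p => p) z fun p hp => (mem_filter.1 hp).2.le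
  have h2 : ∏ p ∈ P, p ∣ m.natAbs :=
    (prod_dvd_prod_of_subset _ _ _ (filter_subset _ _)).trans (Nat.prod_primeFactors_dvd _)
  have h3 : ∏ p ∈ P, p ≤ m.natAbs := Nat.le_of_dvd (Int.natAbs_pos.2 hm.ne') h2
  have h4 : m.natAbs < z ^ J := by
    have : (m.natAbs : ℤ) < (z : ℤ) ^ J := by rwa [Int.natAbs_of_nonneg hm.le]
    exact_mod_cast this
  exact ((Nat.pow_lt_pow_iff_right (by omega)).1 (h1.trans_lt (h3.trans_lt h4))).le

end AL2x

open AL2x in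
theorem mult (J : ℕ) : ∃ μ : ℕ, ∀ (a b c m : ℤ) (z : ℕ) (S : Finset (ℤ × ℤ)), 2 ≤ z → 0 < m →
    m < (z : ℤ) ^ J → (∀ w ∈ S, qf a b c w.1 w.2 = m) →
    (∀ w ∈ S, ∀ w' ∈ S, ∀ k e d : ℤ, Rot a b c k e d w.1 w.2 w'.1 w'.2 → k ∣ m → d ≠ 0 →
      ∃ p : ℕ, p.Prime ∧ z < p ∧ (p : ℤ) ∣ k ∧ ¬ (p : ℤ) ∣ 4 * a * c - b ^ 2) →
    S.card ≤ μ := by
  refine ⟨2 * (J * 2 + 1) ^ J, fun a b c m z S hz hm hJ hq hrot => ?_⟩
  set P := m.natAbs.primeFactors.filter (z < ·) with hP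
  have hne : ∀ w ∈ S, ¬ (w.1 = 0 ∧ w.2 = 0) := by
    rintro w hw ⟨h1, h2⟩
    have := hq w hw
    rw [h1, h2, qf] at this
    omega
  let f : ℤ × ℤ → (P → ℕ × Prop) := fun w p =>
    (vv p w, Col a b c p (w.1 / ((p : ℕ) : ℤ) ^ vv p w) (w.2 / ((p : ℕ) : ℤ) ^ vv p w))
  let t : Finset (P → ℕ × Prop) := Fintype.piFinset fun _ => range J ×ˢ univ
  have hmaps : ∀ w ∈ S, f w ∈ t := by
    intro w hw
    refine Fintype.mem_piFinset.2 fun p => mem_product.2 ⟨mem_range.2 ?_, mem_univ _⟩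
    have hzp : z < (p : ℕ) := (mem_filter.1 p.2).2
    have h1 : (((p : ℕ) : ℤ)) ^ vv p w ∣ m := by
      rw [← hq w hw, qf]
      obtain ⟨h1, h2⟩ := vv_dvd p w
      exact ((Dvd.dvd.mul_left (dvd_pow h1 two_ne_zero) _).add (Dvd.dvd.mul_left h2 _)).add
        (Dvd.dvd.mul_left (dvd_pow h2 two_ne_zero) _)
    have h2 : (((p : ℕ) : ℤ)) ^ vv p w < (z : ℤ) ^ J := (Int.le_of_dvd hm h1).trans_lt hJ
    have h3 : (p : ℕ) ^ vv p w < z ^ J := by exact_mod_cast h2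
    have h4 : z ^ vv p w ≤ (p : ℕ) ^ vv p w := Nat.pow_le_pow_left hzp.le _
    exact (Nat.pow_lt_pow_iff_right (by omega)).1 (h4.trans_lt h3)
  have hfib : ∀ τ ∈ t, (S.filter (fun w => f w = τ)).card ≤ 2 := by
    intro τ _
    rcases (S.filter (fun w => f w = τ)).eq_empty_or_nonempty with h0 | ⟨w, hw⟩
    · rw [h0]; simp
    obtain ⟨hwS, hwτ⟩ := mem_filter.1 hw
    refine le_trans (card_le_card (t := {w, -w}) fun w' hw' => ?_) (card_le_two)
    obtain ⟨hwS', hwτ'⟩ := mem_filter.1 hw'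
    obtain ⟨k, e, d, hR, hkm⟩ := rot_ex hm (hq w hwS) (hq w' hwS')
    by_cases hd : d = 0
    · subst hd
      have he : IsUnit e := isCoprime_zero_right.1 hR.cop
      have hnm := hR.nm
      have h1 := hR.h1
      have h2 := hR.h2
      have hk := hR.pos
      have hk1 : k = 1 := by
        rcases Int.isUnit_iff.1 he with rfl | rfl <;> nlinarith
      subst hk1
      rcases Int.isUnit_iff.1 he with rfl | rfl
      · refine mem_insert.2 (Or.inl (Prod.ext ?_ ?_)) <;> linarith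
      · refine mem_insert.2 (Or.inr (mem_singleton.2 (Prod.ext ?_ ?_)))
        · rw [Prod.fst_neg]; linarith
        · rw [Prod.snd_neg]; linarith
    · exfalso
      obtain ⟨p, hp, hzp, hpk, hpD⟩ := hrot w hwS w' hwS' k e d hR hkm hd
      have hpP : p ∈ P := mem_filter.2 ⟨Nat.mem_primeFactors.2 ⟨hp,
        Int.natCast_dvd.1 (hpk.trans hkm), Int.natAbs_ne_zero.2 hm.ne'⟩, hzp⟩
      have heq := congrFun (hwτ.trans hwτ'.symm) ⟨p, hpP⟩
      have hv : vv p w = vv p w' := congrArg Prod.fst heq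
      have hc : Col a b c p (w.1 / (p : ℤ) ^ vv p w) (w.2 / (p : ℤ) ^ vv p w) =
          Col a b c p (w'.1 / (p : ℤ) ^ vv p w') (w'.2 / (p : ℤ) ^ vv p w') :=
        congrArg Prod.snd heq
      have ht : (p : ℤ) ^ vv p w ≠ 0 := pow_ne_zero _ (by exact_mod_cast hp.ne_zero)
      have hR' := rot_div ht hR (vv_dvd p w).1 (vv_dvd p w).2 (hv ▸ (vv_dvd p w').1)
        (hv ▸ (vv_dvd p w').2)
      refine core hp hR' hpk hpD (vv_prim hp (hne w hwS)) (hv ▸ vv_prim hp (hne w' hwS')) ?_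
      rw [hc, hv]
  refine (card_le_mul_card_image_of_maps_to hmaps 2 hfib).trans (Nat.mul_le_mul_left 2 ?_)
  have hc : t.card = (J * 2) ^ P.card := by
    simp [t, Fintype.card_piFinset]
  rw [hc]
  exact (Nat.pow_le_pow_left (Nat.le_succ _) _).trans
    (Nat.pow_le_pow_right (Nat.succ_pos _) (card_primes hz hm hJ))

end Pool.Agent.Lib.MP_ad7336_sd
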