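import Pool.Agent.Lib.MP_ad7336_sd.Defs

set_option autoImplicit false

namespace Pool.Agent.Lib.MP_ad7336_sd

open Finset
open scoped Classical

namespace SN

variable {Γ : Type} [AddCommGroup Γ] {ν : Γ → ℝ} (h : SN ν)
include h

theorem zero : ν 0 = 0 := by simpa using h.smul 0 0

theorem neg (x : Γ) : ν (-x) = ν x := by simpa using h.smul (-1) x

theorem nonneg (x : Γ) : 0 ≤ ν x := by
  have := h.add x (-x)
  rw [add_neg_cancel, h.zero, h.neg] at this
  linarith

theorem sub (x y : Γ) : ν (x - y) ≤ ν x + ν y := by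
  rw [sub_eq_add_neg, ← h.neg y]
  exact h.add _ _

theorem congr {x y : Γ} (k : ν (x - y) = 0) : ν x = ν y := by
  have h1 := h.add (x - y) y
  have h2 := h.sub x (x - y)
  rw [sub_add_cancel] at h1
  rw [sub_sub_cancel] at h2
  linarith

theorem sum {ι : Type} (s : Finset ι) (f : ι → Γ) : ν (∑ i ∈ s, f i) ≤ ∑ i ∈ s, ν (f i) := by
  induction s using Finset.induction_on with
  | empty => simp [h.zero]
  | insert i s hi ih =>
    rw [sum_insert hi, sum_insert hi]
    linarith [h.add (f i) (∑ i ∈ s, f i)]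

theorem shortest (k : ∃ x, 0 < ν x) : ∃ b, 0 < ν b ∧ ∀ x, ν x < ν b → ν x = 0 := by
  obtain ⟨x₀, h0⟩ := k
  obtain ⟨F, hF⟩ := h.disc (ν x₀)
  obtain ⟨f₀, h1, h2⟩ := hF x₀ le_rfl
  obtain ⟨b, hb, hm⟩ := exists_min_image (insert x₀ (F.filter fun f => 0 < ν f)) ν
    ⟨x₀, mem_insert_self _ _⟩
  have hb0 : 0 < ν b := by
    rcases mem_insert.1 hb with rfl | k
    · exact h0
    · exact (mem_filter.1 k).2
  refine ⟨b, hb0, fun x hx => by_contra fun k => ?_⟩
  obtain ⟨f, h3, h4⟩ := hF x (hx.le.trans (hm _ (mem_insert_self _ _)))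
  have h5 := h.congr h4
  have h6 := hm f (mem_insert_of_mem (mem_filter.2
    ⟨h3, h5 ▸ lt_of_le_of_ne (h.nonneg x) (Ne.symm k)⟩))
  linarith

end SN

theorem quot {Γ : Type} [AddCommGroup Γ] {ν : Γ → ℝ} (hν : SN ν) (b : Γ) :
    ∃ ν' : Γ → ℝ, SN ν' ∧ (∀ x, ν' x ≤ ν x) ∧ ν' b = 0 ∧
      ∀ x (ε : ℝ), 0 < ε → ∃ t : ℤ, ν (x - t • b) ≤ ν' x + ν b / 2 + ε := by
  let W : Γ → Set ℝ := fun x => {r | ∃ m t : ℤ, 0 < m ∧ r = ν (m • x - t • b) / m}
  have bd : ∀ x, BddBelow (W x) := fun x => ⟨0, by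
    rintro _ ⟨m, t, hm, rfl⟩
    exact div_nonneg (hν.nonneg _) (by exact_mod_cast hm.le)⟩
  have ne : ∀ x, (W x).Nonempty := fun x => ⟨_, 1, 0, one_pos, rfl⟩
  have le : ∀ x (m t : ℤ), 0 < m → sInf (W x) * m ≤ ν (m • x - t • b) := fun x m t hm => by
    rw [← le_div_iff₀ (by exact_mod_cast hm)]
    exact csInf_le (bd x) ⟨m, t, hm, rfl⟩
  have ex : ∀ x (ε : ℝ), 0 < ε → ∃ m t : ℤ, 0 < m ∧ ν (m • x - t • b) ≤ (sInf (W x) + ε) * m :=
    fun x ε hε => by
      obtain ⟨_, ⟨m, t, hm, rfl⟩, k⟩ := Real.lt_sInf_add_pos (ne x) hε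
      exact ⟨m, t, hm, ((div_lt_iff₀ (by exact_mod_cast hm)).1 k).le⟩
  have nn : ∀ x, 0 ≤ sInf (W x) := fun x => le_csInf (ne x) (by
    rintro _ ⟨m, t, hm, rfl⟩
    exact div_nonneg (hν.nonneg _) (by exact_mod_cast hm.le))
  have lift : ∀ x (ε : ℝ), 0 < ε → ∃ t : ℤ, ν (x - t • b) ≤ sInf (W x) + ν b / 2 + ε := by
    intro x ε hε
    obtain ⟨m, t, hm, k⟩ := ex x ε hε
    have hm' : (0 : ℝ) < m := by exact_mod_cast hm
    refine ⟨round ((t : ℝ) / m), le_of_mul_le_mul_right ?_ hm'⟩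
    generalize hs : round ((t : ℝ) / m) = s
    have h1 : |((t - m * s : ℤ) : ℝ)| ≤ m / 2 := by
      have h2 := abs_sub_round ((t : ℝ) / m)
      rw [hs] at h2
      rw [show ((t - m * s : ℤ) : ℝ) = m * (t / m - s) by push_cast; field_simp, abs_mul,
        abs_of_pos hm']
      nlinarith
    have h3 := hν.smul m (x - s • b)
    have h4 := hν.add (m • x - t • b) ((t - m * s) • b)
    rw [hν.smul, show m • x - t • b + (t - m * s) • b = m • (x - s • b) by module, h3,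
      abs_of_pos hm'] at h4
    nlinarith [mul_le_mul_of_nonneg_right h1 (hν.nonneg b)]
  have sm : ∀ (k : ℤ) x, sInf (W (k • x)) ≤ |(k : ℝ)| * sInf (W x) := fun k x => by
    refine le_of_forall_pos_le_add fun ε hε => ?_
    have hk : (0 : ℝ) < |(k : ℝ)| + 1 := by positivity
    obtain ⟨m, t, hm, h1⟩ := ex x (ε / (|(k : ℝ)| + 1)) (by positivity)
    have hm' : (0 : ℝ) < m := by exact_mod_cast hm
    have h2 := le (k • x) m (k * t) hm
    rw [show m • k • x - (k * t) • b = k • (m • x - t • b) by module, hν.smul] at h2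
    refine le_of_mul_le_mul_right (h2.trans ?_) hm'
    have h3 : |(k : ℝ)| * (ε / (|(k : ℝ)| + 1)) ≤ ε := by
      rw [← mul_div_assoc, div_le_iff₀ hk]
      nlinarith
    nlinarith [mul_le_mul_of_nonneg_left h1 (abs_nonneg (k : ℝ)),
      mul_le_mul_of_nonneg_right h3 hm'.le]
  refine ⟨fun x => sInf (W x), ⟨fun x y => ?_, fun k x => le_antisymm (sm k x) ?_, fun R => ?_⟩,
    fun x => by simpa using le x 1 0 one_pos,
    le_antisymm (by simpa [hν.zero] using le b 1 1 one_pos) (nn b), lift⟩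
  · refine le_of_forall_pos_le_add fun ε hε => ?_
    obtain ⟨m, t, hm, h1⟩ := ex x (ε / 2) (by positivity)
    obtain ⟨m', t', hm', h2⟩ := ex y (ε / 2) (by positivity)
    have k1 : (0 : ℝ) < m := by exact_mod_cast hm
    have k2 : (0 : ℝ) < m' := by exact_mod_cast hm'
    have h3 := le (x + y) (m * m') (m' * t + m * t') (mul_pos hm hm')
    have h4 := hν.add (m' • (m • x - t • b)) (m • (m' • y - t' • b))
    rw [hν.smul, hν.smul, abs_of_pos k1, abs_of_pos k2, show m' • (m • x - t • b) +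
      m • (m' • y - t' • b) = (m * m') • (x + y) - (m' * t + m * t') • b by module] at h4
    push_cast at h3
    refine le_of_mul_le_mul_right (h3.trans (h4.trans ?_)) (mul_pos k1 k2)
    nlinarith [mul_le_mul_of_nonneg_left h1 k2.le, mul_le_mul_of_nonneg_left h2 k1.le]
  · rcases eq_or_ne k 0 with rfl | hk
    · simpa using nn _
    refine le_of_forall_pos_le_add fun ε hε => ?_
    obtain ⟨m, t, hm, h1⟩ := ex (k • x) ε hε
    have k1 : (0 : ℝ) < m := by exact_mod_cast hm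
    have h2 := le x (m * |k|) (k.sign * t) (mul_pos hm (abs_pos.2 hk))
    have h3 := hν.smul k.sign (m • k • x - t • b)
    have h4 : |((k.sign : ℤ) : ℝ)| = 1 := by
      rw [← Int.cast_abs, Int.abs_sign_of_ne_zero hk, Int.cast_one]
    rw [h4, one_mul, show k.sign • (m • k • x - t • b) = (m * (k.sign * k)) • x -
      (k.sign * t) • b by module, Int.sign_mul_self_eq_abs] at h3
    rw [h3] at h2
    push_cast at h2
    refine le_of_mul_le_mul_right ?_ k1
    nlinarith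
  · obtain ⟨F, hF⟩ := hν.disc (R + ν b / 2 + 1)
    refine ⟨F, fun x hx => ?_⟩
    obtain ⟨t, ht⟩ := lift x 1 one_pos
    obtain ⟨f, h1, h2⟩ := hF (x - t • b) (by linarith)
    refine ⟨f, h1, le_antisymm ?_ (nn _)⟩
    have := le (x - f) 1 t one_pos
    rw [show (1 : ℤ) • (x - f) - t • b = x - t • b - f by module, h2] at this
    simpa using this

theorem rk_quot {Γ : Type} [AddCommGroup Γ] {ν ν' : Γ → ℝ} (hν : SN ν) (hν' : SN ν') {b : Γ}
    (hb : 0 < ν b) (h1 : ∀ x, ν' x ≤ ν x) (h2 : ν' b = 0) {d : ℕ} (h : Rk (d + 1) ν) :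
    Rk d ν' := by
  intro x
  obtain ⟨m, hm, k⟩ := h (Fin.cons b x)
  rw [Fin.sum_univ_succ] at k
  simp only [Fin.cons_zero, Fin.cons_succ] at k
  refine ⟨fun i => m i.succ, fun e => hm ?_, ?_⟩
  · have e1 : ∀ i : Fin (d + 1), m i.succ = 0 := fun i => congrFun e i
    simp only [e1, zero_smul, sum_const_zero, add_zero, hν.smul] at k
    have e2 : m 0 = 0 := by
      have := (mul_eq_zero.1 k).resolve_right hb.ne'
      exact_mod_cast abs_eq_zero.1 this
    funext i
    exact Fin.cases e2 e1 i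
  · have h3 := hν'.sub (m 0 • b + ∑ i : Fin (d + 1), m i.succ • x i) (m 0 • b)
    rw [add_sub_cancel_left, hν'.smul, h2, mul_zero] at h3
    exact le_antisymm (by linarith [h1 (m 0 • b + ∑ i : Fin (d + 1), m i.succ • x i)])
      (hν'.nonneg _)

theorem basis (d : ℕ) : ∃ C : ℝ, 1 ≤ C ∧ ∀ (Γ : Type) [AddCommGroup Γ] (ν : Γ → ℝ), SN ν → Rk d ν →
    ∃ d' ≤ d, ∃ b : Fin d' → Γ, (∀ i, 0 < ν (b i)) ∧
      (∀ x, ∃ a : Fin d' → ℤ, ν (x - ∑ i, a i • b i) = 0) ∧
      ∀ (a : Fin d' → ℤ) i, |(a i : ℝ)| * ν (b i) ≤ C * ν (∑ j, a j • b j) := by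
  have triv : ∀ (d : ℕ) (C : ℝ) (Γ : Type) [AddCommGroup Γ] (ν : Γ → ℝ), (∀ x, ν x = 0) →
      ∃ d' ≤ d, ∃ b : Fin d' → Γ, (∀ i, 0 < ν (b i)) ∧
      (∀ x, ∃ a : Fin d' → ℤ, ν (x - ∑ i, a i • b i) = 0) ∧
      ∀ (a : Fin d' → ℤ) i, |(a i : ℝ)| * ν (b i) ≤ C * ν (∑ j, a j • b j) :=
    fun d C Γ _ ν h => ⟨0, Nat.zero_le _, fun _ => 0, fun i => i.elim0, fun x => ⟨0, h _⟩,
      fun _ i => i.elim0⟩
  induction d with
  | zero =>
    refine ⟨1, le_rfl, fun Γ _ ν h1 h2 => triv _ _ _ _ fun x => ?_⟩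
    obtain ⟨m, hm, k⟩ := h2 fun _ => x
    rw [Fin.sum_univ_succ, Fin.sum_univ_zero, add_zero, h1.smul] at k
    refine (mul_eq_zero.1 k).resolve_left fun e => hm (funext fun i => ?_)
    have : m 0 = 0 := by exact_mod_cast abs_eq_zero.1 e
    rw [Fin.fin_one_eq_zero i]
    exact this
  | succ d ih =>
    obtain ⟨C, hC, ih⟩ := ih
    have hd : (0 : ℝ) ≤ d := Nat.cast_nonneg d
    refine ⟨(1 + 3 * d) * (3 * C), by nlinarith, fun Γ _ ν h1 h2 => ?_⟩
    by_cases h0 : ∃ x, 0 < ν x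
    swap
    · exact triv _ _ _ _ fun x => le_antisymm (not_lt.1 fun k => h0 ⟨x, k⟩) (h1.nonneg x)
    obtain ⟨b, hb, hs⟩ := h1.shortest h0
    obtain ⟨ν', h3, h4, h5, h6⟩ := quot h1 b
    obtain ⟨d', hd', c, c1, c2, c3⟩ := ih Γ ν' h3 (rk_quot h1 h3 hb h4 h5 h2)
    choose t ht using fun i => h6 (c i) (ν' (c i) / 2) (half_pos (c1 i))
    have inv : ∀ (x : Γ) (s : ℤ), ν' (x - s • b) = ν' x := fun x s => h3.congr (by
      rw [sub_sub_cancel_left, h3.neg, h3.smul, h5, mul_zero])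
    have p1 : ∀ i, 0 < ν (c i - t i • b) := fun i =>
      (c1 i).trans_le ((inv _ _).symm.le.trans (h4 _))
    have p2 : ∀ i, ν (c i - t i • b) ≤ 3 * ν' (c i) := fun i => by
      have k : ν b ≤ ν (c i - t i • b) := not_lt.1 fun k => (p1 i).ne' (hs _ k)
      linarith [ht i]
    have e : ∀ a : Fin d' → ℤ, ∑ i, a i • (c i - t i • b) =
        ∑ i, a i • c i - (∑ i, a i * t i) • b := fun a => by
      simp only [smul_sub, sum_sub_distrib, sum_smul, mul_smul]
    refine ⟨d' + 1, by omega, Fin.cons b fun i => c i - t i • b,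
      fun i => Fin.cases hb p1 i, fun x => ?_, fun a => ?_⟩
    · obtain ⟨a, ha⟩ := c2 x
      obtain ⟨s, k⟩ := h6 (x - ∑ i, a i • (c i - t i • b)) (ν b / 4) (by positivity)
      have k1 : ν' (x - ∑ i, a i • (c i - t i • b)) = 0 := by
        rw [e, ← ha, ← inv _ (∑ i, a i * t i)]
        congr 1
        abel
      refine ⟨Fin.cons s a, ?_⟩
      rw [Fin.sum_univ_succ]
      simp only [Fin.cons_zero, Fin.cons_succ]
      rw [add_comm, ← sub_sub]
      exact hs _ (by linarith)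
    · rw [Fin.sum_univ_succ]
      simp only [Fin.cons_zero, Fin.cons_succ]
      generalize hx : a 0 • b + ∑ i : Fin d', a i.succ • (c i - t i • b) = x
      have x0 := h1.nonneg x
      have q1 : ∀ i : Fin d', |(a i.succ : ℝ)| * ν (c i - t i • b) ≤ 3 * C * ν x := fun i => by
        have k1 := c3 (fun i => a i.succ) i
        have k2 : ν' (∑ j : Fin d', a j.succ • c j) ≤ ν x := by
          refine le_trans (le_of_eq ?_) (h4 x)
          rw [← hx, e, ← inv _ (∑ i : Fin d', a i.succ * t i - a 0)]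
          congr 1
          module
        nlinarith [mul_le_mul_of_nonneg_left (p2 i) (abs_nonneg (a i.succ : ℝ)),
          mul_le_mul_of_nonneg_left k2 (by linarith : 0 ≤ C)]
      have q0 : 0 ≤ C * ν x := by positivity
      intro i
      refine Fin.cases ?_ (fun i => ?_) i
      · have k1 := h1.sub x (∑ i : Fin d', a i.succ • (c i - t i • b))
        have k2 := (h1.sum univ fun i : Fin d' => a i.succ • (c i - t i • b)).trans
          (sum_le_card_nsmul _ _ (3 * C * ν x) fun i _ => by rw [h1.smul]; exact q1 i)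
        rw [card_univ, Fintype.card_fin, nsmul_eq_mul] at k2
        have k3 : (d' : ℝ) ≤ d := by exact_mod_cast hd'
        rw [show x - ∑ i : Fin d', a i.succ • (c i - t i • b) = a 0 • b by rw [← hx]; abel,
          h1.smul] at k1
        simp only [Fin.cons_zero]
        nlinarith [mul_le_mul_of_nonneg_right k3 q0, mul_le_mul_of_nonneg_right hC x0,
          mul_nonneg hd q0]
      · simp only [Fin.cons_succ]
        nlinarith [q1 i, mul_nonneg hd q0]

end Pool.Agent.Lib.MP_ad7336_sd
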