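import Pool.Agent.Lib.MP_ad7336_sd.Defs
import Pool.Agent.Lib.MP_ad7336_co.Fou

set_option autoImplicit false

namespace Pool.Agent.Lib.MP_ad7336_sd

open Finset
open Pool.Agent.Lib.MP_ad7336_co (ee)
open Pool.Agent.Lib.MP_ad7336_co.Fou
open scoped Classical

theorem orthN {N : ℕ} (hN : 0 < N) (t : ℤ) :
    ∑ r ∈ range N, ee ((r : ℝ) / N * t) = if (N : ℤ) ∣ t then (N : ℂ) else 0 := by
  have h0 : (0 : ℤ) < N := by exact_mod_cast hN
  have h1 := orth1 hN.ne' (t := t % N)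
    (by rw [abs_of_nonneg (Int.emod_nonneg _ h0.ne')]; exact Int.emod_lt_of_pos _ h0)
  simp only [← Int.dvd_iff_emod_eq_zero] at h1
  rw [← h1]
  refine sum_congr rfl fun r _ => ?_
  rw [← mul_one (ee ((r : ℝ) / N * (t % N : ℤ))), ← ee_int (r * (t / N)), ← ee_add]
  congr 1
  have h2 : (t : ℝ) = (t % N : ℤ) + N * (t / N : ℤ) := by
    exact_mod_cast (Int.emod_add_mul_ediv t N).symm
  have h3 : (N : ℝ) ≠ 0 := by exact_mod_cast hN.ne'
  push_cast
  conv_lhs => rw [h2]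
  field_simp

theorem re_ee {t : ℝ} {k : ℤ} (h : |t - k| ≤ 1 / 4) : 0 ≤ (ee t).re := by
  have h2 : ee t = ee (t - k) := by
    rw [← mul_one (ee (t - k)), ← ee_int k, ← ee_add, sub_add_cancel]
  rw [h2, ee, show (2 * Real.pi * (t - k : ℝ) * Complex.I : ℂ) =
    ((2 * Real.pi * (t - k) : ℝ) : ℂ) * Complex.I by push_cast; ring, Complex.exp_ofReal_mul_I_re]
  obtain ⟨h3, h4⟩ := abs_le.1 h
  have := Real.pi_pos
  exact Real.cos_nonneg_of_neg_pi_div_two_le_of_le (by nlinarith) (by nlinarith)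

theorem Q8.inj {A : Finset ℂ} {m : ℂ → ℤ} {N : ℕ} (h : Q8 A m N) {a b : ℂ} (ha : a ∈ A)
    (hb : b ∈ A) : (N : ℤ) ∣ m a - m b ↔ a = b := by
  have := h ![a, b, b, b, b, b, b, b] (fun _ => b) (fun i => by fin_cases i <;> simpa)
    fun _ => hb
  simp only [Fin.sum_univ_eight, Matrix.cons_val, add_sub_add_right_eq_sub,
    add_left_inj] at this
  exact this

theorem bog {A : Finset ℂ} {m : ℂ → ℤ} {N C : ℕ} (hN : 0 < N) (h : Q8 A m N)
    (hC : N ≤ C * A.card) : ∃ S : Finset ℤ, S.card ≤ 2 * C ^ 2 ∧ ∀ x : ℤ,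
      (∀ r ∈ S, ∃ k : ℤ, |(r : ℝ) * x / N - k| ≤ 1 / 4) →
      ∃ a₁ ∈ A, ∃ a₂ ∈ A, ∃ a₃ ∈ A, ∃ a₄ ∈ A, (N : ℤ) ∣ x - (m a₁ + m a₂ - m a₃ - m a₄) := by
  have hn : (0 : ℝ) < A.card := by
    exact_mod_cast Nat.pos_of_ne_zero fun e => by rw [e] at hC; omega
  have hN' : (0 : ℝ) < N := by exact_mod_cast hN
  let F : ℕ → ℂ := fun r => ∑ a ∈ A, ee ((r : ℝ) / N * m a)
  have hF : ∀ r, ((‖F r‖ ^ 2 : ℝ) : ℂ) =
      ∑ p ∈ A ×ˢ A, ee ((r : ℝ) / N * (m p.1 - m p.2 : ℤ)) := fun r => by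
    rw [← Complex.normSq_eq_norm_sq, ← Complex.mul_conj, map_sum, sum_mul_sum, sum_product]
    refine sum_congr rfl fun a _ => sum_congr rfl fun b _ => ?_
    rw [conj_ee, ← ee_add]
    congr 1
    push_cast
    ring
  have par : ∑ r ∈ range N, ‖F r‖ ^ 2 = N * A.card := by
    have : ((∑ r ∈ range N, ‖F r‖ ^ 2 : ℝ) : ℂ) = N * A.card := by
      rw [Complex.ofReal_sum, sum_congr rfl fun r _ => hF r, sum_comm,
        sum_congr rfl fun p _ => orthN hN _, sum_product, sum_congr rfl fun a ha =>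
          (sum_congr rfl fun b hb => if_congr (h.inj ha hb) rfl rfl).trans
            ((sum_ite_eq _ _ _).trans (if_pos ha)), sum_const, nsmul_eq_mul, mul_comm]
    exact_mod_cast this
  obtain ⟨θ, hθ⟩ : ∃ θ : ℝ, θ * (2 * N) = A.card ^ 3 := ⟨_, div_mul_cancel₀ _ (by positivity)⟩
  have θ0 : 0 < θ := (mul_pos_iff_of_pos_right (by positivity)).1 (hθ ▸ pow_pos hn 3)
  refine ⟨((range N).filter fun r => θ ≤ ‖F r‖ ^ 2).image Nat.cast, card_image_le.trans ?_,
    fun x hx => by_contra fun hno => ?_⟩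
  · have h1 := (card_nsmul_le_sum _ _ _ fun r hr => (mem_filter.1 hr).2).trans
      (sum_le_sum_of_subset_of_nonneg (filter_subset (fun r => θ ≤ ‖F r‖ ^ 2) (range N))
        fun _ _ _ => sq_nonneg _)
    rw [par, nsmul_eq_mul] at h1
    have h2 : (N : ℝ) ≤ C * A.card := by exact_mod_cast hC
    generalize (filter (fun r => θ ≤ ‖F r‖ ^ 2) (range N)).card = s at h1
    have h3 : (s : ℝ) ≤ 2 * C ^ 2 := by
      refine le_of_mul_le_mul_right ?_ (pow_pos hn 3)
      have h4 := mul_le_mul_of_nonneg_right h1 (by positivity : (0 : ℝ) ≤ 2 * N)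
      rw [mul_assoc, hθ] at h4
      nlinarith [mul_le_mul_of_nonneg_right (pow_le_pow_left₀ hN'.le h2 2) hn.le]
    exact_mod_cast h3
  · have h1 : ∑ r ∈ range N, ((‖F r‖ ^ 2 : ℝ) : ℂ) * (‖F r‖ ^ 2 : ℝ) * ee ((r : ℝ) * x / N) = 0 := by
      simp only [hF, sum_mul_sum]
      simp only [sum_mul]
      rw [sum_comm]
      refine sum_eq_zero fun p hp => ?_
      rw [sum_comm]
      refine sum_eq_zero fun q hq => ?_
      have h2 := orthN hN (x - (m p.2 + m q.2 - m p.1 - m q.1))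
      rw [if_neg fun k => hno ⟨_, (mem_product.1 hp).2, _, (mem_product.1 hq).2, _,
        (mem_product.1 hp).1, _, (mem_product.1 hq).1, k⟩] at h2
      refine (sum_congr rfl fun r _ => ?_).trans h2
      rw [← ee_add, ← ee_add]
      congr 1
      push_cast
      ring
    have h2 := congrArg Complex.re h1
    rw [Complex.re_sum, Complex.zero_re] at h2
    have h3 : ∀ r ∈ range N, (if 0 = r then (A.card : ℝ) ^ 4 else 0) - θ * ‖F r‖ ^ 2 ≤
        (((‖F r‖ ^ 2 : ℝ) : ℂ) * (‖F r‖ ^ 2 : ℝ) * ee ((r : ℝ) * x / N)).re := fun r hr => by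
      rw [← Complex.ofReal_mul, Complex.re_ofReal_mul]
      have k0 := sq_nonneg ‖F r‖
      split_ifs with e
      · subst e
        have k1 : ee 0 = 1 := by simpa using ee_int 0
        have k2 : ‖F 0‖ = A.card := by simp [F, k1]
        rw [Nat.cast_zero, zero_mul, zero_div, k1, k2, Complex.one_re]
        nlinarith [mul_pos θ0 (pow_pos hn 2)]
      · by_cases k : θ ≤ ‖F r‖ ^ 2
        · obtain ⟨k', hk⟩ := hx r (mem_image_of_mem _ (mem_filter.2 ⟨hr, k⟩))
          have := re_ee (t := (r : ℝ) * x / N) (by simpa using hk)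
          nlinarith [mul_nonneg (mul_nonneg k0 k0) this, mul_nonneg θ0.le k0]
        · have k1 := (abs_le.1 ((Complex.abs_re_le_norm (ee ((r : ℝ) * x / N))).trans
            (norm_ee _).le)).1
          nlinarith [mul_le_mul_of_nonneg_left k1 (mul_nonneg k0 k0),
            mul_le_mul_of_nonneg_right (not_le.1 k).le k0]
    have h4 := sum_le_sum h3
    rw [h2, sum_sub_distrib, sum_ite_eq, if_pos (mem_range.2 hN), ← mul_sum, par] at h4
    nlinarith [pow_pos hn 4]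

end Pool.Agent.Lib.MP_ad7336_sd
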