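import Pool.Agent.Lib.MP_ad7336_sd.RR

set_option autoImplicit false

namespace Pool.Agent.Lib.MP_ad7336_sd

open Finset
open scoped Classical

theorem bohr_norm {N : ℕ} (hN : 0 < N) (S : Finset ℤ) : ∃ ν : (Option S → ℤ) → ℝ, SN ν ∧
    ∀ (R : ℝ) w, 0 ≤ R → (ν w ≤ R ↔ |(w none : ℝ) / N| ≤ R ∧
      ∀ r : S, |(r : ℤ) * (w none : ℝ) / N - w (some r)| ≤ R) := by
  let L : (Option S → ℤ) →+ (Option S → ℝ) :=
    { toFun := fun w o => o.elim ((w none : ℝ) / N) fun r => (r : ℤ) * (w none : ℝ) / N - w (some r)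
      map_zero' := by ext o; cases o <;> simp
      map_add' := fun x y => by
        ext o
        cases o <;> simp <;> ring }
  have h1 : ∀ (R : ℝ) w, 0 ≤ R → (‖L w‖ ≤ R ↔ |(w none : ℝ) / N| ≤ R ∧
      ∀ r : S, |(r : ℤ) * (w none : ℝ) / N - w (some r)| ≤ R) := fun R w hR => by
    rw [pi_norm_le_iff_of_nonneg hR, Option.forall]
    rfl
  refine ⟨fun w => ‖L w‖, sn_of L fun R => ?_, h1⟩
  refine (box fun o : Option S =>
    ⌈o.elim (R * N) fun r => R + |((r : ℤ) : ℝ)| * R⌉₊).finite_toSet.subset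
      fun w hw => mem_box.2 fun o => ?_
  obtain ⟨h2, h3⟩ := (h1 R w ((norm_nonneg _).trans hw)).1 hw
  have h4 : (0 : ℝ) < N := by exact_mod_cast hN
  have h5 : |(w o : ℝ)| ≤ o.elim (R * N) fun r => R + |((r : ℤ) : ℝ)| * R := by
    cases o with
    | none => rwa [abs_div, abs_of_pos h4, div_le_iff₀ h4] at h2
    | some r =>
      have h6 := abs_sub ((r : ℤ) * (w none : ℝ) / N) ((r : ℤ) * (w none : ℝ) / N - w (some r))
      rw [sub_sub_cancel, mul_div_assoc, abs_mul, ← mul_div_assoc] at h6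
      change _ ≤ R + |((r : ℤ) : ℝ)| * R
      linarith [h3 r, mul_le_mul_of_nonneg_left h2 (abs_nonneg ((r : ℤ) : ℝ))]
  exact_mod_cast h5.trans (Nat.le_ceil _)

theorem bohr (s : ℕ) : ∃ d C : ℕ, ∀ (N : ℕ) (S : Finset ℤ), 0 < N → S.card ≤ s →
    ∃ d' ≤ d, ∃ (L : Fin d' → ℕ) (b : Fin d' → ℤ), N ≤ C * vol L ∧
      (∀ a ∈ box L, ∀ r ∈ S, ∃ k : ℤ, |(r : ℝ) * (∑ i, a i * b i : ℤ) / N - k| ≤ 1 / 4) ∧
      ∀ a ∈ box L, ∀ a' ∈ box L, (N : ℤ) ∣ ∑ i, a i * b i - ∑ i, a' i * b i → a = a' := by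
  obtain ⟨B, hB, hb⟩ := basis (s + 1)
  obtain ⟨c, hc⟩ := exists_nat_ge (B * (s + 1))
  refine ⟨s + 1, 4 ^ (s + 1) * (2 * c + 1) ^ (s + 1), fun N S hN hS => ?_⟩
  obtain ⟨ν, n1, n2⟩ := bohr_norm hN S
  have hcard : Fintype.card (Option S) ≤ s + 1 := by simpa using hS
  obtain ⟨d, hd, b, b1, b2, b3⟩ := hb _ ν n1 (rk_pi n1 hcard)
  have h4 : (0 : ℝ) < N := by exact_mod_cast hN
  have hs : (0 : ℝ) < s + 1 := by positivity
  obtain ⟨L, hL, hL'⟩ : ∃ L : Fin d → ℕ, (∀ i, L i * ν (b i) ≤ 1 / (4 * (s + 1))) ∧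
      ∀ i, 1 / 4 ≤ (s + 1) * (L i + 1) * ν (b i) := by
    refine ⟨fun i => ⌊1 / (4 * (s + 1)) / ν (b i)⌋₊, fun i => ?_, fun i => ?_⟩
    · exact (le_div_iff₀ (b1 i)).1 (Nat.floor_le (div_nonneg (by positivity) (b1 i).le))
    · have := (div_lt_iff₀ (b1 i)).1 (Nat.lt_floor_add_one (1 / (4 * (s + 1)) / ν (b i)))
      rw [div_lt_iff₀ (by positivity)] at this
      linarith
  have small : ∀ a ∈ box L, ν (∑ i, a i • b i) ≤ 1 / 4 := fun a ha => by
    have h1 := (n1.sum univ fun i => a i • b i).trans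
      (sum_le_card_nsmul _ _ (1 / (4 * (s + 1)) : ℝ) fun i _ => by
        rw [n1.smul]
        refine le_trans (mul_le_mul_of_nonneg_right ?_ (b1 i).le) (hL i)
        exact_mod_cast mem_box.1 ha i)
    rw [card_univ, Fintype.card_fin, nsmul_eq_mul] at h1
    refine h1.trans ?_
    have : (d : ℝ) ≤ s + 1 := by exact_mod_cast hd
    rw [mul_one_div, div_le_div_iff₀ (by positivity) (by norm_num)]
    linarith
  have ev : ∀ a : Fin d → ℤ, (∑ i, a i • b i) none = ∑ i, a i * b i none := fun a => by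
    simp [Finset.sum_apply]
  refine ⟨d, hd, L, fun i => b i none, ?_, fun a ha r hr => ?_, fun a ha a' ha' h => ?_⟩
  · let θ : ℤ → Option S → ℝ := fun x o =>
      o.elim ((x : ℝ) / N) fun r => Int.fract ((r : ℤ) * (x : ℝ) / N)
    have h1 := card_le_mul_card_image_of_maps_to (s := Ico (0 : ℤ) N)
      (t := Fintype.piFinset fun _ : Option S => Ico (0 : ℤ) 4) (f := fun x o => ⌊4 * θ x o⌋)
      (fun x hx => Fintype.mem_piFinset.2 fun o => by
        obtain ⟨k1, k2⟩ := mem_Ico.1 hx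
        have k3 : 0 ≤ θ x o ∧ θ x o < 1 := by
          cases o with
          | none => exact ⟨div_nonneg (by exact_mod_cast k1) h4.le,
              (div_lt_one h4).2 (by exact_mod_cast k2)⟩
          | some r => exact ⟨Int.fract_nonneg _, Int.fract_lt_one _⟩
        rw [mem_Ico, Int.floor_nonneg, Int.floor_lt]
        push_cast
        constructor <;> linarith [k3.1, k3.2])
      (vol fun i => c * (L i + 1)) fun y _ => by
        rcases (filter (fun x => (fun o => ⌊4 * θ x o⌋) = y) (Ico (0 : ℤ) N)).eq_empty_or_nonempty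
          with e | ⟨x₀, h0⟩
        · rw [e]
          exact Nat.zero_le _
        let w : ℤ → Option S → ℤ := fun x o => o.elim (x - x₀)
          fun r => ⌊(r : ℤ) * (x : ℝ) / N⌋ - ⌊(r : ℤ) * (x₀ : ℝ) / N⌋
        choose a ha using fun x => b2 (w x)
        rw [← card_box]
        refine card_le_card_of_injOn a (fun x hx => mem_box.2 fun i => ?_) fun x _ x' _ e => ?_
        · have k1 : ∀ o, |θ x o - θ x₀ o| ≤ 1 / 4 := fun o => by
            have := Int.abs_sub_lt_one_of_floor_eq_floor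
              (congrFun ((mem_filter.1 hx).2.trans (mem_filter.1 h0).2.symm) o)
            rw [← mul_sub, abs_mul, abs_of_pos (by norm_num : (0 : ℝ) < 4)] at this
            linarith
          have k2 : ν (w x) ≤ 1 / 4 := (n2 _ _ (by norm_num)).2 ⟨by
            refine le_trans (le_of_eq ?_) (k1 none)
            simp [w, θ, sub_div], fun r => by
              refine le_trans (le_of_eq ?_) (k1 (some r))
              simp only [w, θ, Option.elim, Int.fract]
              push_cast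
              congr 1
              ring⟩
          have k3 := b3 (a x) i
          rw [← n1.congr (ha x)] at k3
          have k4 : |(a x i : ℝ)| ≤ c * (L i + 1) := by
            refine le_of_mul_le_mul_right (k3.trans ?_) (b1 i)
            have k5 : 0 ≤ ((L i : ℝ) + 1) * ν (b i) := mul_nonneg (by positivity) (b1 i).le
            nlinarith [mul_le_mul_of_nonneg_left (k2.trans (hL' i)) (by linarith : 0 ≤ B),
              mul_le_mul_of_nonneg_right hc k5]
          exact_mod_cast k4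
        · have k1 := n1.sub (w x - ∑ i, a x i • b i) (w x' - ∑ i, a x' i • b i)
          rw [ha, ha, e, sub_sub_sub_cancel_right, add_zero] at k1
          simpa [w, hN.ne', sub_eq_zero] using ((n2 0 _ le_rfl).1 k1).1
    rw [Int.card_Ico, Fintype.card_piFinset, prod_const, card_univ] at h1
    have h2 := vol_le (N := L) (N' := fun i => c * (L i + 1)) (c := 2 * c + 1) (d := s + 1)
      (by omega) (fun i => by nlinarith [Nat.zero_le (c * L i)]) (by simpa using hd)
    have h3 : (Ico (0 : ℤ) 4).card ^ Fintype.card (Option S) ≤ 4 ^ (s + 1) :=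
      Nat.pow_le_pow_right (by norm_num) hcard
    calc N = ((N : ℤ) - 0).toNat := by simp
      _ ≤ _ := h1
      _ ≤ _ := Nat.mul_le_mul h2 h3
      _ = _ := by ring
  · exact ⟨_, by simpa only [ev] using ((n2 _ _ (by norm_num)).1 (small a ha)).2 ⟨r, hr⟩⟩
  · have h1 : ∑ j, (a - a') j • b j = ∑ j, a j • b j - ∑ j, a' j • b j := by
      simp only [Pi.sub_apply, sub_smul, sum_sub_distrib]
    obtain ⟨h2, h3⟩ := (n2 (1 / 2) (∑ j, (a - a') j • b j) (by norm_num)).1 (by
      rw [h1]
      linarith [n1.sub (∑ j, a j • b j) (∑ j, a' j • b j), small a ha, small a' ha'])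
    have h5 : (∑ j, (a - a') j • b j) none = 0 := by
      refine Int.eq_zero_of_abs_lt_dvd (m := N) (by rwa [h1, Pi.sub_apply, ev, ev]) ?_
      rw [abs_div, abs_of_pos h4, div_le_iff₀ h4] at h2
      have : |((∑ j, (a - a') j • b j) none : ℝ)| < N := by linarith
      exact_mod_cast this
    have h6 : ∑ j, (a - a') j • b j = 0 := funext fun o => by
      cases o with
      | none => exact h5
      | some r =>
        have := h3 r
        rw [h5, Int.cast_zero, mul_zero, zero_div, zero_sub, abs_neg] at this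
        have k : |((∑ j, (a - a') j • b j) (some r) : ℝ)| < 1 := by linarith
        exact Int.abs_lt_one_iff.1 (by exact_mod_cast k)
    funext i
    have h7 := b3 (a - a') i
    rw [h6, n1.zero, mul_zero] at h7
    have h8 : (a - a') i = 0 := by
      exact_mod_cast abs_nonpos_iff.1 (nonpos_of_mul_nonpos_left h7 (b1 i))
    exact sub_eq_zero.1 h8

end Pool.Agent.Lib.MP_ad7336_sd
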