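import Pool.Agent.Lib.MP_ad7336_sd.SV1
import Pool.Agent.Lib.MP_6073f3_nt.Mertens

set_option autoImplicit false

namespace Pool.Agent.Lib.MP_ad7336_sd

open Finset Filter
open scoped Classical

namespace EUx

open Pool.Agent.Lib.TorsRank
open scoped NumberTheorySymbols

noncomputable def ff : ArithmeticFunction ℝ := ⟨fun n => (n : ℝ)⁻¹, by simp⟩

noncomputable def gg (a : ℤ) : ArithmeticFunction ℝ := ⟨fun n => xi a n / n, by simp⟩

noncomputable def FF (a : ℤ) : ArithmeticFunction ℝ := gg a * ff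

noncomputable def SS (a : ℤ) (x : ℕ) : ℝ := ∑ n ∈ Ioc 0 x, FF a n

noncomputable def HH (n : ℕ) : ℝ := ∑ m ∈ Ioc 0 n, (m : ℝ)⁻¹

lemma FF_mul (a : ℤ) : (FF a).IsMultiplicative := by
  have hf : ff.IsMultiplicative := ⟨by simp [ff], fun _ => by simp [ff, mul_comm]⟩
  have hg : (gg a).IsMultiplicative := ⟨by simp [gg, xi_one], fun _ => by
    simp only [gg, ArithmeticFunction.coe_mk, xi_mul, Nat.cast_mul, div_mul_div_comm]⟩
  exact hg.mul hf

lemma FF_pow (a : ℤ) {p : ℕ} (hp : p.Prime) (k : ℕ) :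
    FF a (p ^ k) = (∑ j ∈ range (k + 1), xi a p ^ j) / p ^ k := by
  have hpow : ∀ k : ℕ, xi a (p ^ k) = xi a p ^ k := fun k => by
    induction k with
    | zero => simp [xi_one]
    | succ k ih => rw [pow_succ, xi_mul, ih, pow_succ]
  rw [FF, ArithmeticFunction.mul_apply, Nat.sum_divisorsAntidiagonal (fun u v => gg a u * ff v),
    Nat.sum_divisors_prime_pow hp, sum_div]
  refine sum_congr rfl fun j hj => ?_
  have hj' : j ≤ k := by simpa [Nat.lt_succ_iff] using hj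
  have hp0 : (p : ℝ) ≠ 0 := by exact_mod_cast hp.ne_zero
  simp only [ff, gg, ArithmeticFunction.coe_mk, hpow, Nat.pow_div hj' hp.pos, Nat.cast_pow]
  rw [pow_sub₀ _ hp0 hj']; field_simp

lemma FF_nonneg (a : ℤ) (n : ℕ) : 0 ≤ FF a n := by
  rcases eq_or_ne n 0 with rfl | hn
  · simp
  rw [(FF_mul a).multiplicative_factorization _ hn]
  refine prod_nonneg fun p hp => ?_
  dsimp only
  rw [FF_pow a (Nat.prime_of_mem_primeFactors hp)]
  refine div_nonneg ?_ (by positivity)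
  rcases xi_val a p with h | h | h <;> rw [h]
  · exact sum_nonneg fun _ _ => by positivity
  · exact sum_nonneg fun _ _ => by positivity
  · rw [neg_one_geom_sum]; split_ifs <;> norm_num

lemma SS_mono (a : ℤ) {x y : ℕ} (h : x ≤ y) : SS a x ≤ SS a y :=
  sum_le_sum_of_subset_of_nonneg (Ioc_subset_Ioc_right h) fun _ _ _ => FF_nonneg a _

lemma one_le_SS (a : ℤ) {x : ℕ} (h : 1 ≤ x) : 1 ≤ SS a x := by
  refine le_trans (le_of_eq ?_) (SS_mono a h)
  simp [SS, (FF_mul a).1]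

lemma HH_nonneg (n : ℕ) : 0 ≤ HH n := sum_nonneg fun _ _ => by positivity

lemma HH_mono {m n : ℕ} (h : m ≤ n) : HH m ≤ HH n :=
  sum_le_sum_of_subset_of_nonneg (Ioc_subset_Ioc_right h) fun _ _ _ => by positivity

lemma HH_eq (n : ℕ) : HH n = harmonic n := by
  rw [harmonic_eq_sum_Icc]; push_cast; rfl

lemma HH_est {x b : ℕ} (hb : 0 < b) (h : b ≤ x) :
    |HH (x / b) - (Real.log x + (Real.eulerMascheroniConstant - Real.log b))| ≤ 2 * b / x := by
  set n := x / b with hn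
  have hn1 : 1 ≤ n := Nat.div_pos h hb
  have hb' : (0 : ℝ) < b := by exact_mod_cast hb
  have hx' : (0 : ℝ) < x := by exact_mod_cast (hb.trans_le h)
  have hn' : (1 : ℝ) ≤ n := by exact_mod_cast hn1
  have h1 := Real.eulerMascheroniSeq_lt_eulerMascheroniConstant n
  have h2 := Real.eulerMascheroniConstant_lt_eulerMascheroniSeq' n
  rw [Real.eulerMascheroniSeq] at h1
  rw [Real.eulerMascheroniSeq', if_neg (by omega)] at h2
  have l1 : (n : ℝ) ≤ x / b := Nat.cast_div_le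
  have l2 : (x : ℝ) / b ≤ n + 1 := by
    rw [div_le_iff₀ hb']
    have : x < (n + 1) * b := by rw [hn, add_mul, one_mul]; exact Nat.lt_div_mul_add hb
    exact_mod_cast this.le
  have m1 := Real.log_le_log (by linarith) l1
  have m2 := Real.log_le_log (by positivity) l2
  rw [Real.log_div hx'.ne' hb'.ne'] at m1 m2
  have m3 : Real.log (n + 1) - Real.log n ≤ 2 * b / x := by
    rw [← Real.log_div (by positivity) (by positivity)]
    refine (Real.log_le_sub_one_of_pos (by positivity)).trans ?_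
    rw [div_le_iff₀ hb'] at l2
    rw [div_sub_one (by positivity), div_le_div_iff₀ (by positivity) hx']
    nlinarith
  rw [HH_eq, abs_le]
  constructor <;> linarith

noncomputable def ll (a : ℤ) (U : ℕ) : ℝ := ∑ b ∈ Ioc 0 U, xi a b / b

noncomputable def cc (a : ℤ) (U : ℕ) : ℝ :=
  ∑ b ∈ Ioc 0 U, xi a b / b * (Real.eulerMascheroniConstant - Real.log b)

lemma hyper {a : ℤ} (ha : NP a) {U x : ℕ} (hU : 0 < U) (hx : U ≤ x) :
    |SS a x - (ll a U * Real.log x + cc a U)| ≤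
      2 * U / x + 8 * a.natAbs / U * (1 + Real.log x) := by
  have hU' : (0 : ℝ) < U := by exact_mod_cast hU
  have hx' : (0 : ℝ) < x := by exact_mod_cast (hU.trans_le hx)
  have e : SS a x = ∑ b ∈ Ioc 0 U, xi a b / b * HH (x / b) +
      ∑ b ∈ Ioc U x, xi a b / b * HH (x / b) := by
    rw [sum_Ioc_consecutive _ (Nat.zero_le U) hx, SS, FF, ArithmeticFunction.sum_Ioc_mul_eq_sum_sum]
    rfl
  have h1 : |∑ b ∈ Ioc 0 U, xi a b / b * HH (x / b) - (ll a U * Real.log x + cc a U)| ≤ 2 * U / x := by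
    rw [ll, cc, sum_mul, ← sum_add_distrib, ← sum_sub_distrib]
    refine (abs_sum_le_sum_abs _ _).trans ((sum_le_card_nsmul _ _ (2 / (x : ℝ)) fun b hb => ?_).trans ?_)
    · obtain ⟨hb0, hbU⟩ := mem_Ioc.1 hb
      have hb' : (0 : ℝ) < b := by exact_mod_cast hb0
      rw [← mul_add, ← mul_sub, abs_mul, abs_div, Nat.abs_cast]
      calc _ ≤ 1 / (b : ℝ) * (2 * b / x) := by
            gcongr
            · exact abs_xi a b
            · exact HH_est hb0 (hbU.trans hx)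
        _ = _ := by field_simp
    · simp only [Nat.card_Ioc, tsub_zero, nsmul_eq_mul]
      exact le_of_eq (by ring)
  have h2 : |∑ b ∈ Ioc U x, xi a b / b * HH (x / b)| ≤ 8 * a.natAbs / U * (1 + Real.log x) := by
    obtain ⟨n, rfl⟩ := Nat.exists_eq_add_of_le hx
    have e2 : ∑ b ∈ Ioc U (U + n), xi a b / b * HH ((U + n) / b) = ∑ k ∈ range n,
        xi a (U + 1 + k) * (((U + 1 + k : ℕ) : ℝ)⁻¹ * HH ((U + n) / (U + 1 + k))) := by
      rw [← Finset.Ico_add_one_add_one_eq_Ioc, sum_Ico_eq_sum_range]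
      simp [div_eq_mul_inv, mul_assoc]
    have h3 := abel_abs (fun k => xi a (U + 1 + k))
      (fun k => ((U + 1 + k : ℕ) : ℝ)⁻¹ * HH ((U + n) / (U + 1 + k)))
      (fun k l hkl => mul_le_mul (inv_anti₀ (by positivity) (by exact_mod_cast by omega))
        (HH_mono (Nat.div_le_div_left (by omega) (by omega))) (HH_nonneg _) (by positivity))
      (fun k => mul_nonneg (by positivity) (HH_nonneg _)) (ha.sum_shift (U + 1)) n
    rw [e2]
    refine h3.trans ?_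
    rw [div_eq_mul_inv, mul_assoc (8 * (a.natAbs : ℝ))]
    gcongr
    · exact HH_nonneg _
    · linarith
    · exact (HH_mono (Nat.div_le_self _ _)).trans (harm_le _)
  rw [e]
  refine le_trans (le_of_eq ?_) ((abs_add_le _ _).trans (add_le_add h1 h2))
  congr 1; ring

lemma ratio {a : ℤ} (ha : NP a) {U w : ℕ} (hU : 8 ≤ U) (hw : 1 ≤ w) {η : ℝ}
    (h1 : 8 * a.natAbs / U ≤ η) (h2 : η * (1 + 3 * Real.log U) ≤ 1 / 4) :
    SS a (U ^ 3 * w) ≤ (2 + (2 / Real.log U + η) * Real.log w) * SS a (U ^ 3) := by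
  have hU' : (8 : ℝ) ≤ U := by exact_mod_cast hU
  have hw' : (1 : ℝ) ≤ w := by exact_mod_cast hw
  have hl : 0 < Real.log U := Real.log_pos (by linarith)
  have hlw : 0 ≤ Real.log w := Real.log_nonneg hw'
  have hη : 0 ≤ η := le_trans (by positivity) h1
  have key : ∀ x : ℕ, U ^ 2 ≤ x →
      |SS a x - (ll a U * Real.log x + cc a U)| ≤ 1 / 4 + η * (1 + Real.log x) := fun x hx => by
    have hx' : (U : ℝ) ^ 2 ≤ x := by exact_mod_cast hx
    have hx1 : 0 ≤ Real.log x := Real.log_natCast_nonneg x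
    refine (hyper ha (by omega) ((Nat.le_self_pow two_ne_zero U).trans hx)).trans (add_le_add ?_ ?_)
    · rw [div_le_iff₀ (by nlinarith)]; nlinarith
    · gcongr
  have p23 : U ^ 2 ≤ U ^ 3 := Nat.pow_le_pow_right (by omega) (by omega)
  have k2 := abs_le.1 (key (U ^ 2) le_rfl)
  have k3 := abs_le.1 (key (U ^ 3) p23)
  have k4 := abs_le.1 (key (U ^ 3 * w) (p23.trans (Nat.le_mul_of_pos_right _ hw)))
  push_cast at k2 k3 k4
  rw [Real.log_mul (by positivity) (by positivity)] at k4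
  simp only [Real.log_pow] at k2 k3 k4
  push_cast at k2 k3 k4
  have s1 := one_le_SS a (x := U ^ 3) (Nat.one_le_pow _ _ (by omega))
  have s2 := one_le_SS a (x := U ^ 2) (Nat.one_le_pow _ _ (by omega))
  have hl2 : ll a U ≤ 2 / Real.log U * SS a (U ^ 3) := by
    rw [div_mul_eq_mul_div, le_div_iff₀ hl]
    nlinarith [mul_nonneg hη hl.le]
  have h5 := mul_le_mul_of_nonneg_right hl2 hlw
  have h6 := mul_le_mul_of_nonneg_left s1 (mul_nonneg hη hlw)
  nlinarith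

lemma np_neg {D : ℕ} (hD : 0 < D) : NP (-(D : ℤ)) := by
  obtain ⟨E, rfl⟩ : ∃ E, D = E + 1 := ⟨D - 1, by omega⟩
  have ho : Odd (4 * E + 3) := ⟨2 * E + 1, by ring⟩
  refine ⟨by push_cast; omega, 4 * E + 3, ho, ?_⟩
  have h1 : J(4 * -((E + 1 : ℕ) : ℤ) | 4 * E + 3) = J(-1 | 4 * E + 3) :=
    jacobiSym.mod_left' (Int.modEq_iff_dvd.2 ⟨1, by push_cast; ring⟩)
  rw [jacobiSym.mul_left, jacobiSym.at_four ho, one_mul, jacobiSym.at_neg_one ho,
    ZMod.χ₄_nat_three_mod_four (by omega)] at h1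
  exact h1

lemma xi_split {D p : ℕ} (hp : p.Prime) (h2 : 2 < p) (hD : ¬ p ∣ D) {t : ℤ}
    (ht : (p : ℤ) ∣ t ^ 2 + D) : xi (-(D : ℤ)) p = 1 := by
  rw [xi_odd (hp.odd_of_ne_two (by omega))]
  have h1 : J(-(D : ℤ) | p) = J(t ^ 2 | p) :=
    jacobiSym.mod_left' (Int.modEq_iff_dvd.2 (by rwa [sub_neg_eq_add]))
  have h3 : t.gcd p = 1 := by
    rw [Int.gcd_comm, ← Int.isCoprime_iff_gcd_eq_one,
      (Nat.prime_iff_prime_int.1 hp).irreducible.coprime_iff_not_dvd]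
    intro h
    exact hD (Int.natCast_dvd_natCast.1 ((dvd_add_right (dvd_pow h two_ne_zero)).1 ht))
  rw [h1, jacobiSym.sq_one' h3]; simp

lemma inj_le (a : ℤ) {Y w : ℕ} (P : Finset ℕ) (hP : ∀ p ∈ P, p.Prime ∧ Y < p ∧ xi a p = 1)
    (𝒯 : Finset (Finset ℕ)) (h𝒯 : ∀ T ∈ 𝒯, T ⊆ P ∧ ∏ p ∈ T, p ≤ w) :
    (∑ T ∈ 𝒯, ∏ p ∈ T, (2 / p : ℝ)) * SS a Y ≤ SS a (Y * w) := by
  have hf : ∀ T ∈ 𝒯, ∀ n ∈ Ioc 0 Y,
      (n * ∏ p ∈ T, p).primeFactors.filter (Y < ·) = T := fun T hT n hn => by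
    have hpr : ∀ p ∈ T, p.Prime := fun p hp => (hP p ((h𝒯 T hT).1 hp)).1
    obtain ⟨n0, nY⟩ := mem_Ioc.1 hn
    rw [Nat.primeFactors_mul n0.ne' (prod_pos fun p hp => (hpr p hp).pos).ne',
      Nat.primeFactors_prod hpr]
    ext p
    simp only [mem_filter, mem_union]
    refine ⟨fun h => h.1.resolve_left fun k => ?_, fun h => ⟨Or.inr h, (hP p ((h𝒯 T hT).1 h)).2.1⟩⟩
    have := Nat.le_of_dvd n0 (Nat.dvd_of_mem_primeFactors k)
    omega
  rw [SS, sum_mul_sum, ← sum_product', sum_congr rfl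
    (g := fun x : Finset ℕ × ℕ => FF a (x.2 * ∏ p ∈ x.1, p)) fun x hx => ?_,
    ← sum_image (g := fun x : Finset ℕ × ℕ => x.2 * ∏ p ∈ x.1, p)]
  · refine sum_le_sum_of_subset_of_nonneg (fun n hn => ?_) fun n _ _ => FF_nonneg a n
    obtain ⟨x, hx, rfl⟩ := mem_image.1 hn
    obtain ⟨hT, hn⟩ := mem_product.1 hx
    obtain ⟨n0, nY⟩ := mem_Ioc.1 hn
    exact mem_Ioc.2 ⟨mul_pos n0 (prod_pos fun p hp => (hP p ((h𝒯 _ hT).1 hp)).1.pos),
      Nat.mul_le_mul nY (h𝒯 _ hT).2⟩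
  · intro x hx y hy h
    obtain ⟨hT, hn⟩ := mem_product.1 hx
    obtain ⟨hT', hn'⟩ := mem_product.1 hy
    have e : x.1 = y.1 := by
      rw [← hf _ hT _ hn, ← hf _ hT' _ hn']
      exact congrArg (fun m : ℕ => m.primeFactors.filter (Y < ·)) h
    refine Prod.ext e ?_
    dsimp only at h
    rw [e] at h
    exact Nat.eq_of_mul_eq_mul_right (prod_pos fun p hp => (hP p ((h𝒯 _ hT').1 hp)).1.pos) h
  · obtain ⟨hT, hn⟩ := mem_product.1 hx
    obtain ⟨n0, nY⟩ := mem_Ioc.1 hn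
    have hpr : ∀ p ∈ x.1, p.Prime := fun p hp => (hP p ((h𝒯 _ hT).1 hp)).1
    rw [(FF_mul a).map_mul_of_coprime, (FF_mul a).map_prod_of_prime _ hpr, mul_comm]
    · congr 1
      refine prod_congr rfl fun p hp => ?_
      have := FF_pow a (hpr p hp) 1
      rw [pow_one] at this
      rw [this, (hP p ((h𝒯 _ hT).1 hp)).2.2]; norm_num [sum_range_succ]
    · refine Nat.Coprime.prod_right fun p hp => ((hpr p hp).coprime_iff_not_dvd.2 fun k => ?_).symm
      have := Nat.le_of_dvd n0 k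
      have := (hP p ((h𝒯 _ hT).1 hp)).2.1
      omega

lemma big {a : ℤ} (ha : NP a) {U z : ℕ} (hU : 8 ≤ U) (hz : 2 ≤ z) {η : ℝ}
    (h1 : 8 * a.natAbs / U ≤ η) (h2 : η * (1 + 3 * Real.log U) ≤ 1 / 4) (P : Finset ℕ)
    (hP : ∀ p ∈ P, p.Prime ∧ U ^ 3 < p ∧ xi a p = 1) (hPz : ∀ p ∈ P, p ≤ z) :
    ∏ p ∈ P, (1 + 2 / p : ℝ) ≤ 4 + 24 * (2 / Real.log U + η) * Real.log z := by
  have hlz := half_le_log hz
  have hM := markov_subsets P (fun p => (2 / p : ℝ)) (fun p => Real.log p) (fun p => 2 / p)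
    (fun p => by positivity) (fun p => Real.log_natCast_nonneg p) (fun p _ => by
      nlinarith [show (0 : ℝ) ≤ 2 / p by positivity]) (L := 12 * Real.log z) (by linarith) (by
      have := mertens3 hz (S := P) fun p hp => ⟨(hP p hp).1, hPz p hp⟩
      have e : ∑ p ∈ P, Real.log p * (2 / p) = 2 * ∑ p ∈ P, Real.log p / p := by
        rw [mul_sum]; exact sum_congr rfl fun _ _ => by ring
      linarith)
  have h3 := inj_le a (w := z ^ 12) P hP
    (P.powerset.filter fun s => ∑ i ∈ s, Real.log (i : ℕ) ≤ 12 * Real.log z) fun T hT => by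
      obtain ⟨hs, hl⟩ := mem_filter.1 hT
      have hs := mem_powerset.1 hs
      have hpos : 0 < ∏ i ∈ T, i := prod_pos fun p hp => (hP p (hs hp)).1.pos
      rw [← Real.log_prod (fun p hp => by exact_mod_cast (hP p (hs hp)).1.ne_zero),
        ← Nat.cast_prod, show 12 * Real.log z = Real.log ((z ^ 12 : ℕ) : ℝ) by simp,
        Real.log_le_log_iff (by exact_mod_cast hpos) (by positivity)] at hl
      exact ⟨hs, by exact_mod_cast hl⟩
  have h4 := ratio ha hU (Nat.one_le_pow 12 z (by omega)) h1 h2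
  have h5 := le_of_mul_le_mul_right (h3.trans h4)
    (lt_of_lt_of_le one_pos (one_le_SS a (Nat.one_le_pow _ _ (by omega))))
  rw [Nat.cast_pow, Real.log_pow] at h5
  push_cast at h5
  linarith

lemma loc {x : ℝ} (h0 : 0 ≤ x) (h : x ≤ 1 / 3) :
    Real.exp (-(6 * x ^ 2)) ≤ (1 + 2 * x) * (1 - x) ^ 2 := by
  have h1 := Real.add_one_le_exp (6 * x ^ 2)
  rw [Real.exp_neg, inv_le_iff_one_le_mul₀ (Real.exp_pos _)]
  have h2 : 1 - 3 * x ^ 2 ≤ (1 + 2 * x) * (1 - x) ^ 2 := by nlinarith [pow_nonneg h0 3]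
  have h3 : x ^ 2 ≤ 1 / 9 := by nlinarith
  calc (1 : ℝ) ≤ (1 - 3 * x ^ 2) * (6 * x ^ 2 + 1) := by nlinarith [sq_nonneg x]
    _ ≤ _ := mul_le_mul h2 h1 (by positivity) (by positivity)

lemma ev (R : ℕ) {δ : ℝ} (hδ : 0 < δ) : ∀ᶠ y : ℕ in atTop, 8 ≤ y ∧
    8 / (y : ℝ) * (1 + 3 * ((R + 1) * Real.log y)) ≤ 1 / 4 ∧ 2 / Real.log y + 8 / y ≤ δ := by
  have t1 : Tendsto (fun y : ℕ => 8 / (y : ℝ)) atTop (nhds 0) := tendsto_const_div_atTop_nhds_zero_nat 8
  have t2 : Tendsto (fun y : ℕ => Real.log y / y) atTop (nhds 0) := by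
    simpa [Function.comp_def] using
      (Real.tendsto_pow_log_div_mul_add_atTop 1 0 1 one_ne_zero).comp tendsto_natCast_atTop_atTop
  have t3 : Tendsto (fun y : ℕ => 2 / Real.log y) atTop (nhds 0) :=
    (Real.tendsto_log_atTop.comp tendsto_natCast_atTop_atTop).const_div_atTop 2
  have t4 := t1.add (t2.const_mul (24 * (R + 1 : ℝ)))
  have t5 := t3.add t1
  simp only [mul_zero, add_zero] at t4 t5
  filter_upwards [eventually_ge_atTop 8, t4.eventually (eventually_le_nhds (by norm_num : (0 : ℝ) < 1 / 4)),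
    t5.eventually (eventually_le_nhds hδ)] with y h1 h2 h3
  exact ⟨h1, le_trans (le_of_eq (by ring)) h2, h3⟩

end EUx

open EUx Pool.Agent.Lib.TorsRank in
theorem eu (R : ℕ) {ε : ℝ} (hε : 0 < ε) : ∃ (y₀ : ℕ) (C : ℝ), ∀ (D y z : ℕ) (P : Finset ℕ),
    0 < D → y₀ ≤ y → D ≤ y ^ R →
    (∀ p ∈ P, p.Prime ∧ y < p ∧ p ≤ z ∧ ¬ p ∣ D ∧ ∃ t : ℤ, (p : ℤ) ∣ t ^ 2 + D) →
    1 ≤ (ε * Real.log z + C) * Vp P ^ 2 := by
  set K : ℝ := Real.exp (6 + 2 * (3 * (R + 1) + 2)) with hK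
  have hK1 : 1 ≤ K := Real.one_le_exp (by positivity)
  obtain ⟨y₀, hy₀⟩ := eventually_atTop.1 (ev R (δ := ε / (24 * K)) (by positivity))
  refine ⟨y₀, 4 * K, fun D y z P hD hy hDy hP => ?_⟩
  obtain ⟨y8, e1, e2⟩ := hy₀ y hy
  have hlz := Real.log_natCast_nonneg z
  rcases lt_or_ge z 2 with hz | hz
  · have : P = ∅ := eq_empty_of_forall_notMem fun p hp => by have := hP p hp; omega
    simp only [this, Vp, prod_empty]
    nlinarith [mul_nonneg hε.le hlz]
  have y8' : (8 : ℝ) ≤ y := by exact_mod_cast y8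
  have hly : 0 < Real.log y := Real.log_pos (by linarith)
  set U := y ^ (R + 1) with hU
  have hyU : y ≤ U := Nat.le_self_pow (by omega) y
  have hlU : Real.log U = (R + 1) * Real.log y := by rw [hU]; simp
  have h1 := big (np_neg hD) (y8.trans hyU) hz (η := 8 / y) (by
      have : (D : ℝ) ≤ y ^ R := by exact_mod_cast hDy
      rw [Int.natAbs_neg, Int.natAbs_natCast, hU, div_le_div_iff₀ (by positivity) (by positivity)]
      push_cast; rw [pow_succ]; nlinarith) (by rw [hlU]; exact e1)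
    (P.filter fun p => U ^ 3 < p) (fun p hp => by
      obtain ⟨hp, h⟩ := mem_filter.1 hp
      obtain ⟨a1, a2, -, a4, t, a5⟩ := hP p hp
      exact ⟨a1, h, xi_split a1 (by omega) a4 a5⟩) fun p hp => (hP p (mem_filter.1 hp).1).2.2.1
  have h2 : ∏ p ∈ P with ¬ U ^ 3 < p, (1 + 2 / p : ℝ) ≤ Real.exp (2 * (3 * (R + 1) + 2)) := by
    have m := mertens_le (U ^ 3) (Nat.one_le_pow _ _ (by omega)) (P.filter fun p => ¬ U ^ 3 < p)
      fun p hp => ⟨(hP p (mem_filter.1 hp).1).1, not_lt.1 (mem_filter.1 hp).2⟩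
    have m2 : Real.log y * ∑ p ∈ P with ¬ U ^ 3 < p, (p : ℝ)⁻¹ ≤
        ∑ p ∈ P with ¬ U ^ 3 < p, Real.log p / p := by
      rw [mul_sum]
      refine sum_le_sum fun p hp => ?_
      rw [div_eq_mul_inv]
      gcongr
      exact (hP p (mem_filter.1 hp).1).2.1.le
    have m3 : Real.log 4 ≤ Real.log y := Real.log_le_log (by norm_num) (by linarith)
    rw [Nat.cast_pow, Real.log_pow, hlU] at m
    push_cast at m
    have m4 : ∑ p ∈ P with ¬ U ^ 3 < p, (p : ℝ)⁻¹ ≤ 3 * (R + 1) + 2 :=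
      le_of_mul_le_mul_left (by nlinarith) hly
    calc _ ≤ ∏ p ∈ P with ¬ U ^ 3 < p, Real.exp (2 * (p : ℝ)⁻¹) :=
          prod_le_prod (fun _ _ => by positivity) fun p _ => by
            linarith [Real.add_one_le_exp (2 * (p : ℝ)⁻¹), div_eq_mul_inv (2 : ℝ) p]
      _ ≤ _ := by rw [← Real.exp_sum, ← mul_sum]; gcongr
  have h3 : Real.exp (-6) ≤ (∏ p ∈ P, (1 + 2 / p : ℝ)) * Vp P ^ 2 := by
    have s := sum_inv_sq_le (S := P) fun p hp => (hP p hp).1.two_le
    rw [Vp, ← prod_pow, ← prod_mul_distrib]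
    calc _ ≤ Real.exp (∑ p ∈ P, -(6 * (p : ℝ)⁻¹ ^ 2)) := by
          rw [sum_neg_distrib, ← mul_sum]
          simp only [inv_pow]
          gcongr; linarith
      _ ≤ _ := by
          rw [Real.exp_sum]
          refine prod_le_prod (fun _ _ => (Real.exp_pos _).le) fun p hp => ?_
          have : (3 : ℝ) ≤ p := by exact_mod_cast (by have := (hP p hp).2.1; omega : 3 ≤ p)
          rw [div_eq_mul_inv]
          exact loc (by positivity) (by rw [one_div]; exact inv_anti₀ (by norm_num) this)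
  have h4 : 2 / Real.log U ≤ 2 / Real.log y := by
    rw [hlU]; gcongr; nlinarith [show (0 : ℝ) ≤ R by positivity]
  have h5 : 24 * (2 / Real.log U + 8 / y) * K ≤ ε := by
    rw [le_div_iff₀ (by positivity)] at e2
    nlinarith
  have h6 : (∏ p ∈ P, (1 + 2 / p : ℝ)) * Real.exp 6 ≤ ε * Real.log z + 4 * K := by
    rw [← prod_filter_mul_prod_filter_not P fun p => U ^ 3 < p]
    calc _ ≤ (4 + 24 * (2 / Real.log U + 8 / y) * Real.log z) *
          Real.exp (2 * (3 * (R + 1) + 2)) * Real.exp 6 := by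
          gcongr
      _ = 24 * (2 / Real.log U + 8 / y) * K * Real.log z + 4 * K := by
          rw [hK, Real.exp_add]; ring
      _ ≤ _ := by gcongr
  calc (1 : ℝ) = Real.exp (-6) * Real.exp 6 := by rw [← Real.exp_add]; simp
    _ ≤ (∏ p ∈ P, (1 + 2 / p : ℝ)) * Vp P ^ 2 * Real.exp 6 := by gcongr
    _ = (∏ p ∈ P, (1 + 2 / p : ℝ)) * Real.exp 6 * Vp P ^ 2 := by ring
    _ ≤ _ := by gcongr

end Pool.Agent.Lib.MP_ad7336_sd
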