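import Pool.Agent.Lib.MP_ad7336_sd.CRb
import Pool.Agent.Lib.MP_ad7336_sd.EU
import Pool.Agent.Lib.MP_ad7336_sd.AL2

set_option autoImplicit false

namespace Pool.Agent.Lib.MP_ad7336_sd

open Finset Filter
open scoped Classical

namespace CRx

theorem qf_pos {a b c x y : ℤ} (ha : 0 < a) (hD : b ^ 2 < 4 * a * c) :
    0 ≤ qf a b c x y ∧ (qf a b c x y = 0 → x = 0 ∧ y = 0) := by
  have e : 4 * a * qf a b c x y = (2 * a * x + b * y) ^ 2 + (4 * a * c - b ^ 2) * y ^ 2 := by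
    unfold qf; ring
  have h1 := mul_nonneg (sub_pos.2 hD).le (sq_nonneg y)
  have h2 := sq_nonneg (2 * a * x + b * y)
  refine ⟨nonneg_of_mul_nonneg_right (a := 4 * a) (by linarith) (by linarith), fun h => ?_⟩
  rw [h] at e
  have h3 : y = 0 := pow_eq_zero_iff two_ne_zero |>.1
    ((mul_eq_zero.1 (by linarith : (4 * a * c - b ^ 2) * y ^ 2 = 0)).resolve_left (sub_pos.2 hD).ne')
  have h4 : 2 * a * x + b * y = 0 := pow_eq_zero_iff two_ne_zero |>.1 (by linarith)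
  rw [h3, mul_zero, add_zero] at h4
  exact ⟨(mul_eq_zero.1 h4).resolve_left (by omega), h3⟩

theorem bads {P : Finset ℕ} {γ : ℝ} {N₁ N₂ y z R : ℕ} (hU : Up P γ N₂ z) (hγ : 1 ≤ γ * z)
    (H : ℕ → ℤ → ℤ) {a b c r : ℤ} (s₁ s₂ : ℤ) {D : ℕ} (hD : (D : ℤ) = 4 * a * c - b ^ 2) (D0 : 0 < D)
    (hP : ∀ p ∈ P, p.Prime ∧ y < p ∧ ¬ p ∣ D) (hc : Cop3 a b c) (hy : 2 ≤ y) (hyz : y ^ 8 ≤ z)
    (h1 : z ^ 2 ≤ N₁) (h2 : z ^ 2 ≤ N₂) (hR : D ≤ y ^ R) {A : Finset ℕ}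
    (hA : ∀ p ∈ A, p.Prime ∧ p ≤ y ∧ ¬ (p : ℤ) ∣ r) :
    (∀ p ∈ A, ∀ f ≤ FF z p, ((((Wb N₁ N₂).filter (Sf P H)).filter fun w =>
      (p : ℤ) ^ (2 * f + 1) ∣ qf a b c (s₁ + r * w.1) (s₂ + r * w.2)).card : ℝ) ≤
        34 * (γ * (N₁ * N₂)) / (p : ℝ) ^ (f + 1)) ∧
    ((A.biUnion fun p => ((Wb N₁ N₂).filter (Sf P H)).filter fun w =>
      (p : ℤ) ^ (2 * FF z p + 1) ∣ qf a b c (s₁ + r * w.1) (s₂ + r * w.2)).card : ℝ) ≤
        34 * (γ * (N₁ * N₂)) / y ∧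
    (((D.primeFactors.filter fun p : ℕ => y < p ∧ ¬ (p : ℤ) ∣ r).biUnion fun p =>
      ((Wb N₁ N₂).filter (Sf P H)).filter fun w =>
        (p : ℤ) ∣ qf a b c (s₁ + r * w.1) (s₂ + r * w.2)).card : ℝ) ≤
        R * (34 * (γ * (N₁ * N₂)) / y) := by
  have y2 : (2 : ℝ) ≤ y := by exact_mod_cast hy
  have yz : y ≤ z := (Nat.le_self_pow (by norm_num) y).trans hyz
  have yz' : (y : ℝ) ≤ z := by exact_mod_cast yz
  have g0 : 0 < γ := pos_of_mul_pos_left (by linarith : 0 < γ * z) (by linarith)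
  have g1 : 0 ≤ 34 * (γ * ((N₁ : ℝ) * N₂)) := by positivity
  have a1 : ∀ p ∈ A, ∀ f ≤ FF z p, ((((Wb N₁ N₂).filter (Sf P H)).filter fun w =>
      (p : ℤ) ^ (2 * f + 1) ∣ qf a b c (s₁ + r * w.1) (s₂ + r * w.2)).card : ℝ) ≤
        34 * (γ * (N₁ * N₂)) / (p : ℝ) ^ (f + 1) := fun p hp f hf => by
    obtain ⟨k1, k2, k3⟩ := hA p hp
    rw [filter_filter]
    exact upA hU hγ (fun p hp => (hP p hp).1) H s₁ s₂ h1 k1
      (fun h => by have := (hP p h).2.1; omega) hc k3 (FF_le k1 hf k2 hyz)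
  refine ⟨a1, ?_, ?_⟩
  · refine (Nat.cast_le.2 card_biUnion_le).trans ?_
    rw [Nat.cast_sum]
    refine (sum_le_card_nsmul _ _ (34 * (γ * (N₁ * N₂)) / (y : ℝ) ^ 4) fun p hp =>
      (a1 p hp _ le_rfl).trans (div_le_div_of_nonneg_left g1 (by positivity) ?_)).trans ?_
    · have k := FF_lt (z := z) (hA p hp).1
      have : (y ^ 4) ^ 2 ≤ (p ^ (FF z p + 1)) ^ 2 := by
        rw [← pow_mul, ← pow_mul]
        exact hyz.trans (k.le.trans (Nat.pow_le_pow_right (hA p hp).1.pos (by omega)))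
      exact_mod_cast (Nat.pow_le_pow_iff_left two_ne_zero).1 this
    · have k : A.card ≤ y := by
        have : A ⊆ Icc 1 y := fun p hp => mem_Icc.2 ⟨(hA p hp).1.pos, (hA p hp).2.1⟩
        simpa using card_le_card this
      have k' : (A.card : ℝ) * y ≤ y ^ 4 := by
        have b1 : (A.card : ℝ) ≤ y := by exact_mod_cast k
        have b2 : (y : ℝ) ^ 2 ≤ y ^ 4 := pow_le_pow_right₀ (by linarith) (by norm_num)
        have b3 := mul_le_mul_of_nonneg_right b1 (show (0 : ℝ) ≤ y by linarith)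
        linarith
      rw [nsmul_eq_mul, ← mul_div_assoc, div_le_div_iff₀ (by positivity) (by positivity)]
      have := mul_le_mul_of_nonneg_left k' g1
      linarith
  · refine (Nat.cast_le.2 card_biUnion_le).trans ?_
    rw [Nat.cast_sum]
    refine (sum_le_card_nsmul _ _ (34 * (γ * (N₁ * N₂)) / (y : ℝ)) fun p hp => ?_).trans ?_
    · obtain ⟨k0, k2, k3⟩ := mem_filter.1 hp
      have k1 := Nat.prime_of_mem_primeFactors k0
      have k4 := Nat.dvd_of_mem_primeFactors k0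
      by_cases h : p ≤ z ^ 2
      · have := upA hU hγ (fun p hp => (hP p hp).1) H s₁ s₂ (e := 0) h1 k1
          (fun h => (hP p h).2.2 k4) hc k3 (by simpa using h)
        simp only [mul_zero, zero_add, pow_one] at this
        rw [filter_filter]
        exact this.trans (div_le_div_of_nonneg_left g1 (by positivity) (by exact_mod_cast k2.le))
      · have := rho3 s₁ s₂ (-(N₁ : ℤ)) (-(N₂ : ℤ)) k1 (hc p k1) k3
          (hD ▸ Int.natCast_dvd_natCast.2 k4) (Z := z ^ 2) (M₁ := 2 * N₁) (M₂ := 2 * N₂)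
          (pow_pos (by omega) 2) (by omega) (by omega) (by omega)
        refine le_trans (Nat.cast_le.2 (card_le_card (filter_subset_filter _ (filter_subset _ _))))
          (this.trans ?_)
        push_cast
        rw [div_le_div_iff₀ (pow_pos (by linarith) 2) (by positivity)]
        have b0 : (0 : ℝ) ≤ N₁ * N₂ := by positivity
        have b1 : (y : ℝ) ≤ γ * z ^ 2 := by
          have := mul_le_mul_of_nonneg_right hγ (show (0 : ℝ) ≤ z by linarith)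
          linarith
        have b2 := mul_le_mul_of_nonneg_left b1 b0
        have b3 := mul_nonneg b0 (show (0 : ℝ) ≤ y by linarith)
        linarith
    · rw [nsmul_eq_mul]
      refine mul_le_mul_of_nonneg_right (Nat.cast_le.2 (le_trans (card_le_card fun p hp => ?_)
        (card_big D0 hy hR))) (by positivity)
      exact mem_filter.2 ⟨(mem_filter.1 hp).1, (mem_filter.1 hp).2.1⟩

theorem core {P : Finset ℕ} {γ δ : ℝ} {N₁ N₂ y z R C₁ J μ : ℕ} (hδ : 0 ≤ δ)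
    (hL : Lo P γ (δ ^ 2 / 2) N₂) (hU : Up P γ N₂ z) (hγ : 1 ≤ γ * z) {H : ℕ → ℤ → ℤ}
    {a b c r s₁ s₂ : ℤ} {D : ℕ} (hD : (D : ℤ) = 4 * a * c - b ^ 2) (D0 : 0 < D) (ha : 0 < a)
    (hP : ∀ p, p ∈ P ↔ p.Prime ∧ y < p ∧ ¬ p ∣ D ∧ p ≤ z ∧ ¬ (p : ℤ) ∣ r ∧
      ∃ ρ : ℤ, (p : ℤ) ∣ ρ ^ 2 - b * ρ + a * c)
    (hH : ∀ p ∈ P, ∀ i j i' j' k e d : ℤ,
      Rot a b c k e d (s₁ + r * i) (s₂ + r * j) (s₁ + r * i') (s₂ + r * j') → (p : ℤ) ∣ k →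
      (p : ℤ) ∣ j - H p i ∨ (p : ℤ) ∣ j' - H p i')
    (hμ : ∀ (a b c m : ℤ) (z : ℕ) (S : Finset (ℤ × ℤ)), 2 ≤ z → 0 < m →
      m < (z : ℤ) ^ J → (∀ w ∈ S, qf a b c w.1 w.2 = m) →
      (∀ w ∈ S, ∀ w' ∈ S, ∀ k e d : ℤ, Rot a b c k e d w.1 w.2 w'.1 w'.2 → k ∣ m → d ≠ 0 →
        ∃ p : ℕ, p.Prime ∧ z < p ∧ (p : ℤ) ∣ k ∧ ¬ (p : ℤ) ∣ 4 * a * c - b ^ 2) → S.card ≤ μ)
    (hc : Cop3 a b c) (hs : Cop3 s₁ s₂ r) (hr : 0 < r) (hF : r = 1 ∨ Fund a b c) (hy : 2 ≤ y)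
    (hyz : y ^ 8 ≤ z) (h1 : z ^ 2 ≤ N₁) (h2 : z ^ 2 ≤ N₂) (hR : D ≤ y ^ R) (hC : 0 < C₁)
    (n1 : 408 / (C₁ : ℝ) ≤ δ ^ 2 / 8) (n2 : (235 + 34 * R) / (y : ℝ) ≤ δ ^ 2 / 8)
    {X Y : Finset (ℤ × ℤ)} (hX : X ⊆ Ico (0 : ℤ) N₁ ×ˢ Ico (0 : ℤ) N₂)
    (hY : Y ⊆ Ico (0 : ℤ) N₁ ×ˢ Ico (0 : ℤ) N₂) (cX : δ * N₁ * N₂ ≤ X.card)
    (cY : δ * N₁ * N₂ ≤ Y.card)
    (hJ : ∀ i j : ℤ, |i| < N₁ → |j| < N₂ → qf a b c (s₁ + r * i) (s₂ + r * j) < (z : ℤ) ^ J)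
    (hx : (∀ i j i' j' k e d : ℤ, |i| < N₁ → |j| < N₂ → |i'| < N₁ → |j'| < N₂ →
        Rot a b c k e d (s₁ + r * i) (s₂ + r * j) (s₁ + r * i') (s₂ + r * j') → d ≠ 0 →
        (y : ℤ) ^ C₁ ≤ k) ∨ ((y : ℤ) ^ (5 * C₁) * N₁ ≤ c * N₂ ∧ y ^ (4 * C₁) ≤ z)) :
    γ * δ ^ 2 / 4 * (N₁ * N₂) ≤ μ * (((X ×ˢ Y).image fun w =>
      qf a b c (s₁ + r * (w.1.1 - w.2.1)) (s₂ + r * (w.1.2 - w.2.2))).erase 0).card := by
  have y2 : (2 : ℝ) ≤ y := by exact_mod_cast hy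
  have yz : y ≤ z := (Nat.le_self_pow (by norm_num) y).trans hyz
  have yz' : (y : ℝ) ≤ z := by exact_mod_cast yz
  have zz : z ≤ z ^ 2 := Nat.le_self_pow two_ne_zero z
  have g0 : 0 < γ := pos_of_mul_pos_left (by linarith : 0 < γ * z) (by linarith)
  have hD' : b ^ 2 < 4 * a * c := by omega
  have lo := lower g0.le hδ (by omega) (by omega) hL H hX hY cX cY
  set Z := ((X ×ˢ Y).image fun w => w.1 - w.2).filter (Sf P H) with hZ
  set g := γ * ((N₁ : ℝ) * N₂) with hg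
  have g1 : (y : ℝ) ≤ g := by
    have b1 : (z : ℝ) ^ 2 ≤ N₁ * N₂ := by
      exact_mod_cast h1.trans (Nat.le_mul_of_pos_right _ (by omega))
    have b2 := mul_le_mul_of_nonneg_left b1 g0.le
    have b3 := mul_le_mul_of_nonneg_right hγ (show (0 : ℝ) ≤ z by linarith)
    linarith
  set q : ℤ × ℤ → ℤ := fun w => qf a b c (s₁ + r * w.1) (s₂ + r * w.2) with hq
  set S := (Wb N₁ N₂).filter (Sf P H) with hS
  have hZ1 : ∀ w ∈ Z, |w.1| < N₁ ∧ |w.2| < N₂ ∧ w ∈ S := fun w hw => by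
    obtain ⟨k1, k2⟩ := mem_filter.1 hw
    obtain ⟨t, k3, rfl⟩ := mem_image.1 k1
    have k4 := hX (mem_product.1 k3).1
    have k5 := hY (mem_product.1 k3).2
    simp only [mem_product, mem_Ico] at k4 k5
    refine ⟨?_, ?_, mem_filter.2 ⟨?_, k2⟩⟩
    · rw [abs_lt, Prod.fst_sub]; omega
    · rw [abs_lt, Prod.snd_sub]; omega
    · simp only [Wb, mem_product, mem_Ico, Prod.fst_sub, Prod.snd_sub]
      omega
  set A := (range (y + 1)).filter fun p : ℕ => p.Prime ∧ ¬ (p : ℤ) ∣ r with hA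
  have hA1 : ∀ p, p ∈ A ↔ p.Prime ∧ p ≤ y ∧ ¬ (p : ℤ) ∣ r := fun p => by
    simp only [hA, mem_filter, mem_range, Nat.lt_succ_iff]
    tauto
  obtain ⟨b0, b2, b3⟩ := bads hU hγ H s₁ s₂ hD D0 (fun p hp => ⟨((hP p).1 hp).1, ((hP p).1 hp).2.1,
    ((hP p).1 hp).2.2.1⟩) hc hy hyz h1 h2 hR fun p hp => (hA1 p).1 hp
  have b1 := bad1 (S := S) (q := q) (by linarith) hy hC
    (fun p hp => ⟨((hA1 p).1 hp).1, ((hA1 p).1 hp).2.1⟩) fun p hp f hf => b0 p hp f hf.le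
  have b5 : ((S.filter fun w => q w = 0).card : ℝ) ≤ g / y := by
    refine le_trans (Nat.cast_le.2 (card_le_one.2 fun w hw w' hw' => ?_))
      (by rw [Nat.cast_one, one_le_div (by linarith)]; exact g1)
    have k1 := (qf_pos ha hD').2 (mem_filter.1 hw).2
    have k2 := (qf_pos ha hD').2 (mem_filter.1 hw').2
    exact Prod.ext (mul_left_cancel₀ hr.ne' (by linarith [k1.1, k2.1]))
      (mul_left_cancel₀ hr.ne' (by linarith [k1.2, k2.2]))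
  set B6 := Z.filter fun w => ∃ i' j' k e d : ℤ, |i'| < N₁ ∧ |j'| < N₂ ∧
    Rot a b c k e d (s₁ + r * w.1) (s₂ + r * w.2) (s₁ + r * i') (s₂ + r * j') ∧ d ≠ 0 ∧
    k < (y : ℤ) ^ C₁ with hB6
  have b6 : (B6.card : ℝ) ≤ 200 * g / y := by
    rcases hx with h | h
    · rw [hB6, filter_false_of_mem fun w hw ⟨i', j', k, e, d, k1, k2, k3, k4, k5⟩ =>
        (h _ _ _ _ _ _ _ (hZ1 w hw).1 (hZ1 w hw).2.1 k1 k2 k3 k4).not_gt k5, card_empty, Nat.cast_zero]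
      exact div_nonneg (by linarith) (by linarith)
    · refine (bad6 (G := y ^ C₁) (s₁ := s₁) (s₂ := s₂) hU hγ (fun p hp => ((hP p).1 hp).1) H hD' hr
        (pow_pos (by omega) _) (by push_cast; rw [← pow_mul, mul_comm C₁]; exact h.1)
        (by rw [← pow_mul, mul_comm C₁]; exact h.2) (by omega) (by omega) fun w hw => ?_).trans
        (div_le_div_of_nonneg_left (by linarith) (by linarith)
          (by exact_mod_cast Nat.le_self_pow hC.ne' y))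
      obtain ⟨k0, i', j', k, e, d, k1, -, k3, k4, k5⟩ := mem_filter.1 hw
      have := mem_filter.1 (hZ1 w k0).2.2
      exact ⟨this.1, this.2, i', j', k, e, d, k1, k3, k4, by push_cast; exact k5⟩
  set Bad := (S.filter fun w => C₁ * Real.log y ≤ lg A z (q w)) ∪
    (A.biUnion fun p => S.filter fun w => (p : ℤ) ^ (2 * FF z p + 1) ∣ q w) ∪
    ((D.primeFactors.filter fun p : ℕ => y < p ∧ ¬ (p : ℤ) ∣ r).biUnion fun p =>
      S.filter fun w => (p : ℤ) ∣ q w) ∪ (S.filter fun w => q w = 0) ∪ B6 with hBad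
  have c1 : (Bad.card : ℝ) ≤ g * δ ^ 2 / 4 := by
    have k : (Bad.card : ℝ) ≤ _ := Nat.cast_le.2 ((card_union_le _ _).trans (Nat.add_le_add_right
      ((card_union_le _ _).trans (Nat.add_le_add_right ((card_union_le _ _).trans
        (Nat.add_le_add_right (card_union_le _ _) _)) _)) _))
    push_cast at k
    have k1 := mul_le_mul_of_nonneg_left n1 (show 0 ≤ g by linarith)
    have k2 := mul_le_mul_of_nonneg_left n2 (show 0 ≤ g by linarith)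
    have e1 : g * ((235 + 34 * R) / y) = 34 * g / y + R * (34 * g / y) + g / y + 200 * g / y := by
      ring
    have e2 : g * (408 / C₁) = 408 * g / C₁ := by ring
    linarith
  have c2 : (Z.card : ℝ) ≤ (Z \ Bad).card + Bad.card := by exact_mod_cast card_le_card_sdiff_add_card
  have hG : ∀ w ∈ Z \ Bad, lg A z (q w) < C₁ * Real.log y ∧
      (∀ p ∈ A, ¬ (p : ℤ) ^ (2 * FF z p + 1) ∣ q w) ∧
      (∀ p : ℕ, p.Prime → p ∣ D → y < p → ¬ (p : ℤ) ∣ r → ¬ (p : ℤ) ∣ q w) ∧ q w ≠ 0 ∧ w ∉ B6 :=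
    fun w hw => by
      obtain ⟨k1, k2⟩ := mem_sdiff.1 hw
      have k3 := (hZ1 w k1).2.2
      simp only [hBad, mem_union, not_or] at k2
      obtain ⟨⟨⟨⟨t1, t2⟩, t3⟩, t5⟩, t6⟩ := k2
      exact ⟨not_le.1 fun h => t1 (mem_filter.2 ⟨k3, h⟩),
        fun p hp h => t2 (mem_biUnion.2 ⟨p, hp, mem_filter.2 ⟨k3, h⟩⟩),
        fun p p1 p2 p3 p4 h => t3 (mem_biUnion.2 ⟨p, mem_filter.2
          ⟨Nat.mem_primeFactors.2 ⟨p1, p2, D0.ne'⟩, p3, p4⟩, mem_filter.2 ⟨k3, h⟩⟩),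
        fun h => t5 (mem_filter.2 ⟨k3, h⟩), t6⟩
  have c3 : (Z \ Bad).card ≤ μ * (((X ×ˢ Y).image fun w =>
      qf a b c (s₁ + r * (w.1.1 - w.2.1)) (s₂ + r * (w.1.2 - w.2.2))).erase 0).card := by
    refine card_le_mul_card_image_of_maps_to (f := q) (fun w hw => ?_) _ fun m _ => ?_
    · obtain ⟨t, k, rfl⟩ := mem_image.1 (mem_filter.1 (mem_sdiff.1 hw).1).1
      exact mem_erase.2 ⟨(hG _ hw).2.2.2.1, mem_image.2 ⟨t, k, rfl⟩⟩
    rcases ((Z \ Bad).filter fun w => q w = m).eq_empty_or_nonempty with h | ⟨w₀, h⟩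
    · simp [h]
    obtain ⟨o1, o2⟩ := mem_filter.1 h
    have o3 := hZ1 w₀ (mem_sdiff.1 o1).1
    rw [← card_image_of_injective _ (f := fun w : ℤ × ℤ => (s₁ + r * w.1, s₂ + r * w.2))
      fun w w' e => Prod.ext (mul_left_cancel₀ hr.ne' (add_left_cancel (congrArg Prod.fst e)))
        (mul_left_cancel₀ hr.ne' (add_left_cancel (congrArg Prod.snd e)))]
    refine hμ a b c m z _ (by omega) (o2 ▸ lt_of_le_of_ne (qf_pos ha hD').1 (hG _ o1).2.2.2.1.symm)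
      (o2 ▸ hJ _ _ o3.1 o3.2.1) (forall_mem_image.2 fun w hw => (mem_filter.1 hw).2)
      (forall_mem_image.2 fun w hw => forall_mem_image.2 fun w' hw' k e d rot km d0 => ?_)
    obtain ⟨u1, u2⟩ := mem_filter.1 hw
    obtain ⟨v1, -⟩ := mem_filter.1 hw'
    obtain ⟨t1, t2, t3, -, t6⟩ := hG w u1
    have u3 := hZ1 w (mem_sdiff.1 u1).1
    have v3 := hZ1 w' (mem_sdiff.1 v1).1
    rw [← u2] at km
    by_contra hn
    have key : ∀ p : ℕ, p.Prime → (p : ℤ) ∣ k → p ∈ A := fun p p1 p2 => by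
      have l1 := loc_d p1 rot p2
      have l2 : ¬ (p : ℤ) ∣ r := fun h => by
        rcases hF with rfl | hF
        · exact (Nat.prime_iff_prime_int.1 p1).not_dvd_one h
        · have := loc_r p1 rot p2 (fun k => l1.1 (hF p p1 k e d (rot.nm ▸ pow_dvd_pow_of_dvd p2 2)))
            (by simpa [← mul_sub] using h.mul_right _) (by simpa [← mul_sub] using h.mul_right _)
          exact hs p p1 ⟨(dvd_add_left (h.mul_right _)).1 this.1,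
            (dvd_add_left (h.mul_right _)).1 this.2, h⟩
      refine (hA1 p).2 ⟨p1, not_lt.1 fun l3 => ?_, l2⟩
      by_cases l4 : p ∣ D
      · exact t3 p p1 l4 l3 l2 (p2.trans km)
      by_cases l5 : p ≤ z
      · have l6 := (hP p).2 ⟨p1, l3, l4, l5, l2, l1.2⟩
        exact (hH p l6 _ _ _ _ _ _ _ rot p2).elim ((mem_filter.1 u3.2.2).2 p l6)
          ((mem_filter.1 v3.2.2).2 p l6)
      · exact hn ⟨p, p1, not_le.1 l5, p2, fun h => l4 (Int.natCast_dvd_natCast.1 (hD ▸ h))⟩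
    have l7 := (log_le_lg rot.pos km key t2).trans_lt t1
    rw [← Real.log_pow, Real.log_lt_log_iff (by exact_mod_cast rot.pos) (by positivity)] at l7
    exact t6 (mem_filter.2 ⟨(mem_sdiff.1 u1).1, w'.1, w'.2, k, e, d, v3.1, v3.2.1, rot, d0,
      by exact_mod_cast l7⟩)
  refine le_trans ?_ (by exact_mod_cast c3 : ((Z \ Bad).card : ℝ) ≤ _)
  have e : g * δ ^ 2 / 4 = γ * δ ^ 2 / 4 * (N₁ * N₂) := by rw [hg]; ring
  linarith

end CRx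

theorem cr {δ : ℝ} (hδ : 0 < δ) : ∃ K C₁ : ℕ, 0 < K ∧ ∀ (J R : ℕ) (M : ℝ), ∃ y₀ z₀ : ℕ, 2 ≤ y₀ ∧
    ∀ (a b c s₁ s₂ r : ℤ) (N₁ N₂ y z : ℕ) (X Y : Finset (ℤ × ℤ)),
    0 < a → b ^ 2 < 4 * a * c → Cop3 a b c → Cop3 s₁ s₂ r → 0 < r → (r = 1 ∨ Fund a b c) →
    y₀ ≤ y → z₀ ≤ z → y ^ 8 ≤ z → z ^ K ≤ N₁ → z ^ K ≤ N₂ → 4 * a * c - b ^ 2 ≤ (y : ℤ) ^ R →
    X ⊆ Ico (0 : ℤ) N₁ ×ˢ Ico (0 : ℤ) N₂ → Y ⊆ Ico (0 : ℤ) N₁ ×ˢ Ico (0 : ℤ) N₂ →
    δ * N₁ * N₂ ≤ X.card → δ * N₁ * N₂ ≤ Y.card →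
    (∀ i j : ℤ, |i| < N₁ → |j| < N₂ → qf a b c (s₁ + r * i) (s₂ + r * j) < (z : ℤ) ^ J) →
    ((∀ i j i' j' k e d : ℤ, |i| < N₁ → |j| < N₂ → |i'| < N₁ → |j'| < N₂ →
        Rot a b c k e d (s₁ + r * i) (s₂ + r * j) (s₁ + r * i') (s₂ + r * j') → d ≠ 0 →
        (y : ℤ) ^ C₁ ≤ k) ∨ ((y : ℤ) ^ (5 * C₁) * N₁ ≤ c * N₂ ∧ y ^ (4 * C₁) ≤ z)) →
    M * N₁ * N₂ ≤ (((X ×ˢ Y).image fun w =>
      qf a b c (s₁ + r * (w.1.1 - w.2.1)) (s₂ + r * (w.1.2 - w.2.2))).erase 0).card *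
        √(Real.log z) := by
  have d2 : 0 < δ ^ 2 / 8 := by positivity
  obtain ⟨K, y₁, hsv⟩ := sv (ε := δ ^ 2 / 2) (by positivity)
  obtain ⟨C₁, hC⟩ := exists_nat_gt (408 / (δ ^ 2 / 8))
  have C0 : (0 : ℝ) < C₁ := lt_trans (by positivity) hC
  refine ⟨K + 2, C₁, by omega, fun J R M => ?_⟩
  obtain ⟨μ, hμ⟩ := mult J
  obtain ⟨η, η0, hη⟩ : ∃ η : ℝ, 0 < η ∧ η * (4 * (μ + 1) * (|M| + 1)) = δ ^ 2 :=
    ⟨δ ^ 2 / (4 * (μ + 1) * (|M| + 1)), by positivity, div_mul_cancel₀ _ (by positivity)⟩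
  obtain ⟨y₂, C, heu⟩ := eu R (ε := η ^ 2 / 2) (by positivity)
  obtain ⟨y₃, hy₃⟩ := exists_nat_gt ((235 + 34 * R) / (δ ^ 2 / 8))
  obtain ⟨z₀, hz₀⟩ := eventually_atTop.1 ((Real.tendsto_log_atTop.comp
    tendsto_natCast_atTop_atTop).eventually_ge_atTop (C / (η ^ 2 / 2)))
  refine ⟨y₁ + y₂ + y₃ + 2, z₀, by omega, fun a b c s₁ s₂ r N₁ N₂ y z X Y ha hD hc hs hr hF hy hz
    hyz h1 h2 hR hX hY cX cY hJ hx => ?_⟩
  obtain ⟨D, eD⟩ := Int.eq_ofNat_of_zero_le (sub_pos.2 hD).le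
  have yz : y ≤ z := (Nat.le_self_pow (by norm_num) y).trans hyz
  obtain ⟨P, hP⟩ : ∃ P : Finset ℕ, ∀ p, p ∈ P ↔ p.Prime ∧ y < p ∧ ¬ p ∣ D ∧ p ≤ z ∧
      ¬ (p : ℤ) ∣ r ∧ ∃ ρ : ℤ, (p : ℤ) ∣ ρ ^ 2 - b * ρ + a * c :=
    ⟨(range (z + 1)).filter fun p => p.Prime ∧ y < p ∧ ¬ p ∣ D ∧ p ≤ z ∧ ¬ (p : ℤ) ∣ r ∧
      ∃ ρ : ℤ, (p : ℤ) ∣ ρ ^ 2 - b * ρ + a * c, fun p => mem_filter.trans
        (and_iff_right_of_imp fun h => mem_range.2 (Nat.lt_succ_of_le h.2.2.2.1))⟩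
  have hH : ∀ p ∈ P, ∃ H : ℤ → ℤ, ∀ i j i' j' k e d : ℤ,
      Rot a b c k e d (s₁ + r * i) (s₂ + r * j) (s₁ + r * i') (s₂ + r * j') → (p : ℤ) ∣ k →
      (p : ℤ) ∣ j - H i ∨ (p : ℤ) ∣ j' - H i' := fun p hp => by
    obtain ⟨k1, -, k2, -, k3, ρ, k4⟩ := (hP p).1 hp
    exact loc_sift s₁ s₂ k1 k3 (fun h => k2 (Int.natCast_dvd_natCast.1 (eD ▸ h))) k4
  choose! H hH using hH
  have zp : ∀ k ≤ K + 2, z ^ k ≤ z ^ (K + 2) := fun k hk => Nat.pow_le_pow_right (by omega) hk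
  obtain ⟨γ, g1, g2, g3, g4⟩ := hsv z N₂ P (by omega) ((zp K (by omega)).trans h2) fun p hp => by
    obtain ⟨k1, k2, -, k3, -⟩ := (hP p).1 hp
    exact ⟨k1, by omega, k3⟩
  have z2 : (2 : ℝ) ≤ z := by exact_mod_cast (by omega : 2 ≤ z)
  have g0 : 0 < γ := pos_of_mul_pos_left (by linarith : 0 < γ * z) (by linarith)
  have y3 : (y₃ : ℝ) ≤ y := by exact_mod_cast (by omega : y₃ ≤ y)
  have hR' : D ≤ y ^ R := by exact_mod_cast eD ▸ hR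
  have k := CRx.core hδ.le g3 (CRx.up_of g0.le g4) g2 eD.symm (by omega) ha hP hH hμ hc hs hr hF
    (by omega) hyz ((zp 2 (by omega)).trans h1) ((zp 2 (by omega)).trans h2) hR'
    (by exact_mod_cast C0) (by rw [div_lt_iff₀ d2] at hC; rw [div_le_iff₀ C0]; linarith)
    (by
      rw [div_lt_iff₀ d2] at hy₃
      rw [div_le_iff₀ (by exact_mod_cast (by omega : 0 < y))]
      linarith [mul_le_mul_of_nonneg_right y3 d2.le]) hX hY cX cY hJ hx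
  have e1 := heu D y z P (by omega) (by omega) hR' fun p hp => by
    obtain ⟨k1, k2, k3, k4, -, ρ, k5⟩ := (hP p).1 hp
    refine ⟨k1, k2, k4, k3, 2 * ρ - b, ?_⟩
    rw [← eD, show (2 * ρ - b) ^ 2 + (4 * a * c - b ^ 2) = (ρ ^ 2 - b * ρ + a * c) * 4 by ring]
    exact k5.mul_right _
  have l0 : 0 ≤ Real.log z := Real.log_natCast_nonneg z
  have e2 : C ≤ η ^ 2 / 2 * Real.log z := by
    have := hz₀ z hz
    rw [div_le_iff₀ (by positivity)] at this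
    simpa [mul_comm] using this
  have V0 : 0 ≤ Vp P := prod_nonneg fun p hp => sub_nonneg.2 (inv_le_one_of_one_le₀
    (by exact_mod_cast ((hP p).1 hp).1.pos))
  have e3 : 1 ≤ η * √(Real.log z) * γ := by
    refine le_of_pow_le_pow_left₀ two_ne_zero (by positivity) ?_
    rw [mul_pow, mul_pow, Real.sq_sqrt l0, one_pow]
    exact e1.trans (mul_le_mul (by linarith) (pow_le_pow_left₀ V0 g1 2) (by positivity)
      (by positivity))
  generalize ((((X ×ˢ Y).image fun w => qf a b c (s₁ + r * (w.1.1 - w.2.1))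
    (s₂ + r * (w.1.2 - w.2.2))).erase 0).card) = v at *
  have v0 : (0 : ℝ) ≤ v := Nat.cast_nonneg v
  have B0 : (0 : ℝ) ≤ N₁ * N₂ := by positivity
  have s0 := Real.sqrt_nonneg (Real.log z)
  generalize √(Real.log z) = s at *
  have m0 : (0 : ℝ) < μ + 1 := by positivity
  refine le_of_mul_le_mul_left ?_ m0
  have f1 := mul_le_mul_of_nonneg_right (k.trans (mul_le_mul_of_nonneg_right
    (le_add_of_nonneg_right zero_le_one : (μ : ℝ) ≤ μ + 1) v0)) s0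
  have f2 := mul_le_mul_of_nonneg_left e3 (show 0 ≤ (μ + 1) * (|M| + 1) * (N₁ * N₂ : ℝ) by positivity)
  have f3 := mul_le_mul_of_nonneg_left (mul_le_mul_of_nonneg_right
    (show M ≤ |M| + 1 by linarith [le_abs_self M]) B0) m0.le
  rw [← hη] at f1
  linarith

end Pool.Agent.Lib.MP_ad7336_sd
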