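import Pool.Agent.Lib.MP_ad7336_sd.Defs

set_option autoImplicit false

namespace Pool.Agent.Lib.MP_ad7336_sd

open Finset Filter
open scoped Classical

namespace RHx

theorem cls {S : Finset ℤ} {y : ℤ} {M m : ℕ} (hm : 0 < m) (hS : S ⊆ Ico y (y + M))
    (h : ∀ a ∈ S, ∀ b ∈ S, (m : ℤ) ∣ a - b) : (S.card : ℝ) ≤ M / m + 1 := by
  have hm' : (0 : ℤ) < m := by exact_mod_cast hm
  have key : S.card ≤ (range (M / m + 1)).card := by
    refine card_le_card_of_injOn (fun a => ((a - y) / m).toNat) (fun a ha => ?_) ?_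
    · have := mem_Ico.1 (hS ha)
      have h1 : (a - y) / m ≤ (M : ℤ) / m := Int.ediv_le_ediv hm' (by omega)
      have h2 : ((M / m : ℕ) : ℤ) = (M : ℤ) / m := Int.natCast_div M m
      have h3 : 0 ≤ (a - y) / m := Int.ediv_nonneg (by omega) hm'.le
      simp only [coe_range, Set.mem_Iio]
      omega
    · intro a ha b hb hab
      have ha' := mem_Ico.1 (hS ha)
      have hb' := mem_Ico.1 (hS hb)
      have h1 : 0 ≤ (a - y) / m := Int.ediv_nonneg (by omega) hm'.le
      have h2 : 0 ≤ (b - y) / m := Int.ediv_nonneg (by omega) hm'.le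
      have h3 : (a - y) / m = (b - y) / m := by
        have : ((a - y) / m).toNat = ((b - y) / m).toNat := hab
        omega
      have h4 : (a - y) % m = (b - y) % m :=
        Int.emod_eq_emod_iff_emod_sub_eq_zero.2 (by
          rw [show a - y - (b - y) = a - b by ring]
          exact Int.emod_eq_zero_of_dvd (h a ha b hb))
      have h5 := Int.mul_ediv_add_emod (a - y) m
      have h6 := Int.mul_ediv_add_emod (b - y) m
      rw [h3, h4] at h5
      omega
  rw [card_range] at key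
  have h1 : ((M / m : ℕ) : ℝ) ≤ M / m := Nat.cast_div_le
  have h2 : (S.card : ℝ) ≤ ((M / m + 1 : ℕ) : ℝ) := by exact_mod_cast key
  push_cast at h2
  linarith

theorem split {p : ℕ} (hp : p.Prime) (e : ℕ) {A B : ℤ} (h : (p : ℤ) ^ e ∣ A * B) :
    (p : ℤ) ^ ((e + 1) / 2) ∣ A ∨ (p : ℤ) ^ ((e + 1) / 2) ∣ B := by
  have hq : Prime (p : ℤ) := Nat.prime_iff_prime_int.1 hp
  rcases Nat.eq_zero_or_pos e with rfl | he
  · simp
  by_contra hc
  push Not at hc
  obtain ⟨f, hf⟩ : ∃ f, (e + 1) / 2 = f + 1 := ⟨(e + 1) / 2 - 1, by omega⟩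
  rw [hf] at hc
  have hA : emultiplicity (p : ℤ) A < (f + 1 : ℕ) := by
    rw [← not_le, ← pow_dvd_iff_le_emultiplicity]; exact hc.1
  have hB : emultiplicity (p : ℤ) B < (f + 1 : ℕ) := by
    rw [← not_le, ← pow_dvd_iff_le_emultiplicity]; exact hc.2
  have hAB := pow_dvd_iff_le_emultiplicity.1 h
  rw [emultiplicity_mul hq] at hAB
  have hA' : emultiplicity (p : ℤ) A ≤ f := by
    rw [Nat.cast_succ] at hA; exact Order.le_of_lt_add_one hA
  have hB' : emultiplicity (p : ℤ) B ≤ f := by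
    rw [Nat.cast_succ] at hB; exact Order.le_of_lt_add_one hB
  have h2 : (e : ℕ∞) ≤ ((f + f : ℕ) : ℕ∞) := by
    push_cast; exact hAB.trans (add_le_add hA' hB')
  have h3 : e ≤ f + f := by exact_mod_cast h2
  omega

theorem cancel {p : ℕ} (hp : p.Prime) (f : ℕ) {u A : ℤ} (hu : ¬ (p : ℤ) ∣ u)
    (h : (p : ℤ) ^ f ∣ u * A) : (p : ℤ) ^ f ∣ A :=
  (Nat.prime_iff_prime_int.1 hp).pow_dvd_of_dvd_mul_left f hu h

/-- One line of the rectangle. -/
theorem line {p : ℕ} (hp : p.Prime) (e : ℕ) {α β γ r s y : ℤ} {M : ℕ} (hα : ¬ (p : ℤ) ∣ α)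
    (hr : ¬ (p : ℤ) ∣ r) (hM : p ^ ((e + 1) / 2) ≤ M) {S : Finset ℤ} (hS : S ⊆ Ico y (y + M))
    (h : ∀ j ∈ S, (p : ℤ) ^ e ∣ α * (s + r * j) ^ 2 + β * (s + r * j) + γ) :
    (S.card : ℝ) ≤ 4 * M / p ^ ((e + 1) / 2) := by
  set f := (e + 1) / 2 with hf
  have hm : 0 < p ^ f := pow_pos hp.pos f
  have hm' : (0 : ℝ) < (p : ℝ) ^ f := by exact_mod_cast hm
  have hM' : (1 : ℝ) ≤ M / (p : ℝ) ^ f := by
    rw [le_div_iff₀ hm', one_mul]; exact_mod_cast hM
  rcases S.eq_empty_or_nonempty with rfl | ⟨j₀, hj₀⟩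
  · simp only [card_empty, Nat.cast_zero]; positivity
  have h1 := cls (S := S.filter fun j => (p : ℤ) ^ f ∣ j - j₀) hm
    ((filter_subset _ _).trans hS) (by
      intro a ha b hb
      have := dvd_sub (mem_filter.1 ha).2 (mem_filter.1 hb).2
      push_cast
      rwa [show a - j₀ - (b - j₀) = a - b by ring] at this)
  have aux : ∀ j ∈ S.filter fun j => ¬ (p : ℤ) ^ f ∣ j - j₀,
      (p : ℤ) ^ f ∣ α * ((s + r * j) + (s + r * j₀)) + β := by
    intro j hj
    obtain ⟨hj, hn⟩ := mem_filter.1 hj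
    have h2 := dvd_sub (h j hj) (h j₀ hj₀)
    rw [show α * (s + r * j) ^ 2 + β * (s + r * j) + γ -
      (α * (s + r * j₀) ^ 2 + β * (s + r * j₀) + γ) =
      r * ((j - j₀) * (α * ((s + r * j) + (s + r * j₀)) + β)) by ring] at h2
    exact (split hp e (cancel hp e hr h2)).resolve_left hn
  have h2 := cls (S := S.filter fun j => ¬ (p : ℤ) ^ f ∣ j - j₀) hm
    ((filter_subset _ _).trans hS) (by
      intro a ha b hb
      have := dvd_sub (aux a ha) (aux b hb)
      rw [show α * ((s + r * a) + (s + r * j₀)) + β - (α * ((s + r * b) + (s + r * j₀)) + β) =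
        α * (r * (a - b)) by ring] at this
      push_cast
      exact cancel hp f hr (cancel hp f hα this))
  have h3 := card_filter_add_card_filter_not (s := S) fun j => (p : ℤ) ^ f ∣ j - j₀
  have h4 : (S.card : ℝ) = ((S.filter fun j => (p : ℤ) ^ f ∣ j - j₀).card : ℝ) +
      ((S.filter fun j => ¬ (p : ℤ) ^ f ∣ j - j₀).card : ℝ) := by exact_mod_cast h3.symm
  push_cast at h1 h2
  rw [mul_div_assoc]
  linarith

/-- Counting by fibres. -/
theorem fib {T : Finset (ℤ × ℤ)} {I : Finset ℤ} (φ ψ : ℤ × ℤ → ℤ) {B : ℝ}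
    (hφ : ∀ w ∈ T, φ w ∈ I) (hinj : ∀ w w', φ w = φ w' → ψ w = ψ w' → w = w')
    (h : ∀ k ∈ I, (((T.filter fun w => φ w = k).image ψ).card : ℝ) ≤ B) :
    (T.card : ℝ) ≤ I.card * B := by
  rw [card_eq_sum_card_fiberwise (f := φ) (t := I) fun w hw => hφ w hw]
  push_cast
  rw [← nsmul_eq_mul]
  refine sum_le_card_nsmul _ _ _ fun k hk => ?_
  rw [← card_image_of_injOn (f := ψ)]
  · exact h k hk
  · intro w hw w' hw' e
    exact hinj w w' ((mem_filter.1 hw).2.trans (mem_filter.1 hw').2.symm) e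

theorem one {p : ℕ} (hp : p.Prime) {a b c X X' Y : ℤ} (ha : ¬ (p : ℤ) ∣ a)
    (hD : (p : ℤ) ∣ 4 * a * c - b ^ 2) (h : (p : ℤ) ∣ qf a b c X Y) (h' : (p : ℤ) ∣ qf a b c X' Y) :
    (p : ℤ) ∣ X - X' := by
  have hq : Prime (p : ℤ) := Nat.prime_iff_prime_int.1 hp
  have h1 : (p : ℤ) ∣ (2 * a * X + b * Y) ^ 2 := by
    have := dvd_sub (h.mul_left (4 * a)) (hD.mul_right (Y ^ 2))
    rwa [show 4 * a * qf a b c X Y - (4 * a * c - b ^ 2) * Y ^ 2 = (2 * a * X + b * Y) ^ 2 by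
      unfold qf; ring] at this
  have h2 := hq.dvd_of_dvd_pow h1
  have h3 := dvd_sub h h'
  rw [show qf a b c X Y - qf a b c X' Y = (X - X') * (a * (X + X') + b * Y) by
    unfold qf; ring] at h3
  rcases hq.dvd_or_dvd h3 with h4 | h4
  · exact h4
  · have h5 := dvd_sub h2 h4
    rw [show 2 * a * X + b * Y - (a * (X + X') + b * Y) = a * (X - X') by ring] at h5
    exact (hq.dvd_or_dvd h5).resolve_left ha

end RHx

open RHx

theorem rho2 {a b c r : ℤ} (s₁ s₂ x y : ℤ) {p : ℕ} (hp : p.Prime)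
    (h : ¬ ((p : ℤ) ∣ a ∧ (p : ℤ) ∣ b ∧ (p : ℤ) ∣ c)) (hr : ¬ (p : ℤ) ∣ r) (e : ℕ) {M₁ M₂ : ℕ}
    (h1 : M₂ ≤ M₁) (h2 : p ^ ((e + 1) / 2) ≤ M₂) :
    (((Ico x (x + M₁) ×ˢ Ico y (y + M₂)).filter fun w =>
      (p : ℤ) ^ e ∣ qf a b c (s₁ + r * w.1) (s₂ + r * w.2)).card : ℝ) ≤
      8 * M₁ * M₂ / p ^ ((e + 1) / 2) := by
  set T := (Ico x (x + M₁) ×ˢ Ico y (y + M₂)).filter fun w : ℤ × ℤ =>
      (p : ℤ) ^ e ∣ qf a b c (s₁ + r * w.1) (s₂ + r * w.2) with hT
  have hm : (0 : ℝ) < (p : ℝ) ^ ((e + 1) / 2) := pow_pos (by exact_mod_cast hp.pos) _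
  have hmem : ∀ w ∈ T, w.1 ∈ Ico x (x + M₁) ∧ w.2 ∈ Ico y (y + M₂) ∧
      (p : ℤ) ^ e ∣ qf a b c (s₁ + r * w.1) (s₂ + r * w.2) := fun w hw => by
    obtain ⟨h1, h2⟩ := mem_filter.1 hw
    exact ⟨(mem_product.1 h1).1, (mem_product.1 h1).2, h2⟩
  have hM1 : (0 : ℝ) ≤ M₁ := Nat.cast_nonneg _
  have hM2 : (0 : ℝ) ≤ M₂ := Nat.cast_nonneg _
  by_cases hc : (p : ℤ) ∣ c
  · by_cases ha : (p : ℤ) ∣ a
    · have hb : ¬ (p : ℤ) ∣ a + b + c := fun hh => h ⟨ha, by
        have := dvd_sub (dvd_sub hh ha) hc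
        rwa [show a + b + c - a - c = b by ring] at this, hc⟩
      have key := fib (T := T) (I := Ico (x - y - M₁) (x - y + M₁)) (fun w => w.1 - w.2) (·.2)
        (B := 4 * M₂ / p ^ ((e + 1) / 2)) (fun w hw => by
          obtain ⟨u1, u2, -⟩ := hmem w hw
          rw [mem_Ico] at u1 u2 ⊢
          omega) (fun w w' e1 e2 => Prod.ext (by omega) e2) (fun k _ => by
          refine line hp e (α := a + b + c) (β := (2 * a + b) * (s₁ - s₂ + r * k))
            (γ := a * (s₁ - s₂ + r * k) ^ 2) (s := s₂) (y := y) hb hr h2 ?_ ?_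
          · intro j hj
            obtain ⟨w, hw, rfl⟩ := mem_image.1 hj
            exact (hmem w (mem_filter.1 hw).1).2.1
          · intro j hj
            obtain ⟨w, hw, rfl⟩ := mem_image.1 hj
            obtain ⟨hw0, rfl⟩ := mem_filter.1 hw
            have := (hmem w hw0).2.2
            convert this using 1
            unfold qf; ring)
      rw [Int.card_Ico, show (x - y + M₁ - (x - y - M₁)).toNat = 2 * M₁ by omega] at key
      push_cast at key
      refine key.trans (le_of_eq ?_)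
      ring
    · have key := fib (T := T) (I := Ico y (y + M₂)) (·.2) (·.1)
        (B := 4 * M₁ / p ^ ((e + 1) / 2)) (fun w hw => (hmem w hw).2.1)
        (fun w w' e1 e2 => Prod.ext e2 e1) (fun k _ => by
          refine line hp e (α := a) (β := b * (s₂ + r * k))
            (γ := c * (s₂ + r * k) ^ 2) (s := s₁) (y := x) ha hr (h2.trans h1) ?_ ?_
          · intro j hj
            obtain ⟨w, hw, rfl⟩ := mem_image.1 hj
            exact (hmem w (mem_filter.1 hw).1).1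
          · intro j hj
            obtain ⟨w, hw, rfl⟩ := mem_image.1 hj
            obtain ⟨hw0, rfl⟩ := mem_filter.1 hw
            have := (hmem w hw0).2.2
            convert this using 1
            unfold qf; ring)
      rw [Int.card_Ico, show (y + M₂ - y).toNat = M₂ by omega] at key
      refine key.trans ?_
      rw [← mul_div_assoc]
      exact div_le_div_of_nonneg_right (by nlinarith [mul_nonneg hM1 hM2]) hm.le
  · have key := fib (T := T) (I := Ico x (x + M₁)) (·.1) (·.2)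
      (B := 4 * M₂ / p ^ ((e + 1) / 2)) (fun w hw => (hmem w hw).1)
      (fun w w' e1 e2 => Prod.ext e1 e2) (fun k _ => by
        refine line hp e (α := c) (β := b * (s₁ + r * k))
          (γ := a * (s₁ + r * k) ^ 2) (s := s₂) (y := y) hc hr h2 ?_ ?_
        · intro j hj
          obtain ⟨w, hw, rfl⟩ := mem_image.1 hj
          exact (hmem w (mem_filter.1 hw).1).2.1
        · intro j hj
          obtain ⟨w, hw, rfl⟩ := mem_image.1 hj
          obtain ⟨hw0, rfl⟩ := mem_filter.1 hw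
          have := (hmem w hw0).2.2
          convert this using 1
          unfold qf; ring)
    rw [Int.card_Ico, show (x + M₁ - x).toNat = M₁ by omega] at key
    refine key.trans ?_
    rw [← mul_div_assoc]
    exact div_le_div_of_nonneg_right (by nlinarith [mul_nonneg hM1 hM2]) hm.le

theorem rho3 {a b c r : ℤ} (s₁ s₂ x y : ℤ) {p : ℕ} (hp : p.Prime)
    (h : ¬ ((p : ℤ) ∣ a ∧ (p : ℤ) ∣ b ∧ (p : ℤ) ∣ c)) (hr : ¬ (p : ℤ) ∣ r)
    (hD : (p : ℤ) ∣ 4 * a * c - b ^ 2) {Z M₁ M₂ : ℕ} (h0 : 0 < Z) (h1 : Z ≤ p) (h2 : Z ≤ M₁)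
    (h3 : Z ≤ M₂) :
    (((Ico x (x + M₁) ×ˢ Ico y (y + M₂)).filter fun w =>
      (p : ℤ) ∣ qf a b c (s₁ + r * w.1) (s₂ + r * w.2)).card : ℝ) ≤ 4 * M₁ * M₂ / Z := by
  set T := (Ico x (x + M₁) ×ˢ Ico y (y + M₂)).filter fun w : ℤ × ℤ =>
      (p : ℤ) ∣ qf a b c (s₁ + r * w.1) (s₂ + r * w.2) with hT
  have hq : Prime (p : ℤ) := Nat.prime_iff_prime_int.1 hp
  have hZ : (0 : ℝ) < Z := by exact_mod_cast h0
  have hmem : ∀ w ∈ T, w.1 ∈ Ico x (x + M₁) ∧ w.2 ∈ Ico y (y + M₂) ∧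
      (p : ℤ) ∣ qf a b c (s₁ + r * w.1) (s₂ + r * w.2) := fun w hw => by
    obtain ⟨h1, h2⟩ := mem_filter.1 hw
    exact ⟨(mem_product.1 h1).1, (mem_product.1 h1).2, h2⟩
  have hM1 : (0 : ℝ) ≤ M₁ := Nat.cast_nonneg _
  have hM2 : (0 : ℝ) ≤ M₂ := Nat.cast_nonneg _
  have bd : ∀ M : ℕ, Z ≤ M → (M : ℝ) / p + 1 ≤ 2 * M / Z := fun M hM => by
    have e1 : (M : ℝ) / p ≤ M / Z :=
      div_le_div_of_nonneg_left (Nat.cast_nonneg _) hZ (by exact_mod_cast h1)
    have e2 : (1 : ℝ) ≤ M / Z := by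
      rw [le_div_iff₀ hZ, one_mul]; exact_mod_cast hM
    rw [mul_div_assoc]
    linarith
  by_cases ha : (p : ℤ) ∣ a
  · have hc : ¬ (p : ℤ) ∣ c := fun hc => h ⟨ha, hq.dvd_of_dvd_pow (n := 2) (by
      have := dvd_sub (hc.mul_left (4 * a)) hD
      rwa [show 4 * a * c - (4 * a * c - b ^ 2) = b ^ 2 by ring] at this), hc⟩
    have key := fib (T := T) (I := Ico x (x + M₁)) (·.1) (·.2)
      (B := 2 * M₂ / Z) (fun w hw => (hmem w hw).1)
      (fun w w' e1 e2 => Prod.ext e1 e2) (fun k _ => by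
        refine (cls (y := y) (M := M₂) hp.pos ?_ ?_).trans (bd M₂ h3)
        · intro j hj
          obtain ⟨w, hw, rfl⟩ := mem_image.1 hj
          exact (hmem w (mem_filter.1 hw).1).2.1
        · intro j hj j' hj'
          obtain ⟨w, hw, rfl⟩ := mem_image.1 hj
          obtain ⟨w', hw', rfl⟩ := mem_image.1 hj'
          obtain ⟨hw0, rfl⟩ := mem_filter.1 hw
          obtain ⟨hw', e⟩ := mem_filter.1 hw'
          have u := (hmem w hw0).2.2
          have u' := (hmem w' hw').2.2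
          have := one hp (a := c) (b := b) (c := a) (X := s₂ + r * w.2) (X' := s₂ + r * w'.2)
            (Y := s₁ + r * w.1) hc (by convert hD using 1; ring)
            (by convert u using 1; unfold qf; ring)
            (by rw [← e]; convert u' using 1; unfold qf; ring)
          rw [show s₂ + r * w.2 - (s₂ + r * w'.2) = r * (w.2 - w'.2) by ring] at this
          exact (hq.dvd_or_dvd this).resolve_left hr)
    rw [Int.card_Ico, show (x + M₁ - x).toNat = M₁ by omega] at key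
    refine key.trans ?_
    rw [← mul_div_assoc]
    exact div_le_div_of_nonneg_right (by nlinarith [mul_nonneg hM1 hM2]) hZ.le
  · have key := fib (T := T) (I := Ico y (y + M₂)) (·.2) (·.1)
      (B := 2 * M₁ / Z) (fun w hw => (hmem w hw).2.1)
      (fun w w' e1 e2 => Prod.ext e2 e1) (fun k _ => by
        refine (cls (y := x) (M := M₁) hp.pos ?_ ?_).trans (bd M₁ h2)
        · intro j hj
          obtain ⟨w, hw, rfl⟩ := mem_image.1 hj
          exact (hmem w (mem_filter.1 hw).1).1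
        · intro j hj j' hj'
          obtain ⟨w, hw, rfl⟩ := mem_image.1 hj
          obtain ⟨w', hw', rfl⟩ := mem_image.1 hj'
          obtain ⟨hw0, rfl⟩ := mem_filter.1 hw
          obtain ⟨hw', e⟩ := mem_filter.1 hw'
          have u := (hmem w hw0).2.2
          have u' := (hmem w' hw').2.2
          have := one hp (X := s₁ + r * w.1) (X' := s₁ + r * w'.1)
            (Y := s₂ + r * w.2) ha hD u (by rw [← e]; exact u')
          rw [show s₁ + r * w.1 - (s₁ + r * w'.1) = r * (w.1 - w'.1) by ring] at this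
          exact (hq.dvd_or_dvd this).resolve_left hr)
    rw [Int.card_Ico, show (y + M₂ - y).toNat = M₂ by omega] at key
    refine key.trans ?_
    rw [← mul_div_assoc]
    exact div_le_div_of_nonneg_right (by nlinarith [mul_nonneg hM1 hM2]) hZ.le

end Pool.Agent.Lib.MP_ad7336_sd
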