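import Pool.Agent.Lib.MP_ad7336_sd.SV
import Pool.Agent.Lib.MP_ad7336_sd.RH

set_option autoImplicit false

namespace Pool.Agent.Lib.MP_ad7336_sd

open Finset Filter
open scoped Classical

namespace CRx

def col (S : Finset (ℤ × ℤ)) (i : ℤ) : Finset ℤ := (S.filter fun w => w.1 = i).image Prod.snd

theorem mem_col {S : Finset (ℤ × ℤ)} {i j : ℤ} : j ∈ col S i ↔ (i, j) ∈ S := by
  simp only [col, mem_image, mem_filter]
  exact ⟨fun ⟨w, ⟨h1, h2⟩, h3⟩ => by rw [← h2, ← h3]; exact h1, fun h => ⟨_, ⟨h, rfl⟩, rfl⟩⟩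

theorem card_col {S : Finset (ℤ × ℤ)} {I : Finset ℤ} (h : ∀ w ∈ S, w.1 ∈ I) :
    (S.card : ℝ) = ∑ i ∈ I, ((col S i).card : ℝ) := by
  rw [card_eq_sum_card_fiberwise (f := Prod.fst) (t := I) h, Nat.cast_sum]
  refine sum_congr rfl fun i _ => ?_
  rw [col, card_image_of_injOn]
  intro w hw w' hw' e
  exact Prod.ext ((mem_filter.1 hw).2.trans (mem_filter.1 hw').2.symm) e

/-- The lower half of the sieve. -/
def Lo (P : Finset ℕ) (γ ε : ℝ) (N : ℕ) : Prop :=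
  ∀ (h : ℕ → ℤ) (A B : Finset ℤ), A ⊆ Ico (0 : ℤ) N → B ⊆ Ico (0 : ℤ) N →
    γ * (A.card * B.card - ε * N ^ 2) ≤ ((A ×ˢ B).filter fun w => Sif P h (w.1 - w.2)).card

/-- The upper half of the sieve. -/
def Up (P : Finset ℕ) (γ : ℝ) (N z : ℕ) : Prop :=
  ∀ (h : ℕ → ℤ) (d M : ℕ) (x : ℤ) (R : ℤ → Prop) (S S' : Finset ℤ), 0 < d → d ≤ z ^ 2 →
    (∀ p ∈ P, ¬ p ∣ d) → (∀ j, R (j + d) ↔ R j) →
    (∀ j ∈ S, j ∈ Ico x (x + M) ∧ Sif P h j ∧ R j) → (∀ j ∈ Ico (0 : ℤ) d, R j → j ∈ S') →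
    (S.card : ℝ) ≤ γ * M / d * S'.card + N / z ^ 10

theorem up_of {P : Finset ℕ} {γ : ℝ} {N z : ℕ} (hγ : 0 ≤ γ)
    (hU : ∀ (h : ℕ → ℤ) (d M : ℕ) (x : ℤ) (R : ℤ → Prop), 0 < d → d ≤ z ^ 2 → (∀ p ∈ P, ¬ p ∣ d) →
      (∀ j, R (j + d) ↔ R j) →
      (((Ico x (x + M)).filter fun j => Sif P h j ∧ R j).card : ℝ) ≤
        γ * M * ((Ico (0 : ℤ) d).filter R).card / d + N / z ^ 10) : Up P γ N z := by
  intro h d M x R S S' h1 h2 h3 h4 h5 h6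
  refine le_trans (Nat.cast_le.2 (card_le_card fun j hj => mem_filter.2 (h5 j hj)))
    ((hU h d M x R h1 h2 h3 h4).trans (add_le_add_left ?_ _))
  rw [div_mul_eq_mul_div]
  refine div_le_div_of_nonneg_right (mul_le_mul_of_nonneg_left (Nat.cast_le.2
    (card_le_card fun j hj => ?_)) (by positivity)) (Nat.cast_nonneg _)
  exact h6 j (mem_filter.1 hj).1 (mem_filter.1 hj).2

def Sf (P : Finset ℕ) (H : ℕ → ℤ → ℤ) (w : ℤ × ℤ) : Prop := Sif P (fun p => H p w.1) w.2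

noncomputable def Wb (N₁ N₂ : ℕ) : Finset (ℤ × ℤ) :=
  Ico (-(N₁ : ℤ)) (-(N₁ : ℤ) + (2 * N₁ : ℕ)) ×ˢ Ico (-(N₂ : ℤ)) (-(N₂ : ℤ) + (2 * N₂ : ℕ))

theorem lower {P : Finset ℕ} {γ δ : ℝ} {N₁ N₂ : ℕ} (hγ : 0 ≤ γ) (hδ : 0 ≤ δ) (h1 : 0 < N₁)
    (h2 : 0 < N₂) (hL : Lo P γ (δ ^ 2 / 2) N₂) (H : ℕ → ℤ → ℤ) {X Y : Finset (ℤ × ℤ)}
    (hX : X ⊆ Ico (0 : ℤ) N₁ ×ˢ Ico (0 : ℤ) N₂) (hY : Y ⊆ Ico (0 : ℤ) N₁ ×ˢ Ico (0 : ℤ) N₂)
    (cX : δ * N₁ * N₂ ≤ X.card) (cY : δ * N₁ * N₂ ≤ Y.card) :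
    γ * δ ^ 2 / 2 * (N₁ * N₂) ≤ ((((X ×ˢ Y).image fun w => w.1 - w.2).filter (Sf P H)).card : ℝ) := by
  set PS := (X ×ˢ Y).filter fun w => Sf P H (w.1 - w.2) with hPS
  have hB : (0 : ℝ) < N₁ * N₂ := by positivity
  have a1 : (PS.card : ℝ) = ∑ t ∈ Ico (0 : ℤ) N₁ ×ˢ Ico (0 : ℤ) N₁,
      ((PS.filter fun w => (w.1.1, w.2.1) = t).card : ℝ) := by
    rw [card_eq_sum_card_fiberwise (f := fun w : (ℤ × ℤ) × ℤ × ℤ => (w.1.1, w.2.1))
      (t := Ico (0 : ℤ) N₁ ×ˢ Ico (0 : ℤ) N₁) fun w hw => ?_, Nat.cast_sum]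
    have := mem_product.1 (mem_filter.1 hw).1
    exact mem_product.2 ⟨(mem_product.1 (hX this.1)).1, (mem_product.1 (hY this.2)).1⟩
  have a2 : ∀ t : ℤ × ℤ, γ * ((col X t.1).card * (col Y t.2).card - δ ^ 2 / 2 * N₂ ^ 2) ≤
      ((PS.filter fun w => (w.1.1, w.2.1) = t).card : ℝ) := fun t => by
    refine (hL (fun p => H p (t.1 - t.2)) _ _ (fun j hj => (mem_product.1 (hX (mem_col.1 hj))).2)
      fun j hj => (mem_product.1 (hY (mem_col.1 hj))).2).trans (Nat.cast_le.2 ?_)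
    refine card_le_card_of_injOn (fun w => ((t.1, w.1), (t.2, w.2))) (fun w hw => ?_) ?_
    · have hw' := mem_filter.1 (mem_coe.1 hw)
      have := mem_product.1 hw'.1
      exact mem_coe.2 (mem_filter.2 ⟨mem_filter.2
        ⟨mem_product.2 ⟨mem_col.1 this.1, mem_col.1 this.2⟩, hw'.2⟩, rfl⟩)
    · intro w _ w' _ e
      simp only [Prod.mk.injEq, true_and] at e
      exact Prod.ext e.1 e.2
  have a3 : γ * (X.card * Y.card - δ ^ 2 / 2 * (N₁ * N₂) ^ 2) ≤ PS.card := by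
    rw [a1]
    refine le_trans (le_of_eq ?_) (sum_le_sum fun t _ => a2 t)
    rw [← mul_sum, sum_sub_distrib, sum_product, card_col fun w hw => (mem_product.1 (hX hw)).1,
      card_col fun w hw => (mem_product.1 (hY hw)).1, sum_mul_sum]
    simp only [sum_const, card_product, Int.card_Ico, sub_zero, Int.toNat_natCast, nsmul_eq_mul]
    push_cast
    ring
  have a4 : PS.card ≤ N₁ * N₂ * (((X ×ˢ Y).image fun w => w.1 - w.2).filter (Sf P H)).card := by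
    refine card_le_mul_card_image_of_maps_to (f := fun w => w.1 - w.2) (fun w hw => ?_) _ fun t _ => ?_
    · have := mem_filter.1 hw
      exact mem_filter.2 ⟨mem_image_of_mem _ this.1, this.2⟩
    · have e : N₁ * N₂ = (Ico (0 : ℤ) N₁ ×ˢ Ico (0 : ℤ) N₂).card := by simp
      rw [e]
      refine card_le_card_of_injOn Prod.fst (fun w hw => ?_) fun w hw w' hw' e => ?_
      · exact hX (mem_product.1 (mem_filter.1 (mem_filter.1 (mem_coe.1 hw)).1).1).1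
      · have k1 := (mem_filter.1 (mem_coe.1 hw)).2
        have k2 := (mem_filter.1 (mem_coe.1 hw')).2
        refine Prod.ext e ?_
        rw [← k2, e] at k1
        exact sub_right_injective k1
  have a5 : (PS.card : ℝ) ≤
      N₁ * N₂ * (((X ×ˢ Y).image fun w => w.1 - w.2).filter (Sf P H)).card := by exact_mod_cast a4
  have a6 : δ * N₁ * N₂ * (δ * N₁ * N₂) ≤ X.card * Y.card :=
    mul_le_mul cX cY (by positivity) (Nat.cast_nonneg _)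
  have a7 := mul_le_mul_of_nonneg_left a6 hγ
  refine le_of_mul_le_mul_left ?_ hB
  linarith

theorem upA {P : Finset ℕ} {γ : ℝ} {N₁ N₂ z : ℕ} (hU : Up P γ N₂ z) (hγ : 1 ≤ γ * z)
    (hP : ∀ p ∈ P, p.Prime) (H : ℕ → ℤ → ℤ) {a b c r : ℤ} (s₁ s₂ : ℤ) (hz : z ^ 2 ≤ N₁) {p e : ℕ}
    (hp : p.Prime) (hpP : p ∉ P) (hc : Cop3 a b c) (hr : ¬ (p : ℤ) ∣ r) (he : p ^ (2 * e + 1) ≤ z ^ 2) :
    (((Wb N₁ N₂).filter fun w => Sf P H w ∧
      (p : ℤ) ^ (2 * e + 1) ∣ qf a b c (s₁ + r * w.1) (s₂ + r * w.2)).card : ℝ) ≤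
      34 * (γ * (N₁ * N₂)) / (p : ℝ) ^ (e + 1) := by
  set d := p ^ (2 * e + 1) with hd
  have p0 := hp.pos
  have d0 : 0 < d := by positivity
  have z0 : 0 < z := Nat.pos_of_ne_zero (by rintro rfl; simp at hγ; linarith)
  have z1 : (1 : ℝ) ≤ z := by exact_mod_cast z0
  have g0 : 0 < γ := pos_of_mul_pos_left (by linarith : 0 < γ * z) (by linarith)
  have hpd : p ^ (e + 1) ≤ d := Nat.pow_le_pow_right p0 (by omega)
  have r2 := rho2 s₁ s₂ (-(N₁ : ℤ)) 0 hp (hc p hp) hr (2 * e + 1) (M₁ := 2 * N₁) (M₂ := d)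
    (by omega) (by rw [show (2 * e + 1 + 1) / 2 = e + 1 by omega]; exact hpd)
  rw [show (2 * e + 1 + 1) / 2 = e + 1 by omega,
    card_col (I := Ico (-(N₁ : ℤ)) (-(N₁ : ℤ) + (2 * N₁ : ℕ)))
      fun w hw => (mem_product.1 (mem_filter.1 hw).1).1] at r2
  rw [Wb, card_col (I := Ico (-(N₁ : ℤ)) (-(N₁ : ℤ) + (2 * N₁ : ℕ)))
    fun w hw => (mem_product.1 (mem_filter.1 hw).1).1]
  refine (sum_le_sum (g := fun i => γ * (2 * N₂ : ℕ) / d * ((col ((Ico (-(N₁ : ℤ))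
    (-(N₁ : ℤ) + (2 * N₁ : ℕ)) ×ˢ Ico (0 : ℤ) (0 + d)).filter fun w =>
      (p : ℤ) ^ (2 * e + 1) ∣ qf a b c (s₁ + r * w.1) (s₂ + r * w.2)) i).card : ℝ) + N₂ / z ^ 10)
    fun i hi => ?_).trans ?_
  · refine hU (fun p => H p i) d (2 * N₂) (-(N₂ : ℤ))
      (fun j => (p : ℤ) ^ (2 * e + 1) ∣ qf a b c (s₁ + r * i) (s₂ + r * j)) _ _ d0 he
      (fun q hq h => hpP ((Nat.prime_dvd_prime_iff_eq (hP q hq) hp).1
        ((hP q hq).dvd_of_dvd_pow h) ▸ hq)) (fun j => ?_) (fun j hj => ?_) fun j hj h => ?_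
    · have : qf a b c (s₁ + r * i) (s₂ + r * (j + d)) = qf a b c (s₁ + r * i) (s₂ + r * j) +
          (p : ℤ) ^ (2 * e + 1) * (r * (b * (s₁ + r * i) + c * (2 * (s₂ + r * j) + r * d))) := by
        rw [hd]; unfold qf; push_cast; ring
      rw [this]
      exact dvd_add_left (dvd_mul_right _ _)
    · have := mem_filter.1 (mem_col.1 hj)
      exact ⟨(mem_product.1 this.1).2, this.2⟩
    · exact mem_col.2 (mem_filter.2 ⟨mem_product.2 ⟨hi, by simpa using hj⟩, h⟩)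
  · rw [sum_add_distrib, ← mul_sum, sum_const, Int.card_Ico, nsmul_eq_mul]
    have e1 : ((-(N₁ : ℤ) + (2 * N₁ : ℕ) - -(N₁ : ℤ)).toNat : ℝ) = 2 * N₁ := by
      rw [add_sub_cancel_left, Int.toNat_natCast]; push_cast; ring
    have dr : (0 : ℝ) < d := by exact_mod_cast d0
    have pr : (0 : ℝ) < (p : ℝ) ^ (e + 1) := by positivity
    have k1 := mul_le_mul_of_nonneg_left r2 (show 0 ≤ γ * (2 * N₂ : ℕ) / d by positivity)
    have k2 : (p : ℝ) ^ (e + 1) ≤ γ * z ^ 10 := by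
      have b1 : (p : ℝ) ^ (e + 1) ≤ z ^ 2 := by exact_mod_cast hpd.trans he
      have b2 : (z : ℝ) ^ 2 ≤ z ^ 9 := pow_le_pow_right₀ z1 (by norm_num)
      have b3 := mul_le_mul_of_nonneg_right hγ (show (0 : ℝ) ≤ z ^ 9 by positivity)
      linarith
    have k3 : (N₂ : ℝ) / z ^ 10 ≤ γ * N₂ / p ^ (e + 1) := by
      rw [div_le_div_iff₀ (by positivity) pr]
      have := mul_le_mul_of_nonneg_left k2 (Nat.cast_nonneg (α := ℝ) N₂)
      linarith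
    have k4 := mul_le_mul_of_nonneg_left k3 (show (0 : ℝ) ≤ 2 * N₁ by positivity)
    rw [e1]
    refine (add_le_add k1 k4).trans (le_of_eq ?_)
    push_cast
    field_simp
    ring

end CRx

end Pool.Agent.Lib.MP_ad7336_sd
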