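import Pool.Agent.Lib.MP_ad7336_sd.CRa
import Pool.Agent.Lib.MP_ad7336_sd.AL1

set_option autoImplicit false

namespace Pool.Agent.Lib.MP_ad7336_sd

open Finset Filter
open scoped Classical

namespace CRx

theorem card_Wb (N₁ N₂ : ℕ) : (Wb N₁ N₂).card = 2 * N₁ * (2 * N₂) := by
  simp only [Wb, card_product, Int.card_Ico, add_sub_cancel_left, Int.toNat_natCast]

theorem ex_F {p : ℕ} (hp : p.Prime) (z : ℕ) : ∃ f : ℕ, z < p ^ (2 * f + 1) :=
  ⟨z, (Nat.lt_pow_self hp.one_lt).trans_le (Nat.pow_le_pow_right hp.pos (by omega))⟩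

noncomputable def FF (z p : ℕ) : ℕ := if h : p.Prime then Nat.find (ex_F h z) else 0

theorem FF_lt {z p : ℕ} (hp : p.Prime) : z < p ^ (2 * FF z p + 1) := by
  rw [FF, dif_pos hp]
  exact Nat.find_spec (ex_F hp z)

theorem FF_le {z p f y : ℕ} (hp : p.Prime) (hf : f ≤ FF z p) (hy : p ≤ y) (hz : y ^ 8 ≤ z) :
    p ^ (2 * f + 1) ≤ z ^ 2 := by
  have h1 : p ^ 2 ≤ z := (Nat.pow_le_pow_left hy 2).trans
    ((Nat.pow_le_pow_right (hp.pos.trans_le hy) (by norm_num)).trans hz)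
  have h2 : p ≤ p ^ 2 := Nat.le_self_pow two_ne_zero p
  rcases f with _ | f
  · simpa using h2.trans (h1.trans (Nat.le_self_pow two_ne_zero z))
  · rw [FF, dif_pos hp] at hf
    have := not_lt.1 (Nat.find_min (ex_F hp z) (Nat.lt_of_succ_le hf))
    rw [show 2 * (f + 1) + 1 = 2 * f + 1 + 2 by ring, pow_add, sq z]
    exact Nat.mul_le_mul this h1

/-- Logarithmic size of the smooth part. -/
noncomputable def lg (A : Finset ℕ) (z : ℕ) (m : ℤ) : ℝ :=
  ∑ p ∈ A, ∑ f ∈ range (FF z p), if (p : ℤ) ^ (2 * f + 1) ∣ m then 2 * Real.log p else 0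

theorem lg_nonneg (A : Finset ℕ) (z : ℕ) (m : ℤ) : 0 ≤ lg A z m :=
  sum_nonneg fun p _ => sum_nonneg fun f _ => by
    have := Real.log_natCast_nonneg p
    split_ifs <;> linarith

theorem log_le_lg {A : Finset ℕ} {z : ℕ} {k m : ℤ} (hk : 0 < k) (hkm : k ∣ m)
    (hA : ∀ p : ℕ, p.Prime → (p : ℤ) ∣ k → p ∈ A)
    (hF : ∀ p ∈ A, ¬ (p : ℤ) ^ (2 * FF z p + 1) ∣ m) : Real.log k ≤ lg A z m := by
  obtain ⟨n, rfl⟩ := Int.eq_ofNat_of_zero_le hk.le
  have n0 : n ≠ 0 := by omega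
  have e : Real.log (n : ℤ) = ∑ p ∈ n.primeFactors, n.factorization p * Real.log p := by
    conv_lhs => rw [Int.cast_natCast, ← Nat.prod_factorization_pow_eq_self n0]
    rw [Finsupp.prod, Nat.cast_prod, Real.log_prod fun p hp => by
      have := (Nat.prime_of_mem_primeFactors hp).pos
      positivity]
    exact sum_congr rfl fun p _ => by rw [Nat.cast_pow, Real.log_pow]
  rw [e]
  refine (sum_le_sum fun p hp => ?_).trans (sum_le_sum_of_subset_of_nonneg (fun p hp =>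
    hA p (Nat.prime_of_mem_primeFactors hp) (Int.natCast_dvd_natCast.2
      (Nat.dvd_of_mem_primeFactors hp))) fun p _ _ => sum_nonneg fun f _ => by
        have := Real.log_natCast_nonneg p
        split_ifs <;> linarith)
  have pp := Nat.prime_of_mem_primeFactors hp
  have l0 := Real.log_natCast_nonneg p
  set v := n.factorization p
  have hv : ∀ j ≤ v, (p : ℤ) ^ j ∣ m := fun j hj =>
    (by exact_mod_cast (pp.pow_dvd_iff_le_factorization n0).2 hj : (p : ℤ) ^ j ∣ n).trans hkm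
  have h1 : v ≤ 2 * FF z p := by
    by_contra h
    exact hF p (hA p pp (Int.natCast_dvd_natCast.2 (Nat.dvd_of_mem_primeFactors hp)))
      (hv _ (by omega))
  calc (v : ℝ) * Real.log p ≤ ((v + 1) / 2 : ℕ) * (2 * Real.log p) := by
        have : (v : ℝ) ≤ ((v + 1) / 2 : ℕ) * 2 := by exact_mod_cast (by omega : v ≤ (v + 1) / 2 * 2)
        nlinarith
    _ = ∑ f ∈ range ((v + 1) / 2), if (p : ℤ) ^ (2 * f + 1) ∣ m then 2 * Real.log p else 0 := by
        rw [sum_congr rfl fun f hf => if_pos (hv _ (by have := mem_range.1 hf; omega))]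
        simp
    _ ≤ _ := sum_le_sum_of_subset_of_nonneg (range_subset_range.2 (by omega)) fun f _ _ => by
        split_ifs <;> linarith

theorem geo {p : ℕ} (hp : p.Prime) (F : ℕ) : ∑ f ∈ range F, 1 / (p : ℝ) ^ (f + 1) ≤ 2 / p := by
  have h2 : (2 : ℝ) ≤ p := by exact_mod_cast hp.two_le
  refine le_trans (sum_le_sum (g := fun f => 1 / (p : ℝ) * (1 / 2) ^ f) fun f _ => ?_) ?_
  · rw [pow_succ', one_div_pow, one_div_mul_one_div]
    exact one_div_le_one_div_of_le (by positivity)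
      (mul_le_mul_of_nonneg_left (pow_le_pow_left₀ (by norm_num) h2 f) (by linarith))
  · rw [← mul_sum]
    refine (mul_le_mul_of_nonneg_left (sum_geometric_two_le F) (by positivity)).trans (le_of_eq ?_)
    ring

theorem bad1 {S : Finset (ℤ × ℤ)} {q : ℤ × ℤ → ℤ} {A : Finset ℕ} {y z C₁ : ℕ} {g : ℝ} (hg : 0 ≤ g)
    (hy : 2 ≤ y) (hC : 0 < C₁) (hA : ∀ p ∈ A, p.Prime ∧ p ≤ y)
    (h : ∀ p ∈ A, ∀ f < FF z p, ((S.filter fun w => (p : ℤ) ^ (2 * f + 1) ∣ q w).card : ℝ) ≤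
      34 * g / (p : ℝ) ^ (f + 1)) :
    ((S.filter fun w => C₁ * Real.log y ≤ lg A z (q w)).card : ℝ) ≤ 408 * g / C₁ := by
  have y2 : (2 : ℝ) ≤ y := by exact_mod_cast hy
  have ly : 0 < Real.log y := Real.log_pos (by linarith)
  have c0 : (0 : ℝ) < C₁ := by exact_mod_cast hC
  have a1 : ((S.filter fun w => C₁ * Real.log y ≤ lg A z (q w)).card : ℝ) * (C₁ * Real.log y) ≤
      ∑ w ∈ S, lg A z (q w) := by
    rw [← nsmul_eq_mul, ← sum_const]
    exact (sum_le_sum fun w hw => (mem_filter.1 hw).2).trans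
      (sum_le_sum_of_subset_of_nonneg (filter_subset _ _) fun w _ _ => lg_nonneg _ _ _)
  have a2 : ∑ w ∈ S, lg A z (q w) ≤ ∑ p ∈ A, 136 * g * (Real.log p / p) := by
    unfold lg
    rw [sum_comm]
    refine sum_le_sum fun p hp => ?_
    have l0 := Real.log_natCast_nonneg p
    rw [sum_comm]
    refine (sum_le_sum (g := fun f => 68 * g * Real.log p * (1 / (p : ℝ) ^ (f + 1)))
      fun f hf => ?_).trans ?_
    · rw [← sum_filter, sum_const, nsmul_eq_mul]
      refine (mul_le_mul_of_nonneg_right (h p hp f (mem_range.1 hf)) (by linarith)).trans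
        (le_of_eq ?_)
      ring
    · rw [← mul_sum]
      refine (mul_le_mul_of_nonneg_left (geo (hA p hp).1 _) (by positivity)).trans (le_of_eq ?_)
      ring
  have a3 := TorsRank.mertens_le y (by omega) A hA
  have a4 : Real.log 4 ≤ 2 * Real.log y := by
    rw [show (4 : ℝ) = 2 ^ 2 by norm_num, Real.log_pow]
    have := Real.log_le_log two_pos y2
    push_cast
    linarith
  rw [← mul_sum] at a2
  have a5 := mul_le_mul_of_nonneg_left (a3.trans (add_le_add_right a4 _)) (show 0 ≤ 136 * g by positivity)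
  rw [le_div_iff₀ c0]
  refine le_of_mul_le_mul_right ?_ ly
  linarith

theorem card_big {D y R : ℕ} (hD : 0 < D) (hy : 2 ≤ y) (h : D ≤ y ^ R) :
    (D.primeFactors.filter fun p => y < p).card ≤ R := by
  have h1 : y ^ (D.primeFactors.filter fun p => y < p).card ≤
      ∏ p ∈ D.primeFactors.filter fun p => y < p, p :=
    pow_card_le_prod _ _ _ fun p hp => (mem_filter.1 hp).2.le
  have h2 := Nat.le_of_dvd hD ((prod_dvd_prod_of_subset _ _ (fun p => p)
    (filter_subset (fun p => y < p) D.primeFactors)).trans (Nat.prod_primeFactors_dvd D))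
  exact (Nat.pow_le_pow_iff_right hy).1 (h1.trans (h2.trans h))

theorem bad6 {P : Finset ℕ} {γ : ℝ} {N₁ N₂ z G : ℕ} (hU : Up P γ N₂ z) (hγ : 1 ≤ γ * z)
    (hP : ∀ p ∈ P, p.Prime) (H : ℕ → ℤ → ℤ) {a b c r s₁ s₂ : ℤ} (hD : b ^ 2 < 4 * a * c) (hr : 0 < r) (hG : 0 < G)
    (h1 : (G : ℤ) ^ 5 * N₁ ≤ c * N₂) (h2 : G ^ 4 ≤ z) (h3 : z ≤ N₂) (h4 : 0 < N₁)
    {S : Finset (ℤ × ℤ)} (hS : ∀ w ∈ S, w ∈ Wb N₁ N₂ ∧ Sf P H w ∧ ∃ i' j' k e d : ℤ, |i'| < N₁ ∧
      Rot a b c k e d (s₁ + r * w.1) (s₂ + r * w.2) (s₁ + r * i') (s₂ + r * j') ∧ d ≠ 0 ∧ k < G) :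
    (S.card : ℝ) ≤ 200 * (γ * (N₁ * N₂)) / G := by
  have G1 : (1 : ℝ) ≤ G := by exact_mod_cast hG
  have z0 : 0 < z := (pow_pos hG 4).trans_le h2
  have z1 : (1 : ℝ) ≤ z := by exact_mod_cast z0
  have g0 : 0 < γ := pos_of_mul_pos_left (by linarith : 0 < γ * z) (by linarith)
  have n2 : (0 : ℤ) < N₂ := by exact_mod_cast z0.trans_le h3
  have c0 : 0 < c := pos_of_mul_pos_left (lt_of_lt_of_le (by positivity) h1) n2.le
  set T : Finset (ℤ × ℤ × ℤ) := Ico 0 (G : ℤ) ×ˢ Icc (-(2 * G : ℤ)) (2 * G) ×ˢ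
    Icc (-(2 * G : ℤ)) (2 * G) with hT
  set St : ℤ × ℤ × ℤ → Finset (ℤ × ℤ) := fun t => S.filter fun w => ∃ i' j' e : ℤ, |i'| < N₁ ∧
    Rot a b c t.1 e t.2.1 (s₁ + r * w.1) (s₂ + r * w.2) (s₁ + r * i') (s₂ + r * j') ∧
    t.2.1 ≠ 0 ∧ t.1 < G ∧ 2 * e + b * t.2.1 = t.2.2 with hSt
  have a1 : S ⊆ T.biUnion St := fun w hw => by
    obtain ⟨-, -, i', j', k, e, d, k1, k2, k3, k4⟩ := hS w hw
    obtain ⟨-, t1, t2, -⟩ := rot_tr k2 hD k3
    have := k2.pos
    rw [abs_le] at t1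
    rw [abs_lt] at t2
    refine mem_biUnion.2 ⟨(k, d, 2 * e + b * d), ?_, mem_filter.2 ⟨hw, i', j', e, k1, k2, k3, k4, rfl⟩⟩
    simp only [hT, mem_product, mem_Ico, mem_Icc]
    omega
  have a2 : ∀ t, ∀ i, ((col (St t) i).card : ℝ) ≤ 4 * (γ * N₂) / G ^ 4 := fun t i => by
    rcases (col (St t) i).eq_empty_or_nonempty with h | h
    · rw [h, card_empty, Nat.cast_zero]
      positivity
    have k := hU (fun p => H p i) 1 (2 * N₂ / G ^ 4 + 1) ((col (St t) i).min' h) (fun _ => True)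
      (col (St t) i) {0} one_pos (pow_pos z0 2)
      (fun p hp hd => (hP p hp).not_dvd_one hd) (fun _ => Iff.rfl)
      (fun j hj => ⟨?_, (hS _ (mem_filter.1 (mem_col.1 hj)).1).2.1, trivial⟩) fun j hj _ => by
        rw [mem_Ico] at hj
        exact mem_singleton.2 (by omega)
    · have b1 : ((2 * N₂ / G ^ 4 : ℕ) : ℝ) ≤ 2 * N₂ / G ^ 4 := by
        exact_mod_cast Nat.cast_div_le (α := ℝ) (m := 2 * N₂) (n := G ^ 4)
      have b2 : (G : ℝ) ^ 4 ≤ z := by exact_mod_cast h2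
      have b3 : (z : ℝ) ≤ N₂ := by exact_mod_cast h3
      have b4 : 1 ≤ (N₂ : ℝ) / G ^ 4 := (one_le_div (by positivity)).2 (b2.trans b3)
      have b5 : (N₂ : ℝ) / z ^ 10 ≤ γ * N₂ / G ^ 4 := by
        rw [div_le_div_iff₀ (by positivity) (by positivity)]
        have d2 : (z : ℝ) ≤ z ^ 9 := le_self_pow₀ z1 (by norm_num)
        have d3 := mul_le_mul_of_nonneg_right hγ (show (0 : ℝ) ≤ z ^ 9 by positivity)
        have := mul_le_mul_of_nonneg_left (show (G : ℝ) ^ 4 ≤ γ * z ^ 10 by linarith)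
          (Nat.cast_nonneg (α := ℝ) N₂)
        linarith
      have b6 := mul_le_mul_of_nonneg_left (show ((2 * N₂ / G ^ 4 : ℕ) : ℝ) + 1 ≤
        3 * (N₂ / G ^ 4) by linarith [mul_div_assoc (2 : ℝ) N₂ (G ^ 4)]) g0.le
      rw [card_singleton] at k
      push_cast at k b6
      have e : 4 * (γ * N₂) / (G : ℝ) ^ 4 = γ * (3 * (N₂ / G ^ 4)) + γ * N₂ / G ^ 4 := by ring
      linarith
    · obtain ⟨-, i₁, j₁, e₁, u1, u2, u3, u4, u5⟩ := mem_filter.1 (mem_col.1 hj)
      obtain ⟨-, i₂, j₂, e₂, v1, v2, -, -, v5⟩ := mem_filter.1 (mem_col.1 (min'_mem _ h))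
      have m1 := min'_le _ j hj
      generalize (col (St t) i).min' h = x at *
      obtain rfl : e₁ = e₂ := by omega
      have w1 : c * t.2.1 * (j - x) = t.1 * (i₂ - i₁) :=
        mul_left_cancel₀ hr.ne' (by linear_combination u2.h1 - v2.h1)
      have w2 : c * (j - x) ≤ G * (2 * N₁) := by
        have o1 : 1 ≤ |t.2.1| := Int.one_le_abs u3
        have o2 : |i₂ - i₁| ≤ 2 * N₁ := by
          rw [abs_lt] at u1 v1
          rw [abs_le]
          omega
        have o3 := congrArg abs w1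
        rw [abs_mul, abs_mul, abs_mul, abs_of_pos c0, abs_of_pos u2.pos,
          abs_of_nonneg (sub_nonneg.2 m1)] at o3
        have o4 := mul_le_mul u4.le o2 (abs_nonneg _) (Int.natCast_nonneg G)
        have o5 := mul_le_mul_of_nonneg_left o1 (mul_nonneg c0.le (sub_nonneg.2 m1))
        linarith
      have w3 : (j - x) * G ^ 4 ≤ 2 * N₂ := by
        refine le_of_mul_le_mul_left ?_ c0
        have := mul_le_mul_of_nonneg_right w2 (show (0 : ℤ) ≤ G ^ 4 by positivity)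
        linarith
      have w4 := Int.le_ediv_of_mul_le (show (0 : ℤ) < G ^ 4 by positivity) w3
      rw [mem_Ico]
      push_cast
      omega
  have a3 : ∀ t ∈ T, ((St t).card : ℝ) ≤ 2 * N₁ * (4 * (γ * N₂) / G ^ 4) := fun t _ => by
    rw [card_col (I := Ico (-(N₁ : ℤ)) (-(N₁ : ℤ) + (2 * N₁ : ℕ)))
      fun w hw => (mem_product.1 (hS w (mem_filter.1 hw).1).1).1]
    refine (sum_le_card_nsmul _ _ _ fun i _ => a2 t i).trans (le_of_eq ?_)
    rw [Int.card_Ico, add_sub_cancel_left, Int.toNat_natCast, nsmul_eq_mul]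
    push_cast
    ring
  have a4 : (T.card : ℝ) ≤ 25 * G ^ 3 := by
    have e : (2 * (G : ℤ) + 1 - -(2 * G)).toNat = 4 * G + 1 := by omega
    simp only [hT, card_product, Int.card_Ico, Int.card_Icc, e, sub_zero, Int.toNat_natCast]
    push_cast
    have : (4 * (G : ℝ) + 1) * (4 * G + 1) ≤ 5 * G * (5 * G) :=
      mul_self_le_mul_self (by linarith) (by linarith)
    have := mul_le_mul_of_nonneg_left this (show (0 : ℝ) ≤ G by linarith)
    linarith
  have a5 : (S.card : ℝ) ≤ ∑ t ∈ T, ((St t).card : ℝ) := by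
    exact_mod_cast (card_le_card a1).trans card_biUnion_le
  refine (a5.trans (sum_le_card_nsmul _ _ _ a3)).trans ?_
  rw [nsmul_eq_mul]
  refine (mul_le_mul_of_nonneg_right a4 (by positivity)).trans (le_of_eq ?_)
  field_simp
  ring

end CRx

end Pool.Agent.Lib.MP_ad7336_sd
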