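import Mathlib

set_option autoImplicit false

namespace Pool.Agent.Lib.MP_ad7336_sd

open Finset
open scoped Classical

/-- Integral binary quadratic form. -/
def qf (a b c x y : ℤ) : ℤ := a * x ^ 2 + b * x * y + c * y ^ 2

/-- No prime divides all three integers. -/
def Cop3 (a b c : ℤ) : Prop := ∀ p : ℕ, p.Prime → ¬ ((p : ℤ) ∣ a ∧ (p : ℤ) ∣ b ∧ (p : ℤ) ∣ c)

/-- `x` avoids the class `h p` modulo every `p` in `P`. -/
def Sif (P : Finset ℕ) (h : ℕ → ℤ) (x : ℤ) : Prop := ∀ p ∈ P, ¬ (p : ℤ) ∣ x - h p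

noncomputable def Vp (P : Finset ℕ) : ℝ := ∏ p ∈ P, (1 - (p : ℝ)⁻¹)

/-- `(x', y')` is the image of `(x, y)` under the rotation `(e + d ω) / k`. -/
structure Rot (a b c k e d x y x' y' : ℤ) : Prop where
  pos : 0 < k
  cop : IsCoprime e d
  nm : e ^ 2 + b * e * d + a * c * d ^ 2 = k ^ 2
  h1 : k * x' = e * x - c * d * y
  h2 : k * y' = a * d * x + (e + b * d) * y

/-- Consequence of the discriminant being fundamental. -/
def Fund (a b c : ℤ) : Prop := ∀ p : ℕ, p.Prime → (p : ℤ) ∣ 4 * a * c - b ^ 2 → ∀ e d : ℤ,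
  (p : ℤ) ^ 2 ∣ e ^ 2 + b * e * d + a * c * d ^ 2 → (p : ℤ) ∣ d

/-- Average over one period. -/
noncomputable def avg (m : ℕ) (f : ℤ → ℝ) : ℝ := (∑ x ∈ Ico (0 : ℤ) m, f x) / m

noncomputable def hh (p : ℕ) : ℝ := ((p : ℝ) - 1)⁻¹

noncomputable def ph (h : ℕ → ℤ) (p : ℕ) (x : ℤ) : ℝ := if (p : ℤ) ∣ x - h p then -1 else hh p

/-- Discrete seminorms. -/
structure SN {Γ : Type} [AddCommGroup Γ] (ν : Γ → ℝ) : Prop where
  add : ∀ x y, ν (x + y) ≤ ν x + ν y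
  smul : ∀ (m : ℤ) x, ν (m • x) = |(m : ℝ)| * ν x
  disc : ∀ R : ℝ, ∃ F : Finset Γ, ∀ x, ν x ≤ R → ∃ f ∈ F, ν (x - f) = 0

/-- Rank at most `d` modulo null vectors. -/
def Rk {Γ : Type} [AddCommGroup Γ] (d : ℕ) (ν : Γ → ℝ) : Prop :=
  ∀ x : Fin (d + 1) → Γ, ∃ m : Fin (d + 1) → ℤ, m ≠ 0 ∧ ν (∑ i, m i • x i) = 0

/-- Symmetric box. -/
noncomputable def box {ι : Type} [Fintype ι] (N : ι → ℕ) : Finset (ι → ℤ) :=
  Fintype.piFinset fun i => Icc (-(N i : ℤ)) (N i)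

def vol {ι : Type} [Fintype ι] (N : ι → ℕ) : ℕ := ∏ i, (2 * N i + 1)

noncomputable def gp {ι : Type} [Fintype ι] (g : ι → ℂ) (a : ι → ℤ) : ℂ := ∑ i, (a i : ℂ) * g i

/-- `m` is a Freiman isomorphism of order eight from `A` to the integers modulo `N`. -/
def Q8 (A : Finset ℂ) (m : ℂ → ℤ) (N : ℕ) : Prop := ∀ a b : Fin 8 → ℂ, (∀ i, a i ∈ A) →
  (∀ i, b i ∈ A) → ((N : ℤ) ∣ ∑ i, m (a i) - ∑ i, m (b i) ↔ ∑ i, a i = ∑ i, b i)

/-- Points of the triangular lattice. -/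
def Tri (p : ℂ) : Prop := ∃ a b : ℤ,
  p = (a : ℂ) + (b : ℂ) * ((1 / 2 : ℂ) + ((Real.sqrt 3 / 2 : ℝ) : ℂ) * Complex.I)

theorem mem_box {ι : Type} [Fintype ι] {N : ι → ℕ} {a : ι → ℤ} :
    a ∈ box N ↔ ∀ i, |a i| ≤ N i := by
  simp [box, abs_le]

theorem card_box {ι : Type} [Fintype ι] (N : ι → ℕ) : (box N).card = vol N := by
  rw [box, Fintype.card_piFinset, vol]
  refine prod_congr rfl fun i _ => ?_
  rw [Int.card_Icc]
  omega

end Pool.Agent.Lib.MP_ad7336_sd
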