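import Pool.Agent.Lib.MP_ad7336_sd.Defs
import Pool.Agent.Lib.MP_ad7336_co.Sharp
import Pool.Agent.Lib.MP_fb430f_co.Circle

set_option autoImplicit false

namespace Pool.Agent.Lib.MP_ad7336_sd

open Finset Filter
open Pool.Agent.Lib.MP_ad7336_co (DD IQ)
open scoped Classical

namespace FLx

/-- Signed divisors. -/
def sdv (M : ℤ) : Finset ℤ :=
  M.natAbs.divisors.image (fun n : ℕ => (n : ℤ)) ∪ M.natAbs.divisors.image fun n : ℕ => -(n : ℤ)

theorem card_sdv (M : ℤ) : (sdv M).card ≤ 2 * M.natAbs.divisors.card := by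
  refine (card_union_le _ _).trans ?_
  have h1 := card_image_le (s := M.natAbs.divisors) (f := fun n : ℕ => (n : ℤ))
  have h2 := card_image_le (s := M.natAbs.divisors) (f := fun n : ℕ => -(n : ℤ))
  omega

theorem mem_sdv {M s t : ℤ} (hM : M ≠ 0) (h : s * t = M) : s ∈ sdv M := by
  have hd : s.natAbs ∈ M.natAbs.divisors :=
    Nat.mem_divisors.2 ⟨Int.natAbs_dvd_natAbs.2 ⟨t, h.symm⟩, Int.natAbs_ne_zero.2 hM⟩
  rcases Int.natAbs_eq s with e | e
  · exact mem_union_left _ (mem_image.2 ⟨_, hd, e.symm⟩)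
  · exact mem_union_right _ (mem_image.2 ⟨_, hd, e.symm⟩)

theorem qf_eq (a b c x y : ℤ) :
    4 * c * qf a b c x y = (2 * c * y + b * x) ^ 2 + (4 * a * c - b ^ 2) * x ^ 2 := by
  unfold qf
  ring

theorem good (a b c : ℤ) (hc : 0 < c) (W : Finset (ℤ × ℤ))
    (h : ∀ w ∈ W, ∀ w' ∈ W, qf a b c w.1 w.2 = qf a b c w'.1 w'.2 → w.1 ^ 2 = w'.1 ^ 2) :
    W.card ≤ 4 * (W.image fun w => qf a b c w.1 w.2).card := by
  refine card_le_mul_card_image W 4 fun m hm => ?_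
  obtain ⟨w₀, h₀, rfl⟩ := mem_image.1 hm
  set u := 2 * c * w₀.2 + b * w₀.1 with hu
  have hsub : (W.filter fun w => qf a b c w.1 w.2 = qf a b c w₀.1 w₀.2) ⊆
      (({w₀.1, -w₀.1} : Finset ℤ) ×ˢ ({u, -u} : Finset ℤ)).image
        fun p => (p.1, (p.2 - b * p.1) / (2 * c)) := by
    intro w hw
    obtain ⟨hw1, hw2⟩ := mem_filter.1 hw
    have e1 := h w hw1 w₀ h₀ hw2
    have e2 : (2 * c * w.2 + b * w.1) ^ 2 = u ^ 2 := by
      have a1 := qf_eq a b c w.1 w.2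
      have a2 := qf_eq a b c w₀.1 w₀.2
      rw [hw2, a2, e1] at a1
      linarith
    refine mem_image.2 ⟨(w.1, 2 * c * w.2 + b * w.1), mem_product.2 ⟨?_, ?_⟩, ?_⟩
    · simpa using sq_eq_sq_iff_eq_or_eq_neg.1 e1
    · simpa using sq_eq_sq_iff_eq_or_eq_neg.1 e2
    · refine Prod.ext rfl ?_
      simp only [add_sub_cancel_right]
      exact Int.mul_ediv_cancel_left _ (by omega)
  refine (card_le_card hsub).trans (card_image_le.trans ?_)
  rw [card_product]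
  exact (Nat.mul_le_mul card_le_two card_le_two).trans (by norm_num)

theorem bad (a b c : ℤ) (hc : 0 < c) (hD : b ^ 2 < 4 * a * c) (N : ℕ) (W : Finset (ℤ × ℤ))
    (hW : ∀ w ∈ W, |w.1| < N) (T : ℝ)
    (hT : ∀ i i' : ℤ, |i| < N → |i'| < N →
      ((((4 * a * c - b ^ 2) * (i' ^ 2 - i ^ 2)).natAbs.divisors.card : ℕ) : ℝ) ≤ T) :
    ((W.filter fun w => ∃ w' ∈ W, qf a b c w.1 w.2 = qf a b c w'.1 w'.2 ∧
      w.1 ^ 2 ≠ w'.1 ^ 2).card : ℝ) ≤ (2 * N) ^ 2 * (2 * T) := by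
  set I : Finset ℤ := Ico (-(N : ℤ)) N with hI
  set M : ℤ × ℤ → ℤ := fun p => (4 * a * c - b ^ 2) * (p.2 ^ 2 - p.1 ^ 2) with hM
  set J := (I ×ˢ I).filter fun p : ℤ × ℤ => |p.1| < (N : ℤ) ∧ |p.2| < (N : ℤ) with hJ
  have hsub : (W.filter fun w => ∃ w' ∈ W, qf a b c w.1 w.2 = qf a b c w'.1 w'.2 ∧
      w.1 ^ 2 ≠ w'.1 ^ 2) ⊆ J.biUnion fun p => (sdv (M p)).image
        fun s => (p.1, ((s + M p / s) / 2 - b * p.1) / (2 * c)) := by
    intro w hw
    obtain ⟨hw1, w', hw', e, hne⟩ := mem_filter.1 hw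
    have b1 := abs_lt.1 (hW w hw1)
    have b2 := abs_lt.1 (hW w' hw')
    have hM0 : M (w.1, w'.1) ≠ 0 := mul_ne_zero (by omega) (sub_ne_zero.2 hne.symm)
    have hst : ((2 * c * w.2 + b * w.1) - (2 * c * w'.2 + b * w'.1)) *
        ((2 * c * w.2 + b * w.1) + (2 * c * w'.2 + b * w'.1)) = M (w.1, w'.1) := by
      have a1 := qf_eq a b c w.1 w.2
      have a2 := qf_eq a b c w'.1 w'.2
      rw [e, a2] at a1
      simp only [hM]
      linear_combination -a1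
    have hs0 : (2 * c * w.2 + b * w.1) - (2 * c * w'.2 + b * w'.1) ≠ 0 := by
      intro h0
      rw [h0, zero_mul] at hst
      exact hM0 hst.symm
    refine mem_biUnion.2 ⟨(w.1, w'.1), mem_filter.2 ⟨mem_product.2
      ⟨mem_Ico.2 ⟨b1.1.le, b1.2⟩, mem_Ico.2 ⟨b2.1.le, b2.2⟩⟩, hW w hw1, hW w' hw'⟩,
      mem_image.2 ⟨_, mem_sdv hM0 hst, ?_⟩⟩
    refine Prod.ext rfl ?_
    rw [← hst, Int.mul_ediv_cancel_left _ hs0]
    have e2 : (2 * c * w.2 + b * w.1 - (2 * c * w'.2 + b * w'.1) +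
        (2 * c * w.2 + b * w.1 + (2 * c * w'.2 + b * w'.1))) = 2 * (2 * c * w.2 + b * w.1) := by
      ring
    simp only [e2]
    rw [Int.mul_ediv_cancel_left _ (by norm_num), add_sub_cancel_right]
    exact Int.mul_ediv_cancel_left _ (by omega)
  have hcI : I.card = 2 * N := by
    rw [hI, Int.card_Ico]
    omega
  have hcJ : (J.card : ℝ) ≤ (2 * N) ^ 2 := by
    have : J.card ≤ (2 * N) ^ 2 := by
      refine (card_filter_le _ _).trans ?_
      rw [card_product, hcI, sq]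
    exact_mod_cast this
  rcases J.eq_empty_or_nonempty with h0 | ⟨p₀, hp₀⟩
  · rw [h0, biUnion_empty, subset_empty] at hsub
    rw [hsub, card_empty]
    have : N = 0 := by
      by_contra hN
      have : ((0 : ℤ), (0 : ℤ)) ∈ J := by
        simp only [hJ, hI, mem_filter, mem_product, mem_Ico, abs_zero]
        omega
      rw [h0] at this
      simp at this
    simp [this]
  have hT0 : 0 ≤ T :=
    (Nat.cast_nonneg _).trans (hT p₀.1 p₀.2 (mem_filter.1 hp₀).2.1 (mem_filter.1 hp₀).2.2)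
  calc _ ≤ ((∑ p ∈ J, 2 * (M p).natAbs.divisors.card : ℕ) : ℝ) := by
        exact_mod_cast (card_le_card hsub).trans (card_biUnion_le.trans
          (sum_le_sum fun p _ => card_image_le.trans (card_sdv _)))
    _ ≤ ∑ _p ∈ J, 2 * T := by
        push_cast
        refine sum_le_sum fun p hp => ?_
        have := hT p.1 p.2 (mem_filter.1 hp).2.1 (mem_filter.1 hp).2.2
        simp only [hM]
        linarith
    _ = J.card * (2 * T) := by simp
    _ ≤ _ := by gcongr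

end FLx

theorem fl (A : ℕ) {δ : ℝ} (hδ : 0 < δ) : ∃ B₀ : ℕ, ∀ (a b c : ℤ) (B N : ℕ) (W : Finset (ℤ × ℤ)),
    0 < c → b ^ 2 < 4 * a * c → B₀ ≤ B → N ^ 3 ≤ B → 4 * a * c - b ^ 2 ≤ (B : ℤ) ^ A →
    (∀ w ∈ W, |w.1| < N) → δ * B ≤ W.card →
    δ * B ≤ 8 * ((W.image fun w => qf a b c w.1 w.2).erase 0).card := by
  obtain ⟨C, hC, hdiv⟩ := Pool.Agent.Lib.MP_fb430f_co.div_bound
    (ε := 1 / (6 * ((A : ℝ) + 1))) (by positivity)
  set x₀ : ℝ := 1 + (16 * C + 8) / δ with hx₀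
  have hx₀1 : 1 ≤ x₀ := le_add_of_nonneg_right (by positivity)
  refine ⟨⌈x₀ ^ 6⌉₊, fun a b c B N W hc hD hB hN hA hW hWc => ?_⟩
  have hB' : x₀ ^ 6 ≤ B := Nat.ceil_le.1 hB
  have hB0 : (0 : ℝ) ≤ B := Nat.cast_nonneg _
  set x : ℝ := (B : ℝ) ^ (1 / 6 : ℝ) with hx
  have hx0 : 0 ≤ x := by positivity
  have hx6 : x ^ 6 = B := by
    rw [hx, ← Real.rpow_natCast, ← Real.rpow_mul hB0]
    norm_num
  have hxx : x₀ ≤ x := by
    refine le_of_pow_le_pow_left₀ (n := 6) (by norm_num) hx0 ?_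
    rw [hx6]
    exact hB'
  have hx1 : 1 ≤ x := hx₀1.trans hxx
  have hNx : (N : ℝ) ≤ x ^ 2 := by
    refine le_of_pow_le_pow_left₀ (n := 3) (by norm_num) (by positivity) ?_
    rw [← pow_mul, hx6]
    exact_mod_cast hN
  have hT : ∀ i i' : ℤ, |i| < N → |i'| < N →
      ((((4 * a * c - b ^ 2) * (i' ^ 2 - i ^ 2)).natAbs.divisors.card : ℕ) : ℝ) ≤ C * x := by
    intro i i' hi hi'
    set M := ((4 * a * c - b ^ 2) * (i' ^ 2 - i ^ 2)).natAbs with hM
    by_cases h0 : M = 0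
    · rw [h0]
      simp only [Nat.divisors_zero, card_empty, Nat.cast_zero]
      positivity
    have hN1 : (1 : ℤ) ≤ N := by have := abs_nonneg i; omega
    have hle : (M : ℤ) ≤ (B : ℤ) ^ (A + 1) := by
      rw [hM, Int.natCast_natAbs, abs_mul, abs_of_pos (by omega : 0 < 4 * a * c - b ^ 2),
        pow_succ (B : ℤ) A]
      have a1 : i ^ 2 ≤ (N : ℤ) ^ 2 := sq_le_sq.2 (by simpa using hi.le)
      have a2 : i' ^ 2 ≤ (N : ℤ) ^ 2 := sq_le_sq.2 (by simpa using hi'.le)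
      have a3 : (N : ℤ) ^ 2 ≤ (N : ℤ) ^ 3 := pow_le_pow_right₀ hN1 (by norm_num)
      have a4 : (N : ℤ) ^ 3 ≤ B := by exact_mod_cast hN
      have a5 : |i' ^ 2 - i ^ 2| ≤ B := by
        rw [abs_le]
        constructor <;> nlinarith [sq_nonneg i, sq_nonneg i']
      exact mul_le_mul hA a5 (abs_nonneg _) (by positivity)
    have hle' : (M : ℝ) ≤ (B : ℝ) ^ (A + 1) := by exact_mod_cast hle
    calc (M.divisors.card : ℝ) ≤ ((∏ p ∈ M.primeFactors, (M.factorization p + 2) : ℕ) : ℝ) := by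
          rw [Nat.card_divisors h0]
          exact_mod_cast prod_le_prod' fun p _ => by omega
      _ ≤ C * (M : ℝ) ^ (1 / (6 * ((A : ℝ) + 1))) := hdiv M h0
      _ ≤ C * ((B : ℝ) ^ (A + 1)) ^ (1 / (6 * ((A : ℝ) + 1))) := by gcongr
      _ = C * x := by
          rw [hx, ← Real.rpow_natCast, ← Real.rpow_mul hB0]
          congr 2
          push_cast
          field_simp
  have hb := FLx.bad a b c hc hD N W hW (C * x) hT
  set Wb := W.filter fun w => ∃ w' ∈ W, qf a b c w.1 w.2 = qf a b c w'.1 w'.2 ∧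
    w.1 ^ 2 ≠ w'.1 ^ 2 with hWb
  have hg := FLx.good a b c hc (W \ Wb) fun w hw w' hw' e => by
    by_contra hne
    exact (mem_sdiff.1 hw).2 (mem_filter.2 ⟨(mem_sdiff.1 hw).1, w', (mem_sdiff.1 hw').1, e, hne⟩)
  have h1 : W.card ≤ (W \ Wb).card + Wb.card := card_le_card_sdiff_add_card
  have h2 : ((W \ Wb).image fun w => qf a b c w.1 w.2).card ≤
      (W.image fun w => qf a b c w.1 w.2).card := card_le_card (image_subset_image sdiff_subset)
  have h3 := pred_card_le_card_erase (s := W.image fun w => qf a b c w.1 w.2) (a := 0)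
  have h4 : W.card ≤ 4 * (((W.image fun w => qf a b c w.1 w.2).erase 0).card + 1) + Wb.card := by
    omega
  have h5 : (W.card : ℝ) ≤
      4 * (((W.image fun w => qf a b c w.1 w.2).erase 0).card + 1) + Wb.card := by
    exact_mod_cast h4
  have h6 : (Wb.card : ℝ) ≤ 8 * C * x ^ 5 := by
    calc _ ≤ (2 * (N : ℝ)) ^ 2 * (2 * (C * x)) := hb
      _ ≤ (2 * x ^ 2) ^ 2 * (2 * (C * x)) := by gcongr
      _ = _ := by ring
  have h7 : 16 * C + 8 ≤ δ * x := by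
    have : (16 * C + 8) / δ ≤ x := by linarith
    rwa [div_le_iff₀ hδ, mul_comm x] at this
  have h8 : 1 ≤ x ^ 5 := one_le_pow₀ hx1
  have h9 : (16 * C + 8) * x ^ 5 ≤ δ * B := by
    rw [← hx6]
    calc _ ≤ δ * x * x ^ 5 := by gcongr
      _ = _ := by ring
  nlinarith

theorem dd_ge {Q : Finset ℂ} {V : Finset ℤ} {l : ℝ} (hl : 0 < l)
    (h : ∀ m ∈ V, m ≠ 0 ∧ ∃ p ∈ Q, ∃ q ∈ Q, dist p q ^ 2 = l * m) : V.card ≤ DD Q := by
  have hfin : {d : ℝ | ∃ p ∈ Q, ∃ q ∈ Q, p ≠ q ∧ d = dist p q}.Finite := by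
    refine ((Q ×ˢ Q).image fun w => dist w.1 w.2).finite_toSet.subset ?_
    rintro d ⟨p, hp, q, hq, -, rfl⟩
    exact mem_coe.2 (mem_image.2 ⟨(p, q), mem_product.2 ⟨hp, hq⟩, rfl⟩)
  rw [← Set.ncard_coe_finset]
  refine Set.ncard_le_ncard_of_injOn (fun m : ℤ => √(l * m)) (fun m hm => ?_) ?_ hfin
  · obtain ⟨h0, p, hp, q, hq, e⟩ := h m hm
    refine ⟨p, hp, q, hq, fun hpq => ?_, ?_⟩
    · rw [hpq, dist_self] at e
      have : (m : ℝ) ≠ 0 := by exact_mod_cast h0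
      exact mul_ne_zero hl.ne' this (by simpa using e.symm)
    · rw [← e, Real.sqrt_sq dist_nonneg]
  · intro m hm m' hm' e
    obtain ⟨-, p, -, q, -, e1⟩ := h m hm
    obtain ⟨-, p', -, q', -, e2⟩ := h m' hm'
    have a1 : 0 ≤ l * m := e1 ▸ sq_nonneg _
    have a2 : 0 ≤ l * m' := e2 ▸ sq_nonneg _
    have := mul_left_cancel₀ hl.ne' ((Real.sqrt_inj a1 a2).1 e)
    exact_mod_cast this

end Pool.Agent.Lib.MP_ad7336_sd
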