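import Pool.Agent.Lib.MP_ad7336_sd.Defs

set_option autoImplicit false

namespace Pool.Agent.Lib.MP_ad7336_sd

open Finset
open scoped Classical Pointwise

theorem ex_psi (A D : Finset ℂ) : ∃ ψ : ℂ → ℤ, ψ 0 = 0 ∧ ∀ a b : Fin 8 → ℂ, (∀ i, a i ∈ A) →
    (∀ i, b i ∈ A) → ψ (∑ i, a i - ∑ i, b i) = ∑ i, ψ (a i) - ∑ i, ψ (b i) ∧
      (∑ i, a i - ∑ i, b i ∈ D.erase 0 → ψ (∑ i, a i - ∑ i, b i) ≠ 0) := by
  obtain ⟨φ, hφ⟩ := Module.exists_dual_forall_apply_ne_zero (K := ℚ)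
    (fun d : D.erase 0 => (d : ℂ)) fun d => (mem_erase.1 d.2).1
  obtain ⟨n, hn, h1⟩ : ∃ n : ℚ, n ≠ 0 ∧ ∀ a ∈ A, ((⌊n * φ a⌋ : ℤ) : ℚ) = n * φ a := by
    refine ⟨(∏ a ∈ A, (φ a).den : ℕ), Nat.cast_ne_zero.2 (prod_ne_zero_iff.2 fun a _ =>
      (φ a).den_ne_zero), fun a ha => ?_⟩
    obtain ⟨k, hk⟩ := dvd_prod_of_mem (fun a => (φ a).den) ha
    have : ((∏ a ∈ A, (φ a).den : ℕ) : ℚ) * φ a = ((k * (φ a).num : ℤ) : ℚ) := by
      rw [hk]
      push_cast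
      rw [← Rat.mul_den_eq_num]
      ring
    rw [this, Int.floor_intCast]
  refine ⟨fun x => ⌊n * φ x⌋, by simp, fun a b ha hb => ?_⟩
  have h2 : n * φ (∑ i, a i - ∑ i, b i) = ((∑ i, ⌊n * φ (a i)⌋ - ∑ i, ⌊n * φ (b i)⌋ : ℤ) : ℚ) := by
    push_cast
    simp only [h1 _ (ha _), h1 _ (hb _), map_sub, map_sum, mul_sub, mul_sum]
  dsimp only
  refine ⟨by rw [h2, Int.floor_intCast], fun h k => mul_ne_zero hn (hφ ⟨_, h⟩) ?_⟩
  rw [h2, Int.floor_intCast] at k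
  change n * φ (∑ i, a i - ∑ i, b i) = 0
  rw [h2, k, Int.cast_zero]

theorem ex_lam {p : ℕ} [Fact p.Prime] (D : Finset ℂ) (ψ : ℂ → ℤ) : ∃ l : ZMod p, l ≠ 0 ∧
    ∀ d ∈ D, (ψ d : ZMod p) ≠ 0 → ∀ t : ℤ, |t| < p → ((2 * D.card + 1 : ℕ) : ℤ) ∣ t →
      (t : ZMod p) ≠ ψ d * l := by
  have hp := (Fact.out : p.Prime).one_lt
  obtain ⟨q, hq⟩ : ∃ q, q = (p - 1) / (2 * D.card + 1) := ⟨_, rfl⟩
  have h1 : (2 * D.card + 1) * q ≤ p - 1 := hq ▸ Nat.mul_div_le _ _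
  obtain ⟨l, -, hl⟩ := exists_mem_notMem_of_card_lt_card (t := (univ : Finset (ZMod p)))
    (s := insert 0 ((D ×ˢ (Icc (-(q : ℤ)) q).erase 0).image fun w =>
      (((2 * D.card + 1 : ℕ) * w.2 : ℤ) : ZMod p) * (ψ w.1 : ZMod p)⁻¹)) (by
      refine ((card_insert_le _ _).trans (Nat.succ_le_succ card_image_le)).trans_lt ?_
      rw [card_product, card_erase_of_mem (by simp), Int.card_Icc, card_univ, ZMod.card,
        show ((q : ℤ) + 1 - -q).toNat - 1 = 2 * q by omega]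
      have h2 : D.card * (2 * q) + q = (2 * D.card + 1) * q := by ring
      rcases Nat.eq_zero_or_pos q with rfl | h3
      · simpa using hp
      · omega)
  rw [mem_insert, not_or] at hl
  refine ⟨l, hl.1, fun d hd h0 t ht ⟨s, hs⟩ e => hl.2 (mem_image.2 ⟨(d, s), mem_product.2
    ⟨hd, mem_erase.2 ⟨fun k => mul_ne_zero h0 hl.1 ?_, mem_Icc.2 (abs_le.1 ?_)⟩⟩, ?_⟩)⟩
  · rw [← e, hs, show s = 0 from k, mul_zero, Int.cast_zero]
  · have h2 : (2 * D.card + 1) * s.natAbs ≤ p - 1 := by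
      have := congrArg Int.natAbs hs
      rw [Int.natAbs_mul, Int.natAbs_natCast] at this
      rw [Int.abs_eq_natAbs] at ht
      omega
    have h3 : s.natAbs ≤ q := by
      rw [hq, Nat.le_div_iff_mul_le (by omega), mul_comm]
      exact h2
    change |s| ≤ q
    rw [Int.abs_eq_natAbs]
    omega
  · change (((2 * D.card + 1 : ℕ) * s : ℤ) : ZMod p) * _ = l
    rw [← hs, e, mul_comm, inv_mul_cancel_left₀ h0]

theorem model (A : Finset ℂ) : ∃ (A' : Finset ℂ) (m : ℂ → ℤ) (N : ℕ),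
    A' ⊆ A ∧ A.card ≤ 8 * A'.card ∧ N = 2 * (8 • A - 8 • A).card + 1 ∧ Q8 A' m N := by
  obtain ⟨ψ, h0, hψ⟩ := ex_psi A (8 • A - 8 • A)
  obtain ⟨p, hp1, hp⟩ := Nat.exists_infinite_primes ((8 • A - 8 • A).sup (fun d => (ψ d).natAbs) + 1)
  have : Fact p.Prime := ⟨hp⟩
  obtain ⟨l, l0, hl⟩ := ex_lam (p := p) (8 • A - 8 • A) ψ
  obtain ⟨j, -, hj⟩ := exists_max_image (range 8)
    (fun j => (A.filter fun a => 8 * ((ψ a : ZMod p) * l).val / p = j).card) ⟨0, by simp⟩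
  refine ⟨A.filter fun a => 8 * ((ψ a : ZMod p) * l).val / p = j,
    fun a => ((ψ a : ZMod p) * l).val, _, filter_subset _ _, ?_, rfl, fun a b ha hb => ?_⟩
  · have h1 := card_le_mul_card_image_of_maps_to (s := A) (t := range 8)
      (f := fun a => 8 * ((ψ a : ZMod p) * l).val / p) (fun a _ => by
        rw [mem_range, Nat.div_lt_iff_lt_mul hp.pos]
        have := ZMod.val_lt ((ψ a : ZMod p) * l)
        omega) _ hj
    rwa [card_range, mul_comm] at h1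
  obtain ⟨h1, h2⟩ := hψ a b (fun i => (mem_filter.1 (ha i)).1) fun i => (mem_filter.1 (hb i)).1
  have h3 : ∀ x ∈ A.filter fun a => 8 * ((ψ a : ZMod p) * l).val / p = j,
      (p : ℤ) * j ≤ 8 * (((ψ x : ZMod p) * l).val : ℤ) ∧
        8 * (((ψ x : ZMod p) * l).val : ℤ) ≤ p * j + (p - 1) := fun x hx => by
    have k1 := Nat.div_add_mod (8 * ((ψ x : ZMod p) * l).val) p
    have k2 := Nat.mod_lt (8 * ((ψ x : ZMod p) * l).val) hp.pos
    rw [(mem_filter.1 hx).2] at k1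
    have k3 : (p : ℤ) * j = (p * j : ℕ) := by push_cast; rfl
    omega
  generalize ht : ∑ i, (((ψ (a i) : ZMod p) * l).val : ℤ) -
    ∑ i, (((ψ (b i) : ZMod p) * l).val : ℤ) = t
  have h4 : |t| < p := by
    have k1 := sum_le_card_nsmul univ _ _ fun i _ => (h3 _ (ha i)).2
    have k2 := sum_le_card_nsmul univ _ _ fun i _ => (h3 _ (hb i)).2
    have k3 := card_nsmul_le_sum univ _ _ fun i _ => (h3 _ (ha i)).1
    have k4 := card_nsmul_le_sum univ _ _ fun i _ => (h3 _ (hb i)).1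
    rw [← mul_sum, card_univ, Fintype.card_fin, nsmul_eq_mul] at k1 k2 k3 k4
    push_cast at k1 k2 k3 k4
    rw [abs_lt]
    constructor <;> linarith
  have h5 : (t : ZMod p) = ψ (∑ i, a i - ∑ i, b i) * l := by
    rw [← ht, h1]
    push_cast
    simp only [ZMod.natCast_val, ZMod.cast_id', id, sub_mul, sum_mul]
  have h6 : ∀ c : Fin 8 → ℂ, (∀ i, c i ∈ A.filter fun a => 8 * ((ψ a : ZMod p) * l).val / p = j) →
      ∑ i, c i ∈ 8 • A := fun c hc => mem_nsmul.2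
    ⟨fun i => ⟨c i, (mem_filter.1 (hc i)).1⟩, List.sum_ofFn⟩
  have h7 := sub_mem_sub (h6 a ha) (h6 b hb)
  refine ⟨fun h => by_contra fun k => hl _ h7 (fun e => ?_) t h4 h h5, fun h => ?_⟩
  · refine h2 (mem_erase.2 ⟨sub_ne_zero.2 k, h7⟩)
      (Int.eq_zero_of_abs_lt_dvd ((ZMod.intCast_zmod_eq_zero_iff_dvd _ _).1 e) ?_)
    have := le_sup (f := fun d => (ψ d).natAbs) h7
    rw [Int.abs_eq_natAbs]
    omega
  · rw [h, sub_self, h0, Int.cast_zero, zero_mul, ZMod.intCast_zmod_eq_zero_iff_dvd] at h5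
    rw [Int.eq_zero_of_abs_lt_dvd h5 h4]
    exact dvd_zero _

end Pool.Agent.Lib.MP_ad7336_sd
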