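import Pool.Agent.Lib.MP_ad7336_sd.Defs

set_option autoImplicit false

namespace Pool.Agent.Lib.MP_ad7336_sd

open Finset
open scoped Classical Pointwise

theorem layer (I : Finset ℤ) (f : ℤ → ℕ) {M : ℕ} (hf : ∀ x ∈ I, f x ≤ M) :
    ∑ m ∈ Icc 1 M, (I.filter fun x => m ≤ f x).card = ∑ x ∈ I, f x := by
  simp only [card_filter]
  rw [sum_comm]
  refine sum_congr rfl fun x hx => ?_
  rw [← card_filter, show (Icc 1 M).filter (fun m => m ≤ f x) = Icc 1 (f x) by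
    ext m
    simp only [mem_filter, mem_Icc]
    have := hf x hx
    omega, Nat.card_Icc, Nat.add_sub_cancel]

/-- Discrete Prekopa-Leindler inequality. -/
theorem pl1 {I J Z : Finset ℤ} (hI : I.Nonempty) (hJ : J.Nonempty) (f g : ℤ → ℕ) (h : ℤ → ℝ)
    {Φ : ℝ} (hf : ∀ x ∈ I, (f x : ℝ) ≤ Φ) (hg : ∀ x ∈ J, (g x : ℝ) ≤ Φ)
    (f0 : ∀ x ∈ I, 0 < f x) (g0 : ∀ x ∈ J, 0 < g x) (h0 : ∀ z ∈ Z, 0 ≤ h z)
    (hZ : ∀ x ∈ I, ∀ y ∈ J, x + y ∈ Z ∧ √((f x : ℝ) * g y) ≤ h (x + y)) :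
    2 * √((∑ x ∈ I, f x : ℕ) * (∑ x ∈ J, g x : ℕ)) - Φ ≤ ∑ z ∈ Z, h z := by
  obtain ⟨x₀, x1, x2⟩ := exists_max_image I f hI
  obtain ⟨y₀, y1, y2⟩ := exists_max_image J g hJ
  have F0 : (0 : ℝ) < f x₀ := by exact_mod_cast f0 _ x1
  have G0 : (0 : ℝ) < g y₀ := by exact_mod_cast g0 _ y1
  obtain ⟨s, hs⟩ : ∃ s, s = √((f x₀ : ℝ) * g y₀) := ⟨_, rfl⟩
  have s0 : 0 < s := hs ▸ Real.sqrt_pos.2 (by positivity)
  have s1 : s * s = f x₀ * g y₀ := hs ▸ Real.mul_self_sqrt (by positivity)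
  have s2 : s ≤ Φ := hs ▸ Real.sqrt_le_iff.2 ⟨F0.le.trans (hf _ x1), by
    rw [sq]
    exact mul_le_mul (hf _ x1) (hg _ y1) G0.le (F0.le.trans (hf _ x1))⟩
  have h1 : ∀ m ∈ Icc 1 (f x₀ * g y₀), (I.filter fun x => m ≤ f x * g y₀).card +
      (J.filter fun y => m ≤ f x₀ * g y).card ≤
      (Z.filter fun z => m ≤ min ⌊h z * s⌋₊ (f x₀ * g y₀)).card + 1 := fun m hm => by
    obtain ⟨-, m2⟩ := mem_Icc.1 hm
    have k1 := cauchy_davenport_add_of_linearOrder_isCancelAdd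
      (s := I.filter fun x => m ≤ f x * g y₀) (t := J.filter fun y => m ≤ f x₀ * g y)
      ⟨x₀, mem_filter.2 ⟨x1, m2⟩⟩ ⟨y₀, mem_filter.2 ⟨y1, m2⟩⟩
    have k2 : (I.filter fun x => m ≤ f x * g y₀) + (J.filter fun y => m ≤ f x₀ * g y) ⊆
        Z.filter fun z => m ≤ min ⌊h z * s⌋₊ (f x₀ * g y₀) := add_subset_iff.2 fun x hx y hy => by
      obtain ⟨a1, a2⟩ := mem_filter.1 hx
      obtain ⟨b1, b2⟩ := mem_filter.1 hy
      obtain ⟨c1, c2⟩ := hZ x a1 y b1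
      refine mem_filter.2 ⟨c1, le_min (Nat.le_floor (le_trans ?_
        (mul_le_mul_of_nonneg_right c2 s0.le))) m2⟩
      rw [hs, ← Real.sqrt_mul (by positivity)]
      refine Real.le_sqrt_of_sq_le ?_
      have a3 : (m : ℝ) ≤ f x * g y₀ := by exact_mod_cast a2
      have b3 : (m : ℝ) ≤ f x₀ * g y := by exact_mod_cast b2
      calc (m : ℝ) ^ 2 = m * m := sq _
        _ ≤ f x * g y₀ * (f x₀ * g y) := mul_le_mul a3 b3 (by positivity) (by positivity)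
        _ = _ := by ring
    have := card_le_card k2
    omega
  have h2 := sum_le_sum h1
  rw [sum_add_distrib, sum_add_distrib, layer I _ fun x hx => Nat.mul_le_mul_right _ (x2 x hx),
    layer J _ fun y hy => Nat.mul_le_mul_left _ (y2 y hy), layer Z _ fun z _ => min_le_right _ _,
    ← sum_mul, ← mul_sum, sum_const, Nat.card_Icc, smul_eq_mul, mul_one, Nat.add_sub_cancel] at h2
  have h3 : ((∑ z ∈ Z, min ⌊h z * s⌋₊ (f x₀ * g y₀) : ℕ) : ℝ) ≤ (∑ z ∈ Z, h z) * s := by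
    rw [Nat.cast_sum, sum_mul]
    exact sum_le_sum fun z hz => (Nat.cast_le.2 (min_le_left _ _)).trans
      (Nat.floor_le (mul_nonneg (h0 z hz) s0.le))
  generalize ∑ x ∈ I, f x = a at h2 ⊢
  generalize ∑ x ∈ J, g x = b at h2 ⊢
  have h4 : (a : ℝ) * g y₀ + f x₀ * b ≤ (∑ z ∈ Z, h z) * s + s * s := by
    rw [s1]
    refine le_trans ?_ (add_le_add h3 le_rfl)
    exact_mod_cast h2
  have h5 : 2 * √((a : ℝ) * b) * s ≤ a * g y₀ + f x₀ * b := by
    refine abs_le_of_sq_le_sq' ?_ (by positivity) |>.2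
    rw [mul_pow, mul_pow, Real.sq_sqrt (by positivity), sq s, s1]
    nlinarith [sq_nonneg ((a : ℝ) * g y₀ - f x₀ * b)]
  refine le_of_mul_le_mul_right ?_ s0
  nlinarith [mul_le_mul_of_nonneg_right s2 s0.le]

theorem pl_step {G : Type} [AddCommGroup G] [DecidableEq G] (π : G →+ ℤ)
    (𝒞 : Finset G → Prop) (hC : ∀ A B, A ⊆ B → 𝒞 B → 𝒞 A) {κ E Φ : ℝ} {n : ℕ} (hκ : 0 < κ)
    (hE : 0 ≤ E) (hΦ : 0 ≤ Φ) (hn : ∀ A, 𝒞 A → ∀ a ∈ A, |π a| ≤ n)
    (h1 : ∀ A x, 𝒞 A → (∀ a ∈ A, π a = x) → (A.card : ℝ) ≤ Φ)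
    (h2 : ∀ A B, (𝒞 A ∧ ∃ x, ∀ a ∈ A, π a = x) → (𝒞 B ∧ ∃ x, ∀ a ∈ B, π a = x) →
      κ * √((A.card : ℝ) * B.card) - E ≤ (A + B).card) (A B : Finset G) (hA : 𝒞 A) (hB : 𝒞 B) :
    2 * κ * √((A.card : ℝ) * B.card) - (κ * Φ + 2 * (2 * n + 1) * E) ≤ (A + B).card := by
  have e0 : 0 ≤ κ * Φ + 2 * (2 * n + 1) * E := by positivity
  rcases A.eq_empty_or_nonempty with rfl | a0
  · simp only [card_empty, Nat.cast_zero, zero_mul, Real.sqrt_zero, mul_zero, empty_add]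
    linarith
  rcases B.eq_empty_or_nonempty with rfl | b0
  · simp only [card_empty, Nat.cast_zero, Real.sqrt_zero, mul_zero, add_empty]
    linarith
  have fib : ∀ (A : Finset G) x, 𝒞 A → 𝒞 (A.filter fun a => π a = x) ∧
      ∀ a ∈ A.filter fun a => π a = x, π a = x :=
    fun A x h => ⟨hC _ _ (filter_subset _ _) h, fun a ha => (mem_filter.1 ha).2⟩
  have pos : ∀ (A : Finset G), ∀ x ∈ A.image π, 0 < (A.filter fun a => π a = x).card :=
    fun A x hx => let ⟨a, ha, e⟩ := mem_image.1 hx; card_pos.2 ⟨a, mem_filter.2 ⟨ha, e⟩⟩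
  have h3 := pl1 (Z := Icc (-(2 * n : ℤ)) (2 * n)) (a0.image π) (b0.image π)
    (fun x => (A.filter fun a => π a = x).card) (fun x => (B.filter fun a => π a = x).card)
    (fun z => ((((A + B).filter fun a => π a = z).card : ℝ) + E) / κ) (Φ := Φ)
    (fun x _ => h1 _ x (fib A x hA).1 (fib A x hA).2)
    (fun x _ => h1 _ x (fib B x hB).1 (fib B x hB).2) (pos A) (pos B) (fun z _ => by positivity)
    fun x hx y hy => ⟨by
      obtain ⟨a, ha, rfl⟩ := mem_image.1 hx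
      obtain ⟨b, hb, rfl⟩ := mem_image.1 hy
      have := abs_le.1 (hn A hA a ha)
      have := abs_le.1 (hn B hB b hb)
      rw [mem_Icc]
      omega, by
      have k1 := h2 _ _ ⟨(fib A x hA).1, x, (fib A x hA).2⟩ ⟨(fib B y hB).1, y, (fib B y hB).2⟩
      have k2 : (A.filter fun a => π a = x) + (B.filter fun a => π a = y) ⊆
          (A + B).filter fun a => π a = x + y := add_subset_iff.2 fun a ha b hb => by
        obtain ⟨a1, a2⟩ := mem_filter.1 ha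
        obtain ⟨b1, b2⟩ := mem_filter.1 hb
        exact mem_filter.2 ⟨add_mem_add a1 b1, by rw [map_add, a2, b2]⟩
      have k3 : (((A.filter fun a => π a = x) + (B.filter fun a => π a = y)).card : ℝ) ≤ _ :=
        Nat.cast_le.2 (card_le_card k2)
      rw [le_div_iff₀ hκ]
      linarith⟩
  rw [← card_eq_sum_card_image, ← card_eq_sum_card_image, ← sum_div, le_div_iff₀ hκ,
    sum_add_distrib, sum_const, Int.card_Icc, nsmul_eq_mul, ← Nat.cast_sum,
    sum_card_fiberwise_eq_card_filter, show (2 * n + 1 - -(2 * n : ℤ)).toNat = 4 * n + 1 by omega]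
    at h3
  have h4 : (((A + B).filter fun a => π a ∈ Icc (-(2 * n : ℤ)) (2 * n)).card : ℝ) ≤ _ :=
    Nat.cast_le.2 (card_filter_le _ _)
  push_cast at h3
  nlinarith

theorem card_slice {ι : Type} [Fintype ι] (N : ι → ℕ) (S : Finset ι) {A : Finset (ι → ℤ)}
    (hA : A ⊆ box N) (h : ∀ i ∈ S, ∃ x, ∀ a ∈ A, a i = x) :
    (A.card : ℝ) ≤ vol N / ∏ i ∈ S, (2 * N i + 1 : ℝ) := by
  choose! x hx using h
  have h1 : A ⊆ Fintype.piFinset fun i => if i ∈ S then {x i} else Icc (-(N i : ℤ)) (N i) :=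
    fun a ha => Fintype.mem_piFinset.2 fun i => by
      split_ifs with k
      · exact mem_singleton.2 (hx i k a ha)
      · exact mem_Icc.2 (abs_le.1 (mem_box.1 (hA ha) i))
  have h2 := card_le_card h1
  rw [Fintype.card_piFinset] at h2
  have h3 : A.card * ∏ i ∈ S, (2 * N i + 1) ≤ vol N := by
    refine (Nat.mul_le_mul_right _ h2).trans (le_of_eq ?_)
    rw [← univ_inter S, ← prod_ite_mem, univ_inter, ← prod_mul_distrib]
    refine prod_congr rfl fun i _ => ?_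
    split_ifs
    · simp
    · rw [Int.card_Icc]
      omega
  rw [le_div_iff₀ (prod_pos fun i _ => by positivity)]
  exact_mod_cast h3

theorem pl3 {ι : Type} [Fintype ι] (N : ι → ℕ) {A : Finset (ι → ℤ)} (hA : A ⊆ box N) {i j k : ι}
    (hij : i ≠ j) (hik : i ≠ k) (hjk : j ≠ k) {M : ℕ} (hM : 0 < M) (hi : M ≤ N i) (hj : M ≤ N j)
    (hk : M ≤ N k) : 8 * (A.card : ℝ) - 12 * vol N / M ≤ (A + A).card := by
  let π : ι → (ι → ℤ) →+ ℤ := fun i => Pi.evalAddMonoidHom (fun _ => ℤ) i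
  have mono : ∀ (i : ι) (A B : Finset (ι → ℤ)), A ⊆ B → (∃ x, ∀ a ∈ B, π i a = x) →
      ∃ x, ∀ a ∈ A, π i a = x := fun i A B h ⟨x, hx⟩ => ⟨x, fun a ha => hx a (h ha)⟩
  have h3 := pl_step (π k) (fun A => (A ⊆ box N ∧ ∃ x, ∀ a ∈ A, π i a = x) ∧ ∃ x, ∀ a ∈ A, π j a = x)
    (fun A B h k => ⟨⟨h.trans k.1.1, mono _ _ _ h k.1.2⟩, mono _ _ _ h k.2⟩) (κ := 1) (E := 0)
    (Φ := vol N / ∏ l ∈ {i, j, k}, (2 * N l + 1 : ℝ)) (n := N k) one_pos le_rfl (by positivity)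
    (fun A h a ha => mem_box.1 (h.1.1 ha) k)
    (fun A x h1 h2 => card_slice N _ h1.1.1 (by
      simp only [mem_insert, mem_singleton, forall_eq_or_imp, forall_eq]
      exact ⟨h1.1.2, h1.2, x, h2⟩)) fun A B _ _ => by
      rw [one_mul, sub_zero]
      rcases A.eq_empty_or_nonempty with rfl | a0
      · simp
      rcases B.eq_empty_or_nonempty with rfl | b0
      · simp
      refine Real.sqrt_le_iff.2 ⟨by positivity, ?_⟩
      rw [sq]
      exact_mod_cast Nat.mul_le_mul (card_le_card_add_right b0) (card_le_card_add_left a0)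
  have h2 := pl_step (π j) (fun A => A ⊆ box N ∧ ∃ x, ∀ a ∈ A, π i a = x)
    (fun A B h k => ⟨h.trans k.1, mono _ _ _ h k.2⟩)
    (Φ := vol N / ∏ l ∈ {i, j}, (2 * N l + 1 : ℝ)) (n := N j) (by norm_num) (by positivity)
    (by positivity) (fun A h a ha => mem_box.1 (h.1 ha) j)
    (fun A x h1 h2 => card_slice N _ h1.1 (by
      simp only [mem_insert, mem_singleton, forall_eq_or_imp, forall_eq]
      exact ⟨h1.2, x, h2⟩)) h3
  have h1 := pl_step (π i) (fun A => A ⊆ box N) (fun A B h k => h.trans k)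
    (Φ := vol N / ∏ l ∈ {i}, (2 * N l + 1 : ℝ)) (n := N i) (by norm_num) (by positivity)
    (by positivity) (fun A h a ha => mem_box.1 (h ha) i)
    (fun A x h1 h2 => card_slice N _ h1 (by
      simp only [mem_singleton, forall_eq]
      exact ⟨x, h2⟩)) h2 A A hA hA
  rw [Real.sqrt_mul_self (Nat.cast_nonneg _), prod_pair hij, prod_insert (by simp [hij, hik]),
    prod_pair hjk, prod_singleton] at h1
  have M0 : (0 : ℝ) < M := by exact_mod_cast hM
  have b : ∀ l, M ≤ N l → (vol N : ℝ) / (2 * N l + 1) ≤ vol N / M := fun l h => by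
    have : (M : ℝ) ≤ N l := by exact_mod_cast h
    gcongr
    linarith
  refine le_trans ?_ h1
  have e : (2 * (2 * 1) * (vol N / (2 * N i + 1)) + 2 * (2 * N i + 1) *
      (2 * 1 * (vol N / ((2 * N i + 1) * (2 * N j + 1))) + 2 * (2 * N j + 1) *
        (1 * (vol N / ((2 * N i + 1) * ((2 * N j + 1) * (2 * N k + 1)))) + 2 * (2 * N k + 1) * 0)) : ℝ)
      = 4 * (vol N / (2 * N i + 1)) + 4 * (vol N / (2 * N j + 1)) + 4 * (vol N / (2 * N k + 1)) := by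
    field_simp
    ring
  rw [e, mul_div_assoc]
  linarith [b i hi, b j hj, b k hk]

end Pool.Agent.Lib.MP_ad7336_sd
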