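import Pool.Agent.Lib.MP_ad7336_sd.Bohr
import Pool.Agent.Lib.MP_ad7336_sd.Bog
import Pool.Agent.Lib.MP_ad7336_sd.Model
import Pool.Agent.Lib.MP_ad7336_sd.PL

set_option autoImplicit false

namespace Pool.Agent.Lib.MP_ad7336_sd

open Finset
open scoped Classical Pointwise

/-- `g` in `2A - 2A` lies over the class of `x`. -/
def Rel (A : Finset ℂ) (m : ℂ → ℤ) (N : ℕ) (x : ℤ) (g : ℂ) : Prop :=
  ∃ a₁ ∈ A, ∃ a₂ ∈ A, ∃ a₃ ∈ A, ∃ a₄ ∈ A, (N : ℤ) ∣ x - (m a₁ + m a₂ - m a₃ - m a₄) ∧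
    g = a₁ + a₂ - (a₃ + a₄)

theorem Q8.four {A : Finset ℂ} {m : ℂ → ℤ} {N : ℕ} (h : Q8 A m N) {x₁ x₂ x₃ x₄ : ℤ}
    {g₁ g₂ g₃ g₄ : ℂ} (h1 : Rel A m N x₁ g₁) (h2 : Rel A m N x₂ g₂) (h3 : Rel A m N x₃ g₃)
    (h4 : Rel A m N x₄ g₄) : (N : ℤ) ∣ x₁ + x₂ - (x₃ + x₄) ↔ g₁ + g₂ = g₃ + g₄ := by
  obtain ⟨a₁, a1, a₂, a2, a₃, a3, a₄, a4, a5, rfl⟩ := h1
  obtain ⟨b₁, b1, b₂, b2, b₃, b3, b₄, b4, b5, rfl⟩ := h2
  obtain ⟨c₁, c1, c₂, c2, c₃, c3, c₄, c4, c5, rfl⟩ := h3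
  obtain ⟨d₁, d1, d₂, d2, d₃, d3, d₄, d4, d5, rfl⟩ := h4
  have := h ![a₁, a₂, b₁, b₂, c₃, c₄, d₃, d₄] ![a₃, a₄, b₃, b₄, c₁, c₂, d₁, d₂]
    (fun i => by fin_cases i <;> simpa) fun i => by fin_cases i <;> simpa
  simp only [Fin.sum_univ_eight, Matrix.cons_val] at this
  refine ((dvd_iff_dvd_of_dvd_sub ?_).trans this).trans
    ⟨fun k => by linear_combination k, fun k => by linear_combination k⟩
  refine (dvd_sub (dvd_add a5 b5) (dvd_add c5 d5)).trans (dvd_of_eq ?_)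
  ring

theorem pull {A : Finset ℂ} {m : ℂ → ℤ} {N : ℕ} (h : Q8 A m N) {ι : Type}
    [Fintype ι] (L : ι → ℕ) (b : ι → ℤ) (hb : ∀ a ∈ box L, ∃ g, Rel A m N (∑ i, a i * b i) g) :
    ∃ g : ι → ℂ, ∀ a ∈ box L, Rel A m N (∑ i, a i * b i) (gp g a) := by
  choose! G hG using hb
  have h0 : Rel A m N 0 0 := by
    obtain ⟨a, ha, -⟩ := hG 0 (mem_box.2 fun i => by simp)
    exact ⟨a, ha, a, ha, a, ha, a, ha, by simp, by simp⟩
  refine ⟨fun i => G (Pi.single i 1), fun a => ?_⟩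
  induction hn : ∑ i, (a i).natAbs using Nat.strong_induction_on generalizing a with
  | _ n ih =>
  intro ha
  by_cases k : ∀ i, a i = 0
  · simpa [k, gp] using h0
  obtain ⟨i, hi⟩ := not_forall.1 k
  have k0 := mem_box.1 ha
  have k1 := hG (Pi.single i 1) (mem_box.2 fun j => by
    rcases eq_or_ne j i with rfl | e
    · rw [Pi.single_eq_same]
      exact (Int.one_le_abs hi).trans (k0 j)
    · simp [e])
  have k2 : ∀ s : ℤ, (a i + s).natAbs < (a i).natAbs →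
      Rel A m N (∑ j, a j * b j + s * b i)
        (gp (fun i => G (Pi.single i 1)) a + s * G (Pi.single i 1)) := fun s hs => by
    have le : ∀ j, ((a + Pi.single i s : ι → ℤ) j).natAbs ≤ (a j).natAbs := fun j => by
      rcases eq_or_ne j i with rfl | e
      · simpa using hs.le
      · simp [e]
    have := ih _ (hn ▸ sum_lt_sum (fun j _ => le j) ⟨i, mem_univ _, by simpa using hs⟩)
      (a + Pi.single i s) rfl (mem_box.2 fun j => by
        have h1 := k0 j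
        have h2 := le j
        rw [Int.abs_eq_natAbs] at h1 ⊢
        omega)
    simpa [gp, add_mul, sum_add_distrib, Pi.single_apply] using this
  have k3 : (∑ j, (Pi.single i 1 : ι → ℤ) j * b j) = b i := by simp [Pi.single_apply]
  rw [k3] at k1
  have k4 : G a = gp (fun i => G (Pi.single i 1)) a := by
    rcases lt_or_gt_of_ne hi with e | e
    · have := (h.four (hG a ha) k1 (k2 1 (by omega)) h0).1 (by simp)
      push_cast at this
      linear_combination this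
    · have := (h.four (hG a ha) h0 (k2 (-1) (by omega)) k1).1 (by simp)
      push_cast at this
      linear_combination this
  exact k4 ▸ hG a ha

theorem plu {A : Finset ℂ} (hA : A.Nonempty) {K : ℕ} (h : (A + A).card ≤ K * A.card) (m n : ℕ) :
    (m • A - n • A).card ≤ K ^ (m + n) * A.card := by
  have h1 := pluennecke_ruzsa_inequality_nsmul_sub_nsmul_add hA A m n
  have h2 : ((A + A).card / A.card : ℚ≥0) ≤ K := by
    rw [div_le_iff₀ (by exact_mod_cast hA.card_pos)]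
    exact_mod_cast h
  have h3 : ((m • A - n • A).card : ℚ≥0) ≤ K ^ (m + n) * A.card := h1.trans (by gcongr)
  exact_mod_cast h3

theorem frei1 (K : ℕ) : ∃ d C : ℕ, ∀ A : Finset ℂ, A.Nonempty → (A + A).card ≤ K * A.card →
    ∃ (ι : Type) (_ : Fintype ι) (N : ι → ℕ) (g : ι → ℂ), Fintype.card ι ≤ d ∧
      vol N ≤ C * A.card ∧ ∀ p ∈ A, ∃ a ∈ box N, gp g a = p := by
  obtain ⟨d, C, hb⟩ := bohr (2 * ((2 * K ^ 16 + 1) * 8) ^ 2)
  refine ⟨d + K ^ 5 * C, 2 ^ d * K ^ 4 * 3 ^ (K ^ 5 * C), fun A hA hK => ?_⟩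
  obtain ⟨A', m, N, a1, a2, a3, a4⟩ := model A
  have n0 := hA.card_pos
  have h1 : (8 • A - 8 • A).card ≤ K ^ 16 * A.card := plu hA hK 8 8
  obtain ⟨S, s1, s2⟩ := bog (C := (2 * K ^ 16 + 1) * 8) (by omega) a4 (by
    rw [mul_assoc]
    exact le_trans (by rw [add_mul, mul_assoc]; omega) (Nat.mul_le_mul_left _ a2))
  obtain ⟨d', hd, L, b, b1, b2, b3⟩ := hb N S (by omega) s1
  obtain ⟨g, hg⟩ := pull a4 L b fun a ha =>
    let ⟨a₁, x1, a₂, x2, a₃, x3, a₄, x4, x5⟩ := s2 _ (b2 a ha)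
    ⟨_, a₁, x1, a₂, x2, a₃, x3, a₄, x4, x5, rfl⟩
  have p1 : ((box L).image (gp g)).card = vol L := by
    rw [← card_box]
    refine card_image_of_injOn fun a ha a' ha' e => b3 a ha a' ha' ?_
    simpa using (a4.four (hg a ha) (hg a ha) (hg a' ha') (hg a ha)).2 (by rw [e])
  have p2 : (box L).image (gp g) ⊆ 2 • A - 2 • A := image_subset_iff.2 fun a ha => by
    obtain ⟨a₁, x1, a₂, x2, a₃, x3, a₄, x4, -, x5⟩ := hg a ha
    rw [x5, two_nsmul]
    exact sub_mem_sub (add_mem_add (a1 x1) (a1 x2)) (add_mem_add (a1 x3) (a1 x4))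
  have p3 : A + (box L).image (gp g) ⊆ 3 • A - 2 • A := add_subset_iff.2 fun x hx y hy => by
    obtain ⟨u, hu, v, hv, rfl⟩ := mem_sub.1 (p2 hy)
    rw [← add_sub_assoc, succ_nsmul' A 2]
    exact sub_mem_sub (add_mem_add hx hu) hv
  have p4 : A.card ≤ C * vol L := by
    have := (card_le_card_nsmul (s := A) (n := 8) (by norm_num)).trans
      (card_le_card_sub_right (t := 8 • A) hA.nsmul)
    omega
  obtain ⟨F, -, f1, f2⟩ := ruzsa_covering_add (A := A) (B := (box L).image (gp g))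
    (K := (K ^ 5 * C : ℕ)) (Nonempty.image ⟨0, mem_box.2 fun i => by simp⟩ _) (by
      have := ((card_le_card p3).trans (plu hA hK 3 2)).trans (Nat.mul_le_mul_left _ p4)
      rw [p1]
      rw [← mul_assoc] at this
      exact_mod_cast this)
  have f3 : F.card ≤ K ^ 5 * C := by exact_mod_cast f1
  refine ⟨Fin d' ⊕ F, inferInstance, Sum.elim (fun i => 2 * L i) fun _ => 1,
    Sum.elim g fun f => f, by simpa using Nat.add_le_add hd f3, ?_, fun p hp => ?_⟩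
  · have q1 := vol_le (N := L) (N' := fun i => 2 * L i) (c := 2) (d := d) two_pos
      (fun i => by omega) (by simpa using hd)
    have q2 : vol L ≤ K ^ 4 * A.card := p1 ▸ (card_le_card p2).trans (plu hA hK 2 2)
    rw [vol, Fintype.prod_sum_type]
    simp only [Sum.elim_inl, Sum.elim_inr, prod_const, card_univ, Fintype.card_coe]
    calc _ ≤ 2 ^ d * (K ^ 4 * A.card) * 3 ^ (K ^ 5 * C) := Nat.mul_le_mul
          (q1.trans (Nat.mul_le_mul_left _ q2)) (Nat.pow_le_pow_right (by norm_num) f3)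
      _ = _ := by ring
  · obtain ⟨f, hf, _, hy, rfl⟩ := mem_add.1 (f2 hp)
    obtain ⟨_, hu, _, hv, rfl⟩ := mem_sub.1 hy
    obtain ⟨a, ha, rfl⟩ := mem_image.1 hu
    obtain ⟨a', ha', rfl⟩ := mem_image.1 hv
    refine ⟨Sum.elim (a - a') (Pi.single ⟨f, hf⟩ 1), mem_box.2 fun i => ?_, ?_⟩
    · rcases i with i | i
      · have := abs_le.1 (mem_box.1 ha i)
        have := abs_le.1 (mem_box.1 ha' i)
        simp only [Sum.elim_inl, Pi.sub_apply, abs_le]
        omega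
      · simp only [Sum.elim_inr, Pi.single_apply]
        split_ifs <;> simp
    · simp [gp, Fintype.sum_sum_type, Pi.single_apply, sub_mul, add_comm]

theorem two_sides {ι : Type} [Fintype ι] (N : ι → ℕ) (g : ι → ℂ) {S : Finset ι} (hS : S.card ≤ 2) :
    ∃ (u v : ℂ) (n₁ n₂ : ℕ), (2 * n₁ + 1) * (2 * n₂ + 1) ≤ vol N ∧ ∀ a ∈ box N, ∃ i j : ℤ,
      |i| ≤ n₁ ∧ |j| ≤ n₂ ∧ ∑ l ∈ S, (a l : ℂ) * g l = i * u + j * v := by
  have h1 : ∏ l ∈ S, (2 * N l + 1) ≤ vol N :=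
    prod_le_prod_of_subset_of_one_le' (subset_univ S) fun _ _ _ => by omega
  rcases (by omega : S.card = 0 ∨ S.card = 1 ∨ S.card = 2) with h | h | h
  · obtain rfl := card_eq_zero.1 h
    exact ⟨0, 0, 0, 0, by simpa using h1, fun a _ => ⟨0, 0, by simp⟩⟩
  · obtain ⟨i, rfl⟩ := card_eq_one.1 h
    exact ⟨g i, 0, N i, 0, by simpa using h1, fun a ha => ⟨a i, 0, mem_box.1 ha i, by simp⟩⟩
  · obtain ⟨i, j, e, rfl⟩ := card_eq_two.1 h
    exact ⟨g i, g j, N i, N j, by rwa [prod_pair e] at h1, fun a ha =>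
      ⟨a i, a j, mem_box.1 ha i, mem_box.1 ha j, by rw [sum_pair e]⟩⟩

theorem frei {K : ℝ} (hK : K < 8) : ∃ t C : ℕ, ∀ A : Finset ℂ, ((A + A).card : ℝ) ≤ K * A.card →
    ∃ (T : Finset ℂ) (u v : ℂ) (N₁ N₂ : ℕ), T.card ≤ t ∧ N₁ * N₂ ≤ C * A.card ∧
      ∀ p ∈ A, ∃ τ ∈ T, ∃ i j : ℕ, i < N₁ ∧ j < N₂ ∧ p = τ + i * u + j * v := by
  obtain ⟨d, C₁, h1⟩ := frei1 8
  obtain ⟨C₂, -, h2⟩ := rr d
  obtain ⟨M, hM⟩ := exists_nat_gt (12 * (C₂ * C₁ : ℕ) / (8 - K))
  have M0 : (0 : ℝ) < M := lt_of_le_of_lt (div_nonneg (by positivity) (by linarith)) hM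
  refine ⟨(2 * M + 1) ^ d, C₂ * C₁, fun A hA => ?_⟩
  rcases A.eq_empty_or_nonempty with rfl | a0
  · exact ⟨∅, 0, 0, 0, 0, by simp⟩
  have n0 : (0 : ℝ) < A.card := by exact_mod_cast a0.card_pos
  obtain ⟨ι, _, N, g, k1, k2, k3⟩ := h1 A a0 (by
    exact_mod_cast hA.trans (mul_le_mul_of_nonneg_right hK.le n0.le))
  obtain ⟨κ, _, N', g', k4, k5, k6, k7⟩ := h2 ι N g k1
  have k8 : vol N' ≤ C₂ * C₁ * A.card := k6.trans (by rw [mul_assoc]; exact Nat.mul_le_mul_left _ k2)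
  choose! l l1 l2 using fun p hp => show ∃ a ∈ box N', gp g' a = p by
    obtain ⟨a, x1, rfl⟩ := k3 p hp
    exact k5 a x1
  have hS : (univ.filter fun i => M ≤ N' i).card ≤ 2 := not_lt.1 fun k => by
    obtain ⟨i, j, k, hi, hj, hk, e1, e2, e3⟩ := two_lt_card_iff.1 k
    have q0 : A.image l ⊆ box N' := image_subset_iff.2 l1
    have q1 := pl3 N' q0 e1 e2 e3 (by exact_mod_cast M0) (mem_filter.1 hi).2 (mem_filter.1 hj).2
      (mem_filter.1 hk).2
    rw [card_image_of_injOn fun p hp q hq e => by rw [← l2 p hp, e, l2 q hq]] at q1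
    have q2 : (A.image l + A.image l).card ≤ (A + A).card := by
      refine card_le_card_of_injOn (gh g') (fun x hx => ?_) fun x hx y hy e => ?_
      · obtain ⟨_, hu, _, hv, rfl⟩ := mem_add.1 hx
        obtain ⟨p, hp, rfl⟩ := mem_image.1 hu
        obtain ⟨q, hq, rfl⟩ := mem_image.1 hv
        rw [map_add, gh_apply, gh_apply, l2 p hp, l2 q hq]
        exact add_mem_add hp hq
      · obtain ⟨a, ha, b, hb, rfl⟩ := mem_add.1 hx
        obtain ⟨a', ha', b', hb', rfl⟩ := mem_add.1 hy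
        refine sub_eq_zero.1 (k7 _ (fun i => ?_) (by rw [← gh_apply, map_sub, e, sub_self]))
        have := abs_le.1 (mem_box.1 (q0 ha) i)
        have := abs_le.1 (mem_box.1 (q0 hb) i)
        have := abs_le.1 (mem_box.1 (q0 ha') i)
        have := abs_le.1 (mem_box.1 (q0 hb') i)
        simp only [Pi.sub_apply, Pi.add_apply, abs_le]
        omega
    have q3 : ((A.image l + A.image l).card : ℝ) ≤ K * A.card := (Nat.cast_le.2 q2).trans hA
    have q4 : (12 * vol N' / M : ℝ) < (8 - K) * A.card := by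
      have q5 : (vol N' : ℝ) ≤ (C₂ * C₁ : ℕ) * A.card := by exact_mod_cast k8
      rw [div_lt_iff₀ (by linarith)] at hM
      rw [div_lt_iff₀ M0]
      nlinarith [mul_lt_mul_of_pos_right hM n0]
    linarith
  obtain ⟨u, v, n₁, n₂, t1, t2⟩ := two_sides N' g' hS
  refine ⟨(box fun i => if M ≤ N' i then 0 else M).image fun a => gp g' a - n₁ * u - n₂ * v, u, v,
    2 * n₁ + 1, 2 * n₂ + 1, card_image_le.trans ?_, t1.trans k8, fun p hp => ?_⟩
  · rw [card_box]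
    simpa [vol] using vol_le (N := fun _ : κ => 0) (N' := fun i => if M ≤ N' i then 0 else M)
      (c := 2 * M + 1) (by omega) (fun i => by split_ifs <;> omega) k4
  · obtain ⟨i, j, hi, hj, e⟩ := t2 _ (l1 p hp)
    obtain ⟨i1, i2⟩ := abs_le.1 hi
    obtain ⟨j1, j2⟩ := abs_le.1 hj
    refine ⟨_, mem_image_of_mem _ (a := fun k => if M ≤ N' k then 0 else l p k)
      (mem_box.2 fun k => ?_), (i + n₁).toNat, (j + n₂).toNat, by omega, by omega, ?_⟩
    · have := mem_box.1 (l1 p hp) k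
      split_ifs
      · simp
      · omega
    · have e1 : (((i + n₁).toNat : ℕ) : ℂ) = i + n₁ := by
        exact_mod_cast congrArg (Int.cast : ℤ → ℂ) (Int.toNat_of_nonneg (by omega : 0 ≤ i + n₁))
      have e2 : (((j + n₂).toNat : ℕ) : ℂ) = j + n₂ := by
        exact_mod_cast congrArg (Int.cast : ℤ → ℂ) (Int.toNat_of_nonneg (by omega : 0 ≤ j + n₂))
      have e3 : p = gp g' (fun k => if M ≤ N' k then 0 else l p k) +
          ∑ k ∈ univ.filter fun i => M ≤ N' i, (l p k : ℂ) * g' k := by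
        rw [sum_filter, gp, ← sum_add_distrib]
        refine (l2 p hp).symm.trans (sum_congr rfl fun k _ => ?_)
        split_ifs <;> simp
      rw [e1, e2]
      linear_combination e3 + e

end Pool.Agent.Lib.MP_ad7336_sd
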