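import Pool.Agent.Lib.MP_ad7336_sd.UD
import Pool.Agent.Lib.MP_ad7336_sd.Frei
import Pool.Agent.Lib.MP_ad7336_co.Sharp

set_option autoImplicit false

namespace Pool.Agent.Lib.MP_ad7336_sd

open Finset Filter
open Pool.Agent.Lib.MP_ad7336_co
open scoped Classical Pointwise

theorem ncard_add (A : Finset ℂ) :
    {z : ℂ | ∃ a ∈ A, ∃ b ∈ A, z = a + b}.ncard = (A + A).card := by
  rw [← Set.ncard_coe_finset]
  congr 1
  ext z
  simp only [Set.mem_ofPred_eq, mem_coe, Finset.mem_add, eq_comm]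

theorem fin {K : ℝ} (hK : K < 8) (C : ℝ) {H : IQ} (ha : H.a = -1) (hb : H.b = 1) {ε : ℝ}
    (hε : 0 < ε) : ∀ᶠ n : ℕ in atTop, ∀ Q T A : Finset ℂ, Q.card = n → (T.card : ℝ) ≤ C →
      (A.card : ℝ) ≤ C * n → ({z : ℂ | ∃ a ∈ A, ∃ b ∈ A, z = a + b}.ncard : ℝ) ≤ K * A.card →
      (∀ q ∈ Q, ∃ t ∈ T, ∃ a ∈ A, q = t + a) → (H.kap - ε) * n / √(Real.log n) ≤ DD Q ∧
        ∃ P : Finset ℂ, P.card = n ∧ (∀ p ∈ P, Tri p) ∧ DD P ≤ DD Q := by
  obtain ⟨t, C', hF⟩ := frei hK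
  obtain ⟨c, hc⟩ := exists_nat_ge C
  filter_upwards [ud (c * t) (C' * c) ha hb hε] with n h Q T A h1 h2 h3 h4 h5
  rw [ncard_add] at h4
  obtain ⟨T', u, v, N₁, N₂, k1, k2, k3⟩ := hF A h4
  have h6 : T.card ≤ c := by exact_mod_cast h2.trans hc
  have h7 : A.card ≤ c * n := by
    exact_mod_cast h3.trans (mul_le_mul_of_nonneg_right hc (Nat.cast_nonneg n))
  refine h Q (T + T') u v N₁ N₂ h1 (card_add_le.trans (Nat.mul_le_mul h6 k1))
    (k2.trans (by rw [mul_assoc]; exact Nat.mul_le_mul_left _ h7)) fun q hq => ?_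
  obtain ⟨s, s1, a, a1, rfl⟩ := h5 q hq
  obtain ⟨s', s2, i, j, a2, a3, rfl⟩ := k3 a a1
  exact ⟨s + s', add_mem_add s1 s2, i, j, a2, a3, by ring⟩

/-- A subset of the triangular lattice of small diameter lies in a box of small doubling. -/
theorem in_box {Q : Finset ℂ} (h0 : Q.Nonempty) (h1 : ∀ p ∈ Q, Tri p)
    (h2 : ∀ p ∈ Q, ∀ q ∈ Q, dist p q ^ 2 ≤ 2 * Q.card) : ∃ (t : ℂ) (A : Finset ℂ),
    A.card ≤ 81 * Q.card ∧ (A + A).card ≤ 4 * A.card ∧ ∀ q ∈ Q, ∃ a ∈ A, q = t + a := by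
  obtain ⟨o, ho⟩ := h0
  have n0 : 0 < Q.card := card_pos.2 ⟨o, ho⟩
  obtain ⟨L, l1, l2⟩ : ∃ L : ℕ, 4 * Q.card ≤ L ^ 2 ∧ (2 * L + 1) ^ 2 ≤ 81 * Q.card := by
    refine ⟨2 * (Q.card.sqrt + 1), by nlinarith [Nat.lt_succ_sqrt Q.card], ?_⟩
    have := Nat.sqrt_pos.2 n0
    nlinarith [Nat.sqrt_le Q.card]
  let g : Fin 2 → ℂ := ![1, (1 / 2 : ℂ) + ((Real.sqrt 3 / 2 : ℝ) : ℂ) * Complex.I]
  have s3 : (√3 : ℝ) ^ 2 = 3 := Real.sq_sqrt (by norm_num)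
  have nm : ∀ a : Fin 2 → ℤ, ‖gp g a‖ ^ 2 = (a 0 : ℝ) ^ 2 + a 0 * a 1 + a 1 ^ 2 := fun a => by
    rw [← Complex.normSq_eq_norm_sq, Complex.normSq_apply]
    simp [gp, g]
    linear_combination ((a 1 : ℝ) ^ 2 / 4) * s3
  have inj : Function.Injective (gp g) := (injective_iff_map_eq_zero (gh g)).2 fun a h => by
    have k := nm a
    rw [← gh_apply, h, norm_zero] at k
    have k0 : (a 0 : ℝ) = 0 := by nlinarith [sq_nonneg ((a 0 : ℝ) + 2 * a 1), sq_nonneg (a 0 : ℝ)]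
    have k1 : (a 1 : ℝ) = 0 := by nlinarith [sq_nonneg ((a 1 : ℝ) + 2 * a 0), sq_nonneg (a 1 : ℝ)]
    funext i
    fin_cases i
    · exact_mod_cast k0
    · exact_mod_cast k1
  have cd : ∀ M : ℕ, ((box fun _ : Fin 2 => M).image (gp g)).card = (2 * M + 1) ^ 2 := fun M => by
    rw [card_image_of_injective _ inj, card_box, vol, prod_const, card_univ, Fintype.card_fin]
  refine ⟨o, (box fun _ : Fin 2 => L).image (gp g), by rwa [cd], ?_, fun q hq => ?_⟩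
  · refine (card_le_card (t := (box fun _ : Fin 2 => 2 * L).image (gp g))
      (add_subset_iff.2 (forall_mem_image.2 fun a ha => forall_mem_image.2 fun b hb =>
        mem_image.2 ⟨a + b, mem_box.2 fun i => ?_, map_add (gh g) a b⟩))).trans ?_
    · have := abs_le.1 (mem_box.1 ha i)
      have := abs_le.1 (mem_box.1 hb i)
      simp only [Pi.add_apply, abs_le]
      omega
    · rw [cd, cd, show 4 * (2 * L + 1) ^ 2 = (2 * (2 * L + 1)) ^ 2 by ring]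
      exact Nat.pow_le_pow_left (by omega) 2
  · obtain ⟨a, b, e⟩ := h1 q hq
    obtain ⟨a', b', e'⟩ := h1 o ho
    have e1 : q - o = gp g ![a - a', b - b'] := by
      rw [e, e']
      simp [gp, g]
      ring
    have k := h2 q hq o ho
    rw [dist_eq_norm, e1, nm] at k
    have l3 : 4 * (Q.card : ℝ) ≤ (L : ℝ) ^ 2 := by exact_mod_cast l1
    refine ⟨_, mem_image_of_mem _ (mem_box.2 fun i => ?_), by rw [← e1]; ring⟩
    generalize ![a - a', b - b'] = x at k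
    have : |(x i : ℝ)| ≤ L := abs_le_of_sq_le_sq' ?_ (Nat.cast_nonneg _) |> abs_le.2
    · exact_mod_cast this
    · fin_cases i
      · change (x 0 : ℝ) ^ 2 ≤ _
        nlinarith [sq_nonneg ((x 0 : ℝ) + 2 * x 1)]
      · change (x 1 : ℝ) ^ 2 ≤ _
        nlinarith [sq_nonneg ((x 1 : ℝ) + 2 * x 0)]

end Pool.Agent.Lib.MP_ad7336_sd
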