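import Pool.Agent.Lib.MP_ad7336_sd.Defs

set_option autoImplicit false

namespace Pool.Agent.Lib.MP_ad7336_sd

open Finset Filter
open scoped Classical

namespace RKx

theorem red_pos (N : ℕ) : ∀ n₁ n₂ n₃ : ℤ, 0 < n₁ → n₁ ≤ N → ∃ g a b c : ℤ, 0 < g ∧ 0 < a ∧
    n₁ = g * a ∧ n₂ = g * b ∧ n₃ = g * c ∧ Cop3 a b c := by
  induction N with
  | zero => intro n₁ n₂ n₃ h1 h2; simp at h2; omega
  | succ N ih =>
    intro n₁ n₂ n₃ h1 h2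
    by_cases hc : Cop3 n₁ n₂ n₃
    · exact ⟨1, n₁, n₂, n₃, one_pos, h1, by ring, by ring, by ring, hc⟩
    · simp only [Cop3, not_forall, not_not] at hc
      obtain ⟨p, hp, ⟨m₁, e1⟩, ⟨m₂, e2⟩, ⟨m₃, e3⟩⟩ := hc
      have hp2 : (2 : ℤ) ≤ p := by exact_mod_cast hp.two_le
      have hm : 0 < m₁ := by
        by_contra hn
        have : (p : ℤ) * m₁ ≤ 0 := mul_nonpos_of_nonneg_of_nonpos (by omega) (by omega)
        omega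
      have hm2 : m₁ ≤ N := by
        have : 2 * m₁ ≤ (p : ℤ) * m₁ := mul_le_mul_of_nonneg_right hp2 hm.le
        push_cast at h2
        omega
      obtain ⟨g, a, b, c, hg, ha, f1, f2, f3, hcc⟩ := ih m₁ m₂ m₃ hm hm2
      refine ⟨p * g, a, b, c, by positivity, ha, ?_, ?_, ?_, hcc⟩
      · rw [e1, f1]; ring
      · rw [e2, f2]; ring
      · rw [e3, f3]; ring

theorem abs_le_of_eq {n g a : ℤ} (hg : g ≠ 0) (h : n = g * a) : |a| ≤ |n| := by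
  rw [h, abs_mul]
  have : 1 ≤ |g| := Int.one_le_abs hg
  nlinarith [abs_nonneg a]

theorem red3 (n₁ n₂ n₃ : ℤ) (h : n₁ ≠ 0) : ∃ g a b c : ℤ, g ≠ 0 ∧ 0 < a ∧
    n₁ = g * a ∧ n₂ = g * b ∧ n₃ = g * c ∧ Cop3 a b c ∧ |a| ≤ |n₁| ∧ |b| ≤ |n₂| ∧ |c| ≤ |n₃| := by
  rcases lt_or_gt_of_ne h with h | h
  · obtain ⟨g, a, b, c, hg, ha, f1, f2, f3, hc⟩ :=
      red_pos (-n₁).toNat (-n₁) (-n₂) (-n₃) (by omega) (by omega)
    have hg' : -g ≠ 0 := by omega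
    have e1 : n₁ = -g * a := by linarith
    have e2 : n₂ = -g * b := by linarith
    have e3 : n₃ = -g * c := by linarith
    exact ⟨-g, a, b, c, hg', ha, e1, e2, e3, hc, abs_le_of_eq hg' e1, abs_le_of_eq hg' e2,
      abs_le_of_eq hg' e3⟩
  · obtain ⟨g, a, b, c, hg, ha, e1, e2, e3, hc⟩ := red_pos n₁.toNat n₁ n₂ n₃ h (by omega)
    exact ⟨g, a, b, c, hg.ne', ha, e1, e2, e3, hc, abs_le_of_eq hg.ne' e1, abs_le_of_eq hg.ne' e2,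
      abs_le_of_eq hg.ne' e3⟩

theorem defn {α β γ x y : ℝ} (hα : 0 < α) (h : β ^ 2 < 4 * α * γ)
    (e : α * x ^ 2 + β * x * y + γ * y ^ 2 = 0) : x = 0 ∧ y = 0 := by
  have h1 : (2 * α * x + β * y) ^ 2 + (4 * α * γ - β ^ 2) * y ^ 2 = 0 := by
    linear_combination 4 * α * e
  have h2 : (4 * α * γ - β ^ 2) * y ^ 2 = 0 := by
    have := sq_nonneg (2 * α * x + β * y)
    have := mul_nonneg (sub_pos.2 h).le (sq_nonneg y)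
    linarith
  have hy : y = 0 := by
    rcases mul_eq_zero.1 h2 with h3 | h3
    · linarith
    · exact pow_eq_zero_iff two_ne_zero |>.1 h3
  subst hy
  have h4 : α * x ^ 2 = 0 := by linear_combination e
  rcases mul_eq_zero.1 h4 with h3 | h3
  · exact absurd h3 hα.ne'
  · exact ⟨pow_eq_zero_iff two_ne_zero |>.1 h3, rfl⟩

theorem pm {x y x' y' : ℤ} (h1 : x ^ 2 = x' ^ 2) (h2 : x * y = x' * y') (h3 : y ^ 2 = y' ^ 2) :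
    (x, y) = (x', y') ∨ (x, y) = -(x', y') := by
  simp only [Prod.neg_mk, Prod.mk.injEq]
  rcases sq_eq_sq_iff_eq_or_eq_neg.1 h1 with e | e <;>
    rcases sq_eq_sq_iff_eq_or_eq_neg.1 h3 with f | f
  · exact Or.inl ⟨e, f⟩
  · subst e f
    have : x * y' = 0 := by linarith
    rcases mul_eq_zero.1 this with g | g
    · right; omega
    · left; omega
  · subst e f
    have : x' * y = 0 := by linarith
    rcases mul_eq_zero.1 this with g | g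
    · left; omega
    · right; omega
  · exact Or.inr ⟨e, f⟩

/-- Three points of the cone on a line whose direction is not isotropic. -/
theorem cone {p₁ p₂ p₃ u₁ u₂ u₃ v₁ v₂ v₃ : ℤ} (hQ : u₁ * u₃ - u₂ ^ 2 ≠ 0)
    (hu : u₁ * u₃ - u₂ ^ 2 + (p₁ * u₃ + p₃ * u₁ - 2 * p₂ * u₂) = 0)
    (hv : v₁ * v₃ - v₂ ^ 2 + (p₁ * v₃ + p₃ * v₁ - 2 * p₂ * v₂) = 0)
    (c₁ : u₂ * v₃ - u₃ * v₂ = 0) (c₂ : u₃ * v₁ - u₁ * v₃ = 0) (c₃ : u₁ * v₂ - u₂ * v₁ = 0) :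
    (v₁ = 0 ∧ v₂ = 0 ∧ v₃ = 0) ∨ (v₁ = u₁ ∧ v₂ = u₂ ∧ v₃ = u₃) := by
  have key : ∀ s t : ℤ, t * u₁ = s * v₁ → t * u₂ = s * v₂ → t * u₃ = s * v₃ → t ≠ 0 →
      (t = s) := by
    intro s t e1 e2 e3 ht
    have : t * (t - s) * (u₁ * u₃ - u₂ ^ 2) = 0 := by
      have a1 : t ^ 2 * (u₁ * u₃ - u₂ ^ 2) = s ^ 2 * (v₁ * v₃ - v₂ ^ 2) := by
        have : t ^ 2 * (u₁ * u₃ - u₂ ^ 2) = (t * u₁) * (t * u₃) - (t * u₂) ^ 2 := by ring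
        rw [this, e1, e2, e3]; ring
      have a2 : t * (p₁ * u₃ + p₃ * u₁ - 2 * p₂ * u₂) = s * (p₁ * v₃ + p₃ * v₁ - 2 * p₂ * v₂) := by
        linear_combination p₁ * e3 + p₃ * e1 - 2 * p₂ * e2
      linear_combination a1 + s ^ 2 * hv - s * t * hu + s * a2
    rcases mul_eq_zero.1 this with h | h
    · rcases mul_eq_zero.1 h with h | h
      · exact absurd h ht
      · linarith
    · exact absurd h hQ
  have fin : ∀ s t : ℤ, t * u₁ = s * v₁ → t * u₂ = s * v₂ → t * u₃ = s * v₃ → t ≠ 0 →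
      (v₁ = u₁ ∧ v₂ = u₂ ∧ v₃ = u₃) := by
    intro s t e1 e2 e3 ht
    have := key s t e1 e2 e3 ht
    subst this
    exact ⟨(mul_left_cancel₀ ht e1).symm, (mul_left_cancel₀ ht e2).symm,
      (mul_left_cancel₀ ht e3).symm⟩
  by_cases h1 : v₁ = 0
  · by_cases h2 : v₂ = 0
    · by_cases h3 : v₃ = 0
      · exact Or.inl ⟨h1, h2, h3⟩
      · exact Or.inr (fin u₃ v₃ (by linarith) (by linarith) (by ring) h3)
    · exact Or.inr (fin u₂ v₂ (by linarith) (by ring) (by linarith) h2)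
  · exact Or.inr (fin u₁ v₁ (by ring) (by linarith) (by linarith) h1)

theorem abs_cross {a b c d K : ℤ} (ha : |a| ≤ K) (hb : |b| ≤ K) (hc : |c| ≤ K) (hd : |d| ≤ K) :
    |a * b - c * d| ≤ 2 * K ^ 2 := by
  have hK : 0 ≤ K := (abs_nonneg a).trans ha
  have h1 : |a * b| ≤ K * K := by
    rw [abs_mul]; exact mul_le_mul ha hb (abs_nonneg _) hK
  have h2 : |c * d| ≤ K * K := by
    rw [abs_mul]; exact mul_le_mul hc hd (abs_nonneg _) hK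
  have := abs_sub (a * b) (c * d)
  nlinarith

theorem abs_cross' {a b c d K L : ℤ} (ha : |a| ≤ K) (hb : |b| ≤ L) (hc : |c| ≤ K) (hd : |d| ≤ L) :
    |a * b - c * d| ≤ 2 * (K * L) := by
  have hK : 0 ≤ K := (abs_nonneg a).trans ha
  have h1 : |a * b| ≤ K * L := by
    rw [abs_mul]; exact mul_le_mul ha hb (abs_nonneg _) hK
  have h2 : |c * d| ≤ K * L := by
    rw [abs_mul]; exact mul_le_mul hc hd (abs_nonneg _) hK
  have := abs_sub (a * b) (c * d)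
  linarith

theorem line {A B a b c : ℝ} {u₁ u₂ v₁ v₂ : ℝ} (hQ : a * u₁ ^ 2 + b * u₁ * u₂ + c * u₂ ^ 2 ≠ 0)
    (hu : a * u₁ ^ 2 + b * u₁ * u₂ + c * u₂ ^ 2 + (A * u₁ + B * u₂) = 0)
    (hv : a * v₁ ^ 2 + b * v₁ * v₂ + c * v₂ ^ 2 + (A * v₁ + B * v₂) = 0)
    (hD : u₁ * v₂ - v₁ * u₂ = 0) : (v₁ = 0 ∧ v₂ = 0) ∨ (v₁ = u₁ ∧ v₂ = u₂) := by
  have fin : ∀ s t : ℝ, t * u₁ = s * v₁ → t * u₂ = s * v₂ → t ≠ 0 → (v₁ = u₁ ∧ v₂ = u₂) := by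
    intro s t e1 e2 ht
    have : t * (t - s) * (a * u₁ ^ 2 + b * u₁ * u₂ + c * u₂ ^ 2) = 0 := by
      have a1 : t ^ 2 * (a * u₁ ^ 2 + b * u₁ * u₂ + c * u₂ ^ 2) =
          s ^ 2 * (a * v₁ ^ 2 + b * v₁ * v₂ + c * v₂ ^ 2) := by
        have : t ^ 2 * (a * u₁ ^ 2 + b * u₁ * u₂ + c * u₂ ^ 2) =
            a * (t * u₁) ^ 2 + b * (t * u₁) * (t * u₂) + c * (t * u₂) ^ 2 := by ring
        rw [this, e1, e2]; ring
      have a2 : t * (A * u₁ + B * u₂) = s * (A * v₁ + B * v₂) := by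
        linear_combination A * e1 + B * e2
      linear_combination a1 + s ^ 2 * hv - s * t * hu + s * a2
    have hts : t = s := by
      rcases mul_eq_zero.1 this with h | h
      · rcases mul_eq_zero.1 h with h | h
        · exact absurd h ht
        · linarith
      · exact absurd h hQ
    subst hts
    exact ⟨(mul_left_cancel₀ ht e1).symm, (mul_left_cancel₀ ht e2).symm⟩
  by_cases h1 : v₁ = 0
  · by_cases h2 : v₂ = 0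
    · exact Or.inl ⟨h1, h2⟩
    · exact Or.inr (fin u₂ v₂ (by linarith) (by ring) h2)
  · exact Or.inr (fin u₁ v₁ (by ring) (by linarith) h1)

theorem abs_mul_le {x y H : ℤ} (hx : |x| ≤ H) (hy : |y| ≤ H) : |x * y| ≤ H ^ 2 := by
  rw [abs_mul, sq]; exact mul_le_mul hx hy (abs_nonneg _) ((abs_nonneg x).trans hx)

theorem abs_q {a b c x y H E : ℤ} (hE : E = |a| + |b| + |c|) (hx : |x| ≤ H) (hy : |y| ≤ H) :
    |a * x ^ 2 + b * x * y + c * y ^ 2| ≤ E * H ^ 2 := by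
  have h1 : |a * x ^ 2| ≤ |a| * H ^ 2 := by
    rw [abs_mul, sq x]; exact mul_le_mul_of_nonneg_left (abs_mul_le hx hx) (abs_nonneg _)
  have h2 : |b * x * y| ≤ |b| * H ^ 2 := by
    rw [mul_assoc, abs_mul]; exact mul_le_mul_of_nonneg_left (abs_mul_le hx hy) (abs_nonneg _)
  have h3 : |c * y ^ 2| ≤ |c| * H ^ 2 := by
    rw [abs_mul, sq y]; exact mul_le_mul_of_nonneg_left (abs_mul_le hy hy) (abs_nonneg _)
  have h4 := abs_add_three (a * x ^ 2) (b * x * y) (c * y ^ 2)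
  rw [hE]
  linarith

end RKx

open RKx

theorem r0 {α β γ : ℝ} (hα : 0 < α) (h : β ^ 2 < 4 * α * γ) (H : ℕ) :
    (∀ (m : ℝ) (S : Finset (ℤ × ℤ)), (∀ w ∈ S, |w.1| ≤ H ∧ |w.2| ≤ H ∧
      α * w.1 ^ 2 + β * w.1 * w.2 + γ * w.2 ^ 2 = m) → S.card ≤ 4) ∨
    ∃ (a b c : ℤ) (l : ℝ), 0 < l ∧ α = l * a ∧ β = l * b ∧ γ = l * c ∧ Cop3 a b c ∧
      |a| ≤ 8 * H ^ 4 ∧ |b| ≤ 8 * H ^ 4 ∧ |c| ≤ 8 * H ^ 4 := by
  rw [or_iff_not_imp_left]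
  intro hn
  simp only [not_forall, not_le] at hn
  obtain ⟨m, S, hS, hc⟩ := hn
  have pick : ∀ T : Finset (ℤ × ℤ), T.card ≤ 4 → ∃ w ∈ S, w ∉ T := fun T hT =>
    exists_mem_notMem_of_card_lt_card (by omega)
  obtain ⟨⟨x₀, y₀⟩, h0, -⟩ := pick ∅ (by simp)
  obtain ⟨⟨x₁, y₁⟩, h1, n1⟩ := pick {(x₀, y₀), -(x₀, y₀)} (card_le_two.trans (by norm_num))
  obtain ⟨⟨x₂, y₂⟩, h2, n2⟩ := pick {(x₀, y₀), -(x₀, y₀), (x₁, y₁), -(x₁, y₁)} card_le_four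
  simp only [mem_insert, mem_singleton, not_or] at n1 n2
  obtain ⟨a0, b0, e0⟩ := hS _ h0
  obtain ⟨a1, b1, e1⟩ := hS _ h1
  obtain ⟨a2, b2, e2⟩ := hS _ h2
  dsimp only at a0 b0 e0 a1 b1 e1 a2 b2 e2
  obtain ⟨u₁, hu₁⟩ : ∃ t, t = x₁ ^ 2 - x₀ ^ 2 := ⟨_, rfl⟩
  obtain ⟨u₂, hu₂⟩ : ∃ t, t = x₁ * y₁ - x₀ * y₀ := ⟨_, rfl⟩
  obtain ⟨u₃, hu₃⟩ : ∃ t, t = y₁ ^ 2 - y₀ ^ 2 := ⟨_, rfl⟩
  obtain ⟨v₁, hv₁⟩ : ∃ t, t = x₂ ^ 2 - x₀ ^ 2 := ⟨_, rfl⟩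
  obtain ⟨v₂, hv₂⟩ : ∃ t, t = x₂ * y₂ - x₀ * y₀ := ⟨_, rfl⟩
  obtain ⟨v₃, hv₃⟩ : ∃ t, t = y₂ ^ 2 - y₀ ^ 2 := ⟨_, rfl⟩
  have ou : α * u₁ + β * u₂ + γ * u₃ = 0 := by
    rw [hu₁, hu₂, hu₃]; push_cast; linear_combination e1 - e0
  have ov : α * v₁ + β * v₂ + γ * v₃ = 0 := by
    rw [hv₁, hv₂, hv₃]; push_cast; linear_combination e2 - e0
  have hγ : 0 < γ := by nlinarith [sq_nonneg β]
  have hQ : u₁ * u₃ - u₂ ^ 2 ≠ 0 := by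
    intro hq
    have hq' : (u₁ : ℝ) * u₃ - (u₂ : ℝ) ^ 2 = 0 := by exact_mod_cast hq
    obtain ⟨z1, z2⟩ := defn (x := u₁) (y := u₂) hα h (by linear_combination u₁ * ou - γ * hq')
    have z3 : γ * u₃ = 0 := by rw [z1, z2] at ou; linear_combination ou
    have z1' : u₁ = 0 := by exact_mod_cast z1
    have z2' : u₂ = 0 := by exact_mod_cast z2
    have z3' : u₃ = 0 := by
      rcases mul_eq_zero.1 z3 with g | g
      · exact absurd g hγ.ne'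
      · exact_mod_cast g
    rcases pm (x := x₁) (y := y₁) (x' := x₀) (y' := y₀) (by linarith) (by linarith) (by linarith)
      with g | g
    · exact n1.1 g
    · exact n1.2 g
  have bu₁ : |u₁| ≤ 2 * (H : ℤ) ^ 2 := by
    rw [hu₁, sq x₁, sq x₀]; exact abs_cross a1 a1 a0 a0
  have bu₂ : |u₂| ≤ 2 * (H : ℤ) ^ 2 := by rw [hu₂]; exact abs_cross a1 b1 a0 b0
  have bu₃ : |u₃| ≤ 2 * (H : ℤ) ^ 2 := by
    rw [hu₃, sq y₁, sq y₀]; exact abs_cross b1 b1 b0 b0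
  have bv₁ : |v₁| ≤ 2 * (H : ℤ) ^ 2 := by
    rw [hv₁, sq x₂, sq x₀]; exact abs_cross a2 a2 a0 a0
  have bv₂ : |v₂| ≤ 2 * (H : ℤ) ^ 2 := by rw [hv₂]; exact abs_cross a2 b2 a0 b0
  have bv₃ : |v₃| ≤ 2 * (H : ℤ) ^ 2 := by
    rw [hv₃, sq y₂, sq y₀]; exact abs_cross b2 b2 b0 b0
  obtain ⟨n₁, hn₁⟩ : ∃ t, t = u₂ * v₃ - u₃ * v₂ := ⟨_, rfl⟩
  obtain ⟨n₂, hn₂⟩ : ∃ t, t = u₃ * v₁ - u₁ * v₃ := ⟨_, rfl⟩
  obtain ⟨n₃, hn₃⟩ : ∃ t, t = u₁ * v₂ - u₂ * v₁ := ⟨_, rfl⟩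
  have p2 : α * n₂ = β * n₁ := by
    rw [hn₁, hn₂]; push_cast; linear_combination (u₃ : ℝ) * ov - (v₃ : ℝ) * ou
  have p3 : α * n₃ = γ * n₁ := by
    rw [hn₁, hn₃]; push_cast; linear_combination (v₂ : ℝ) * ou - (u₂ : ℝ) * ov
  have hne : n₁ ≠ 0 := by
    intro z1
    have z2 : n₂ = 0 := by
      rw [z1] at p2
      have : (n₂ : ℝ) = 0 := by simpa [hα.ne'] using p2
      exact_mod_cast this
    have z3 : n₃ = 0 := by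
      rw [z1] at p3
      have : (n₃ : ℝ) = 0 := by simpa [hα.ne'] using p3
      exact_mod_cast this
    rcases cone (p₁ := x₀ ^ 2) (p₂ := x₀ * y₀) (p₃ := y₀ ^ 2) (v₁ := v₁) (v₂ := v₂) (v₃ := v₃) hQ
      (by rw [hu₁, hu₂, hu₃]; ring) (by rw [hv₁, hv₂, hv₃]; ring) (by linarith) (by linarith)
      (by linarith) with ⟨g1, g2, g3⟩ | ⟨g1, g2, g3⟩
    · rcases pm (x := x₂) (y := y₂) (x' := x₀) (y' := y₀) (by linarith) (by linarith) (by linarith)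
        with g | g
      · exact n2.1 g
      · exact n2.2.1 g
    · rcases pm (x := x₂) (y := y₂) (x' := x₁) (y' := y₁) (by linarith) (by linarith) (by linarith)
        with g | g
      · exact n2.2.2.1 g
      · exact n2.2.2.2 g
  obtain ⟨g, a, b, c, hg, ha, f1, f2, f3, hcop, l1, l2, l3⟩ := red3 n₁ n₂ n₃ hne
  have ha' : (0 : ℝ) < a := by exact_mod_cast ha
  have hg' : (g : ℝ) ≠ 0 := by exact_mod_cast hg
  have e8 : 2 * (2 * (H : ℤ) ^ 2) ^ 2 = 8 * H ^ 4 := by ring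
  refine ⟨a, b, c, α / a, by positivity, by field_simp, ?_, ?_, hcop, ?_, ?_, ?_⟩
  · rw [f1, f2] at p2
    push_cast at p2
    field_simp
    exact mul_left_cancel₀ hg' (by linear_combination -p2)
  · rw [f1, f3] at p3
    push_cast at p3
    field_simp
    exact mul_left_cancel₀ hg' (by linear_combination -p3)
  · rw [← e8]; exact l1.trans (hn₁ ▸ abs_cross bu₂ bv₃ bu₃ bv₂)
  · rw [← e8]; exact l2.trans (hn₂ ▸ abs_cross bu₃ bv₁ bu₁ bv₃)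
  · rw [← e8]; exact l3.trans (hn₃ ▸ abs_cross bu₁ bv₂ bu₂ bv₁)

theorem r1 {a b c : ℤ} (ha : 0 < a) (h : b ^ 2 < 4 * a * c) : ∃ C : ℕ, ∀ (σ₁ σ₂ : ℝ) (H : ℕ),
    (∀ (m : ℝ) (S : Finset (ℤ × ℤ)), (∀ w ∈ S, |w.1| ≤ H ∧ |w.2| ≤ H ∧
      a * (σ₁ + w.1) ^ 2 + b * (σ₁ + w.1) * (σ₂ + w.2) + c * (σ₂ + w.2) ^ 2 = m) → S.card ≤ 2) ∨
    ∃ s₁ s₂ r : ℤ, 0 < r ∧ σ₁ * r = s₁ ∧ σ₂ * r = s₂ ∧ Cop3 s₁ s₂ r ∧
      r ≤ C * H ^ 3 ∧ |s₁| ≤ C * H ^ 3 ∧ |s₂| ≤ C * H ^ 3 := by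
  obtain ⟨E, hE⟩ : ∃ t, t = |a| + |b| + |c| := ⟨_, rfl⟩
  obtain ⟨Δ, hΔ⟩ : ∃ t, t = 4 * a * c - b ^ 2 := ⟨_, rfl⟩
  have hΔ0 : 0 < Δ := by linarith
  have hE0 : 0 ≤ E := by rw [hE]; positivity
  refine ⟨(8 * Δ + 32 * E ^ 2).toNat, fun σ₁ σ₂ H => ?_⟩
  have hC : (((8 * Δ + 32 * E ^ 2).toNat : ℕ) : ℤ) = 8 * Δ + 32 * E ^ 2 :=
    Int.toNat_of_nonneg (by positivity)
  rw [hC, or_iff_not_imp_left]
  intro hn
  simp only [not_forall, not_le] at hn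
  obtain ⟨m, S, hS, hc⟩ := hn
  obtain ⟨⟨x₀, y₀⟩, h0, ⟨x₁, y₁⟩, h1, ⟨x₂, y₂⟩, h2, n01, n02, n12⟩ := two_lt_card.1 hc
  simp only [ne_eq, Prod.mk.injEq] at n01 n02 n12
  obtain ⟨a0, b0, e0⟩ := hS _ h0
  obtain ⟨a1, b1, e1⟩ := hS _ h1
  obtain ⟨a2, b2, e2⟩ := hS _ h2
  dsimp only at a0 b0 e0 a1 b1 e1 a2 b2 e2
  have hH : (1 : ℤ) ≤ H := by
    by_contra hlt
    have : (H : ℤ) = 0 := by omega
    rw [this, abs_nonpos_iff] at a0 b0 a1 b1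
    exact n01 ⟨by omega, by omega⟩
  have ha' : (0 : ℝ) < a := by exact_mod_cast ha
  have h' : (b : ℝ) ^ 2 < 4 * a * c := by exact_mod_cast h
  obtain ⟨D, hD⟩ : ∃ t, t = (x₁ - x₀) * (y₂ - y₀) - (x₂ - x₀) * (y₁ - y₀) := ⟨_, rfl⟩
  have hD0 : D ≠ 0 := by
    intro z
    have z' : ((x₁ : ℝ) - x₀) * (y₂ - y₀) - (x₂ - x₀) * (y₁ - y₀) = 0 := by
      rw [z] at hD; exact_mod_cast hD.symm
    have hQ : (a : ℝ) * (x₁ - x₀) ^ 2 + b * (x₁ - x₀) * (y₁ - y₀) + c * (y₁ - y₀) ^ 2 ≠ 0 := by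
      intro q
      obtain ⟨g1, g2⟩ := defn ha' h' q
      have g1' : x₁ - x₀ = 0 := by exact_mod_cast g1
      have g2' : y₁ - y₀ = 0 := by exact_mod_cast g2
      exact n01 ⟨by omega, by omega⟩
    rcases line (A := 2 * a * (σ₁ + x₀) + b * (σ₂ + y₀)) (B := b * (σ₁ + x₀) + 2 * c * (σ₂ + y₀))
      (v₁ := (x₂ : ℝ) - x₀) (v₂ := (y₂ : ℝ) - y₀) hQ (by linear_combination e1 - e0)
      (by linear_combination e2 - e0) z' with ⟨g1, g2⟩ | ⟨g1, g2⟩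
    · have g1' : x₂ - x₀ = 0 := by exact_mod_cast g1
      have g2' : y₂ - y₀ = 0 := by exact_mod_cast g2
      exact n02 ⟨by omega, by omega⟩
    · have g1' : x₂ - x₀ = x₁ - x₀ := by exact_mod_cast g1
      have g2' : y₂ - y₀ = y₁ - y₀ := by exact_mod_cast g2
      exact n12 ⟨by omega, by omega⟩
  obtain ⟨k₁, hk₁⟩ : ∃ t, t = (a * x₀ ^ 2 + b * x₀ * y₀ + c * y₀ ^ 2) -
    (a * x₁ ^ 2 + b * x₁ * y₁ + c * y₁ ^ 2) := ⟨_, rfl⟩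
  obtain ⟨k₂, hk₂⟩ : ∃ t, t = (a * x₀ ^ 2 + b * x₀ * y₀ + c * y₀ ^ 2) -
    (a * x₂ ^ 2 + b * x₂ * y₂ + c * y₂ ^ 2) := ⟨_, rfl⟩
  have bk₁ : |k₁| ≤ 2 * E * H ^ 2 := by
    have := abs_sub (a * x₀ ^ 2 + b * x₀ * y₀ + c * y₀ ^ 2) (a * x₁ ^ 2 + b * x₁ * y₁ + c * y₁ ^ 2)
    have := abs_q hE a0 b0
    have := abs_q hE a1 b1
    rw [hk₁]; linarith
  have bk₂ : |k₂| ≤ 2 * E * H ^ 2 := by
    have := abs_sub (a * x₀ ^ 2 + b * x₀ * y₀ + c * y₀ ^ 2) (a * x₂ ^ 2 + b * x₂ * y₂ + c * y₂ ^ 2)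
    have := abs_q hE a0 b0
    have := abs_q hE a2 b2
    rw [hk₂]; linarith
  have dx₁ : |x₁ - x₀| ≤ 2 * H := by have := abs_sub x₁ x₀; linarith
  have dx₂ : |x₂ - x₀| ≤ 2 * H := by have := abs_sub x₂ x₀; linarith
  have dy₁ : |y₁ - y₀| ≤ 2 * H := by have := abs_sub y₁ y₀; linarith
  have dy₂ : |y₂ - y₀| ≤ 2 * H := by have := abs_sub y₂ y₀; linarith
  obtain ⟨A, hA⟩ : ∃ t, t = k₁ * (y₂ - y₀) - k₂ * (y₁ - y₀) := ⟨_, rfl⟩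
  obtain ⟨B, hB⟩ : ∃ t, t = k₂ * (x₁ - x₀) - k₁ * (x₂ - x₀) := ⟨_, rfl⟩
  have bA : |A| ≤ 2 * (2 * E * H ^ 2 * (2 * H)) := hA ▸ abs_cross' bk₁ dy₂ bk₂ dy₁
  have bB : |B| ≤ 2 * (2 * E * H ^ 2 * (2 * H)) := hB ▸ abs_cross' bk₂ dx₁ bk₁ dx₂
  have bD : |D| ≤ 2 * (2 * (H : ℤ)) ^ 2 := hD ▸ abs_cross dx₁ dy₂ dx₂ dy₁
  have l₁ : (2 * a * σ₁ + b * σ₂) * (x₁ - x₀) + (b * σ₁ + 2 * c * σ₂) * (y₁ - y₀) = k₁ := by
    rw [hk₁]; push_cast; linear_combination e1 - e0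
  have l₂ : (2 * a * σ₁ + b * σ₂) * (x₂ - x₀) + (b * σ₁ + 2 * c * σ₂) * (y₂ - y₀) = k₂ := by
    rw [hk₂]; push_cast; linear_combination e2 - e0
  have mA : (2 * a * σ₁ + b * σ₂) * D = A := by
    rw [hA, hD]; push_cast; linear_combination ((y₂ : ℝ) - y₀) * l₁ - ((y₁ : ℝ) - y₀) * l₂
  have mB : (b * σ₁ + 2 * c * σ₂) * D = B := by
    rw [hB, hD]; push_cast; linear_combination ((x₁ : ℝ) - x₀) * l₂ - ((x₂ : ℝ) - x₀) * l₁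
  have s1 : σ₁ * ((Δ * D : ℤ) : ℝ) = ((2 * c * A - b * B : ℤ) : ℝ) := by
    rw [hΔ]; push_cast; linear_combination 2 * (c : ℝ) * mA - b * mB
  have s2 : σ₂ * ((Δ * D : ℤ) : ℝ) = ((2 * a * B - b * A : ℤ) : ℝ) := by
    rw [hΔ]; push_cast; linear_combination 2 * (a : ℝ) * mB - b * mA
  obtain ⟨g, r, s₁, s₂, hg, hr, f1, f2, f3, hcop, t1, t2, t3⟩ :=
    red3 (Δ * D) (2 * c * A - b * B) (2 * a * B - b * A) (mul_ne_zero hΔ0.ne' hD0)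
  have hg' : (g : ℝ) ≠ 0 := by exact_mod_cast hg
  have ca : |2 * a| ≤ 2 * E := by
    rw [abs_mul, abs_two, hE]; linarith [abs_nonneg b, abs_nonneg c]
  have cc : |2 * c| ≤ 2 * E := by
    rw [abs_mul, abs_two, hE]; linarith [abs_nonneg b, abs_nonneg a]
  have cb : |b| ≤ 2 * E := by
    rw [hE]; linarith [abs_nonneg b, abs_nonneg a, abs_nonneg c]
  have H3 : (0 : ℤ) ≤ (H : ℤ) ^ 3 := by positivity
  have hle : 2 * (2 * E * (2 * (2 * E * H ^ 2 * (2 * H)))) ≤ (8 * Δ + 32 * E ^ 2) * (H : ℤ) ^ 3 := by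
    have := mul_nonneg hΔ0.le H3
    nlinarith
  refine ⟨s₁, s₂, r, hr, ?_, ?_, fun p hp hh => hcop p hp ⟨hh.2.2, hh.1, hh.2.1⟩, ?_, ?_, ?_⟩
  · rw [f1, f2] at s1
    push_cast at s1
    exact mul_left_cancel₀ hg' (by linear_combination s1)
  · rw [f1, f3] at s2
    push_cast at s2
    exact mul_left_cancel₀ hg' (by linear_combination s2)
  · have w1 : |Δ * D| ≤ Δ * (2 * (2 * (H : ℤ)) ^ 2) := by
      rw [abs_mul, abs_of_pos hΔ0]; exact mul_le_mul_of_nonneg_left bD hΔ0.le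
    have w2 : (H : ℤ) ^ 2 ≤ H ^ 3 := pow_le_pow_right₀ hH (by norm_num)
    have w3 := mul_le_mul_of_nonneg_left w2 hΔ0.le
    have w4 := mul_nonneg (sq_nonneg E) H3
    have w5 := le_abs_self r
    nlinarith
  · exact t2.trans ((abs_cross' cc bA cb bB).trans hle)
  · exact t3.trans ((abs_cross' ca bB cb bA).trans hle)

end Pool.Agent.Lib.MP_ad7336_sd
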