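import Pool.Agent.Lib.MP_ad7336_sd.Basis

set_option autoImplicit false

namespace Pool.Agent.Lib.MP_ad7336_sd

open Finset
open scoped Classical

/-- `gp` as an additive map. -/
noncomputable def gh {ι : Type} [Fintype ι] (g : ι → ℂ) : (ι → ℤ) →+ ℂ where
  toFun := gp g
  map_zero' := by simp [gp]
  map_add' a b := by simp [gp, add_mul, sum_add_distrib]

theorem gh_apply {ι : Type} [Fintype ι] (g : ι → ℂ) (a : ι → ℤ) : gh g a = gp g a := rfl

theorem sn_of {Γ E : Type} [AddCommGroup Γ] [NormedAddCommGroup E] [NormedSpace ℝ E] (L : Γ →+ E)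
    (h : ∀ R : ℝ, {x | ‖L x‖ ≤ R}.Finite) : SN fun x => ‖L x‖ :=
  ⟨fun x y => by rw [map_add]; exact norm_add_le _ _,
    fun m x => by rw [map_zsmul, ← Int.cast_smul_eq_zsmul ℝ, norm_smul, Real.norm_eq_abs],
    fun R => ⟨(h R).toFinset, fun x hx => ⟨x, (h R).mem_toFinset.2 hx, by simp⟩⟩⟩

theorem rk_pi {ι : Type} [Fintype ι] {ν : (ι → ℤ) → ℝ} (h : SN ν) {d : ℕ}
    (hd : Fintype.card ι ≤ d) : Rk d ν := fun x => by
  have h1 : ¬ LinearIndependent ℤ x := fun k => by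
    have := k.fintype_card_le_finrank
    rw [Fintype.card_fin, Module.finrank_fintype_fun_eq_card] at this
    omega
  obtain ⟨m, h2, i, h3⟩ := Fintype.not_linearIndependent_iff.1 h1
  exact ⟨m, fun e => h3 (congrFun e i), by rw [h2, h.zero]⟩

theorem vol_le {ι : Type} [Fintype ι] {N N' : ι → ℕ} {c d : ℕ} (hc : 0 < c)
    (h : ∀ i, 2 * N' i + 1 ≤ c * (2 * N i + 1)) (hd : Fintype.card ι ≤ d) :
    vol N' ≤ c ^ d * vol N := by
  refine (prod_le_prod' fun i _ => h i).trans ?_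
  rw [prod_mul_distrib, prod_const, card_univ]
  exact Nat.mul_le_mul_right _ (Nat.pow_le_pow_right hc hd)

theorem box_norm {ι : Type} [Fintype ι] (N : ι → ℕ) : ∃ ν : (ι → ℤ) → ℝ, SN ν ∧
    (∀ R : ℝ, {x | ν x ≤ R}.Finite) ∧
    ∀ (R : ℝ) x, 0 ≤ R → (ν x ≤ R ↔ ∀ i, |(x i : ℝ)| ≤ R * (N i + 1 / 2)) := by
  let L : (ι → ℤ) →+ (ι → ℝ) :=
    { toFun := fun x i => (x i : ℝ) / (N i + 1 / 2)
      map_zero' := by ext; simp
      map_add' := fun x y => by ext; simp [add_div] }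
  have h1 : ∀ (R : ℝ) x, 0 ≤ R → (‖L x‖ ≤ R ↔ ∀ i, |(x i : ℝ)| ≤ R * (N i + 1 / 2)) :=
    fun R x hR => by
      rw [pi_norm_le_iff_of_nonneg hR]
      refine forall_congr' fun i => ?_
      have : (0 : ℝ) < N i + 1 / 2 := by positivity
      change ‖(x i : ℝ) / (N i + 1 / 2)‖ ≤ R ↔ _
      rw [Real.norm_eq_abs, abs_div, abs_of_pos this, div_le_iff₀ this]
  have h2 : ∀ R : ℝ, {x | ‖L x‖ ≤ R}.Finite := fun R =>
    (box fun i => ⌈R * (N i + 1 / 2)⌉₊).finite_toSet.subset fun x hx => mem_box.2 fun i => by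
      have := ((h1 R x ((norm_nonneg _).trans hx)).1 hx i).trans (Nat.le_ceil _)
      exact_mod_cast this
  exact ⟨fun x => ‖L x‖, sn_of L h2, h2, h1⟩

theorem rr (d : ℕ) : ∃ C : ℕ, 0 < C ∧ ∀ (ι : Type) [Fintype ι] (N : ι → ℕ) (g : ι → ℂ),
    Fintype.card ι ≤ d → ∃ (κ : Type) (_ : Fintype κ) (N' : κ → ℕ) (g' : κ → ℂ),
      Fintype.card κ ≤ d ∧ (∀ a ∈ box N, ∃ a' ∈ box N', gp g' a' = gp g a) ∧
      vol N' ≤ C * vol N ∧ ∀ a : κ → ℤ, (∀ i, |a i| ≤ 4 * N' i) → gp g' a = 0 → a = 0 := by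
  induction d with
  | zero =>
    refine ⟨1, one_pos, fun ι _ N g h => ⟨ι, inferInstance, N, g, h, fun a ha => ⟨a, ha, rfl⟩,
      by simp, fun a _ _ => funext fun i => ?_⟩⟩
    exact (Fintype.card_eq_zero_iff.1 (Nat.le_zero.1 h)).elim i
  | succ d ih =>
    obtain ⟨C, hC, ih⟩ := ih
    obtain ⟨B, hB, hb⟩ := basis d
    obtain ⟨ρ, hρ⟩ := exists_nat_ge (d * B + 3)
    refine ⟨C * (2 * ρ + 1) ^ (d + 1), by positivity, fun ι _ N g h => ?_⟩
    by_cases hp : ∀ a : ι → ℤ, (∀ i, |a i| ≤ 4 * N i) → gp g a = 0 → a = 0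
    · exact ⟨ι, inferInstance, N, g, h, fun a ha => ⟨a, ha, rfl⟩,
        Nat.le_mul_of_pos_left _ (by positivity), hp⟩
    push Not at hp
    obtain ⟨k, k1, k2, k3⟩ := hp
    obtain ⟨ν, n1, n2, n3⟩ := box_norm N
    have k4 : ν k ≤ 4 := (n3 4 k (by norm_num)).2 fun i => by
      have : |(k i : ℝ)| ≤ 4 * N i := by exact_mod_cast k1 i
      linarith
    have k5 : 0 < ν k := not_le.1 fun e => k3 (funext fun i => by
      simpa using (n3 0 k le_rfl).1 e i)
    obtain ⟨ν', m1, m2, m3, m4⟩ := quot n1 k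
    obtain ⟨d', hd', b, b1, b2, b3⟩ := hb _ ν' m1 (rk_quot n1 m1 k5 m2 m3 (rk_pi n1 h))
    have null : ∀ x, ν' x = 0 → gh g x = 0 := fun x hx => by
      choose t ht using fun j : ℕ => m4 ((j : ℤ) • x) 1 one_pos
      obtain ⟨i, j, h1, h2⟩ := (n2 3).exists_lt_map_eq_of_forall_mem
        (f := fun j : ℕ => (j : ℤ) • x - t j • k) fun j => by
          have := ht j
          rw [m1.smul, hx] at this
          change ν _ ≤ 3
          linarith
      have h3 := congrArg (gh g) h2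
      simp only [map_sub, map_zsmul, gh_apply g k, k2, smul_zero, sub_zero] at h3
      rw [← sub_eq_zero, ← sub_smul, smul_eq_zero] at h3
      exact h3.resolve_left (by omega)
    obtain ⟨N', hN'⟩ : ∃ N' : Fin d' → ℕ, ∀ (i) (a : ℤ), |a| ≤ N' i ↔ |(a : ℝ)| * ν' (b i) ≤ B :=
      ⟨fun i => ⌊B / ν' (b i)⌋₊, fun i a => by
        rw [← le_div_iff₀ (b1 i), ← Int.cast_abs, ← Int.le_floor,
          Int.natCast_floor_eq_floor (div_nonneg (by linarith) (b1 i).le)]⟩
    have hv : vol N' ≤ (2 * ρ + 1) ^ (d + 1) * vol N := by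
      refine le_trans ?_ (vol_le (N' := fun i => ρ * (2 * N i + 1)) (by omega)
        (fun i => by nlinarith) h)
      choose t ht using fun a : Fin d' → ℤ => m4 (∑ i, a i • b i) 1 one_pos
      rw [← card_box, ← card_box]
      refine card_le_card_of_injOn (fun a => ∑ i, a i • b i - t a • k) (fun a ha => ?_)
        fun a _ a' _ e => funext fun i => ?_
      · have h1 := (m1.sum univ fun i => a i • b i).trans (sum_le_card_nsmul _ _ B fun i _ => by
          rw [m1.smul]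
          exact (hN' _ _).1 (mem_box.1 ha i))
        rw [card_univ, Fintype.card_fin, nsmul_eq_mul] at h1
        have h2 : (d' : ℝ) * B ≤ d * B := by gcongr
        refine mem_box.2 fun i => ?_
        have h3 := (n3 ρ _ (Nat.cast_nonneg _)).1 ((ht a).trans (by linarith)) i
        have h4 : (ρ : ℝ) * (N i + 1 / 2) ≤ ρ * (2 * N i + 1) := by
          gcongr
          · linarith [(Nat.cast_nonneg (N i) : (0 : ℝ) ≤ _)]
          · norm_num
        exact_mod_cast h3.trans h4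
      · have h1 := b3 (a - a') i
        have h2 : ∑ j, (a - a') j • b j = (t a - t a') • k := by
          simp only [Pi.sub_apply, sub_smul, sum_sub_distrib]
          exact sub_eq_sub_iff_sub_eq_sub.1 e
        rw [h2, m1.smul, m3, mul_zero, mul_zero] at h1
        have h3 : |((a - a') i : ℝ)| ≤ 0 := nonpos_of_mul_nonpos_left h1 (b1 i)
        have h4 : (a - a') i = 0 := by exact_mod_cast abs_nonpos_iff.1 h3
        exact sub_eq_zero.1 h4
    obtain ⟨κ, _, N₂, g₂, q1, q2, q3, q4⟩ := ih (Fin d') N' (fun i => gp g (b i)) (by simpa)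
    refine ⟨κ, inferInstance, N₂, g₂, by omega, fun a ha => ?_,
      q3.trans (by rw [mul_assoc]; exact Nat.mul_le_mul_left _ hv), q4⟩
    obtain ⟨a', h1⟩ := b2 a
    have h2 : ν a ≤ 1 := (n3 1 a zero_le_one).2 fun i => by
      have : |(a i : ℝ)| ≤ N i := by exact_mod_cast mem_box.1 ha i
      linarith
    obtain ⟨a₂, h3, h4⟩ := q2 a' (mem_box.2 fun i => (hN' _ _).2 ((b3 a' i).trans (by
      rw [← m1.congr h1]
      exact mul_le_of_le_one_right (by linarith) ((m2 a).trans h2))))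
    refine ⟨a₂, h3, h4.trans ?_⟩
    have h5 := null _ h1
    rw [map_sub, map_sum, sub_eq_zero] at h5
    rw [← gh_apply g a, h5]
    exact sum_congr rfl fun i _ => by rw [map_zsmul, zsmul_eq_mul, gh_apply]

end Pool.Agent.Lib.MP_ad7336_sd
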