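import Pool.Agent.Lib.MP_ad7336_sd.SVa
import Pool.Agent.Lib.MP_6073f3_nt.Mertens

set_option autoImplicit false

namespace Pool.Agent.Lib.MP_ad7336_sd

open Finset Filter
open scoped Classical

namespace SVx

noncomputable def lam (L : ℝ) (T : Finset ℕ) : ℝ := max 0 (1 - (∑ p ∈ T, Real.log p) / L)

lemma lam_bd {L : ℝ} (hL : 0 < L) (T : Finset ℕ) : 0 ≤ lam L T ∧ lam L T ≤ 1 := by
  have : 0 ≤ (∑ p ∈ T, Real.log p) / L := div_nonneg (sum_nonneg fun p _ => Real.log_natCast_nonneg p) hL.le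
  exact ⟨le_max_left _ _, max_le zero_le_one (by linarith)⟩

lemma lam_supp {ξ : ℝ} (hξ : 1 < ξ) {T : Finset ℕ} (hT : ∀ p ∈ T, 0 < p) (h : lam (Real.log ξ) T ≠ 0) :
    ∏ p ∈ T, (p : ℝ) ≤ ξ := by
  have hL := Real.log_pos hξ
  have h0 : ∀ p ∈ T, (0 : ℝ) < p := fun p hp => by exact_mod_cast hT p hp
  rw [← Real.log_le_log_iff (prod_pos h0) (by linarith), Real.log_prod fun p hp => (h0 p hp).ne']
  by_contra hc
  refine h (max_eq_left ?_)
  rw [sub_nonpos, le_div_iff₀ hL]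
  linarith

lemma lam_ins {L : ℝ} (hL : 0 < L) {T : Finset ℕ} {p : ℕ} (hp : p ∉ T) :
    0 ≤ lam L T - lam L (insert p T) ∧ lam L T - lam L (insert p T) ≤ Real.log p / L := by
  have : 0 ≤ Real.log p / L := div_nonneg (Real.log_natCast_nonneg p) hL.le
  unfold lam
  rw [sum_insert hp, add_div]
  constructor
  · exact sub_nonneg.2 (max_le_max le_rfl (by linarith))
  · rcases le_total 0 (1 - (∑ p ∈ T, Real.log p) / L) with h | h
    · rw [max_eq_right h]
      linarith [le_max_right 0 (1 - (Real.log p / L + (∑ p ∈ T, Real.log p) / L))]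
    · rw [max_eq_left h]
      linarith [le_max_left 0 (1 - (Real.log p / L + (∑ p ∈ T, Real.log p) / L))]

lemma tele (z : ℕ) (hz : 1 ≤ z) : ∏ n ∈ Ioc 1 z, (1 + hh n) = z := by
  induction z, hz using Nat.le_induction with
  | base => simp
  | succ n hn ih =>
    have : (0 : ℝ) < n := by exact_mod_cast hn
    rw [prod_Ioc_succ_top hn, ih, hh]
    push_cast
    rw [add_sub_cancel_right]
    field_simp

lemma H_le {P : Finset ℕ} {z : ℕ} (hz : 1 ≤ z) (hP : ∀ p ∈ P, 3 ≤ p ∧ p ≤ z) : ∏ p ∈ P, (1 + hh p) ≤ z := by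
  rw [← tele z hz]
  refine prod_le_prod_of_subset_of_one_le (fun p hp => mem_Ioc.2 ⟨by linarith [(hP p hp).1], (hP p hp).2⟩)
    (fun p hp => by linarith [(hh_half (hP p hp).1).1]) fun n hn _ => ?_
  have : (1 : ℝ) ≤ n := by exact_mod_cast (mem_Ioc.1 hn).1.le
  have : 0 ≤ hh n := inv_nonneg.2 (by linarith)
  linarith

lemma sq_le {Q : Finset ℕ} (hQ : ∀ p ∈ Q, 3 ≤ p) {l : Finset ℕ → ℝ} (hl : ∀ T, |l T| ≤ 1) :
    ∑ T ∈ Q.powerset, l T ^ 2 * ∏ p ∈ T, hh p ≤ ∏ p ∈ Q, (1 + hh p) := by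
  rw [prod_one_add]
  refine sum_le_sum fun T hT => mul_le_of_le_one_left
    (prod_nonneg fun p hp => (hh_half (hQ p (mem_powerset.1 hT hp))).1) ((sq_le_one_iff_abs_le_one _).2 (hl T))

lemma tau_le {P : Finset ℕ} {y z : ℕ} (hy : 72 ≤ y) (hz : y ≤ z) (hP : ∀ p ∈ P, y < p ∧ p ≤ z) :
    ∏ p ∈ P, (1 + 18 * hh p ^ 2) ≤ 1 + 144 / (y : ℝ) := by
  have hy' : (72 : ℝ) ≤ y := by exact_mod_cast hy
  have h1 : ∑ p ∈ P, 18 * hh p ^ 2 ≤ 72 / (y : ℝ) := by
    have a := sum_Ioc_inv_sq_le_sub (α := ℝ) (show y ≠ 0 by omega) hz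
    have b : ∑ p ∈ P, 18 * hh p ^ 2 ≤ ∑ p ∈ P, 72 * ((p : ℝ) ^ 2)⁻¹ := sum_le_sum fun p hp => by
      obtain ⟨h0, -, h2, -⟩ := hh_half (show 3 ≤ p by linarith [(hP p hp).1])
      have := pow_le_pow_left₀ h0 h2 2
      rw [div_pow, div_eq_mul_inv] at this
      linarith
    have c : ∑ p ∈ P, ((p : ℝ) ^ 2)⁻¹ ≤ ∑ p ∈ Ioc y z, ((p : ℝ) ^ 2)⁻¹ :=
      sum_le_sum_of_subset_of_nonneg (fun p hp => mem_Ioc.2 (hP p hp)) fun _ _ _ => by positivity
    rw [← mul_sum (a := 72)] at b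
    have : (0 : ℝ) ≤ (z : ℝ)⁻¹ := by positivity
    rw [div_eq_mul_inv]
    linarith
  have h2 : |72 / (y : ℝ)| ≤ 1 := by
    rw [abs_of_nonneg (by positivity), div_le_one (by linarith)]; exact hy'
  have h3 := (abs_le.1 (Real.abs_exp_sub_one_le h2)).2
  rw [abs_of_nonneg (by positivity : (0 : ℝ) ≤ 72 / y)] at h3
  have h4 := Real.prod_one_add_le_exp_sum P (f := fun p => 18 * hh p ^ 2) fun _ => by positivity
  have h5 := Real.exp_le_exp.2 h1
  have : 144 / (y : ℝ) = 2 * (72 / y) := by ring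
  linarith

lemma diag (P : Finset ℕ) (hP : ∀ p ∈ P, p.Prime ∧ 3 ≤ p) {ξ H Z : ℝ} (hξ : 1 < ξ)
    (hH : ∏ p ∈ P, (1 + hh p) = H) (hZ : H ≤ Z) (h : ℕ → ℤ) {p : ℕ} (hp : p ∈ P) (s : ℤ) (N : ℕ) :
    ∑ x ∈ Ico s (s + N), ind p (h p) x * (∑ T ∈ P.powerset, lam (Real.log ξ) T * ∏ q ∈ T, ph h q x) ^ 2 ≤
      (Real.log p / Real.log ξ) ^ 2 * (N / p * H + 2 * p * ξ ^ 6 * Z) := by
  have hL := Real.log_pos hξ
  have hp1 : (1 : ℝ) < p := by exact_mod_cast (hP p hp).1.one_lt
  have hδ : 0 < Real.log p / Real.log ξ := div_pos (Real.log_pos hp1) hL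
  set δ := Real.log p / Real.log ξ with hδe
  have hQ : ∀ q ∈ P.erase p, q.Prime ∧ 3 ≤ q := fun q hq => hP q (mem_of_mem_erase hq)
  set l : Finset ℕ → ℝ := fun T => if p ∈ T then 0 else
    (lam (Real.log ξ) T - lam (Real.log ξ) (insert p T)) / δ with hl
  have l1 : ∀ T, |l T| ≤ 1 := fun T => by
    simp only [hl]
    split_ifs with h0
    · simp
    · obtain ⟨a, b⟩ := lam_ins hL h0
      rw [abs_of_nonneg (div_nonneg a hδ.le), div_le_one hδ]
      exact b
  have l2 : ∀ T ⊆ P.erase p, l T ≠ 0 → ∏ q ∈ T, (q : ℝ) ≤ ξ := fun T hT h0 => by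
    refine lam_supp hξ (fun q hq => (hQ q (hT hq)).1.pos) fun h1 => h0 ?_
    have h2 : p ∉ T := fun h => notMem_erase p P (hT h)
    have a := (lam_ins hL h2).1
    have b := (lam_bd hL (insert p T)).1
    simp only [hl, if_neg h2]
    rw [show lam (Real.log ξ) T - lam (Real.log ξ) (insert p T) = 0 by linarith, zero_div]
  have hHQ : ∏ q ∈ P.erase p, (1 + hh q) ≤ H := by
    rw [← hH]
    exact prod_le_prod_of_subset_of_one_le (erase_subset _ _) (fun q hq => by linarith [(hh_half (hQ q hq).2).1])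
      fun q hq _ => by linarith [(hh_half (hP q hq).2).1]
  have a := intg (P.erase p) hQ l l1 l2 (hHQ.trans hZ) h (hP p hp).1.pos
    (fun q hq e => (ne_of_mem_erase hq) ((Nat.prime_dvd_prime_iff_eq (hQ q hq).1 (hP p hp).1).1 e))
    (ind p (h p)) (ind_per p (h p)) (fun x => by rw [abs_of_nonneg (ind_bd _ _ x).1]; exact (ind_bd _ _ x).2) s N
  rw [avg3 (hP p hp).1.pos 0 1 0 (h p) 0 fun x => by ring, zero_div, zero_add, add_zero, mul_one_div] at a
  have b := mul_le_mul_of_nonneg_left ((sq_le (fun q hq => (hQ q hq).2) l1).trans hHQ)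
    (show (0 : ℝ) ≤ N / p by positivity)
  refine le_trans (le_of_eq ?_) (mul_le_mul_of_nonneg_left (a.trans (add_le_add_left b _)) (sq_nonneg δ))
  rw [mul_sum]
  refine sum_congr rfl fun x _ => ?_
  unfold ind
  split_ifs with h0
  · rw [one_mul, one_mul, ← mul_pow, mul_sum]
    congr 1
    conv_lhs => rw [← insert_erase hp, sum_powerset_insert (notMem_erase p P), ← sum_add_distrib]
    refine sum_congr rfl fun T hT => ?_
    have h2 : p ∉ T := fun h => notMem_erase p P (mem_powerset.1 hT h)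
    rw [prod_insert h2, show ph h p x = -1 from if_pos h0]
    simp only [hl, if_neg h2]
    field_simp
    ring
  · simp

end SVx

open SVx

theorem sv {ε : ℝ} (hε : 0 < ε) : ∃ K y₀ : ℕ, ∀ (z N : ℕ) (P : Finset ℕ), y₀ ≤ z → z ^ K ≤ N →
    (∀ p ∈ P, p.Prime ∧ y₀ < p ∧ p ≤ z) → ∃ γ : ℝ, Vp P ≤ γ ∧ 1 ≤ γ * z ∧
    (∀ (h : ℕ → ℤ) (A B : Finset ℤ), A ⊆ Ico (0 : ℤ) N → B ⊆ Ico (0 : ℤ) N →
      γ * (A.card * B.card - ε * N ^ 2) ≤ ((A ×ˢ B).filter fun w => Sif P h (w.1 - w.2)).card) ∧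
    ∀ (h : ℕ → ℤ) (d M : ℕ) (x : ℤ) (R : ℤ → Prop), 0 < d → d ≤ z ^ 2 → (∀ p ∈ P, ¬ p ∣ d) →
      (∀ j, R (j + d) ↔ R j) →
      (((Ico x (x + M)).filter fun j => Sif P h j ∧ R j).card : ℝ) ≤
        γ * M * ((Ico (0 : ℤ) d).filter R).card / d + N / z ^ 10 := by
  obtain ⟨K₀, hK⟩ := exists_nat_ge (max 12 (48 / ε))
  obtain ⟨y, hy⟩ := exists_nat_ge (max 72 (max (9472 / ε ^ 2) (32 / ε)))
  have hK1 : (12 : ℝ) ≤ K₀ := (le_max_left _ _).trans hK
  have hK2 : 48 ≤ K₀ * ε := (div_le_iff₀ hε).1 ((le_max_right _ _).trans hK)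
  have hy1 : (72 : ℝ) ≤ y := (le_max_left _ _).trans hy
  have hy2 : 9472 ≤ y * ε ^ 2 :=
    (div_le_iff₀ (by positivity)).1 ((le_max_left _ _).trans ((le_max_right _ _).trans hy))
  have hy3 : 32 ≤ y * ε := (div_le_iff₀ hε).1 ((le_max_right _ _).trans ((le_max_right _ _).trans hy))
  have hy0 : 72 ≤ y := by exact_mod_cast hy1
  refine ⟨12 * K₀ + 16, y, fun z N P hz hN hP => ?_⟩
  have hP3 : ∀ p ∈ P, p.Prime ∧ 3 ≤ p := fun p hp => ⟨(hP p hp).1, by linarith [(hP p hp).2.1]⟩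
  have hyz : (y : ℝ) ≤ z := by exact_mod_cast hz
  have hz1 : (1 : ℝ) < z := by linarith
  set ξ : ℝ := (z : ℝ) ^ K₀ with hξe
  have hξ : 1 < ξ := one_lt_pow₀ hz1 (by rintro rfl; norm_num at hK1)
  have hN' : ξ ^ 12 * z ^ 16 ≤ N := by
    rw [hξe, ← pow_mul, ← pow_add, mul_comm K₀]
    exact_mod_cast hN
  have hL : Real.log ξ = K₀ * Real.log z := Real.log_pow _ _
  have hlz := Real.log_pos hz1
  have hL0 := Real.log_pos hξ
  set H := ∏ p ∈ P, (1 + hh p) with hH
  have hHz : H ≤ z := H_le (by omega) fun p hp => ⟨(hP3 p hp).2, (hP p hp).2.2⟩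
  have hH1 : 1 ≤ H := by
    refine le_trans (le_of_eq (prod_const_one (s := P)).symm) ?_
    exact prod_le_prod (fun _ _ => zero_le_one) fun p hp => by linarith [(hh_half (hP3 p hp).2).1]
  have hV : Vp P * H = 1 := by
    rw [Vp, hH, ← prod_mul_distrib]
    refine prod_eq_one fun p hp => ?_
    have : (3 : ℝ) ≤ p := by exact_mod_cast (hP3 p hp).2
    have : (p : ℝ) - 1 ≠ 0 := by linarith
    unfold hh
    field_simp
    ring
  have hM : ∑ p ∈ P, Real.log p / p ≤ 2 * Real.log z := by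
    have a := TorsRank.mertens_le z (by omega) P fun p hp => ⟨(hP p hp).1, (hP p hp).2.2⟩
    have b : Real.log 4 ≤ Real.log z := Real.log_le_log (by norm_num) (by linarith)
    linarith
  have hw : ∀ T ∈ P.powerset, 0 ≤ ∏ p ∈ T, hh p := fun T hT =>
    prod_nonneg fun p hp => (hh_half (hP3 p (mem_powerset.1 hT hp)).2).1
  set l := lam (Real.log ξ) with hl
  have l1 : ∀ T, |l T| ≤ 1 := fun T => by rw [abs_of_nonneg (lam_bd hL0 T).1]; exact (lam_bd hL0 T).2
  have l2 : ∀ T ⊆ P, l T ≠ 0 → ∏ p ∈ T, (p : ℝ) ≤ ξ := fun T hT =>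
    lam_supp hξ fun p hp => (hP p (hT hp)).1.pos
  set G := ∑ T ∈ P.powerset, l T * ∏ p ∈ T, hh p with hG
  set c₀ := ∑ T ∈ P.powerset, l T ^ 2 * ∏ p ∈ T, hh p with hc₀
  have hG1 : H / 2 ≤ G := by
    have a := mk P hh (fun p => Real.log p) (fun p hp => (hh_half (hP3 p hp).2).1)
      fun p _ => Real.log_natCast_nonneg p
    have b : ∑ p ∈ P, Real.log p * hh p ≤ 4 * Real.log z := by
      refine le_trans (sum_le_sum fun p hp => ?_) (show ∑ p ∈ P, 2 * (Real.log p / p) ≤ _ by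
        rw [← mul_sum]; linarith)
      have := mul_le_mul_of_nonneg_left (hh_half (hP3 p hp).2).2.2.1 (Real.log_natCast_nonneg p)
      exact this.trans (le_of_eq (by ring))
    have c : H - (∑ T ∈ P.powerset, (∏ p ∈ T, hh p) * ∑ p ∈ T, Real.log p) / Real.log ξ ≤ G := by
      rw [hH, prod_one_add, sum_div, ← sum_sub_distrib]
      refine sum_le_sum fun T hT => le_trans (le_of_eq (by ring))
        (mul_le_mul_of_nonneg_right (le_max_right _ _) (hw T hT))
    have d : (∑ T ∈ P.powerset, (∏ p ∈ T, hh p) * ∑ p ∈ T, Real.log p) / Real.log ξ ≤ H / 2 := by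
      rw [div_le_iff₀ hL0, hL]
      have e := mul_le_mul_of_nonneg_right b (zero_le_one.trans hH1)
      have f := mul_le_mul_of_nonneg_right hK1 (show 0 ≤ Real.log z * H by positivity)
      have : 0 ≤ Real.log z * H := by positivity
      linarith
    linarith
  have hG0 : 0 < G ^ 2 := by have : 0 < G := by linarith
                             positivity
  have hG2 : H ^ 2 ≤ 4 * G ^ 2 := by nlinarith
  have hCS : G ^ 2 ≤ c₀ * H := by
    rw [hH, prod_one_add]
    exact sum_sq_le_sum_mul_sum_of_sq_le_mul _ (fun T hT => mul_nonneg (sq_nonneg _) (hw T hT)) hw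
      fun T _ => le_of_eq (by ring)
  have hγ : 1 ≤ c₀ / G ^ 2 * H := by rw [div_mul_eq_mul_div, one_le_div hG0]; exact hCS
  have hγ0 : 0 ≤ c₀ / G ^ 2 := by
    by_contra hc
    nlinarith [mul_pos (neg_pos.2 (not_le.1 hc)) (zero_lt_one.trans_le hH1)]
  have hS : ∀ (h : ℕ → ℤ) (x : ℤ), Sif P h x → ∑ T ∈ P.powerset, l T * ∏ p ∈ T, ph h p x = G :=
    fun h x hx => sum_congr rfl fun T hT => by
      congr 1
      exact prod_congr rfl fun p hp => if_neg (hx p (mem_powerset.1 hT hp))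
  have hN0 : (0 : ℝ) ≤ N := Nat.cast_nonneg N
  have hx6 : ξ ^ 6 ≤ ξ ^ 12 := pow_le_pow_right₀ hξ.le (by norm_num)
  refine ⟨c₀ / G ^ 2, ?_, hγ.trans (mul_le_mul_of_nonneg_left hHz hγ0), fun h A B hA hB => ?_,
    fun h d M x R hd hdz hc hR => ?_⟩
  · exact le_of_mul_le_mul_right (hV.le.trans hγ) (by linarith)
  · obtain ⟨c, c0, c1, c2, c3⟩ := xp P (fun p hp => (hP3 p hp).2) l l1 l2
    set S : ℤ → ℝ := fun x => (∑ T ∈ P.powerset, l T * ∏ p ∈ T, ph h p x) ^ 2 with hSe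
    have k1 : ∑ a ∈ A, ∑ b ∈ B, S (a - b) - ∑ b ∈ B, ∑ p ∈ P, ∑ a ∈ A, ind p (h p) (a - b) * S (a - b) ≤
        G ^ 2 * ((A ×ˢ B).filter fun w => Sif P h (w.1 - w.2)).card := by
      rw [sum_congr rfl fun b _ => sum_comm, sum_comm (s := B), ← sum_sub_distrib, card_filter, Nat.cast_sum,
        sum_product, mul_sum]
      refine sum_le_sum fun a _ => ?_
      rw [← sum_sub_distrib, mul_sum]
      refine sum_le_sum fun b _ => ?_
      rw [← sum_mul]
      split_ifs with h0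
      · have : ∑ p ∈ P, ind p (h p) (a - b) = 0 := sum_eq_zero fun p hp => if_neg (h0 p hp)
        simp only [this, hSe, hS h _ h0]
        simp
      · obtain ⟨p, hp⟩ := not_forall.1 h0
        obtain ⟨hp, h1⟩ := Classical.not_imp.1 hp
        have a1 := single_le_sum (f := fun p => ind p (h p) (a - b)) (fun p _ => (ind_bd _ _ _).1) hp
        have a2 : ind p (h p) (a - b) = 1 := if_pos (not_not.1 h1)
        have a3 : 0 ≤ S (a - b) := sq_nonneg _
        simp only [a2] at a1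
        rw [Nat.cast_zero, mul_zero]
        nlinarith
    have k2 : ∀ b, ∑ p ∈ P, ∑ a ∈ A, ind p (h p) (a - b) * S (a - b) ≤ ε / 16 * N * H := by
      intro b
      have j1 : ∀ p ∈ P, ∑ a ∈ A, ind p (h p) (a - b) * S (a - b) ≤
          N * H / (K₀ ^ 2 * Real.log z) * (Real.log p / p) + 2 * ξ ^ 6 * z ^ 2 := by
        intro p hp
        have a1 : ∑ a ∈ A, ind p (h p) (a - b) * S (a - b) ≤
            ∑ x ∈ Ico (-b) (-b + N), ind p (h p) x * S x := by
          refine (sum_le_sum_of_subset_of_nonneg hA fun x _ _ =>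
            mul_nonneg (ind_bd _ _ _).1 (sq_nonneg _)).trans (le_of_eq ?_)
          refine sum_bij (fun a _ => a - b) (fun a ha => ?_) (fun a _ a' _ e => sub_left_injective e)
            (fun x hx => ⟨x + b, ?_, add_sub_cancel_right _ _⟩) fun _ _ => rfl
          · rw [mem_Ico] at ha ⊢; omega
          · rw [mem_Ico] at hx ⊢; omega
        refine a1.trans ((diag P hP3 hξ hH.symm hHz h hp (-b) N).trans ?_)
        have p0 : (0 : ℝ) < p := by exact_mod_cast (hP p hp).1.pos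
        have pz : (p : ℝ) ≤ z := by exact_mod_cast (hP p hp).2.2
        have p1 : Real.log p ≤ Real.log z := Real.log_le_log p0 pz
        have p2 := Real.log_natCast_nonneg p
        have p3 : (Real.log p / Real.log ξ) ^ 2 ≤ 1 := by
          refine pow_le_one₀ (by positivity) ((div_le_one hL0).2 ?_)
          rw [hL]; nlinarith
        have p4 : (Real.log p / Real.log ξ) ^ 2 ≤ Real.log p / (K₀ ^ 2 * Real.log z) := by
          rw [hL, div_pow, div_le_div_iff₀ (by positivity) (by positivity)]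
          have := mul_le_mul_of_nonneg_left p1 (show 0 ≤ Real.log p * (K₀ ^ 2 * Real.log z) by positivity)
          linarith
        have p5 := mul_le_mul_of_nonneg_right p4 (show 0 ≤ N / p * H by positivity)
        have p6 := mul_le_mul p3 (mul_le_mul_of_nonneg_right pz (show 0 ≤ 2 * ξ ^ 6 * z by positivity))
          (by positivity) zero_le_one
        have p7 : Real.log p / (K₀ ^ 2 * Real.log z) * (N / p * H) =
          N * H / (K₀ ^ 2 * Real.log z) * (Real.log p / p) := by ring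
        linarith
      refine (sum_le_sum j1).trans ?_
      rw [sum_add_distrib, ← mul_sum, sum_const, nsmul_eq_mul]
      have j2 : (P.card : ℝ) ≤ z := by
        have := card_le_card (show P ⊆ Ioc 0 z from fun p hp => mem_Ioc.2 ⟨(hP p hp).1.pos, (hP p hp).2.2⟩)
        rw [Nat.card_Ioc] at this
        exact_mod_cast this
      have j3 := mul_le_mul_of_nonneg_left hM (show 0 ≤ N * H / (K₀ ^ 2 * Real.log z) by positivity)
      have j4 : N * H / (K₀ ^ 2 * Real.log z) * (2 * Real.log z) ≤ ε / 32 * N * H := by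
        rw [div_mul_eq_mul_div, div_le_iff₀ (by positivity)]
        have : 64 ≤ ε * K₀ ^ 2 := by nlinarith
        have := mul_le_mul_of_nonneg_right this (show 0 ≤ N * H * Real.log z by positivity)
        linarith
      have j5 := mul_le_mul_of_nonneg_right j2 (show 0 ≤ 2 * ξ ^ 6 * z ^ 2 by positivity)
      have j6 : z * (2 * ξ ^ 6 * z ^ 2) ≤ ε / 32 * N * H := by
        have a1 : 64 ≤ ε * z ^ 13 := by
          have : (z : ℝ) ^ 2 ≤ z ^ 13 := pow_le_pow_right₀ hz1.le (by norm_num)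
          nlinarith [mul_le_mul_of_nonneg_left this hε.le, mul_le_mul_of_nonneg_right hyz hε.le]
        have a2 := mul_le_mul a1 hx6 (by positivity) (by positivity)
        have a3 := mul_le_mul_of_nonneg_right a2 (show (0 : ℝ) ≤ z ^ 3 by positivity)
        have a4 := mul_le_mul_of_nonneg_left hN' hε.le
        have a5 := mul_le_mul_of_nonneg_left hH1 (show 0 ≤ ε * N by positivity)
        linarith
      linarith
    have k3 : ∑ b ∈ B, ∑ p ∈ P, ∑ a ∈ A, ind p (h p) (a - b) * S (a - b) ≤ ε / 16 * N ^ 2 * H := by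
      refine (sum_le_card_nsmul _ _ _ fun b _ => k2 b).trans ?_
      rw [nsmul_eq_mul]
      have := mul_le_mul_of_nonneg_right (card_le hB) (show 0 ≤ ε / 16 * N * H by positivity)
      linarith
    have k4 := bil P hP3 h c hξ.le c1 c2
      (sumc P hP3 c (by positivity : (0 : ℝ) ≤ z)
        (fun E hE => (c1 E hE).trans (mul_le_mul_of_nonneg_left hHz (by positivity))) c2)
      (tau_le hy0 hz fun p hp => (hP p hp).2) hA hB
    have k5 : ∑ a ∈ A, ∑ b ∈ B, S (a - b) = c₀ * (A.card * B.card) +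
        ∑ a ∈ A, ∑ b ∈ B, ∑ E ∈ P.powerset.erase ∅, c E * ∏ p ∈ E, ph h p (a - b) := by
      have e : ∀ x, S x = c₀ + ∑ E ∈ P.powerset.erase ∅, c E * ∏ p ∈ E, ph h p x := fun x => by
        rw [hSe, hc₀, ← c0]
        beta_reduce
        rw [c3 _ fun p _ => ph_sq h p _, ← add_sum_erase _ _ (empty_mem_powerset P), prod_empty, mul_one]
      simp only [e, sum_add_distrib, sum_const, nsmul_eq_mul]
      ring
    have k6 : (N : ℝ) ^ 4 * H ^ 2 * (144 / y) + 4 * N ^ 3 * ξ ^ 4 * (ξ ^ 4 * z) ^ 2 ≤ (ε / 8 * N ^ 2 * H) ^ 2 := by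
      have a1 : 148 / (y : ℝ) ≤ ε ^ 2 / 64 := by rw [div_le_div_iff₀ (by linarith) (by norm_num)]; linarith
      have a2 : ξ ^ 12 * z ^ 2 ≤ N / y := by
        rw [le_div_iff₀ (by linarith)]
        have : (z : ℝ) ^ 2 * z ≤ z ^ 16 := by rw [← pow_succ]; exact pow_le_pow_right₀ hz1.le (by norm_num)
        have := mul_le_mul_of_nonneg_left ((mul_le_mul_of_nonneg_left hyz (sq_nonneg _)).trans this)
          (show 0 ≤ ξ ^ 12 by positivity)
        linarith
      have a3 := mul_le_mul a2 (one_le_pow₀ hH1 (n := 2)) zero_le_one (by positivity)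
      have a4 := mul_le_mul_of_nonneg_left a3 (show (0 : ℝ) ≤ 4 * N ^ 3 by positivity)
      have a5 := mul_le_mul_of_nonneg_left a1 (show (0 : ℝ) ≤ N ^ 4 * H ^ 2 by positivity)
      have a6 : (N : ℝ) ^ 4 * H ^ 2 * (148 / y) = N ^ 4 * H ^ 2 * (144 / y) + 4 * N ^ 3 * (N / y * H ^ 2) := by
        ring
      linarith
    have k7 := (abs_le.1 (abs_le_of_sq_le_sq (k4.trans k6) (by positivity))).1
    have k8 : H ≤ 4 * c₀ := by nlinarith
    have k9 := mul_le_mul_of_nonneg_left k8 (show 0 ≤ ε * N ^ 2 by positivity)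
    have k10 : 0 ≤ ε * N ^ 2 * H := by positivity
    rw [div_mul_eq_mul_div, div_le_iff₀ hG0]
    linarith
  · have a := intg P hP3 l l1 l2 hHz h hd hc (fun j => if R j then 1 else 0) (fun j => by simp only [hR])
      (fun j => by split_ifs <;> simp) x M
    have b : G ^ 2 * ((Ico x (x + M)).filter fun j => Sif P h j ∧ R j).card ≤
        ∑ j ∈ Ico x (x + M), (if R j then 1 else 0) * (∑ T ∈ P.powerset, l T * ∏ p ∈ T, ph h p j) ^ 2 := by
      rw [card_filter, Nat.cast_sum, mul_sum]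
      refine sum_le_sum fun j _ => ?_
      by_cases h0 : Sif P h j ∧ R j
      · rw [if_pos h0, if_pos h0.2, hS h j h0.1]; simp
      · rw [if_neg h0, Nat.cast_zero, mul_zero]; split_ifs <;> positivity
    rw [avg, sum_boole, ← hc₀] at a
    have c : 2 * d * ξ ^ 6 * z ≤ G ^ 2 * (N / z ^ 10) := by
      have a1 : (d : ℝ) ≤ z ^ 2 := by exact_mod_cast hdz
      have a2 : 8 * d * ξ ^ 6 * z ≤ N / z ^ 10 := by
        rw [le_div_iff₀ (by positivity)]
        have a3 : (8 : ℝ) ≤ z ^ 3 := by nlinarith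
        have a4 := mul_le_mul (mul_le_mul a3 a1 (by positivity) (by positivity)) hx6 (by positivity)
          (by positivity)
        have a5 := mul_le_mul_of_nonneg_right a4 (show (0 : ℝ) ≤ z ^ 11 by positivity)
        linarith
      have a3 : 1 / 4 ≤ G ^ 2 := by nlinarith
      have := mul_le_mul_of_nonneg_right a3 (show (0 : ℝ) ≤ N / z ^ 10 by positivity)
      linarith
    refine le_of_mul_le_mul_left (b.trans (a.trans ?_)) hG0
    rw [mul_add]
    refine add_le_add (le_of_eq ?_) c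
    have : G ≠ 0 := by linarith
    field_simp

end Pool.Agent.Lib.MP_ad7336_sd
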