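import Pool.Agent.Lib.MP_ad7336_sd.Defs

set_option autoImplicit false

namespace Pool.Agent.Lib.MP_ad7336_sd

open Finset Filter
open scoped Classical

namespace SV1x

def P (n : ℕ) (f : ℤ → ℝ) : Prop := ∀ x y : ℤ, (n : ℤ) ∣ x - y → f x = f y

lemma one_period (n : ℕ) [NeZero n] (g : ZMod n → ℝ) (a : ℤ) :
    ∑ x ∈ Ico a (a + n), g (x : ZMod n) = ∑ r : ZMod n, g r := by
  refine Finset.sum_bij (fun x _ => (x : ZMod n)) (fun _ _ => mem_univ _) ?_ ?_ (fun _ _ => rfl)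
  · intro x hx y hy e
    rw [mem_Ico] at hx hy
    rw [ZMod.intCast_eq_intCast_iff_dvd_sub] at e
    have := Int.eq_zero_of_abs_lt_dvd e (by rw [abs_lt]; constructor <;> linarith [hx.1, hx.2, hy.1, hy.2])
    linarith
  · intro r _
    refine ⟨a + ((r - (a : ZMod n)).val : ℤ), ?_, ?_⟩
    · rw [mem_Ico]
      have := ZMod.val_lt (r - (a : ZMod n))
      constructor
      · linarith [Int.natCast_nonneg (r - (a : ZMod n)).val]
      · have : (((r - (a : ZMod n)).val : ℕ) : ℤ) < n := by exact_mod_cast this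
        linarith
    · push_cast
      rw [ZMod.natCast_zmod_val]
      ring

lemma P.lift {n : ℕ} [NeZero n] {f : ℤ → ℝ} (hf : P n f) (x : ℤ) :
    f x = f (((x : ZMod n).val : ℕ) : ℤ) := by
  apply hf
  rw [← ZMod.intCast_eq_intCast_iff_dvd_sub]
  push_cast
  rw [ZMod.natCast_zmod_val]

lemma P.period {n : ℕ} [NeZero n] {f : ℤ → ℝ} (hf : P n f) (a : ℤ) :
    ∑ x ∈ Ico a (a + n), f x = ∑ r : ZMod n, f ((r.val : ℕ) : ℤ) := by
  rw [← one_period n (fun r => f ((r.val : ℕ) : ℤ)) a]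
  exact sum_congr rfl fun x _ => hf.lift x

lemma sum_split (f : ℤ → ℝ) {a b c : ℤ} (h1 : a ≤ b) (h2 : b ≤ c) :
    ∑ x ∈ Ico a c, f x = ∑ x ∈ Ico a b, f x + ∑ x ∈ Ico b c, f x := by
  rw [← Finset.sum_union (Finset.Ico_disjoint_Ico_consecutive a b c),
    Finset.Ico_union_Ico_eq_Ico h1 h2]

lemma P.periods {n : ℕ} [NeZero n] {f : ℤ → ℝ} (hf : P n f) (a : ℤ) (q : ℕ) :
    ∑ x ∈ Ico a (a + q * n), f x = q * ∑ x ∈ Ico (0 : ℤ) (0 + n), f x := by
  induction q with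
  | zero => simp
  | succ q ih =>
    have hq : (0 : ℤ) ≤ q * n := by positivity
    have hn : (0 : ℤ) ≤ n := by positivity
    have e : a + ((q + 1 : ℕ) : ℤ) * n = (a + q * n) + n := by push_cast; ring
    rw [e, sum_split f (b := a + q * n) (by linarith) (by linarith), ih, hf.period, hf.period]
    push_cast
    ring

lemma P.crt {m n : ℕ} (hm : 1 ≤ m) (hn : 1 ≤ n) (hc : Nat.Coprime m n) {f g : ℤ → ℝ}
    (hf : P m f) (hg : P n g) :
    ∑ x ∈ Ico (0 : ℤ) (0 + (m * n : ℕ)), f x * g x =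
      (∑ x ∈ Ico (0 : ℤ) (0 + m), f x) * ∑ x ∈ Ico (0 : ℤ) (0 + n), g x := by
  have : NeZero m := ⟨by omega⟩
  have : NeZero n := ⟨by omega⟩
  have : NeZero (m * n) := ⟨Nat.mul_ne_zero (by omega) (by omega)⟩
  rw [hf.period, hg.period, sum_mul_sum, ← Fintype.sum_prod_type',
    ← Equiv.sum_comp (ZMod.chineseRemainder hc).toEquiv,
    ← one_period (m * n) _ 0]
  refine sum_congr rfl fun x _ => ?_
  have e : (ZMod.chineseRemainder hc).toEquiv (x : ZMod (m * n)) =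
      ((x : ZMod m), (x : ZMod n)) := by
    change ZMod.chineseRemainder hc (x : ZMod (m * n)) = _
    rw [map_intCast]
    rfl
  rw [e, ← hf.lift, ← hg.lift]

lemma P.of_per {n : ℕ} {f : ℤ → ℝ} (h : ∀ x, f (x + n) = f x) : P n f := by
  intro x y ⟨c, hc⟩
  have hp : Function.Periodic f (n : ℤ) := h
  have := hp.int_mul c y
  rw [← this]
  congr 1
  push_cast
  linear_combination hc

lemma P.mono {m n : ℕ} (h : m ∣ n) {f : ℤ → ℝ} (hf : P m f) : P n f :=
  fun x y e => hf x y ((Int.natCast_dvd_natCast.2 h).trans e)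

lemma abs_Ico {f : ℤ → ℝ} (h : ∀ x, |f x| ≤ 1) (a : ℤ) (r : ℕ) : |∑ x ∈ Ico a (a + r), f x| ≤ r := by
  refine (abs_sum_le_sum_abs _ _).trans (le_trans (sum_le_card_nsmul _ _ 1 fun x _ => h x) ?_)
  rw [Int.card_Ico, nsmul_eq_mul]
  simp

lemma P.equi {n : ℕ} (hn : 1 ≤ n) {f : ℤ → ℝ} (hf : P n f) (h : ∀ x, |f x| ≤ 1) (a : ℤ) (L : ℕ) :
    |∑ x ∈ Ico a (a + L), f x - L * avg n f| ≤ 2 * n := by
  have : NeZero n := ⟨by omega⟩
  have hn0 : (0 : ℝ) < n := by exact_mod_cast hn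
  obtain ⟨q, r, hr, rfl⟩ : ∃ q r : ℕ, r < n ∧ L = q * n + r :=
    ⟨L / n, L % n, Nat.mod_lt _ (by omega), (Nat.div_add_mod' L n).symm⟩
  have hq : (0 : ℤ) ≤ q * n := by positivity
  have hr0 : (0 : ℤ) ≤ r := by positivity
  have e : a + ((q * n + r : ℕ) : ℤ) = (a + q * n) + r := by push_cast; ring
  rw [e, sum_split f (b := a + q * n) (by linarith) (by linarith), hf.periods, avg]
  have a1 := abs_Ico h (a + q * n) r
  have b1 := abs_Ico h 0 n
  rw [zero_add] at b1 ⊢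
  set s := ∑ x ∈ Ico (0 : ℤ) n, f x
  set t := ∑ x ∈ Ico (a + q * n) (a + q * n + r), f x
  have hrn : (r : ℝ) ≤ n := by exact_mod_cast hr.le
  have e2 : q * s + t - ((q * n + r : ℕ) : ℝ) * (s / n) = t - r / n * s := by
    push_cast
    field_simp
    ring
  have c2 : |(r : ℝ) / n * s| ≤ n := by
    rw [abs_mul, abs_of_nonneg (by positivity)]
    exact (mul_le_of_le_one_left (abs_nonneg _) ((div_le_one hn0).mpr hrn)).trans b1
  rw [e2]
  refine (abs_sub _ _).trans ?_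
  linarith

lemma P.avg_mul {m n : ℕ} (hm : 1 ≤ m) (hn : 1 ≤ n) (hc : Nat.Coprime m n) {f g : ℤ → ℝ}
    (hf : P m f) (hg : P n g) : avg (m * n) (fun x => f x * g x) = avg m f * avg n g := by
  have := P.crt hm hn hc hf hg
  simp only [zero_add] at this
  rw [avg, avg, avg, this, div_mul_div_comm, Nat.cast_mul]

lemma avg_prod (U : Finset ℕ) (hU : ∀ p ∈ U, p.Prime) {d : ℕ} (hd : 0 < d) (hc : ∀ p ∈ U, ¬ p ∣ d)
    {g : ℤ → ℝ} {f : ℕ → ℤ → ℝ} (pg : P d g) (pf : ∀ p ∈ U, P p (f p)) :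
    P (d * ∏ p ∈ U, p) (fun x => g x * ∏ p ∈ U, f p x) ∧
      avg (d * ∏ p ∈ U, p) (fun x => g x * ∏ p ∈ U, f p x) = avg d g * ∏ p ∈ U, avg p (f p) := by
  induction U using Finset.induction_on with
  | empty => simpa using pg
  | insert q U hq ih =>
    obtain ⟨h1, h2⟩ := ih (fun p hp => hU p (mem_insert_of_mem hp)) (fun p hp => hc p (mem_insert_of_mem hp))
      fun p hp => pf p (mem_insert_of_mem hp)
    have hqp := hU q (mem_insert_self _ _)
    have hf := pf q (mem_insert_self _ _)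
    have hco : Nat.Coprime q (d * ∏ p ∈ U, p) :=
      Nat.Coprime.mul_right ((Nat.Prime.coprime_iff_not_dvd hqp).2 (hc q (mem_insert_self _ _)))
        (Nat.Coprime.prod_right fun p hp => (Nat.coprime_primes hqp (hU p (mem_insert_of_mem hp))).2
          fun e => hq (e ▸ hp))
    have hpos : 1 ≤ d * ∏ p ∈ U, p := Nat.mul_pos hd (prod_pos fun p hp => (hU p (mem_insert_of_mem hp)).pos)
    simp only [prod_insert hq, mul_left_comm d q, mul_left_comm (g _), mul_left_comm (avg d g)]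
    refine ⟨fun x y e => ?_, by rw [P.avg_mul hqp.pos hpos hco hf h1, h2]⟩
    have e1 := hf.mono (Dvd.intro _ rfl) x y e
    have e2 := h1.mono (Dvd.intro_left _ rfl) x y e
    simp only at e2 ⊢
    rw [e1, e2]

lemma sum_loc (S : Finset ℕ) (F : ℕ → Prop → ℝ) :
    ∑ T ∈ S.powerset, ∏ p ∈ S, F p (p ∈ T) = ∏ p ∈ S, (F p True + F p False) := by
  rw [prod_add]
  refine sum_congr rfl fun T hT => ?_
  rw [← prod_sdiff (mem_powerset.1 hT), mul_comm]
  congr 1
  · exact prod_congr rfl fun p hp => by rw [eq_true hp]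
  · exact prod_congr rfl fun p hp => by rw [eq_false (mem_sdiff.1 hp).2]

lemma prod_sub {S T : Finset ℕ} (h : T ⊆ S) (f : ℕ → ℝ) :
    ∏ p ∈ T, f p = ∏ p ∈ S, if p ∈ T then f p else 1 := by
  rw [prod_ite_mem, inter_eq_right.2 h]

/-- local coefficients -/
noncomputable def loc (p : ℕ) (A B C : Prop) : ℝ :=
  if C then (if A then (if B then hh p - 1 else 1) else if B then 1 else 0)
  else (if A then (if B then hh p else 0) else if B then 0 else 1)

lemma hh_bd {p : ℕ} (h : 3 ≤ p) : 0 ≤ hh p ∧ hh p ≤ 1 := by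
  have : (3 : ℝ) ≤ p := by exact_mod_cast h
  exact ⟨inv_nonneg.2 (by linarith), inv_le_one_of_one_le₀ (by linarith)⟩

end SV1x

open SV1x

theorem ca (U : Finset ℕ) (hU : ∀ p ∈ U, p.Prime) {d : ℕ} (hd : 0 < d) (hc : ∀ p ∈ U, ¬ p ∣ d)
    (g : ℤ → ℝ) (f : ℕ → ℤ → ℝ) (pg : ∀ x, g (x + d) = g x) (bg : ∀ x, |g x| ≤ 1)
    (pf : ∀ p ∈ U, ∀ x, f p (x + p) = f p x) (bf : ∀ p ∈ U, ∀ x, |f p x| ≤ 1) (s : ℤ) (M : ℕ) :
    |∑ x ∈ Ico s (s + M), g x * ∏ p ∈ U, f p x - M * (avg d g * ∏ p ∈ U, avg p (f p))| ≤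
      2 * (d * ∏ p ∈ U, (p : ℝ)) := by
  obtain ⟨h1, h2⟩ := avg_prod U hU hd hc (P.of_per pg) fun p hp => P.of_per (pf p hp)
  have := h1.equi (Nat.mul_pos hd (prod_pos fun p hp => (hU p hp).pos)) (fun x => by
    rw [abs_mul, abs_prod]
    exact mul_le_one₀ (bg x) (prod_nonneg fun _ _ => abs_nonneg _)
      (prod_le_one (fun _ _ => abs_nonneg _) fun p hp => bf p hp x)) s M
  rwa [h2, Nat.cast_mul, Nat.cast_prod] at this

theorem mk (P : Finset ℕ) (w l : ℕ → ℝ) (hw : ∀ p ∈ P, 0 ≤ w p) (hl : ∀ p ∈ P, 0 ≤ l p) :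
    ∑ T ∈ P.powerset, (∏ p ∈ T, w p) * ∑ p ∈ T, l p ≤
      (∑ p ∈ P, l p * w p) * ∏ p ∈ P, (1 + w p) := by
  induction P using Finset.induction_on with
  | empty => simp
  | insert q P hq ih =>
    have ih := ih (fun p hp => hw p (mem_insert_of_mem hp)) fun p hp => hl p (mem_insert_of_mem hp)
    have h1 := hw q (mem_insert_self _ _)
    have h2 := hl q (mem_insert_self _ _)
    have h3 : 0 ≤ ∏ p ∈ P, (1 + w p) := prod_nonneg fun p hp => by linarith [hw p (mem_insert_of_mem hp)]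
    have h4 : ∑ T ∈ P.powerset, (∏ p ∈ insert q T, w p) * ∑ p ∈ insert q T, l p =
        w q * l q * ∏ p ∈ P, (1 + w p) + w q * ∑ T ∈ P.powerset, (∏ p ∈ T, w p) * ∑ p ∈ T, l p := by
      rw [prod_one_add, mul_sum, mul_sum, ← sum_add_distrib]
      refine sum_congr rfl fun T hT => ?_
      have : q ∉ T := fun h => hq (mem_powerset.1 hT h)
      rw [prod_insert this, sum_insert this]
      ring
    rw [sum_powerset_insert hq, h4, sum_insert hq, prod_insert hq]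
    have h5 := mul_le_mul_of_nonneg_left ih h1
    have h6 : 0 ≤ l q * w q * w q * ∏ p ∈ P, (1 + w p) := by positivity
    linarith

theorem xp (P : Finset ℕ) (hP : ∀ p ∈ P, 3 ≤ p) (lam : Finset ℕ → ℝ) (hl : ∀ T, |lam T| ≤ 1)
    {ξ : ℝ} (hξ : ∀ T ⊆ P, lam T ≠ 0 → ∏ p ∈ T, (p : ℝ) ≤ ξ) :
    ∃ c : Finset ℕ → ℝ, c ∅ = ∑ T ∈ P.powerset, lam T ^ 2 * ∏ p ∈ T, hh p ∧
      (∀ E ⊆ P, |c E| ≤ 3 ^ E.card * ∏ p ∈ P, (1 + hh p)) ∧
      (∀ E ⊆ P, c E ≠ 0 → ∏ p ∈ E, (p : ℝ) ≤ ξ ^ 2) ∧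
      ∀ φ : ℕ → ℝ, (∀ p ∈ P, φ p ^ 2 = hh p + (hh p - 1) * φ p) →
        (∑ T ∈ P.powerset, lam T * ∏ p ∈ T, φ p) ^ 2 = ∑ E ∈ P.powerset, c E * ∏ p ∈ E, φ p := by
  refine ⟨fun E => ∑ T ∈ P.powerset, ∑ T' ∈ P.powerset, lam T * lam T' * ∏ p ∈ P, loc p (p ∈ T) (p ∈ T') (p ∈ E),
    ?_, fun E hE => ?_, fun E hE h => ?_, fun φ hφ => ?_⟩
  · refine sum_congr rfl fun T hT => ?_
    rw [sum_eq_single_of_mem T hT, sq, prod_sub (mem_powerset.1 hT)]
    · congr 1
      exact prod_congr rfl fun p _ => by by_cases h : p ∈ T <;> simp [loc, h]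
    · intro T' hT' hne
      obtain ⟨p, hp⟩ : ∃ p, ¬ (p ∈ T' ↔ p ∈ T) := not_forall.1 fun h => hne (Finset.ext h)
      have hpP : p ∈ P := by
        by_contra h
        exact hp (iff_of_false (fun h' => h (mem_powerset.1 hT' h')) fun h' => h (mem_powerset.1 hT h'))
      rw [prod_eq_zero hpP, mul_zero]
      by_cases h : p ∈ T <;> by_cases h' : p ∈ T' <;> simp_all [loc]
  · calc _ ≤ ∑ T ∈ P.powerset, ∑ T' ∈ P.powerset, ∏ p ∈ P, |loc p (p ∈ T) (p ∈ T') (p ∈ E)| := by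
          refine (abs_sum_le_sum_abs _ _).trans (sum_le_sum fun T _ =>
            (abs_sum_le_sum_abs _ _).trans (sum_le_sum fun T' _ => ?_))
          rw [abs_mul, abs_mul, abs_prod]
          exact mul_le_of_le_one_left (prod_nonneg fun _ _ => abs_nonneg _)
            (mul_le_one₀ (hl T) (abs_nonneg _) (hl T'))
      _ = ∏ p ∈ P, ((|loc p True True (p ∈ E)| + |loc p True False (p ∈ E)|) +
            (|loc p False True (p ∈ E)| + |loc p False False (p ∈ E)|)) := by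
          rw [← sum_loc P fun p A => |loc p A True (p ∈ E)| + |loc p A False (p ∈ E)|]
          exact sum_congr rfl fun T _ => sum_loc P fun p B => |loc p (p ∈ T) B (p ∈ E)|
      _ ≤ ∏ p ∈ P, ((if p ∈ E then 3 else 1) * (1 + hh p)) := by
          refine prod_le_prod (fun p _ => by positivity) fun p hp => ?_
          obtain ⟨h0, h1⟩ := hh_bd (hP p hp)
          by_cases h : p ∈ E
          · simp only [loc, h, if_true, if_false, abs_one, abs_zero, abs_of_nonpos (sub_nonpos.2 h1)]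
            linarith
          · simp only [loc, h, if_true, if_false, abs_one, abs_zero, abs_of_nonneg h0]
            linarith
      _ = _ := by rw [prod_mul_distrib, ← prod_sub hE, prod_const]
  · obtain ⟨T, hT, h⟩ := exists_ne_zero_of_sum_ne_zero h
    obtain ⟨T', hT', h⟩ := exists_ne_zero_of_sum_ne_zero h
    have h1 := hξ T (mem_powerset.1 hT) (left_ne_zero_of_mul (left_ne_zero_of_mul h))
    have h2 := hξ T' (mem_powerset.1 hT') (right_ne_zero_of_mul (left_ne_zero_of_mul h))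
    have h3 := prod_ne_zero_iff.1 (right_ne_zero_of_mul h)
    have h0 : ∀ S : Finset ℕ, 0 ≤ ∏ p ∈ S, (p : ℝ) := fun S => prod_nonneg fun _ _ => Nat.cast_nonneg _
    rw [sq]
    refine le_trans ?_ (mul_le_mul h1 h2 (h0 _) ((h0 _).trans h1))
    rw [prod_sub hE, prod_sub (mem_powerset.1 hT), prod_sub (mem_powerset.1 hT'), ← prod_mul_distrib]
    refine prod_le_prod (fun p _ => by positivity) fun p hp => ?_
    have h4 := h3 p hp
    have h5 : (3 : ℝ) ≤ p := by exact_mod_cast hP p hp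
    by_cases a : p ∈ E <;> by_cases b : p ∈ T <;> by_cases c : p ∈ T' <;> simp [loc, a, b, c] at h4 ⊢ <;>
      nlinarith
  · simp only [sum_mul]
    rw [sq, sum_mul_sum, sum_comm (s := P.powerset) (f := fun E T => ∑ T' ∈ P.powerset, _)]
    refine sum_congr rfl fun T hT => ?_
    rw [sum_comm]
    refine sum_congr rfl fun T' hT' => ?_
    have : ∑ E ∈ P.powerset, (∏ p ∈ P, loc p (p ∈ T) (p ∈ T') (p ∈ E)) * ∏ p ∈ E, φ p =
        (∏ p ∈ T, φ p) * ∏ p ∈ T', φ p := by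
      rw [prod_sub (mem_powerset.1 hT), prod_sub (mem_powerset.1 hT'), ← prod_mul_distrib,
        sum_congr rfl fun E hE => by rw [prod_sub (mem_powerset.1 hE), ← prod_mul_distrib]]
      refine (sum_congr rfl fun E _ => prod_congr rfl fun p _ => ?_).trans
        ((sum_loc P fun p C => loc p (p ∈ T) (p ∈ T') C * if C then φ p else 1).trans
          (prod_congr rfl fun p hp => ?_))
      · by_cases a : p ∈ E <;> simp [a]
      · have := hφ p hp
        by_cases b : p ∈ T <;> by_cases c : p ∈ T' <;> simp [loc, b, c]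
        linear_combination -this
    simp only [mul_assoc]
    rw [← mul_sum, ← mul_sum, this]
    ring

end Pool.Agent.Lib.MP_ad7336_sd
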