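import Pool.Agent.Lib.MP_ad7336_sd.SV1

set_option autoImplicit false

namespace Pool.Agent.Lib.MP_ad7336_sd

open Finset
open scoped Classical

namespace SVx

noncomputable def ind (p : ℕ) (a x : ℤ) : ℝ := if (p : ℤ) ∣ x - a then 1 else 0

lemma dvd_per (p : ℕ) (a x : ℤ) : (p : ℤ) ∣ x + p - a ↔ (p : ℤ) ∣ x - a := by
  rw [show x + p - a = (x - a) + p by ring]
  exact dvd_add_self_right

lemma ind_per (p : ℕ) (a x : ℤ) : ind p a (x + p) = ind p a x := by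
  simp only [ind, dvd_per]

lemma ind_bd (p : ℕ) (a x : ℤ) : 0 ≤ ind p a x ∧ ind p a x ≤ 1 := by
  unfold ind; split_ifs <;> norm_num

lemma ph_per (h : ℕ → ℤ) (p : ℕ) (x : ℤ) : ph h p (x + p) = ph h p x := by
  simp only [ph, dvd_per]

lemma hh_half {p : ℕ} (h : 3 ≤ p) : 0 ≤ hh p ∧ hh p ≤ 1 / 2 ∧ hh p ≤ 2 / p ∧ (1 + hh p) / p = hh p ∧
    (p : ℝ)⁻¹ ≤ hh p := by
  have h3 : (3 : ℝ) ≤ p := by exact_mod_cast h
  have h1 : (0 : ℝ) < (p : ℝ) - 1 := by linarith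
  have h0 : (0 : ℝ) < p := by linarith
  unfold hh
  refine ⟨by positivity, ?_, ?_, ?_, ?_⟩
  · rw [inv_eq_one_div]; exact one_div_le_one_div_of_le (by norm_num) (by linarith)
  · rw [inv_eq_one_div, div_le_div_iff₀ h1 h0]; linarith
  · field_simp; ring
  · exact inv_anti₀ h1 (by linarith)

lemma ph_abs (h : ℕ → ℤ) {p : ℕ} (hp : 3 ≤ p) (x : ℤ) : |ph h p x| ≤ 1 := by
  obtain ⟨h0, h1, -⟩ := hh_half hp
  unfold ph; split_ifs
  · simp
  · rw [abs_of_nonneg h0]; linarith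

lemma ph_sq (h : ℕ → ℤ) (p : ℕ) (x : ℤ) : ph h p x ^ 2 = hh p + (hh p - 1) * ph h p x := by
  unfold ph; split_ifs <;> ring

lemma sum_ind {p : ℕ} (hp : 0 < p) (a : ℤ) : ∑ x ∈ Ico (0 : ℤ) p, ind p a x = 1 := by
  have hp' : (0 : ℤ) < p := by exact_mod_cast hp
  rw [sum_eq_single_of_mem (a % p) (mem_Ico.2 ⟨Int.emod_nonneg _ hp'.ne', Int.emod_lt_of_pos _ hp'⟩)]
  · unfold ind
    rw [if_pos]
    exact ⟨-(a / p), by have := Int.emod_add_mul_ediv a p; linear_combination this⟩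
  · intro x hx hne
    unfold ind
    rw [if_neg]
    rintro ⟨k, hk⟩
    apply hne
    rw [show a = x + p * (-k) by linear_combination -hk, Int.add_mul_emod_self_left,
      Int.emod_eq_of_lt (mem_Ico.1 hx).1 (mem_Ico.1 hx).2]

lemma avg3 {p : ℕ} (hp : 0 < p) (α β γ : ℝ) (a a' : ℤ) {f : ℤ → ℝ}
    (hf : ∀ x, f x = α + β * ind p a x + γ * ind p a' x) : avg p f = α + β / p + γ / p := by
  have h0 : (0 : ℝ) < p := by exact_mod_cast hp
  rw [avg, sum_congr rfl fun x _ => hf x, sum_add_distrib, sum_add_distrib, ← mul_sum, ← mul_sum,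
    sum_ind hp, sum_ind hp, sum_const, Int.card_Ico, nsmul_eq_mul]
  simp only [sub_zero, Int.toNat_natCast]
  field_simp

lemma ph_ind (h : ℕ → ℤ) (p : ℕ) (b x : ℤ) :
    ph h p (x - b) = hh p - (1 + hh p) * ind p (b + h p) x := by
  unfold ph ind
  rw [show x - (b + h p) = x - b - h p by ring]
  split_ifs <;> ring

lemma avg_ph (h : ℕ → ℤ) {p : ℕ} (hp : 3 ≤ p) (b : ℤ) : avg p (fun x => ph h p (x - b)) = 0 := by
  rw [avg3 (by omega) (hh p) (-(1 + hh p)) 0 (b + h p) 0 fun x => by rw [ph_ind]; ring, neg_div,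
    (hh_half hp).2.2.2.1]
  ring

/-- majorant of the local correlation -/
noncomputable def uu (p : ℕ) (b x : ℤ) : ℝ := hh p * (ind p b x + hh p)

lemma avg_ph2 (h : ℕ → ℤ) {p : ℕ} (hp : 3 ≤ p) (b b' : ℤ) :
    |avg p (fun x => ph h p (x - b) * ph h p (x - b'))| ≤ uu p b b' := by
  obtain ⟨h0, h1, -, h3, -⟩ := hh_half hp
  have e : ∀ x, ind p (b + h p) x * ind p (b' + h p) x = ind p b b' * ind p (b + h p) x := by
    intro x
    unfold ind
    by_cases h1 : (p : ℤ) ∣ x - (b + h p)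
    · have : (p : ℤ) ∣ x - (b' + h p) ↔ (p : ℤ) ∣ b' - b := by
        rw [show b' - b = x - (b + h p) - (x - (b' + h p)) by ring]
        exact ⟨fun h2 => h1.sub h2, fun h2 => by have h3 := h1.sub h2; rwa [sub_sub_cancel] at h3⟩
      simp only [h1, if_true, this, one_mul, mul_one]
    · simp only [h1, if_false, zero_mul, mul_zero]
  rw [avg3 (by omega) (hh p ^ 2) ((1 + hh p) * ((1 + hh p) * ind p b b' - hh p)) ((1 + hh p) * (-hh p))
    (b + h p) (b' + h p) fun x => by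
      rw [ph_ind, ph_ind]; linear_combination (1 + hh p) ^ 2 * e x]
  rw [mul_div_right_comm, mul_div_right_comm, h3]
  unfold uu ind
  split_ifs
  · rw [abs_le]; constructor <;> nlinarith
  · rw [abs_le]; constructor <;> nlinarith

lemma card_small (P : Finset ℕ) (hP : ∀ p ∈ P, p.Prime) {Y : ℝ} (hY : 0 ≤ Y) :
    ((P.powerset.filter fun E : Finset ℕ => ∏ p ∈ E, (p : ℝ) ≤ Y).card : ℝ) ≤ Y := by
  have : (P.powerset.filter fun E : Finset ℕ => ∏ p ∈ E, (p : ℝ) ≤ Y).card ≤ (Icc 1 ⌊Y⌋₊).card := by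
    refine card_le_card_of_injOn (fun E => ∏ p ∈ E, p) (fun E hE => ?_) fun E hE E' hE' e => ?_
    · obtain ⟨h1, h2⟩ := mem_filter.1 (mem_coe.1 hE)
      refine mem_coe.2 (mem_Icc.2 ⟨prod_pos fun p hp => (hP p (mem_powerset.1 h1 hp)).pos, ?_⟩)
      exact Nat.le_floor (by rwa [Nat.cast_prod])
    · have h1 := mem_powerset.1 (mem_filter.1 (mem_coe.1 hE)).1
      have h2 := mem_powerset.1 (mem_filter.1 (mem_coe.1 hE')).1
      rw [← Nat.primeFactors_prod fun p hp => hP p (h1 hp), ← Nat.primeFactors_prod fun p hp => hP p (h2 hp)]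
      exact congrArg _ e
  rw [Nat.card_Icc, Nat.add_sub_cancel] at this
  exact le_trans (by exact_mod_cast this) (Nat.floor_le hY)

lemma sumc (P : Finset ℕ) (hP : ∀ p ∈ P, p.Prime ∧ 3 ≤ p) (c : Finset ℕ → ℝ) {ξ Z : ℝ} (hZ0 : 0 ≤ Z)
    (h1 : ∀ E ⊆ P, |c E| ≤ 3 ^ E.card * Z) (h2 : ∀ E ⊆ P, c E ≠ 0 → ∏ p ∈ E, (p : ℝ) ≤ ξ ^ 2) :
    ∑ E ∈ P.powerset, |c E| ≤ ξ ^ 4 * Z := by
  have h3 : ∑ E ∈ P.powerset, |c E| ≤
      ∑ E ∈ P.powerset.filter fun E : Finset ℕ => ∏ p ∈ E, (p : ℝ) ≤ ξ ^ 2, ξ ^ 2 * Z := by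
    rw [sum_filter]
    refine sum_le_sum fun E hE => ?_
    have hE := mem_powerset.1 hE
    split_ifs with h
    · refine (h1 E hE).trans (mul_le_mul_of_nonneg_right (le_trans ?_ h) hZ0)
      rw [← prod_const]
      exact prod_le_prod (fun _ _ => by norm_num) fun p hp => by exact_mod_cast (hP p (hE hp)).2
    · rw [not_not.1 (mt (h2 E hE) h), abs_zero]
  rw [sum_const, nsmul_eq_mul] at h3
  refine h3.trans ?_
  have := card_small P (fun p hp => (hP p hp).1) (sq_nonneg ξ)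
  calc _ ≤ ξ ^ 2 * (ξ ^ 2 * Z) := mul_le_mul_of_nonneg_right this (by positivity)
    _ = _ := by ring

lemma intg (Q : Finset ℕ) (hQ : ∀ p ∈ Q, p.Prime ∧ 3 ≤ p) (lam : Finset ℕ → ℝ) (hl : ∀ T, |lam T| ≤ 1)
    {ξ Z : ℝ} (hξ : ∀ T ⊆ Q, lam T ≠ 0 → ∏ p ∈ T, (p : ℝ) ≤ ξ) (hZ : ∏ p ∈ Q, (1 + hh p) ≤ Z)
    (h : ℕ → ℤ) {d : ℕ} (hd : 0 < d) (hc : ∀ p ∈ Q, ¬ p ∣ d) (g : ℤ → ℝ) (pg : ∀ x, g (x + d) = g x)
    (bg : ∀ x, |g x| ≤ 1) (s : ℤ) (M : ℕ) :
    ∑ x ∈ Ico s (s + M), g x * (∑ T ∈ Q.powerset, lam T * ∏ p ∈ T, ph h p x) ^ 2 ≤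
      M * avg d g * (∑ T ∈ Q.powerset, lam T ^ 2 * ∏ p ∈ T, hh p) + 2 * d * ξ ^ 6 * Z := by
  obtain ⟨c, c0, c1, c2, c3⟩ := xp Q (fun p hp => (hQ p hp).2) lam hl hξ
  have hZ0 : 0 ≤ Z := le_trans (prod_nonneg fun p hp => by linarith [(hh_half (hQ p hp).2).1]) hZ
  have hs := sumc Q hQ c hZ0 (fun E hE => (c1 E hE).trans (mul_le_mul_of_nonneg_left hZ (by positivity))) c2
  rw [sum_congr rfl fun x _ => by rw [c3 _ fun p _ => ph_sq h p x, mul_sum], sum_comm, ← c0]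
  have key : ∀ E ∈ Q.powerset, ∑ x ∈ Ico s (s + M), g x * (c E * ∏ p ∈ E, ph h p x) ≤
      (if E = ∅ then M * avg d g * c ∅ else 0) + |c E| * (2 * d * ξ ^ 2) := by
    intro E hE
    have hE := mem_powerset.1 hE
    have a := ca E (fun p hp => (hQ p (hE hp)).1) hd (fun p hp => hc p (hE hp)) g (fun p x => ph h p x) pg bg
      (fun p _ x => ph_per h p x) (fun p hp x => ph_abs h (hQ p (hE hp)).2 x) s M
    have e : (if E = ∅ then M * avg d g * c ∅ else 0) =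
        c E * (M * (avg d g * ∏ p ∈ E, avg p fun x => ph h p x)) := by
      split_ifs with h0
      · subst h0; simp; ring
      · obtain ⟨p, hp⟩ := nonempty_iff_ne_empty.2 h0
        have := avg_ph h (hQ p (hE hp)).2 0
        simp only [sub_zero] at this
        rw [prod_eq_zero hp this]; ring
    rw [e, sum_congr rfl fun x _ => mul_left_comm _ _ _, ← mul_sum, ← sub_le_iff_le_add', ← mul_sub]
    refine (le_abs_self _).trans ?_
    rw [abs_mul]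
    by_cases h0 : c E = 0
    · simp [h0]
    · refine mul_le_mul_of_nonneg_left (a.trans ?_) (abs_nonneg _)
      have := mul_le_mul_of_nonneg_left (c2 E hE h0) (show (0 : ℝ) ≤ 2 * d by positivity)
      linarith
  refine (sum_le_sum key).trans ?_
  rw [sum_add_distrib, sum_ite_eq' _ ∅, if_pos (empty_mem_powerset _), ← sum_mul]
  have := mul_le_mul_of_nonneg_right hs (show (0 : ℝ) ≤ 2 * d * ξ ^ 2 by positivity)
  linarith

lemma avg_one : avg 1 (fun _ => (1 : ℝ)) = 1 := by simp [avg]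

lemma corr (P : Finset ℕ) (hP : ∀ p ∈ P, p.Prime ∧ 3 ≤ p) (h : ℕ → ℤ) {E E' : Finset ℕ} (hE : E ⊆ P)
    (hE' : E' ⊆ P) {ξ : ℝ} (h1 : ∏ p ∈ E, (p : ℝ) ≤ ξ ^ 2) (h2 : ∏ p ∈ E', (p : ℝ) ≤ ξ ^ 2) (b b' : ℤ) (N : ℕ) :
    |∑ a ∈ Ico (0 : ℤ) N, (∏ p ∈ E, ph h p (a - b)) * ∏ p ∈ E', ph h p (a - b')| ≤
      (if E' = E then N * ∏ p ∈ E, uu p b b' else 0) + 2 * ξ ^ 4 := by
  have hU : E ∪ E' ⊆ P := union_subset hE hE'
  set f : ℕ → ℤ → ℝ := fun p a => (if p ∈ E then ph h p (a - b) else 1) * if p ∈ E' then ph h p (a - b') else 1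
    with hf
  have a := ca (E ∪ E') (fun p hp => (hP p (hU hp)).1) Nat.one_pos
    (fun p hp e => (hP p (hU hp)).1.one_lt.ne' (Nat.dvd_one.1 e)) (fun _ => 1) f (fun _ => rfl) (by simp)
    (fun p _ x => by simp only [hf, add_sub_right_comm, ph_per])
    (fun p hp x => by
      have := ph_abs h (hP p (hU hp)).2
      rw [hf, abs_mul]
      refine mul_le_one₀ ?_ (abs_nonneg _) ?_ <;> split_ifs <;> simp [this]) 0 N
  have e : ∀ x, (∏ p ∈ E, ph h p (x - b)) * ∏ p ∈ E', ph h p (x - b') = 1 * ∏ p ∈ E ∪ E', f p x := by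
    intro x
    rw [one_mul, SV1x.prod_sub (T := E) (subset_union_left (s₂ := E')),
      SV1x.prod_sub (T := E') (subset_union_right (s₁ := E)), ← prod_mul_distrib]
  rw [zero_add, avg_one, one_mul, Nat.cast_one, one_mul] at a
  rw [sum_congr rfl fun x _ => e x]
  have b1 : ∏ p ∈ E ∪ E', (p : ℝ) ≤ ξ ^ 4 := by
    have : ∏ p ∈ E' \ E, (p : ℝ) ≤ ∏ p ∈ E', (p : ℝ) :=
      prod_le_prod_of_subset_of_one_le sdiff_subset (fun _ _ => by positivity)
        fun p hp _ => by exact_mod_cast (hP p (hE' hp)).1.one_le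
    rw [← union_sdiff_self_eq_union, prod_union disjoint_sdiff, show ξ ^ 4 = ξ ^ 2 * ξ ^ 2 by ring]
    exact mul_le_mul h1 (this.trans h2) (prod_nonneg fun _ _ => by positivity) (sq_nonneg _)
  have b2 : |N * ∏ p ∈ E ∪ E', avg p (f p)| ≤ if E' = E then N * ∏ p ∈ E, uu p b b' else 0 := by
    split_ifs with h0
    · subst h0
      rw [union_self, abs_mul, abs_prod, Nat.abs_cast]
      refine mul_le_mul_of_nonneg_left (prod_le_prod (fun _ _ => abs_nonneg _) fun p hp => ?_) (by positivity)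
      simpa only [hf, if_pos hp] using avg_ph2 h (hP p (hE hp)).2 b b'
    · obtain ⟨p, hp⟩ : ∃ p, ¬ (p ∈ E' ↔ p ∈ E) := not_forall.1 fun h => h0 (Finset.ext h)
      by_cases h3 : p ∈ E
      · have h4 : p ∉ E' := fun h => hp (iff_of_true h h3)
        rw [prod_eq_zero (mem_union_left _ h3), mul_zero, abs_zero]
        simpa only [hf, if_pos h3, if_neg h4, mul_one] using avg_ph h (hP p (hE h3)).2 b
      · have h4 : p ∈ E' := not_not.1 fun h => hp (iff_of_false h h3)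
        rw [prod_eq_zero (mem_union_right _ h4), mul_zero, abs_zero]
        simpa only [hf, if_pos h4, if_neg h3, one_mul] using avg_ph h (hP p (hE' h4)).2 b'
  have := abs_sub_abs_le_abs_sub (∑ x ∈ Ico (0 : ℤ) N, 1 * ∏ p ∈ E ∪ E', f p x) (N * ∏ p ∈ E ∪ E', avg p (f p))
  linarith

lemma uu_bd {p : ℕ} (hp : 3 ≤ p) (b x : ℤ) : 0 ≤ uu p b x ∧ uu p b x ≤ 1 := by
  obtain ⟨h0, h1, -⟩ := hh_half hp
  obtain ⟨h2, h3⟩ := ind_bd p b x
  unfold uu
  constructor <;> nlinarith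

lemma usum {E : Finset ℕ} (hE : ∀ p ∈ E, p.Prime ∧ 3 ≤ p) {ξ : ℝ} (h1 : ∏ p ∈ E, (p : ℝ) ≤ ξ ^ 2)
    (b : ℤ) (N : ℕ) :
    ∑ x ∈ Ico (0 : ℤ) N, ∏ p ∈ E, uu p b x ≤ N * ∏ p ∈ E, (2 * hh p ^ 2) + 2 * ξ ^ 2 := by
  have a := ca E (fun p hp => (hE p hp).1) Nat.one_pos
    (fun p hp e => (hE p hp).1.one_lt.ne' (Nat.dvd_one.1 e)) (fun _ => 1) (fun p x => uu p b x)
    (fun _ => rfl) (by simp) (fun p _ x => by simp only [uu, ind_per])
    (fun p hp x => by rw [abs_of_nonneg (uu_bd (hE p hp).2 b x).1]; exact (uu_bd (hE p hp).2 b x).2) 0 N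
  simp only [zero_add, avg_one, one_mul, Nat.cast_one] at a
  have b2 : ∏ p ∈ E, avg p (fun x => uu p b x) ≤ ∏ p ∈ E, (2 * hh p ^ 2) := by
    have e : ∀ p ∈ E, avg p (fun x => uu p b x) = hh p ^ 2 + hh p * (p : ℝ)⁻¹ := fun p hp => by
      rw [avg3 (hE p hp).1.pos (hh p ^ 2) (hh p) 0 b b fun x => by unfold uu; ring]
      ring
    refine prod_le_prod (fun p hp => ?_) fun p hp => ?_
    · have := (hh_half (hE p hp).2).1
      rw [e p hp]; positivity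
    · obtain ⟨h0, -, -, -, h4⟩ := hh_half (hE p hp).2
      rw [e p hp]; nlinarith
  have := mul_le_mul_of_nonneg_left b2 (Nat.cast_nonneg N)
  linarith [(abs_le.1 a).2]

lemma card_le {A : Finset ℤ} {N : ℕ} (hA : A ⊆ Ico (0 : ℤ) N) : (A.card : ℝ) ≤ N := by
  have := card_le_card hA
  rw [Int.card_Ico] at this
  simp only [sub_zero, Int.toNat_natCast] at this
  exact_mod_cast this

lemma bil (P : Finset ℕ) (hP : ∀ p ∈ P, p.Prime ∧ 3 ≤ p) (h : ℕ → ℤ) (c : Finset ℕ → ℝ) {ξ H X τ : ℝ}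
    (hξ : 1 ≤ ξ) (h1 : ∀ E ⊆ P, |c E| ≤ 3 ^ E.card * H) (h2 : ∀ E ⊆ P, c E ≠ 0 → ∏ p ∈ E, (p : ℝ) ≤ ξ ^ 2)
    (hX : ∑ E ∈ P.powerset, |c E| ≤ X) (hτ : ∏ p ∈ P, (1 + 18 * hh p ^ 2) ≤ 1 + τ) {N : ℕ} {A B : Finset ℤ}
    (hA : A ⊆ Ico (0 : ℤ) N) (hB : B ⊆ Ico (0 : ℤ) N) :
    (∑ a ∈ A, ∑ b ∈ B, ∑ E ∈ P.powerset.erase ∅, c E * ∏ p ∈ E, ph h p (a - b)) ^ 2 ≤
      N ^ 4 * H ^ 2 * τ + 4 * N ^ 3 * ξ ^ 4 * X ^ 2 := by
  set S := P.powerset.erase ∅ with hS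
  have sub : ∀ E ∈ S, E ⊆ P := fun E hE => mem_powerset.1 (mem_of_mem_erase hE)
  have hX' : ∑ E ∈ S, |c E| ≤ X :=
    le_trans (sum_le_sum_of_subset_of_nonneg (erase_subset _ _) fun _ _ _ => abs_nonneg _) hX
  have hX2 : (∑ E ∈ S, |c E|) ^ 2 ≤ X ^ 2 := pow_le_pow_left₀ (sum_nonneg fun _ _ => abs_nonneg _) hX' 2
  have hX3 : ∑ E ∈ S, c E ^ 2 ≤ X ^ 2 := by
    refine le_trans ?_ hX2
    rw [sq, sum_mul]
    refine sum_le_sum fun E hE => ?_
    rw [← sq_abs, sq]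
    exact mul_le_mul_of_nonneg_left (single_le_sum (f := fun E => |c E|) (fun _ _ => abs_nonneg _) hE) (abs_nonneg _)
  have hN : (0 : ℝ) ≤ N := Nat.cast_nonneg N
  have hx4 : ξ ^ 2 ≤ ξ ^ 4 := pow_le_pow_right₀ hξ (by norm_num)
  have hT : ∑ E ∈ S, c E ^ 2 * ∏ p ∈ E, (2 * hh p ^ 2) ≤ H ^ 2 * τ := by
    have e : ∑ E ∈ S, ∏ p ∈ E, (18 * hh p ^ 2) ≤ τ := by
      rw [prod_one_add, ← add_sum_erase _ _ (empty_mem_powerset P), prod_empty] at hτ
      linarith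
    refine le_trans ?_ (mul_le_mul_of_nonneg_left e (sq_nonneg H))
    rw [mul_sum]
    refine sum_le_sum fun E hE => ?_
    have a := pow_le_pow_left₀ (abs_nonneg _) (h1 E (sub E hE)) 2
    rw [sq_abs] at a
    refine (mul_le_mul_of_nonneg_right a (prod_nonneg fun _ _ => by positivity)).trans (le_of_eq ?_)
    have : ∏ p ∈ E, (18 * hh p ^ 2) = (3 ^ E.card) ^ 2 * ∏ p ∈ E, (2 * hh p ^ 2) := by
      rw [← pow_mul, mul_comm E.card, pow_mul, ← prod_const, ← prod_mul_distrib]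
      exact prod_congr rfl fun _ _ => by ring
    rw [this]; ring
  set F : ℤ → ℝ := fun x => ∑ E ∈ S, c E * ∏ p ∈ E, ph h p x with hF
  have k1 : ∀ b b', ∑ a ∈ Ico (0 : ℤ) N, F (a - b) * F (a - b') ≤
      N * ∑ E ∈ S, c E ^ 2 * ∏ p ∈ E, uu p b b' + 2 * ξ ^ 4 * X ^ 2 := by
    intro b b'
    simp only [hF, sum_mul_sum]
    rw [sum_comm, sum_congr rfl fun E _ => sum_comm]
    have k : ∀ E ∈ S, ∀ E' ∈ S, ∑ a ∈ Ico (0 : ℤ) N, (c E * ∏ p ∈ E, ph h p (a - b)) *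
        (c E' * ∏ p ∈ E', ph h p (a - b')) ≤
        (if E' = E then N * (c E ^ 2 * ∏ p ∈ E, uu p b b') else 0) + 2 * ξ ^ 4 * (|c E| * |c E'|) := by
      intro E hE E' hE'
      rw [sum_congr rfl fun a _ => mul_mul_mul_comm _ _ _ _, ← mul_sum]
      by_cases z1 : c E = 0
      · simp [z1]
      by_cases z2 : c E' = 0
      · have : E' ≠ E := fun e => z1 (e ▸ z2)
        simp [z2, this]
      have a := corr P hP h (sub E hE) (sub E' hE') (h2 E (sub E hE) z1) (h2 E' (sub E' hE') z2) b b' N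
      refine (le_abs_self _).trans ?_
      rw [abs_mul, abs_mul]
      refine (mul_le_mul_of_nonneg_left a (by positivity)).trans (le_of_eq ?_)
      split_ifs with e
      · subst e
        rw [← sq_abs (c E')]; ring
      · ring
    refine (sum_le_sum fun E hE => sum_le_sum fun E' hE' => k E hE E' hE').trans ?_
    simp only [sum_add_distrib, ← mul_sum]
    rw [sum_congr rfl fun E hE => by rw [sum_ite_eq' S E, if_pos hE], ← mul_sum, ← sum_mul, ← sq]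
    have := mul_le_mul_of_nonneg_left hX2 (show 0 ≤ 2 * ξ ^ 4 by positivity)
    linarith
  have k2 : ∀ b, ∑ b' ∈ B, ∑ a ∈ Ico (0 : ℤ) N, F (a - b) * F (a - b') ≤
      N ^ 2 * H ^ 2 * τ + 4 * N * ξ ^ 4 * X ^ 2 := by
    intro b
    refine (sum_le_sum fun b' _ => k1 b b').trans ?_
    rw [sum_add_distrib, ← mul_sum, sum_comm, sum_const, nsmul_eq_mul]
    have k : ∀ E ∈ S, ∑ b' ∈ B, c E ^ 2 * ∏ p ∈ E, uu p b b' ≤
        N * (c E ^ 2 * ∏ p ∈ E, (2 * hh p ^ 2)) + 2 * ξ ^ 4 * c E ^ 2 := by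
      intro E hE
      by_cases z1 : c E = 0
      · simp [z1]
      have hE3 := fun p hp => hP p (sub E hE hp)
      have a := usum hE3 (h2 E (sub E hE) z1) b N
      have a2 : ∑ b' ∈ B, ∏ p ∈ E, uu p b b' ≤ ∑ x ∈ Ico (0 : ℤ) N, ∏ p ∈ E, uu p b x :=
        sum_le_sum_of_subset_of_nonneg hB fun x _ _ => prod_nonneg fun p hp => (uu_bd (hE3 p hp).2 b x).1
      rw [← mul_sum]
      have := mul_le_mul_of_nonneg_left (a2.trans (a.trans (add_le_add_right (mul_le_mul_of_nonneg_left hx4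
        (by norm_num : (0 : ℝ) ≤ 2)) _))) (sq_nonneg (c E))
      linarith
    have a1 := sum_le_sum k
    rw [sum_add_distrib, ← mul_sum, ← mul_sum] at a1
    have a2 := mul_le_mul_of_nonneg_left hT hN
    have a3 := mul_le_mul_of_nonneg_left hX3 (show 0 ≤ 2 * ξ ^ 4 by positivity)
    have a4 := mul_le_mul_of_nonneg_left (a1.trans (add_le_add a2 a3)) hN
    have a5 := mul_le_mul_of_nonneg_right (card_le hB) (show 0 ≤ 2 * ξ ^ 4 * X ^ 2 by positivity)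
    linarith
  have hτ0 : 0 ≤ H ^ 2 * τ :=
    le_trans (sum_nonneg fun E _ => mul_nonneg (sq_nonneg _) (prod_nonneg fun _ _ => by positivity)) hT
  have k3 : ∑ a ∈ A, (∑ b ∈ B, F (a - b)) ^ 2 ≤ N * (N ^ 2 * H ^ 2 * τ + 4 * N * ξ ^ 4 * X ^ 2) := by
    refine (sum_le_sum_of_subset_of_nonneg hA fun _ _ _ => sq_nonneg _).trans ?_
    simp only [sq (∑ b ∈ B, F (_ - b)), sum_mul_sum]
    rw [sum_comm, sum_congr rfl fun b _ => sum_comm]
    refine (sum_le_card_nsmul _ _ _ fun b _ => k2 b).trans ?_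
    rw [nsmul_eq_mul]
    refine mul_le_mul_of_nonneg_right (card_le hB) ?_
    rw [mul_assoc]
    positivity
  have k4 := sq_sum_le_card_mul_sum_sq (s := A) (f := fun a => ∑ b ∈ B, F (a - b))
  have k5 := mul_le_mul (card_le hA) k3 (sum_nonneg fun _ _ => sq_nonneg _) hN
  calc _ ≤ _ := k4.trans k5
    _ = _ := by ring

end SVx

end Pool.Agent.Lib.MP_ad7336_sd
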