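import Pool.Agent.Lib.MP_ad7336_sd.CR
import Pool.Agent.Lib.MP_ad7336_sd.RK
import Pool.Agent.Lib.MP_ad7336_sd.FL

set_option autoImplicit false

namespace Pool.Agent.Lib.MP_ad7336_sd

open Finset Filter
open Pool.Agent.Lib.MP_ad7336_co (DD IQ)
open scoped Classical

namespace UAx

theorem lin {c : ℝ} (hc : 0 < c) (M : ℝ) : ∃ n₀ : ℕ, ∀ n : ℕ, n₀ ≤ n → ∀ D : ℝ, c * n ≤ D →
    M * n ≤ D * √(Real.log n) := by
  refine ⟨⌈Real.exp ((M / c) ^ 2)⌉₊, fun n hn D hD => ?_⟩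
  have h1 : Real.exp ((M / c) ^ 2) ≤ n := (Nat.le_ceil _).trans (by exact_mod_cast hn)
  have h0 : (0 : ℝ) < n := (Real.exp_pos _).trans_le h1
  have h2 : (M / c) ^ 2 ≤ Real.log n := (Real.le_log_iff_exp_le h0).2 h1
  have h3 : M / c ≤ √(Real.log n) := Real.le_sqrt_of_sq_le h2
  have h4 : M ≤ c * √(Real.log n) := by rwa [div_le_iff₀ hc, mul_comm] at h3
  have h5 := Real.sqrt_nonneg (Real.log n)
  calc M * n ≤ c * √(Real.log n) * n := mul_le_mul_of_nonneg_right h4 h0.le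
    _ = c * n * √(Real.log n) := by ring
    _ ≤ _ := mul_le_mul_of_nonneg_right hD h5

theorem dsq (τ u v : ℂ) (x y : ℤ × ℤ) :
    dist (τ + x.1 * u + x.2 * v) (τ + y.1 * u + y.2 * v) ^ 2 =
      Complex.normSq u * ((x.1 - y.1 : ℤ) : ℝ) ^ 2 +
        2 * (u * (starRingEnd ℂ) v).re * ((x.1 - y.1 : ℤ) : ℝ) * ((x.2 - y.2 : ℤ) : ℝ) +
        Complex.normSq v * ((x.2 - y.2 : ℤ) : ℝ) ^ 2 := by
  rw [Complex.dist_eq, ← Complex.normSq_eq_norm_sq]
  simp [Complex.normSq_apply]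
  ring

theorem posdef {α β γ x y : ℝ} (hα : 0 < α) (h : β ^ 2 < 4 * α * γ)
    (e : α * x ^ 2 + β * x * y + γ * y ^ 2 = 0) : x = 0 ∧ y = 0 := by
  have h1 : (2 * α * x + β * y) ^ 2 + (4 * α * γ - β ^ 2) * y ^ 2 = 0 := by
    linear_combination 4 * α * e
  have hy : y = 0 := by
    by_contra hy
    have := mul_pos (sub_pos.2 h) (pow_pos (abs_pos.2 hy) 2)
    rw [sq_abs] at this
    nlinarith [sq_nonneg (2 * α * x + β * y)]
  subst hy
  refine ⟨?_, rfl⟩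
  have : α * x ^ 2 = 0 := by linarith
  exact pow_eq_zero_iff two_ne_zero |>.1 ((mul_eq_zero.1 this).resolve_left hα.ne')

theorem few {Q : Finset ℂ} {u v τ : ℂ} {N₁ N₂ H : ℕ} {X : Finset (ℤ × ℤ)}
    (hα : 0 < Complex.normSq u)
    (hD : (2 * (u * (starRingEnd ℂ) v).re) ^ 2 < 4 * Complex.normSq u * Complex.normSq v)
    (hX : X ⊆ Ico (0 : ℤ) N₁ ×ˢ Ico (0 : ℤ) N₂) (hQ : ∀ x ∈ X, τ + x.1 * u + x.2 * v ∈ Q)
    (h1 : N₁ ≤ H) (h2 : N₂ ≤ H)
    (h : ∀ (m : ℝ) (S : Finset (ℤ × ℤ)), (∀ w ∈ S, |w.1| ≤ H ∧ |w.2| ≤ H ∧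
      Complex.normSq u * w.1 ^ 2 + 2 * (u * (starRingEnd ℂ) v).re * w.1 * w.2 +
        Complex.normSq v * w.2 ^ 2 = m) → S.card ≤ 4) : X.card ≤ 4 * DD Q + 1 := by
  rcases X.eq_empty_or_nonempty with rfl | ⟨o, ho⟩
  · simp
  set φ : ℤ × ℤ → ℂ := fun x => τ + x.1 * u + x.2 * v with hφ
  have inj : Function.Injective φ := fun x y e => by
    have := dsq τ u v x y
    rw [show τ + x.1 * u + x.2 * v = φ x from rfl, show τ + y.1 * u + y.2 * v = φ y from rfl, e,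
      dist_self] at this
    obtain ⟨e1, e2⟩ := posdef hα hD (by rw [← this]; ring)
    have e1 : x.1 - y.1 = 0 := by exact_mod_cast e1
    have e2 : x.2 - y.2 = 0 := by exact_mod_cast e2
    exact Prod.ext (by omega) (by omega)
  have key := MP_ad7336_co.Red.count (P := Q) (Q := (X.erase o).image φ) (o := φ o) (hQ o ho)
    (fun q hq => by
      obtain ⟨x, hx, rfl⟩ := mem_image.1 hq
      exact ⟨hQ x (mem_erase.1 hx).2, fun e => (mem_erase.1 hx).1 (inj e).symm⟩) (k := 4) (fun d => by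
      rw [filter_image, card_image_of_injective _ inj,
        ← card_image_of_injective _ (f := fun x : ℤ × ℤ => (o.1 - x.1, o.2 - x.2)) (fun x y e => by
          obtain ⟨e1, e2⟩ := Prod.mk.inj e
          exact Prod.ext (by omega) (by omega))]
      refine h (d ^ 2) _ fun w hw => ?_
      obtain ⟨x, hx, rfl⟩ := mem_image.1 hw
      obtain ⟨hx, e⟩ := mem_filter.1 hx
      have a1 := mem_product.1 (hX (mem_erase.1 hx).2)
      have a2 := mem_product.1 (hX ho)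
      simp only [mem_Ico] at a1 a2
      refine ⟨abs_le.2 ⟨by simp only; omega, by simp only; omega⟩,
        abs_le.2 ⟨by simp only; omega, by simp only; omega⟩, ?_⟩
      rw [← e]
      exact (dsq τ u v o x).symm)
  rw [card_image_of_injective _ inj, card_erase_of_mem ho] at key
  omega

theorem vals {Q : Finset ℂ} {u v τ : ℂ} {X : Finset (ℤ × ℤ)} {a b c : ℤ} {l : ℝ} (hl : 0 < l)
    (ha : Complex.normSq u = l * a) (hb : 2 * (u * (starRingEnd ℂ) v).re = l * b)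
    (hc : Complex.normSq v = l * c) (hQ : ∀ x ∈ X, τ + x.1 * u + x.2 * v ∈ Q) {V : Finset ℤ}
    (hV : ∀ m ∈ V, ∃ x ∈ X, ∃ y ∈ X, m = qf a b c (x.1 - y.1) (x.2 - y.2)) :
    (V.erase 0).card ≤ DD Q := by
  refine dd_ge hl fun m hm => ⟨(mem_erase.1 hm).1, ?_⟩
  obtain ⟨x, hx, y, hy, rfl⟩ := hV m (mem_erase.1 hm).2
  refine ⟨_, hQ x hx, _, hQ y hy, ?_⟩
  rw [dsq, ha, hb, hc]
  unfold qf
  push_cast
  ring

theorem exmax (p : ℕ → Prop) {m B : ℕ} (hm : p m) (hB : ∀ n, p n → n ≤ B) :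
    ∃ n, m ≤ n ∧ p n ∧ ¬ p (n + 1) := by
  refine ⟨Nat.findGreatest p B, Nat.le_findGreatest (hB m hm) hm,
    Nat.findGreatest_spec (hB m hm) hm, fun h => ?_⟩
  have := Nat.le_findGreatest (hB _ h) h
  omega

theorem succ_pow {z k : ℕ} (hz : 2 ≤ z) : (z + 1) ^ k ≤ z ^ (2 * k) := by
  rw [pow_mul]
  exact Nat.pow_le_pow_left (by nlinarith) k

theorem qf_lt {a b c i j : ℤ} {H N₁ N₂ B : ℕ} (hB : 2 ≤ B) (hH : H ≤ B) (h1 : N₁ ≤ B) (h2 : N₂ ≤ B)
    (ha : |a| ≤ 8 * H ^ 4) (hb : |b| ≤ 8 * H ^ 4) (hc : |c| ≤ 8 * H ^ 4) (hi : |i| < N₁)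
    (hj : |j| < N₂) : qf a b c i j < (B : ℤ) ^ 11 := by
  have hB' : (2 : ℤ) ≤ B := by exact_mod_cast hB
  have hH' : (H : ℤ) ^ 4 ≤ (B : ℤ) ^ 4 := by exact_mod_cast Nat.pow_le_pow_left hH 4
  have hi' : |i| ≤ B := by omega
  have hj' : |j| ≤ B := by omega
  have e1 : a * i ^ 2 ≤ 8 * (B : ℤ) ^ 4 * (B * B) := by
    refine (le_abs_self _).trans ?_
    rw [abs_mul, sq, abs_mul]
    gcongr
    linarith
  have e2 : b * i * j ≤ 8 * (B : ℤ) ^ 4 * (B * B) := by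
    refine (le_abs_self _).trans ?_
    rw [mul_assoc, abs_mul, abs_mul]
    gcongr
    linarith
  have e3 : c * j ^ 2 ≤ 8 * (B : ℤ) ^ 4 * (B * B) := by
    refine (le_abs_self _).trans ?_
    rw [abs_mul, sq, abs_mul]
    gcongr
    linarith
  have e4 : (2 : ℤ) ^ 5 ≤ (B : ℤ) ^ 5 := pow_le_pow_left₀ (by norm_num) hB' 5
  have e5 : (0 : ℤ) < (B : ℤ) ^ 6 := by positivity
  unfold qf
  nlinarith

theorem disc_le {a b c : ℤ} {H B : ℕ} (hB : 2 ≤ B) (hH : H ≤ B)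
    (ha : |a| ≤ 8 * H ^ 4) (hc : |c| ≤ 8 * H ^ 4) : 4 * a * c - b ^ 2 ≤ (B : ℤ) ^ 16 := by
  have hB' : (2 : ℤ) ≤ B := by exact_mod_cast hB
  have hH' : (H : ℤ) ^ 4 ≤ (B : ℤ) ^ 4 := by exact_mod_cast Nat.pow_le_pow_left hH 4
  have e1 : a * c ≤ (8 * (B : ℤ) ^ 4) * (8 * (B : ℤ) ^ 4) := by
    refine (le_abs_self _).trans ?_
    rw [abs_mul]
    gcongr <;> linarith
  have e4 : (2 : ℤ) ^ 8 ≤ (B : ℤ) ^ 8 := pow_le_pow_left₀ (by norm_num) hB' 8
  have e5 : (0 : ℤ) < (B : ℤ) ^ 8 := by positivity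
  nlinarith [sq_nonneg b]

theorem small {a b c N₁ N₂ G C n : ℤ} (ha0 : 0 < a) (hc0 : 0 < c) (hdisc : b ^ 2 < 4 * a * c)
    (hN1 : 0 < N₁) (hN2 : 0 < N₂) (hG0 : 0 ≤ G) (hC0 : 0 ≤ C) (hnZ : 0 ≤ n)
    (s1 : a * N₁ ^ 2 ≤ c * N₂ ^ 2) (k4 : c * N₂ < G * N₁) (hCZ : N₁ * N₂ ≤ C * n) :
    a ≤ G * G + 2 * G + G * C ∧ |b| ≤ G * G + 2 * G + G * C ∧ |c| ≤ G * G + 2 * G + G * C ∧
      N₁ ^ 2 ≤ (G * G + 2 * G + G * C) * n ∧ N₂ ^ 2 ≤ (G * G + 2 * G + G * C) * n := by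
  have s2 : c * N₂ ^ 2 ≤ G * (N₁ * N₂) := by nlinarith
  have s3 : a * N₁ ≤ G * N₂ := by
    refine le_of_mul_le_mul_right (a := N₁) ?_ hN1
    nlinarith
  have s4 : a * c ≤ G * G := by
    refine le_of_mul_le_mul_right (a := N₁ * N₂) ?_ (by positivity)
    have := mul_le_mul s3 k4.le (by positivity) (by positivity)
    nlinarith
  have s5 : |b| ≤ 2 * G := abs_le_of_sq_le_sq' (by nlinarith) (by positivity) |> abs_le.2
  have s6 : G * (N₁ * N₂) ≤ (G * G + 2 * G + G * C) * n := by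
    nlinarith [mul_le_mul_of_nonneg_left hCZ hG0, mul_nonneg hG0 hnZ,
      mul_nonneg (mul_nonneg hG0 hG0) hnZ]
  have hGC : 0 ≤ G * C := mul_nonneg hG0 hC0
  have hGG : 0 ≤ G * G := mul_nonneg hG0 hG0
  refine ⟨by nlinarith, by linarith, ?_, ?_, ?_⟩
  · rw [abs_of_pos hc0]; nlinarith
  · nlinarith [sq_nonneg N₁]
  · nlinarith [sq_nonneg N₂]

end UAx

open UAx

set_option maxHeartbeats 2000000 in
theorem caseA (t C : ℕ) (M : ℝ) : ∃ S n₀ : ℕ, ∀ (Q : Finset ℂ) (u v τ : ℂ) (N₁ N₂ : ℕ)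
    (X : Finset (ℤ × ℤ)), n₀ ≤ Q.card → (u * (starRingEnd ℂ) v).im ≠ 0 →
    X ⊆ Ico (0 : ℤ) N₁ ×ˢ Ico (0 : ℤ) N₂ → (∀ x ∈ X, τ + x.1 * u + x.2 * v ∈ Q) →
    Q.card ≤ t * X.card → N₁ * N₂ ≤ C * Q.card → ‖u‖ * N₁ ≤ ‖v‖ * N₂ →
    M * Q.card ≤ DD Q * √(Real.log Q.card) ∨
    ∃ a b c : ℤ, 0 < a ∧ a ≤ S ∧ |b| ≤ S ∧ |c| ≤ S ∧ 2 * (v / u).re * a = b ∧
      Complex.normSq (v / u) * a = c ∧ N₁ ^ 2 ≤ S * Q.card ∧ N₂ ^ 2 ≤ S * Q.card := by
  have hδ : (0 : ℝ) < 1 / ((t + 1) * (C + 1)) := by positivity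
  set δ : ℝ := 1 / ((t + 1) * (C + 1)) with hδe
  obtain ⟨K, C₁, hK, hcr⟩ := cr hδ
  obtain ⟨y₀, z₀, hy₀, hcr⟩ := hcr (66 * K) (4 * C₁ + 4 + 1536 * K) (|M| * t)
  obtain ⟨B₀, hfl⟩ := fl 16 hδ
  obtain ⟨n₁, hn₁⟩ := lin (c := δ / (8 * (t + 1))) (by positivity) M
  set G := y₀ ^ (5 * C₁) with hG
  set Z := z₀ + y₀ ^ 8 + y₀ ^ (4 * C₁) + 2 with hZ
  refine ⟨G * G + 2 * G + G * C, n₁ + C + 2 * t + 1 + t * (B₀ + Z ^ (3 * K) + 2), ?_⟩
  intro Q u v τ N₁ N₂ X hn him hX hQ ht hC huv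
  set n := Q.card with hne
  set B := N₁ * N₂ with hB
  have hXB : X.card ≤ B := by
    refine (card_le_card hX).trans ?_
    simp [hB]
  have ht0 : 0 < t := by
    rcases Nat.eq_zero_or_pos t with rfl | h
    · omega
    · exact h
  have hBig : B₀ + Z ^ (3 * K) + 2 ≤ B := by
    refine Nat.le_of_mul_le_mul_left ?_ ht0
    have := Nat.mul_le_mul_left t hXB
    omega
  have hN₁ : 0 < N₁ := Nat.pos_of_mul_pos_right (by omega : 0 < N₁ * N₂)
  have hN₂ : 0 < N₂ := Nat.pos_of_mul_pos_left (by omega : 0 < N₁ * N₂)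
  have hN₁B : N₁ ≤ B := Nat.le_mul_of_pos_right _ hN₂
  have hN₂B : N₂ ≤ B := Nat.le_mul_of_pos_left _ hN₁
  have hB2 : 2 ≤ B := by omega
  have htR : (n : ℝ) ≤ t * X.card := by exact_mod_cast ht
  have hCR : (B : ℝ) ≤ C * n := by exact_mod_cast hC
  have hXBR : (X.card : ℝ) ≤ B := by exact_mod_cast hXB
  have hX0 : (0 : ℝ) ≤ X.card := Nat.cast_nonneg _
  have hn0 : (0 : ℝ) ≤ n := Nat.cast_nonneg _
  have ht1 : (0 : ℝ) ≤ t := Nat.cast_nonneg _
  have hC1 : (0 : ℝ) ≤ C := Nat.cast_nonneg _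
  have hδX : δ * B ≤ X.card := by
    rw [hδe, div_mul_eq_mul_div, one_mul, div_le_iff₀ (by positivity)]
    nlinarith [mul_le_mul_of_nonneg_left htR hC1, mul_nonneg ht1 hX0, mul_nonneg hC1 hX0]
  have hδ1 : δ ≤ 1 := by
    rw [hδe, div_le_one (by positivity)]
    nlinarith [mul_nonneg ht1 hC1]
  have linear : δ * B ≤ 8 * DD Q → M * n ≤ DD Q * √(Real.log n) := fun h => by
    refine hn₁ n (by omega) _ ?_
    rw [div_mul_eq_mul_div, div_le_iff₀ (by positivity)]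
    have : (n : ℝ) ≤ (t + 1) * B := by nlinarith [mul_le_mul_of_nonneg_left hXBR ht1]
    nlinarith [mul_le_mul_of_nonneg_left this hδ.le, mul_le_mul_of_nonneg_left h (by positivity : (0 : ℝ) ≤ t + 1)]
  have hD : (2 * (u * (starRingEnd ℂ) v).re) ^ 2 < 4 * Complex.normSq u * Complex.normSq v := by
    have e : 4 * Complex.normSq u * Complex.normSq v - (2 * (u * (starRingEnd ℂ) v).re) ^ 2 =
        4 * (u * (starRingEnd ℂ) v).im ^ 2 := by
      simp [Complex.normSq_apply]; ring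
    have := pow_pos (abs_pos.2 him) 2
    rw [sq_abs] at this
    linarith
  have hu : u ≠ 0 := by rintro rfl; simp at him
  have hα : 0 < Complex.normSq u := Complex.normSq_pos.2 hu
  rcases r0 hα hD (max N₁ N₂) with h | ⟨a, b, c, l, hl, ha, hb, hc, hcop, ha', hb', hc'⟩
  · left
    have h1 := few hα hD hX hQ (le_max_left _ _) (le_max_right _ _) h
    have h2 : 2 ≤ X.card := by
      by_contra h2
      have : t * X.card ≤ t * 1 := Nat.mul_le_mul_left t (by omega)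
      omega
    have h3 : X.card ≤ 8 * DD Q := by omega
    exact linear (hδX.trans (by exact_mod_cast h3))
  have hH : max N₁ N₂ ≤ B := max_le hN₁B hN₂B
  have ha0 : 0 < a := by
    have : (0 : ℝ) < a := pos_of_mul_pos_left (by rw [mul_comm, ← ha]; exact hα) hl.le
    exact_mod_cast this
  have hdisc : b ^ 2 < 4 * a * c := by
    rw [ha, hb, hc] at hD
    have : (b : ℝ) ^ 2 < 4 * a * c := by
      refine lt_of_mul_lt_mul_left (a := l ^ 2) ?_ (sq_nonneg l)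
      nlinarith
    exact_mod_cast this
  have hc0 : 0 < c := by nlinarith [sq_nonneg b]
  have hΔ := disc_le (b := b) hB2 hH ha' hc'
  obtain ⟨o, ho⟩ : X.Nonempty := by
    rw [← card_pos]
    by_contra h2
    have : t * X.card = 0 := by rw [show X.card = 0 by omega]; simp
    omega
  have hbox : ∀ x ∈ X, (0 ≤ x.1 ∧ x.1 < N₁) ∧ 0 ≤ x.2 ∧ x.2 < N₂ := fun x hx => by
    simpa only [mem_Ico] using mem_product.1 (hX hx)
  by_cases k1 : N₁ ^ 3 ≤ B
  · left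
    have h1 := hfl a b c B N₁ (X.image fun x => (x.1 - o.1, x.2 - o.2)) hc0 hdisc (by omega) k1 hΔ
      (fun w hw => by
        obtain ⟨x, hx, rfl⟩ := mem_image.1 hw
        have := hbox x hx
        have := hbox o ho
        exact abs_lt.2 ⟨by simp only; omega, by simp only; omega⟩)
      (by
        rw [card_image_of_injective _ fun x y e => by
          obtain ⟨e1, e2⟩ := Prod.mk.inj e
          exact Prod.ext (by omega) (by omega)]
        exact hδX)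
    refine linear (h1.trans ?_)
    have := vals hl ha hb hc hQ
      (V := (X.image fun x => (x.1 - o.1, x.2 - o.2)).image fun w => qf a b c w.1 w.2) fun m hm => by
        obtain ⟨w, hw, rfl⟩ := mem_image.1 hm
        obtain ⟨x, hx, rfl⟩ := mem_image.1 hw
        exact ⟨x, hx, o, ho, rfl⟩
    exact_mod_cast Nat.mul_le_mul_left 8 this
  by_cases k2 : N₂ ^ 3 ≤ B
  · left
    have h1 := hfl c b a B N₂ (X.image fun x => (x.2 - o.2, x.1 - o.1)) ha0 (by linarith) (by omega)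
      k2 (by linarith)
      (fun w hw => by
        obtain ⟨x, hx, rfl⟩ := mem_image.1 hw
        have := hbox x hx
        have := hbox o ho
        exact abs_lt.2 ⟨by simp only; omega, by simp only; omega⟩)
      (by
        rw [card_image_of_injective _ fun x y e => by
          obtain ⟨e1, e2⟩ := Prod.mk.inj e
          exact Prod.ext (by omega) (by omega)]
        exact hδX)
    refine linear (h1.trans ?_)
    have := vals hl ha hb hc hQ
      (V := (X.image fun x => (x.2 - o.2, x.1 - o.1)).image fun w => qf c b a w.1 w.2) fun m hm => by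
        obtain ⟨w, hw, rfl⟩ := mem_image.1 hm
        obtain ⟨x, hx, rfl⟩ := mem_image.1 hw
        exact ⟨x, hx, o, ho, by unfold qf; ring⟩
    exact_mod_cast Nat.mul_le_mul_left 8 this
  obtain ⟨z, hZz, hz, hz'⟩ := exmax (fun z => z ^ (3 * K) ≤ B) (m := Z) (B := B) (by omega)
    fun z h => (Nat.le_self_pow (by omega) z).trans h
  have hz2 : 2 ≤ z := by omega
  have hzB : B ≤ z ^ (6 * K) := by
    have := succ_pow (k := 3 * K) hz2
    rw [show 2 * (3 * K) = 6 * K by ring] at this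
    omega
  have hzBZ : (B : ℤ) ≤ (z : ℤ) ^ (6 * K) := by exact_mod_cast hzB
  have hzN : ∀ N : ℕ, ¬ N ^ 3 ≤ B → z ^ K ≤ N := fun N h => by
    refine (Nat.pow_le_pow_iff_left (n := 3) (by norm_num)).1 ?_
    rw [← pow_mul, mul_comm]
    omega
  have hzn : z ≤ n := by
    refine (Nat.pow_le_pow_iff_left (n := 3) (by norm_num)).1 ?_
    have e1 : z ^ 3 ≤ z ^ (3 * K) := Nat.pow_le_pow_right (by omega) (by omega)
    have e2 : C * n ≤ n * n := Nat.mul_le_mul_right _ (by omega)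
    have e3 : n * n ≤ n ^ 3 := by rw [pow_succ, sq]; exact Nat.le_mul_of_pos_right _ (by omega)
    omega
  have hΔz : 4 * a * c - b ^ 2 ≤ (z : ℤ) ^ (96 * K) := by
    refine hΔ.trans ?_
    rw [show 96 * K = 6 * K * 16 by ring, pow_mul]
    exact pow_le_pow_left₀ (Nat.cast_nonneg _) hzBZ 16
  have main : ∀ y : ℕ, y₀ ≤ y → y ^ 8 ≤ z →
      4 * a * c - b ^ 2 ≤ (y : ℤ) ^ (4 * C₁ + 4 + 1536 * K) →
      ((y : ℤ) ^ (2 * C₁ + 2) ≤ 4 * a * c - b ^ 2 ∨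
        ((y : ℤ) ^ (5 * C₁) * N₁ ≤ c * N₂ ∧ y ^ (4 * C₁) ≤ z)) →
      M * n ≤ DD Q * √(Real.log n) := fun y e1 e2 e3 e4 => by
    have h1 := hcr a b c 0 0 1 N₁ N₂ y z X X ha0 hdisc hcop
      (fun p hp h => hp.one_lt.ne' (by exact_mod_cast Int.eq_one_of_dvd_one (by positivity) h.2.2))
      one_pos (Or.inl rfl) e1 (by omega) e2 (hzN _ k1) (hzN _ k2) e3 hX hX
      (by rw [mul_assoc]; exact_mod_cast hδX) (by rw [mul_assoc]; exact_mod_cast hδX)
      (fun i j hi hj => by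
        simp only [zero_add, one_mul]
        refine (qf_lt hB2 hH hN₁B hN₂B ha' hb' hc' hi hj).trans_le ?_
        rw [show 66 * K = 6 * K * 11 by ring, pow_mul]
        exact pow_le_pow_left₀ (Nat.cast_nonneg _) hzBZ 11)
      (e4.imp_left fun e4 i j i' j' k e d _ _ _ _ hR hd => by
        have f1 := (rot_tr hR hdisc hd).1
        have f2 : (2 : ℤ) ≤ y := by exact_mod_cast hy₀.trans e1
        have f3 : (0 : ℤ) ≤ (y : ℤ) ^ C₁ := by positivity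
        refine (pow_le_pow_iff_left₀ f3 hR.pos.le two_ne_zero).1 ?_
        have f4 : (y : ℤ) ^ (2 * C₁ + 2) = ((y : ℤ) ^ C₁) ^ 2 * y ^ 2 := by ring
        have f5 : (2 : ℤ) ^ 2 ≤ (y : ℤ) ^ 2 := pow_le_pow_left₀ (by norm_num) f2 2
        have f6 := mul_le_mul_of_nonneg_left f5 (sq_nonneg ((y : ℤ) ^ C₁))
        linarith)
    have h2 := vals hl ha hb hc hQ
      (V := (X ×ˢ X).image fun w => qf a b c (0 + 1 * (w.1.1 - w.2.1)) (0 + 1 * (w.1.2 - w.2.2)))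
      fun m hm => by
        obtain ⟨w, hw, rfl⟩ := mem_image.1 hm
        exact ⟨w.1, (mem_product.1 hw).1, w.2, (mem_product.1 hw).2, by simp⟩
    have h3 : √(Real.log z) ≤ √(Real.log n) :=
      Real.sqrt_le_sqrt (Real.log_le_log (by exact_mod_cast (by omega : 0 < z)) (by exact_mod_cast hzn))
    have h4 : (n : ℝ) ≤ t * N₁ * N₂ := by
      have : (B : ℝ) = N₁ * N₂ := by rw [hB]; push_cast; ring
      nlinarith [mul_le_mul_of_nonneg_left hXBR ht1]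
    calc M * n ≤ |M| * n := mul_le_mul_of_nonneg_right (le_abs_self M) hn0
      _ ≤ |M| * (t * N₁ * N₂) := mul_le_mul_of_nonneg_left h4 (abs_nonneg M)
      _ = |M| * t * N₁ * N₂ := by ring
      _ ≤ _ := h1
      _ ≤ _ := mul_le_mul (by exact_mod_cast h2) h3 (Real.sqrt_nonneg _) (Nat.cast_nonneg _)
  by_cases k3 : (y₀ : ℤ) ^ (2 * C₁ + 2) ≤ 4 * a * c - b ^ 2
  · left
    obtain ⟨y, hy, ⟨p1, p2⟩, p3⟩ := exmax
      (fun y => (y : ℤ) ^ (2 * C₁ + 2) ≤ 4 * a * c - b ^ 2 ∧ y ^ 8 ≤ z) (m := y₀) (B := z)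
      ⟨k3, by omega⟩ fun y h => (Nat.le_self_pow (by omega) y).trans h.2
    have hy2 : 2 ≤ y := hy₀.trans hy
    have hy1 : (1 : ℤ) ≤ y := by exact_mod_cast (by omega : 1 ≤ y)
    refine main y hy p2 ?_ (Or.inl p1)
    rcases not_and_or.1 p3 with p3 | p3
    · have q1 : ((y + 1 : ℕ) : ℤ) ^ (2 * C₁ + 2) ≤ (y : ℤ) ^ (2 * (2 * C₁ + 2)) := by
        exact_mod_cast succ_pow (k := 2 * C₁ + 2) hy2
      exact ((not_le.1 p3).le.trans q1).trans (pow_le_pow_right₀ hy1 (by omega))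
    · have q1 : (z : ℤ) ≤ (y : ℤ) ^ 16 := by
        exact_mod_cast (not_le.1 p3).le.trans (succ_pow (k := 8) hy2)
      refine hΔz.trans ((pow_le_pow_left₀ (Nat.cast_nonneg _) q1 _).trans ?_)
      rw [← pow_mul]
      exact pow_le_pow_right₀ hy1 (by omega)
  by_cases k4 : (y₀ : ℤ) ^ (5 * C₁) * N₁ ≤ c * N₂
  · left
    have hy1 : (1 : ℤ) ≤ y₀ := by exact_mod_cast (by omega : 1 ≤ y₀)
    exact main y₀ le_rfl (by omega) ((not_le.1 k3).le.trans (pow_le_pow_right₀ hy1 (by omega)))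
      (Or.inr ⟨k4, by omega⟩)
  right
  have hGZ : (G : ℤ) = (y₀ : ℤ) ^ (5 * C₁) := by rw [hG]; push_cast; rfl
  rw [← hGZ, not_le] at k4
  have hN1 : (0 : ℤ) < N₁ := by exact_mod_cast hN₁
  have hN2 : (0 : ℤ) < N₂ := by exact_mod_cast hN₂
  have hG0 : (0 : ℤ) ≤ G := Nat.cast_nonneg _
  have s1 : a * (N₁ : ℤ) ^ 2 ≤ c * (N₂ : ℤ) ^ 2 := by
    have e1 := pow_le_pow_left₀ (by positivity) huv 2
    rw [mul_pow, mul_pow, ← Complex.normSq_eq_norm_sq, ← Complex.normSq_eq_norm_sq, ha, hc,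
      mul_assoc, mul_assoc] at e1
    exact_mod_cast le_of_mul_le_mul_left e1 hl
  obtain ⟨s2, s3, s4, s5, s6⟩ := small (C := C) (n := n) ha0 hc0 hdisc hN1 hN2 hG0
    (Nat.cast_nonneg _) (Nat.cast_nonneg _) s1 k4 (by exact_mod_cast hC)
  refine ⟨a, b, c, ha0, by exact_mod_cast s2, by exact_mod_cast s3, by exact_mod_cast s4, ?_, ?_,
    by exact_mod_cast s5, by exact_mod_cast s6⟩
  · have e : (v / u).re = (u * (starRingEnd ℂ) v).re / Complex.normSq u := by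
      rw [Complex.div_re]; simp; field_simp
    refine mul_left_cancel₀ hl.ne' ?_
    rw [← hb, e]
    field_simp
    rw [ha]; ring
  · refine mul_left_cancel₀ hl.ne' ?_
    rw [← hc, map_div₀]
    field_simp
    rw [ha]; ring

end Pool.Agent.Lib.MP_ad7336_sd
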