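import Pool.Agent.Lib.MP_ad7336_sd.UB0

set_option autoImplicit false

namespace Pool.Agent.Lib.MP_ad7336_sd

open Finset Filter
open Pool.Agent.Lib.MP_ad7336_co (DD IQ)
open scoped Classical

namespace UBx

open Pool.Agent.Lib.MP_ad7336_co

theorem DD_mono {P Q : Finset ℂ} (h : P ⊆ Q) : DD P ≤ DD Q := by
  unfold DD
  refine Set.ncard_le_ncard ?_ (((Q ×ˢ Q).image fun p => dist p.1 p.2).finite_toSet.subset ?_)
  · rintro _ ⟨p, hp, q, hq, k, rfl⟩
    exact ⟨p, h hp, q, h hq, k, rfl⟩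
  · rintro _ ⟨p, hp, q, hq, -, rfl⟩
    exact mem_coe.2 (mem_image.2 ⟨(p, q), mem_product.2 ⟨hp, hq⟩, rfl⟩)

/-- A set similar to a subset of the order. -/
theorem sim (F : IQ) {P : Finset ℂ} {l o : ℂ} (hl : l ≠ 0)
    (key : ∀ p ∈ P, ∃ z, F.emb z = l * (p - o)) :
    ∃ P' : Finset F.O, P'.card = P.card ∧ F.Dn P' = DD P ∧
      ∀ x ∈ P', ∀ y ∈ P', ∃ p ∈ P, ∃ q ∈ P, (F.nm (x - y) : ℝ) = ‖l‖ ^ 2 * ‖p - q‖ ^ 2 := by
  choose! z hz using key
  have e : (P.image z).image F.emb = P.image fun p => l * (p - o) := by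
    rw [image_image]
    exact image_congr fun p hp => hz p hp
  refine ⟨P.image z, card_image_of_injOn fun p hp q hq k => ?_,
    by rw [← DD_image, e, Red.DD_sim P hl], forall_mem_image.2 fun p hp =>
      forall_mem_image.2 fun q hq => ⟨p, hp, q, hq, ?_⟩⟩
  · have := congrArg F.emb k
    rw [hz p hp, hz q hq] at this
    exact sub_left_injective (mul_left_cancel₀ hl this)
  · rw [← F.norm_emb_sq, map_sub, hz p hp, hz q hq, ← mul_pow, ← norm_mul]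
    congr 2
    ring

theorem emb_eq (F : IQ) (z : F.O) : F.emb z = (z.re : ℂ) + (z.im : ℂ) * F.om := rfl

theorem norm_box (F : IQ) {L : ℕ} {x y : F.O} (hx : x ∈ F.bx 0 L) (hy : y ∈ F.bx 0 L) :
    ‖F.emb x - F.emb y‖ ≤ (1 + ‖F.om‖) * L := by
  rw [IQ.mem_bx] at hx hy
  obtain ⟨⟨a1, a2⟩, a3, a4⟩ := hx
  obtain ⟨⟨b1, b2⟩, b3, b4⟩ := hy
  have e : F.emb x - F.emb y = ((x.re - y.re : ℤ) : ℂ) + ((x.im - y.im : ℤ) : ℂ) * F.om := by
    rw [emb_eq, emb_eq]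
    push_cast
    ring
  have k1 : ‖((x.re - y.re : ℤ) : ℂ)‖ ≤ L := by
    rw [Complex.norm_intCast]
    have : |x.re - y.re| ≤ (L : ℤ) := abs_le.2 ⟨by omega, by omega⟩
    exact_mod_cast this
  have k2 : ‖((x.im - y.im : ℤ) : ℂ)‖ ≤ L := by
    rw [Complex.norm_intCast]
    have : |x.im - y.im| ≤ (L : ℤ) := abs_le.2 ⟨by omega, by omega⟩
    exact_mod_cast this
  rw [e]
  refine (norm_add_le _ _).trans ?_
  rw [norm_mul]
  nlinarith [mul_le_mul_of_nonneg_right k2 (norm_nonneg F.om)]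

/-- Points covered by pieces of bounded size. -/
theorem cover (F : IQ) {Q R T : Finset ℂ} {L : ℕ} {s : ℝ} (hR : R ⊆ Q)
    (h : ∀ p ∈ R, ∃ τ ∈ T, ∃ x ∈ F.bx 0 L, p = τ + F.emb x)
    (hs : ∀ τ ∈ T, (((F.bx 0 L).filter fun x => τ + F.emb x ∈ Q).card : ℝ) ≤ s) :
    (R.card : ℝ) ≤ T.card * s := by
  have h1 : R ⊆ T.biUnion fun τ => ((F.bx 0 L).filter fun x => τ + F.emb x ∈ Q).image
      fun x => τ + F.emb x := fun p hp => by
    obtain ⟨τ, h1, x, h2, h3⟩ := h p hp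
    exact mem_biUnion.2 ⟨τ, h1, mem_image.2 ⟨x, mem_filter.2 ⟨h2, h3 ▸ hR hp⟩, h3.symm⟩⟩
  have h2 := (card_le_card h1).trans card_biUnion_le
  have h3 : (R.card : ℝ) ≤ ∑ τ ∈ T, ((((F.bx 0 L).filter fun x => τ + F.emb x ∈ Q).image
      fun x => τ + F.emb x).card : ℝ) := by exact_mod_cast h2
  refine h3.trans ?_
  rw [← nsmul_eq_mul, ← sum_const]
  refine sum_le_sum fun τ hτ => le_trans ?_ (hs τ hτ)
  exact_mod_cast card_image_le

theorem num {e ε k n m : ℝ} (he : e = ε / 2) (hε : 0 < ε) (hε1 : ε < 1) (hk : 0 < k) (hm : 2 ≤ m)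
    (h1 : (1 - e) * n ≤ m) (h2 : m ≤ n) :
    (1 - ε) * k * n / √(Real.log n) ≤ (1 - e) * k * m / √(Real.log m) := by
  have l0 : 0 < √(Real.log m) := Real.sqrt_pos.2 (Real.log_pos (by linarith))
  have l1 : √(Real.log m) ≤ √(Real.log n) :=
    Real.sqrt_le_sqrt (Real.log_le_log (by linarith) h2)
  have e0 : 0 < (1 - e) * k := mul_pos (by linarith) hk
  refine div_le_div₀ (by positivity) ?_ l0 l1
  have kn : 0 < k * n := mul_pos hk (by linarith)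
  have e1 := mul_le_mul_of_nonneg_left h1 e0.le
  subst he
  nlinarith [mul_pos (mul_pos hε hε) kn]

end UBx

open UBx Pool.Agent.Lib.MP_ad7336_co

theorem caseB1 (F : IQ) (t C : ℕ) {ε : ℝ} (hε : 0 < ε) : ∀ᶠ n : ℕ in atTop,
    ∀ (Q T : Finset ℂ) (L : ℕ), Q.card = n → T.card ≤ t → L ^ 2 ≤ C * n →
    (∀ p ∈ Q, ∃ τ ∈ T, ∃ x ∈ F.bx 0 L, p = τ + F.emb x) →
    (1 - ε) * F.kap * n / √(Real.log n) ≤ DD Q := by
  have hk := F.kap_pos
  by_cases hε1 : 1 ≤ ε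
  · refine Eventually.of_forall fun n Q T L _ _ _ _ => le_trans ?_ (Nat.cast_nonneg _)
    refine div_nonpos_of_nonpos_of_nonneg ?_ (Real.sqrt_nonneg _)
    exact mul_nonpos_of_nonpos_of_nonneg
      (mul_nonpos_of_nonpos_of_nonneg (by linarith) hk.le) (Nat.cast_nonneg _)
  rw [not_le] at hε1
  obtain ⟨e, he⟩ : ∃ e : ℝ, e = ε / 2 := ⟨_, rfl⟩
  have he0 : 0 < e := by linarith
  have t0 : (0 : ℝ) ≤ t := Nat.cast_nonneg _
  have C0 : (0 : ℝ) ≤ C := Nat.cast_nonneg _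
  obtain ⟨r₀, Γ, L₀, hr₀, hB⟩ := caseB0 F (δ := e / ((t + 1) * (C + 1))) (by positivity)
    ((t + 1) * F.kap)
  obtain ⟨n₁, hn₁⟩ := eventually_atTop.1
    (F.core he0 ((r₀ : ℝ) ^ 2 * (2 * (Γ + (1 + ‖F.om‖) ^ 2)) * (2 * C)))
  filter_upwards [eventually_ge_atTop (2 * n₁ + 4), eventually_ge_atTop (t * L₀ ^ 2 + 1),
    eventually_ge_atTop C] with n g1 g2 g3 Q T L hQ hT hL hcov
  have n4 : (2 * n₁ + 4 : ℝ) ≤ n := by exact_mod_cast g1
  have n1 : (0 : ℝ) ≤ n₁ := Nat.cast_nonneg _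
  have hT' : (T.card : ℝ) ≤ t := by exact_mod_cast hT
  have hL' : (L : ℝ) ^ 2 ≤ C * n := by exact_mod_cast hL
  have hnL : (n : ℝ) ≤ t * (L : ℝ) ^ 2 := by
    have := cover F (s := (L : ℝ) ^ 2) (Subset.refl Q) hcov fun τ _ => by
      have k := card_le_card (filter_subset (fun x => τ + F.emb x ∈ Q) (F.bx 0 L))
      rw [IQ.card_bx] at k
      simp only [sub_zero, Int.toNat_natCast] at k
      exact_mod_cast k
    rw [hQ] at this
    exact this.trans (mul_le_mul_of_nonneg_right hT' (sq_nonneg _))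
  have hL₀ : L₀ ≤ L := by
    by_contra k
    have k1 : L ^ 2 ≤ L₀ ^ 2 := Nat.pow_le_pow_left (not_le.1 k).le 2
    have k2 : n ≤ t * L ^ 2 := by exact_mod_cast hnL
    have k3 := Nat.mul_le_mul_left t k1
    omega
  have hLn : (L : ℝ) ≤ n := by
    have k : (C : ℝ) ≤ n := by exact_mod_cast g3
    refine abs_le_of_sq_le_sq' ?_ (by linarith) |>.2
    nlinarith
  obtain ⟨T', hT'def⟩ : ∃ T' : Finset ℂ, T' = T.filter fun τ =>
      e * n / (t + 1) ≤ (((F.bx 0 L).filter fun x => τ + F.emb x ∈ Q).card : ℝ) := ⟨_, rfl⟩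
  obtain ⟨Q', hQ'def⟩ : ∃ Q' : Finset ℂ, Q' = Q.filter fun p =>
      ∃ τ ∈ T', ∃ x ∈ F.bx 0 L, p = τ + F.emb x := ⟨_, rfl⟩
  have hQ'sub : Q' ⊆ Q := hQ'def ▸ filter_subset _ _
  have hQ'le : (Q'.card : ℝ) ≤ n := by
    rw [← hQ]
    exact_mod_cast card_le_card hQ'sub
  have hQ'ge : (1 - e) * n ≤ Q'.card := by
    have k1 := cover F (Q := Q) (R := Q \ Q') (T := T \ T') (L := L) (s := e * n / (t + 1))
      sdiff_subset (fun p hp => by
        obtain ⟨a1, a2⟩ := mem_sdiff.1 hp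
        obtain ⟨τ, b1, x, b2, b3⟩ := hcov p a1
        refine ⟨τ, mem_sdiff.2 ⟨b1, fun b4 => a2 ?_⟩, x, b2, b3⟩
        rw [hQ'def]
        exact mem_filter.2 ⟨a1, τ, b4, x, b2, b3⟩) fun τ hτ => by
        obtain ⟨a1, a2⟩ := mem_sdiff.1 hτ
        rw [hT'def, mem_filter, not_and, not_le] at a2
        exact (a2 a1).le
    have k2 : ((T \ T').card : ℝ) ≤ t + 1 := by
      have : ((T \ T').card : ℝ) ≤ T.card := by exact_mod_cast card_le_card sdiff_subset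
      linarith
    have k3 : ((T \ T').card : ℝ) * (e * n / (t + 1)) ≤ e * n := by
      refine (mul_le_mul_of_nonneg_right k2 (by positivity)).trans (le_of_eq ?_)
      field_simp
    have k4 : ((Q \ Q').card : ℝ) + Q'.card = n := by
      rw [← hQ]
      exact_mod_cast card_sdiff_add_card_eq_card hQ'sub
    linarith
  have hhalf : (n : ℝ) ≤ 2 * Q'.card := by nlinarith
  have hbig : ∀ τ ∈ T', e / ((t + 1) * (C + 1)) * (L : ℝ) ^ 2 ≤
      (((F.bx 0 L).filter fun x => τ + F.emb x ∈ Q).card : ℝ) := fun τ hτ => by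
    rw [hT'def] at hτ
    refine le_trans ?_ (mem_filter.1 hτ).2
    rw [div_mul_eq_mul_div, div_le_div_iff₀ (by positivity) (by positivity)]
    have k : (L : ℝ) ^ 2 ≤ (C + 1) * n := by nlinarith
    nlinarith [mul_le_mul_of_nonneg_left k (show 0 ≤ e * (t + 1) by positivity)]
  have hpair : ∀ τ ∈ T', ∀ τ' ∈ T', (t + 1) * F.kap * (L : ℝ) ^ 2 ≤ DD Q * √(Real.log L) ∨
      ((∃ o, F.emb o = r₀ * (τ - τ')) ∧ ‖τ - τ'‖ ^ 2 ≤ Γ * (L : ℝ) ^ 2) := fun τ hτ τ' hτ' =>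
    hB Q τ τ' L _ _ hL₀ (filter_subset _ _) (filter_subset _ _) (hbig τ hτ) (hbig τ' hτ')
      (fun x hx => (mem_filter.1 hx).2) fun x hx => (mem_filter.1 hx).2
  have l0 : 0 < √(Real.log n) := Real.sqrt_pos.2 (Real.log_pos (by linarith))
  by_cases hM : (t + 1) * F.kap * (L : ℝ) ^ 2 ≤ DD Q * √(Real.log L)
  · rw [div_le_iff₀ l0]
    have L0 : (0 : ℝ) < L := by
      rcases (Nat.cast_nonneg L : (0 : ℝ) ≤ L).eq_or_lt with k | k
      · rw [← k] at hnL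
        nlinarith
      · exact k
    have k1 : √(Real.log L) ≤ √(Real.log n) := Real.sqrt_le_sqrt (Real.log_le_log L0 hLn)
    have k2 := mul_le_mul_of_nonneg_left k1 (Nat.cast_nonneg (DD Q) : (0 : ℝ) ≤ DD Q)
    have k3 := mul_le_mul_of_nonneg_left hnL hk.le
    have k4 : 0 ≤ ε * (F.kap * n) := by positivity
    have k5 : 0 ≤ F.kap * (L : ℝ) ^ 2 := by positivity
    nlinarith
  have hp : ∀ τ ∈ T', ∀ τ' ∈ T', (∃ o, F.emb o = r₀ * (τ - τ')) ∧
      ‖τ - τ'‖ ^ 2 ≤ Γ * (L : ℝ) ^ 2 := fun τ hτ τ' hτ' => (hpair τ hτ τ' hτ').resolve_left hM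
  have hmem : ∀ p ∈ Q', ∃ τ ∈ T', ∃ x ∈ F.bx 0 L, p = τ + F.emb x := fun p hp' => by
    rw [hQ'def] at hp'
    exact (mem_filter.1 hp').2
  have q2 : (2 : ℝ) ≤ Q'.card := by linarith
  obtain ⟨p₁, hp₁⟩ : Q'.Nonempty := card_pos.1 (by exact_mod_cast (by linarith : (0 : ℝ) < Q'.card))
  obtain ⟨τ₁, hτ₁, -⟩ := hmem p₁ hp₁
  have hr : (r₀ : ℂ) ≠ 0 := Nat.cast_ne_zero.2 hr₀.ne'
  obtain ⟨P', c1, c2, c3⟩ := sim F (P := Q') (o := τ₁) hr fun p hp' => by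
    obtain ⟨τ, a1, x, -, a3⟩ := hmem p hp'
    obtain ⟨o, ho⟩ := (hp τ a1 τ₁ hτ₁).1
    refine ⟨o + (r₀ : F.O) * x, ?_⟩
    rw [map_add, map_mul, map_natCast, ho, a3]
    ring
  have hc := hn₁ Q'.card (by exact_mod_cast (by linarith : (n₁ : ℝ) ≤ Q'.card)) P' c1
    fun x hx y hy => by
      obtain ⟨p, a1, q, a2, a3⟩ := c3 x hx y hy
      obtain ⟨τ, b1, z, b2, b3⟩ := hmem p a1
      obtain ⟨τ', d1, z', d2, d3⟩ := hmem q a2
      have k1 : ‖p - q‖ ≤ ‖τ - τ'‖ + (1 + ‖F.om‖) * L := by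
        have : p - q = (τ - τ') + (F.emb z - F.emb z') := by rw [b3, d3]; ring
        rw [this]
        exact (norm_add_le _ _).trans (by linarith [norm_box F b2 d2])
      have k2 : ‖p - q‖ ^ 2 ≤ 2 * (Γ + (1 + ‖F.om‖) ^ 2) * (L : ℝ) ^ 2 := by
        have k3 := (hp τ b1 τ' d1).2
        have k4 := pow_le_pow_left₀ (norm_nonneg _) k1 2
        nlinarith [sq_nonneg (‖τ - τ'‖ - (1 + ‖F.om‖) * L)]
      have k5 : (L : ℝ) ^ 2 ≤ 2 * C * Q'.card := by nlinarith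
      rw [a3, Complex.norm_natCast, mul_assoc, mul_assoc]
      refine mul_le_mul_of_nonneg_left (k2.trans ?_) (by positivity)
      exact mul_le_mul_of_nonneg_left k5 (by positivity)
  refine (num he hε hε1 hk q2 hQ'ge hQ'le).trans (hc.trans ?_)
  rw [c2]
  exact_mod_cast DD_mono hQ'sub

theorem caseB2 (F : IQ) (hF : F.D = 3) (Q T : Finset ℂ)
    (h : ∀ p ∈ Q, ∃ τ ∈ T, ∃ x : F.O, p = τ + F.emb x) :
    Q.card ≤ 4 * T.card * (DD Q + 1) ∨
      ∃ P : Finset ℂ, P.card = Q.card ∧ (∀ p ∈ P, Tri p) ∧ DD P = DD Q := by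
  have hb : F.b = 1 := by
    have := F.D_eq
    rcases F.fund with k | k
    · exact k.1
    · rw [hF, k.1] at this
      omega
  have hom : F.om = (1 / 2 : ℂ) + ((Real.sqrt 3 / 2 : ℝ) : ℂ) * Complex.I := by
    simp only [IQ.om, hF, hb]
    push_cast
    ring
  have s3 : 0 < Real.sqrt 3 := Real.sqrt_pos.2 (by norm_num)
  have hre : (F.om / 1).re = 1 / 2 := by rw [div_one, hom]; simp
  have him : (F.om / 1).im = Real.sqrt 3 / 2 := by rw [div_one, hom]; simp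
  have hτ : (F.om / 1).im ≠ 0 := by rw [him]; positivity
  have hx : 2 * (F.om / 1).re = (1 : ℚ) := by rw [hre]; norm_num
  have hy : Complex.normSq (F.om / 1) = (1 : ℚ) := by
    rw [Complex.normSq_apply, hre, him]
    have := Real.mul_self_sqrt (show (0 : ℝ) ≤ 3 by norm_num)
    push_cast
    nlinarith
  rcases Q.eq_empty_or_nonempty with rfl | ⟨o, ho⟩
  · exact Or.inl (by simp)
  let R : ℂ → Prop := fun s => ∃ p q : ℚ, s = p + q * (F.om / 1)
  have hR : ∀ o' : ℂ, o' ∈ Q → ∀ S : Finset ℂ, (∀ q ∈ S, q ∈ Q ∧ ¬ R (q - o')) →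
      S.card ≤ T.card * 2 * DD Q := fun o' ho' S hS =>
    Red.coset (u := 1) (v := F.om) one_ne_zero ho'
      (fun q hq => ⟨(hS q hq).1, fun e => (hS q hq).2 ⟨0, 0, by simp [e]⟩⟩)
      (fun s => ¬ R s) (fun q hq => by
        obtain ⟨t, h1, x, h2⟩ := h q (hS q hq).1
        rw [emb_eq] at h2
        refine ⟨t, h1, fun ⟨p', q', k⟩ => (hS q hq).2 ⟨p' + x.re, q' + x.im, ?_⟩, x.re, x.im, ?_⟩
        · push_cast
          rw [h2]
          linear_combination k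
        · rw [h2]
          ring) fun s r S hs hS => Red.circ2 hτ hx hy hs hS
  by_cases hall : ∀ p ∈ Q, R (p - o)
  · right
    obtain ⟨N, hN, hW⟩ := Red.ex_den F (Q.image fun p => p - o)
    obtain ⟨P', c1, c2, -⟩ := sim F (P := Q) (o := o) (l := N) (Nat.cast_ne_zero.2 hN) fun p hp =>
      hW _ (mem_image_of_mem _ hp) (by
        obtain ⟨a, b, k⟩ := hall p hp
        exact ⟨a, b, by rw [k, div_one]⟩)
    refine ⟨P'.image F.emb, by rw [card_image_of_injective _ F.emb_inj, c1],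
      forall_mem_image.2 fun z _ => ⟨z.re, z.im, by rw [emb_eq, hom]⟩, by rw [DD_image, c2]⟩
  · left
    push Not at hall
    obtain ⟨o', h1, h2⟩ := hall
    have h3 := hR o ho (Q.filter fun p => ¬ R (p - o)) fun q hq => mem_filter.1 hq
    have h4 := hR o' h1 (Q.filter fun p => R (p - o)) fun q hq => by
      obtain ⟨k, p1, q1, k1⟩ := mem_filter.1 hq
      refine ⟨k, fun ⟨p2, q2, k2⟩ => h2 ⟨p1 - p2, q1 - q2, ?_⟩⟩
      push_cast
      linear_combination k1 - k2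
    have h5 := card_filter_add_card_filter_not (s := Q) fun p => R (p - o)
    nlinarith

end Pool.Agent.Lib.MP_ad7336_sd
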