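import Pool.Agent.Lib.MP_ad7336_sd.CR
import Pool.Agent.Lib.MP_ad7336_sd.RK
import Pool.Agent.Lib.MP_ad7336_sd.FL

set_option autoImplicit false

namespace Pool.Agent.Lib.MP_ad7336_sd

open Finset Filter
open Pool.Agent.Lib.MP_ad7336_co (DD IQ)
open scoped Classical

namespace UB0x

theorem fund (F : IQ) : Fund 1 F.b (-F.a) := by
  intro p hp hD e d h
  have hq : Prime (p : ℤ) := Nat.prime_iff_prime_int.1 hp
  by_contra hd
  have hc : IsCoprime ((p : ℤ) ^ 2) (d ^ 2) :=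
    ((hq.irreducible.coprime_iff_not_dvd.2 hd).pow_left).pow_right
  have sqf : ∀ m : ℤ, Squarefree m → (p : ℤ) ^ 2 ∣ m * d ^ 2 → False := fun m hm hh =>
    hq.not_isUnit (hm p (by rw [← sq]; exact hc.dvd_of_dvd_mul_right hh))
  rcases F.fund with ⟨hb, hs⟩ | ⟨hb, hs, h4⟩
  · rw [hb] at hD h
    have h1 : (p : ℤ) ∣ 1 + 4 * F.a := by
      have := hD.neg_right
      rwa [show -(4 * 1 * -F.a - 1 ^ 2) = 1 + 4 * F.a by ring] at this
    have h2 : (p : ℤ) ^ 2 ∣ (2 * e + d) ^ 2 - (1 + 4 * F.a) * d ^ 2 := by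
      have := h.mul_left 4
      rwa [show 4 * (e ^ 2 + 1 * e * d + 1 * -F.a * d ^ 2) =
        (2 * e + d) ^ 2 - (1 + 4 * F.a) * d ^ 2 by ring] at this
    have h3 : (p : ℤ) ∣ (2 * e + d) ^ 2 := by
      have := ((dvd_pow_self (p : ℤ) two_ne_zero).trans h2).add (h1.mul_right (d ^ 2))
      rwa [sub_add_cancel] at this
    have h5 := (pow_dvd_pow_of_dvd (hq.dvd_of_dvd_pow h3) 2).sub h2
    exact sqf _ hs (by rwa [sub_sub_cancel] at h5)
  · rw [hb] at hD h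
    have h2 : (p : ℤ) ^ 2 ∣ e ^ 2 - F.a * d ^ 2 := by
      rwa [show e ^ 2 + 0 * e * d + 1 * -F.a * d ^ 2 = e ^ 2 - F.a * d ^ 2 by ring] at h
    by_cases ha : (p : ℤ) ∣ F.a
    · have h3 : (p : ℤ) ∣ e ^ 2 := by
        have := ((dvd_pow_self (p : ℤ) two_ne_zero).trans h2).add (ha.mul_right (d ^ 2))
        rwa [sub_add_cancel] at this
      have h5 := (pow_dvd_pow_of_dvd (hq.dvd_of_dvd_pow h3) 2).sub h2
      exact sqf _ hs (by rwa [sub_sub_cancel] at h5)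
    · have h1 : (p : ℤ) ∣ 2 ^ 2 * F.a := by
        have := hD.neg_right
        rwa [show -(4 * 1 * -F.a - 0 ^ 2) = 2 ^ 2 * F.a by ring] at this
      have h3 : (p : ℤ) ∣ 2 := hq.dvd_of_dvd_pow ((hq.dvd_or_dvd h1).resolve_right ha)
      have h5 : p = 2 := (Nat.prime_dvd_prime_iff_eq hp Nat.prime_two).1 (by exact_mod_cast h3)
      subst h5
      push_cast at hd ha h2
      obtain ⟨d', rfl⟩ : ∃ d', d = 2 * d' + 1 := ⟨d / 2, by omega⟩
      obtain ⟨c, hc⟩ := h2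
      rcases Int.even_or_odd' e with ⟨e', rfl | rfl⟩
      · have : F.a = 4 * (e' ^ 2 - F.a * (d' ^ 2 + d') - c) := by linear_combination -hc
        omega
      · have : F.a = 4 * (e' ^ 2 + e' - F.a * (d' ^ 2 + d') - c) + 1 := by linear_combination -hc
        omega

theorem ex_sig (F : IQ) (w : ℂ) : ∃ s₁ s₂ : ℝ, w = s₁ + s₂ * F.om := by
  have h3 : (3 : ℝ) ≤ F.D := by exact_mod_cast F.three_le_D
  have h : F.om.im ≠ 0 := by
    rw [F.om_im]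
    have : 0 < √(F.D : ℝ) := Real.sqrt_pos.2 (by linarith)
    positivity
  refine ⟨w.re - w.im / F.om.im * F.om.re, w.im / F.om.im, ?_⟩
  apply Complex.ext
  · simp only [Complex.add_re, Complex.ofReal_re, Complex.mul_re, Complex.ofReal_im]
    ring
  · simp only [Complex.add_im, Complex.ofReal_re, Complex.mul_im, Complex.ofReal_im]
    field_simp
    ring

theorem dist_sq (F : IQ) {τ τ' : ℂ} {s₁ s₂ : ℝ} (h : τ - τ' = s₁ + s₂ * F.om) (x y : F.O) :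
    dist (τ + F.emb x) (τ' + F.emb y) ^ 2 =
      F.Nr (s₁ + ((x.re - y.re : ℤ) : ℝ)) (s₂ + ((x.im - y.im : ℤ) : ℝ)) := by
  rw [← F.norm_real_sq, dist_eq_norm, F.emb_apply, F.emb_apply]
  congr 2
  push_cast
  linear_combination h

theorem qf_le {b c x y B : ℤ} (hx : |x| ≤ B) (hy : |y| ≤ B) :
    qf 1 b c x y ≤ (1 + |b| + |c|) * B ^ 2 := by
  have h0 : 0 ≤ B := (abs_nonneg x).trans hx
  have h1 : x ^ 2 ≤ B ^ 2 := sq_le_sq' (abs_le.1 hx).1 (abs_le.1 hx).2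
  have h2 : y ^ 2 ≤ B ^ 2 := sq_le_sq' (abs_le.1 hy).1 (abs_le.1 hy).2
  have h3 : |x| * |y| ≤ B ^ 2 := by rw [sq]; exact mul_le_mul hx hy (abs_nonneg y) h0
  have h4 : b * x * y ≤ |b| * B ^ 2 := by
    refine (le_abs_self _).trans ?_
    rw [abs_mul, abs_mul, mul_assoc]
    exact mul_le_mul_of_nonneg_left h3 (abs_nonneg b)
  have h5 : c * y ^ 2 ≤ |c| * B ^ 2 :=
    (mul_le_mul_of_nonneg_right (le_abs_self c) (sq_nonneg y)).trans
      (mul_le_mul_of_nonneg_left h2 (abs_nonneg c))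
  unfold qf
  linarith

theorem qf_nonneg {b c x y : ℤ} (h : b ^ 2 < 4 * 1 * c) : 0 ≤ qf 1 b c x y := by
  unfold qf
  nlinarith [sq_nonneg (2 * x + b * y), mul_nonneg (sub_pos.2 h).le (sq_nonneg y)]

theorem qf_Nr (F : IQ) {σ₁ σ₂ : ℝ} {s₁ s₂ r : ℤ} (h1 : σ₁ * r = s₁) (h2 : σ₂ * r = s₂)
    (i j : ℤ) : ((qf 1 F.b (-F.a) (s₁ + r * i) (s₂ + r * j) : ℤ) : ℝ) =
      (r : ℝ) ^ 2 * F.Nr (σ₁ + i) (σ₂ + j) := by
  unfold qf IQ.Nr
  push_cast
  rw [← h1, ← h2]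
  ring

/-- Few coincidences. -/
theorem few (F : IQ) {Q : Finset ℂ} {τ τ' : ℂ} {σ₁ σ₂ : ℝ} (h : τ - τ' = σ₁ + σ₂ * F.om) {L : ℕ}
    {X : Finset F.O} {y : F.O} (hX : X ⊆ F.bx 0 L) (hy : y ∈ F.bx 0 L)
    (qX : ∀ x ∈ X, τ + F.emb x ∈ Q) (qy : τ' + F.emb y ∈ Q)
    (hS : ∀ (m : ℝ) (S : Finset (ℤ × ℤ)), (∀ w ∈ S, |w.1| ≤ (L : ℤ) ∧ |w.2| ≤ (L : ℤ) ∧
      ((1 : ℤ) : ℝ) * (σ₁ + w.1) ^ 2 + F.b * (σ₁ + w.1) * (σ₂ + w.2) +
        ((-F.a : ℤ) : ℝ) * (σ₂ + w.2) ^ 2 = m) → S.card ≤ 2) :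
    X.card ≤ 2 * DD Q + 1 := by
  have inj : Function.Injective fun x : F.O => τ + F.emb x := fun a b e =>
    F.emb_inj (add_left_cancel e)
  have h1 : ((X.image fun x => τ + F.emb x).erase (τ' + F.emb y)).card ≤ 2 * DD Q := by
    refine MP_ad7336_co.Red.count qy (fun q hq => ?_) fun d => ?_
    · obtain ⟨k1, k2⟩ := mem_erase.1 hq
      obtain ⟨x, hx, rfl⟩ := mem_image.1 k2
      exact ⟨qX x hx, k1.symm⟩
    · have k := hS (d ^ 2) ((X.filter fun x => dist (τ' + F.emb y) (τ + F.emb x) = d).image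
        fun x => (x.re - y.re, x.im - y.im)) fun w hw => by
          obtain ⟨x, hx, rfl⟩ := mem_image.1 hw
          obtain ⟨k1, k2⟩ := mem_filter.1 hx
          have k3 := F.mem_bx.1 (hX k1)
          have k4 := F.mem_bx.1 hy
          refine ⟨abs_le.2 ⟨by omega, by omega⟩, abs_le.2 ⟨by omega, by omega⟩, ?_⟩
          rw [← k2, dist_comm, dist_sq F h, IQ.Nr]
          push_cast
          ring
      rw [card_image_of_injective _ (fun a b e => QuadraticAlgebra.ext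
        (sub_left_injective (congrArg Prod.fst e)) (sub_left_injective (congrArg Prod.snd e)))] at k
      refine le_trans ?_ k
      rw [← card_image_of_injective _ inj]
      refine card_le_card fun q hq => ?_
      obtain ⟨k1, k2⟩ := mem_filter.1 hq
      obtain ⟨x, hx, rfl⟩ := mem_image.1 (mem_of_mem_erase k1)
      exact mem_image.2 ⟨x, mem_filter.2 ⟨hx, k2⟩, rfl⟩
  have h2 := pred_card_le_card_erase (s := X.image fun x => τ + F.emb x) (a := τ' + F.emb y)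
  rw [card_image_of_injective _ inj] at h2
  omega

theorem ev (δ : ℝ) (hδ : 0 < δ) (M : ℝ) : ∃ L₁ : ℕ, ∀ L : ℕ, L₁ ≤ L →
    2 ≤ δ * L ^ 2 ∧ 4 * M ≤ δ * √(Real.log L) := by
  have h1 : Tendsto (fun L : ℕ => δ * (L : ℝ) ^ 2) atTop atTop :=
    ((tendsto_pow_atTop two_ne_zero).comp tendsto_natCast_atTop_atTop).const_mul_atTop hδ
  have h2 : Tendsto (fun L : ℕ => δ * √(Real.log L)) atTop atTop :=
    (Real.tendsto_sqrt_atTop.comp
      (Real.tendsto_log_atTop.comp tendsto_natCast_atTop_atTop)).const_mul_atTop hδ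
  exact eventually_atTop.1 ((h1.eventually_ge_atTop 2).and (h2.eventually_ge_atTop (4 * M)))

theorem norm_le (F : IQ) {τ τ' : ℂ} {σ₁ σ₂ : ℝ} (h : τ - τ' = σ₁ + σ₂ * F.om) {i j : ℤ}
    {A B : ℝ} (h1 : F.Nr (σ₁ + i) (σ₂ + j) ≤ A) (h2 : F.Nr i j ≤ B) :
    ‖τ - τ'‖ ^ 2 ≤ 2 * A + 2 * B := by
  rw [← F.norm_real_sq] at h1 h2
  have e : τ - τ' = (((σ₁ + i : ℝ) : ℂ) + ((σ₂ + j : ℝ) : ℂ) * F.om) -
      (((i : ℝ) : ℂ) + ((j : ℝ) : ℂ) * F.om) := by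
    rw [h]
    push_cast
    ring
  have h3 := norm_sub_le (((σ₁ + i : ℝ) : ℂ) + ((σ₂ + j : ℝ) : ℂ) * F.om)
    (((i : ℝ) : ℂ) + ((j : ℝ) : ℂ) * F.om)
  rw [← e] at h3
  have h4 := pow_le_pow_left₀ (norm_nonneg _) h3 2
  nlinarith [sq_nonneg (‖((σ₁ + i : ℝ) : ℂ) + ((σ₂ + j : ℝ) : ℂ) * F.om‖ -
    ‖((i : ℝ) : ℂ) + ((j : ℝ) : ℂ) * F.om‖)]

end UB0x

open UB0x in
theorem caseB0 (F : IQ) {δ : ℝ} (hδ : 0 < δ) (M : ℝ) : ∃ r₀ Γ L₀ : ℕ, 0 < r₀ ∧
    ∀ (Q : Finset ℂ) (τ τ' : ℂ) (L : ℕ) (X Y : Finset F.O), L₀ ≤ L → X ⊆ F.bx 0 L → Y ⊆ F.bx 0 L →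
    δ * L ^ 2 ≤ X.card → δ * L ^ 2 ≤ Y.card → (∀ x ∈ X, τ + F.emb x ∈ Q) →
    (∀ x ∈ Y, τ' + F.emb x ∈ Q) →
    M * L ^ 2 ≤ DD Q * √(Real.log L) ∨
      ((∃ o, F.emb o = r₀ * (τ - τ')) ∧ ‖τ - τ'‖ ^ 2 ≤ Γ * L ^ 2) := by
  have hD : F.b ^ 2 < 4 * 1 * -F.a := by have := F.hneg; linarith
  obtain ⟨C, hC⟩ := r1 (a := 1) one_pos hD
  obtain ⟨K, C₁, hK, hcr⟩ := cr hδ
  obtain ⟨y₀, z₀, hy₀, hcr⟩ := hcr (18 * K) 1 M
  obtain ⟨L₁, hL₁⟩ := ev δ hδ M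
  obtain ⟨y, hy1, hy2⟩ : ∃ y : ℕ, y₀ ≤ y ∧ F.D ≤ y := ⟨max y₀ F.D, le_max_left _ _, le_max_right _ _⟩
  obtain ⟨E, hE⟩ : ∃ E : ℕ, (E : ℤ) = 1 + |F.b| + |-F.a| :=
    ⟨1 + F.b.natAbs + (-F.a).natAbs, by push_cast; rfl⟩
  obtain ⟨G, hG⟩ : ∃ G : ℕ, G = y ^ C₁ := ⟨_, rfl⟩
  obtain ⟨z₁, hz1, hz2, hz3⟩ : ∃ z : ℕ, z₀ ≤ z ∧ y ^ 8 ≤ z ∧ 2 ≤ z :=
    ⟨z₀ + y ^ 8 + 2, by omega, by omega, by omega⟩
  refine ⟨(4 * G ^ 2).factorial, 8 * G * E + 2 * E, L₁ + z₁ ^ K + E * (2 * C) ^ 2 + 1,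
    Nat.factorial_pos _, fun Q τ τ' L X Y hL hX hY cX cY qX qY => ?_⟩
  obtain ⟨l1, l2⟩ := hL₁ L (by omega)
  obtain ⟨σ₁, σ₂, hσ⟩ := ex_sig F (τ - τ')
  rcases hC σ₁ σ₂ L with h | ⟨s₁, s₂, r, hr, e1, e2, hcop, b0, b1, b2⟩
  · left
    obtain ⟨y', hy'⟩ : Y.Nonempty := by
      rw [← card_pos]
      have : (0 : ℝ) < Y.card := by linarith
      exact_mod_cast this
    have k := few F hσ hX (hY hy') qX (qY y' hy') h
    have k1 : (X.card : ℝ) ≤ 2 * DD Q + 1 := by exact_mod_cast k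
    have k2 : δ * L ^ 2 ≤ 4 * DD Q := by linarith
    have k3 : (0 : ℝ) ≤ √(Real.log L) := Real.sqrt_nonneg _
    have k4 := mul_le_mul_of_nonneg_right k2 k3
    have k5 := mul_le_mul_of_nonneg_right l2 (sq_nonneg (L : ℝ))
    nlinarith
  by_cases hx : ∀ i j i' j' k e d : ℤ, |i| < (L : ℤ) → |j| < (L : ℤ) → |i'| < (L : ℤ) →
      |j'| < (L : ℤ) → Rot 1 F.b (-F.a) k e d (s₁ + r * i) (s₂ + r * j) (s₁ + r * i')
        (s₂ + r * j') → d ≠ 0 → (y : ℤ) ^ C₁ ≤ k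
  · left
    obtain ⟨z, hz⟩ : ∃ z, z = Nat.nthRoot K L := ⟨_, rfl⟩
    have z1 : z ^ K ≤ L := by rw [hz]; exact Nat.pow_nthRoot_le (Or.inl hK.ne')
    have z2 : z₁ ≤ z := by rw [hz, Nat.le_nthRoot_iff hK.ne']; omega
    have z3 : L < z ^ (2 * K) := by
      have : L < (z + 1) ^ K := by rw [hz]; exact Nat.lt_pow_nthRoot_add_one hK.ne' L
      refine this.trans_le ?_
      rw [pow_mul]
      exact Nat.pow_le_pow_left (by nlinarith) K
    have z4 : z ≤ L := (Nat.le_self_pow hK.ne' z).trans z1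
    have inj : Function.Injective fun x : F.O => (x.re, x.im) := fun a b e =>
      QuadraticAlgebra.ext (congrArg Prod.fst e) (congrArg Prod.snd e)
    have sub : ∀ Z : Finset F.O, Z ⊆ F.bx 0 L →
        (Z.image fun x => (x.re, x.im)) ⊆ Ico (0 : ℤ) L ×ˢ Ico (0 : ℤ) L := fun Z hZ w hw => by
      obtain ⟨x, hx, rfl⟩ := mem_image.1 hw
      have := F.mem_bx.1 (hZ hx)
      exact mem_product.2 ⟨mem_Ico.2 this.1, mem_Ico.2 this.2⟩
    have L1 : (1 : ℤ) ≤ L := by exact_mod_cast (by omega : 1 ≤ L)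
    have bd : ∀ s i : ℤ, |s| ≤ C * (L : ℤ) ^ 3 → |i| < L → |s + r * i| ≤ 2 * C * (L : ℤ) ^ 4 :=
      fun s i hs hi => by
        have t1 : |r * i| ≤ C * (L : ℤ) ^ 3 * L := by
          rw [abs_mul, abs_of_pos hr]
          exact mul_le_mul b0 hi.le (abs_nonneg i) (by positivity)
        have t2 : C * (L : ℤ) ^ 3 * 1 ≤ C * (L : ℤ) ^ 3 * L :=
          mul_le_mul_of_nonneg_left L1 (by positivity)
        have t3 := abs_add_le s (r * i)
        nlinarith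
    have k := hcr 1 F.b (-F.a) s₁ s₂ r L L y z (X.image fun x => (x.re, x.im))
      (Y.image fun x => (x.re, x.im)) one_pos hD
      (fun p hp h => hp.one_lt.ne' (by exact_mod_cast Int.eq_one_of_dvd_one (by positivity) h.1))
      hcop hr (Or.inr (fund F)) hy1 (hz1.trans z2) (hz2.trans z2) z1 z1
      (by have := F.D_eq; rw [pow_one]; omega) (sub X hX) (sub Y hY)
      (by rw [card_image_of_injective _ inj]; nlinarith)
      (by rw [card_image_of_injective _ inj]; nlinarith)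
      (fun i j hi hj => by
        refine (qf_le (bd s₁ i b1 hi) (bd s₂ j b2 hj)).trans_lt ?_
        have t1 : (E : ℤ) * (2 * C) ^ 2 ≤ L := by exact_mod_cast (by omega : E * (2 * C) ^ 2 ≤ L)
        have t2 : (L : ℤ) ^ 9 < (z : ℤ) ^ (18 * K) := by
          have : L ^ 9 < (z ^ (2 * K)) ^ 9 := Nat.pow_lt_pow_left z3 (by norm_num)
          rw [← pow_mul, show 2 * K * 9 = 18 * K by ring] at this
          exact_mod_cast this
        refine lt_of_le_of_lt ?_ t2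
        have t3 := mul_le_mul_of_nonneg_right t1 (by positivity : (0 : ℤ) ≤ (L : ℤ) ^ 8)
        rw [← hE]
        nlinarith)
      (Or.inl hx)
    have r0 : (0 : ℝ) < r := by exact_mod_cast hr
    have k1 := dd_ge (Q := Q) (l := ((r : ℝ) ^ 2)⁻¹) (by positivity)
      (V := (((X.image fun x => (x.re, x.im)) ×ˢ (Y.image fun x => (x.re, x.im))).image fun w =>
        qf 1 F.b (-F.a) (s₁ + r * (w.1.1 - w.2.1)) (s₂ + r * (w.1.2 - w.2.2))).erase 0)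
      fun m hm => by
        obtain ⟨m0, m1⟩ := mem_erase.1 hm
        obtain ⟨w, hw, rfl⟩ := mem_image.1 m1
        obtain ⟨w1, w2⟩ := mem_product.1 hw
        obtain ⟨x, hx, ex⟩ := mem_image.1 w1
        obtain ⟨x', hx', ex'⟩ := mem_image.1 w2
        refine ⟨m0, _, qX x hx, _, qY x' hx', ?_⟩
        rw [dist_sq F hσ, qf_Nr F e1 e2, ← ex, ← ex']
        field_simp
    have k2 : √(Real.log z) ≤ √(Real.log L) := Real.sqrt_le_sqrt (Real.log_le_log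
      (by exact_mod_cast (by omega : 0 < z)) (by exact_mod_cast z4))
    refine le_trans (le_of_eq (by ring)) (k.trans ?_)
    exact mul_le_mul (by exact_mod_cast k1) k2 (Real.sqrt_nonneg _) (Nat.cast_nonneg _)
  · right
    push Not at hx
    obtain ⟨i, j, i', j', k, e, d, hi, hj, hi', hj', hR, hd, hk⟩ := hx
    have kG : k ≤ G := by rw [hG]; push_cast; exact hk.le
    have k0 := hR.pos
    have r1 := rot_den hR hD hd hcop hr
    have r0 : (0 : ℝ) < r := by exact_mod_cast hr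
    constructor
    · obtain ⟨r', rfl⟩ := Int.eq_ofNat_of_zero_le hr.le
      have r2 : r' ≤ 4 * G ^ 2 := by
        have : (r' : ℤ) ≤ 4 * (G : ℤ) ^ 2 := by nlinarith
        exact_mod_cast this
      obtain ⟨t, ht⟩ := Nat.dvd_factorial (by exact_mod_cast hr) r2
      refine ⟨⟨t * s₁, t * s₂⟩, ?_⟩
      rw [F.emb_apply, ht, hσ]
      have c1 : ((σ₁ : ℂ) * r') = s₁ := by exact_mod_cast e1
      have c2 : ((σ₂ : ℂ) * r') = s₂ := by exact_mod_cast e2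
      push_cast
      rw [← c1, ← c2]
      ring
    · obtain ⟨-, -, t1, t2⟩ := rot_tr hR hD hd
      have t3 : qf 1 F.b (-F.a) (s₁ + r * i' - (s₁ + r * i)) (s₂ + r * j' - (s₂ + r * j)) =
          r ^ 2 * qf 1 F.b (-F.a) (i' - i) (j' - j) := by unfold qf; ring
      have t4 : qf 1 F.b (-F.a) (i' - i) (j' - j) ≤ E * (2 * (L : ℤ)) ^ 2 := by
        rw [hE]
        have := abs_lt.1 hi
        have := abs_lt.1 hj
        have := abs_lt.1 hi'
        have := abs_lt.1 hj'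
        exact qf_le (abs_le.2 ⟨by omega, by omega⟩) (abs_le.2 ⟨by omega, by omega⟩)
      have t5 := qf_nonneg (x := s₁ + r * i) (y := s₂ + r * j) hD
      have t6 := qf_nonneg (x := i' - i) (y := j' - j) hD
      have t7 : 1 ≤ 2 * k - (2 * e + F.b * d) := by have := (abs_lt.1 t1).2; omega
      have t8 : qf 1 F.b (-F.a) (s₁ + r * i) (s₂ + r * j) ≤ r ^ 2 * (G * (E * (2 * (L : ℤ)) ^ 2)) := by
        have u1 := mul_le_mul_of_nonneg_right t7 t5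
        have u2 : k * qf 1 F.b (-F.a) (i' - i) (j' - j) ≤ G * (E * (2 * (L : ℤ)) ^ 2) :=
          mul_le_mul kG t4 t6 (by positivity)
        have u3 := mul_le_mul_of_nonneg_left u2 (sq_nonneg r)
        rw [t3] at t2
        nlinarith
      have t9 : F.Nr (σ₁ + i) (σ₂ + j) ≤ G * (E * (2 * (L : ℝ)) ^ 2) := by
        have u1 : ((qf 1 F.b (-F.a) (s₁ + r * i) (s₂ + r * j) : ℤ) : ℝ) ≤
            (r : ℝ) ^ 2 * (G * (E * (2 * (L : ℝ)) ^ 2)) := by exact_mod_cast t8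
        rw [qf_Nr F e1 e2] at u1
        exact le_of_mul_le_mul_left u1 (by positivity)
      have t10 : F.Nr i j ≤ E * (L : ℝ) ^ 2 := by
        have u1 := qf_le (b := F.b) (c := -F.a) hi.le hj.le
        rw [← hE] at u1
        have u2 : ((qf 1 F.b (-F.a) i j : ℤ) : ℝ) ≤ E * (L : ℝ) ^ 2 := by exact_mod_cast u1
        refine le_trans (le_of_eq ?_) u2
        unfold qf IQ.Nr
        push_cast
        ring
      refine (norm_le F hσ t9 t10).trans (le_of_eq ?_)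
      push_cast
      ring

end Pool.Agent.Lib.MP_ad7336_sd
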