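import Pool.Agent.Lib.MP_ad7336_sd.UD0
import Pool.Agent.Lib.MP_ad7336_sd.UB
import Pool.Agent.Lib.MP_ad7336_co.Sharp

set_option autoImplicit false

namespace Pool.Agent.Lib.MP_ad7336_sd

open Finset Filter Topology
open Pool.Agent.Lib.MP_ad7336_co (DD IQ)
open scoped Classical

theorem ud (t C : ℕ) {H : IQ} (ha : H.a = -1) (hb : H.b = 1) {ε : ℝ} (hε : 0 < ε) :
    ∀ᶠ n : ℕ in atTop, ∀ (Q T : Finset ℂ) (u v : ℂ) (N₁ N₂ : ℕ), Q.card = n →
    T.card ≤ t → N₁ * N₂ ≤ C * n →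
    (∀ p ∈ Q, ∃ τ ∈ T, ∃ i j : ℕ, i < N₁ ∧ j < N₂ ∧ p = τ + i * u + j * v) →
    (H.kap - ε) * n / √(Real.log n) ≤ DD Q ∧
      ∃ P : Finset ℂ, P.card = n ∧ (∀ p ∈ P, Tri p) ∧ DD P ≤ DD Q := by
  have hk := H.kap_pos
  obtain ⟨Φ, C', h0⟩ := ud0 t C (2 * H.kap)
  have ev : ∀ a b : ℝ, a < b → ∀ c : ℝ, ∀ᶠ δ in 𝓝 (0 : ℝ), a + δ * c < b := fun a b h c =>
    (show Continuous fun δ : ℝ => a + δ * c by fun_prop).continuousAt.eventually_lt
      continuousAt_const (by simpa using h)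
  have e1 : ∀ᶠ δ in 𝓝 (0 : ℝ), ∀ F ∈ Φ, F.D ≠ 3 → H.kap + δ * (H.kap + F.kap) < F.kap :=
    (eventually_all_finset Φ).2 fun F _ => by
      by_cases h : F.D = 3
      · exact Eventually.of_forall fun _ k => (k h).elim
      · exact (ev _ _ (IQ.kap_lt ha hb h) _).mono fun _ k _ => k
  obtain ⟨δ, ⟨d1, d2, d3⟩, d0⟩ := (((e1.and ((ev 0 1 one_pos 1).and
    (ev 0 ε hε H.kap))).filter_mono nhdsWithin_le_nhds).and
      (self_mem_nhdsWithin (s := Set.Ioi (0 : ℝ)))).exists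
  have d4 : 0 < δ := d0
  have t1 : Tendsto (fun n : ℕ => √(Real.log n)) atTop atTop :=
    Real.tendsto_sqrt_atTop.comp (Real.tendsto_log_atTop.comp tendsto_natCast_atTop_atTop)
  have hom : H.om = (1 / 2 : ℂ) + ((Real.sqrt 3 / 2 : ℝ) : ℂ) * Complex.I := by
    simp only [IQ.om, IQ.hx_D ha hb, hb]
    push_cast
    ring
  filter_upwards [h0, (eventually_all_finset Φ).2 fun F _ => caseB1 F t C' d4,
    IQ.hex_upper ha hb d4, t1.eventually_ge_atTop (16 * t * H.kap), t1.eventually_gt_atTop 0,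
    eventually_ge_atTop (8 * t)] with n h1 h2 ⟨P, p1, p2⟩ h4 h5 h6 Q T u v N₁ N₂ q1 q2 q3 q4
  have n0 : (0 : ℝ) ≤ n := Nat.cast_nonneg n
  have mono : ∀ a b : ℝ, a ≤ b → a * n / √(Real.log n) ≤ b * n / √(Real.log n) := fun a b h => by
    gcongr
  have big : (1 + δ) * H.kap * n / √(Real.log n) ≤ DD Q →
      (H.kap - ε) * n / √(Real.log n) ≤ DD Q ∧
        ∃ P : Finset ℂ, P.card = n ∧ (∀ p ∈ P, Tri p) ∧ DD P ≤ DD Q := fun h =>
    ⟨(mono _ _ (by nlinarith)).trans h, P.image H.emb,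
      by rw [card_image_of_injective _ H.emb_inj, p1],
      forall_mem_image.2 fun z _ => ⟨z.re, z.im, by rw [UBx.emb_eq, hom]⟩,
      by rw [Pool.Agent.Lib.MP_ad7336_co.DD_image]; exact_mod_cast p2.trans h⟩
  have big2 : 2 * H.kap * n ≤ DD Q * √(Real.log n) →
      (1 + δ) * H.kap * n / √(Real.log n) ≤ DD Q := fun h =>
    (mono _ _ (by nlinarith)).trans ((div_le_iff₀ h5).2 h)
  rcases h1 Q T u v N₁ N₂ q1 q2 q3 q4 with h | ⟨F, f1, Q', T', L, f2, f3, f4, f5, f6⟩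
  · exact big (big2 h)
  have h7 := h2 F f1 Q' T' L f2 f4 f5 f6
  rw [f3] at h7
  by_cases hF : F.D = 3
  · rcases caseB2 F hF Q' T' fun p hp => (f6 p hp).imp fun τ k =>
      ⟨k.1, k.2.imp fun x k' => k'.2⟩ with h | ⟨P', g1, g2, g3⟩
    · refine big (big2 ?_)
      rw [f2, f3] at h
      have h8 : n ≤ 8 * t * DD Q := by
        have : 4 * T'.card * (DD Q + 1) ≤ 4 * t * (DD Q + 1) := by gcongr
        nlinarith
      have h9 : (n : ℝ) ≤ 8 * t * DD Q := by exact_mod_cast h8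
      have h10 := mul_le_mul_of_nonneg_left h4 (Nat.cast_nonneg (α := ℝ) (DD Q))
      nlinarith
    · have := Pool.Agent.Lib.MP_ad7336_co.Sharp.kap_le ha hb F
      exact ⟨(mono _ _ (by nlinarith)).trans h7, P', g1.trans f2, g2, (g3.trans f3).le⟩
  · exact big ((mono _ _ (by linarith [d1 F f1 hF])).trans h7)

end Pool.Agent.Lib.MP_ad7336_sd
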