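import Pool.Agent.Lib.MP_ad7336_sd.UA

set_option autoImplicit false

namespace Pool.Agent.Lib.MP_ad7336_sd

open Finset Filter
open Pool.Agent.Lib.MP_ad7336_co (DD IQ)
open scoped Classical

namespace UD0x

open Pool.Agent.Lib.MP_ad7336_co

theorem fin_tau (S : ℕ) : ∃ (Φ : Finset IQ) (K : ℕ), ∀ τ : ℂ, τ.im ≠ 0 →
    (∃ a b c : ℤ, 0 < a ∧ a ≤ S ∧ |b| ≤ S ∧ |c| ≤ S ∧ 2 * τ.re * a = b ∧
      Complex.normSq τ * a = c) →
    ∃ F ∈ Φ, ∃ (N : ℕ) (o : F.O), N ≠ 0 ∧ N ≤ K ∧ |o.re| ≤ K ∧ |o.im| ≤ K ∧ F.emb o = N * τ := by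
  have h1 : ∀ τ : ℂ, ∃ (F : IQ) (N : ℕ) (o : F.O), τ.im ≠ 0 → (∃ a b c : ℤ, 0 < a ∧
      2 * τ.re * a = b ∧ Complex.normSq τ * a = c) → N ≠ 0 ∧ F.emb o = N * τ := fun τ => by
    by_cases h : τ.im ≠ 0 ∧ ∃ a b c : ℤ, 0 < a ∧ 2 * τ.re * a = b ∧ Complex.normSq τ * a = c
    · obtain ⟨h0, a, b, c, k1, k2, k3⟩ := h
      have a0 : (a : ℝ) ≠ 0 := by exact_mod_cast k1.ne'
      obtain ⟨F, p, q, e⟩ := Red.ex_F h0 (x := b / a) (y := c / a)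
        (by push_cast; rw [eq_div_iff a0, k2]) (by push_cast; rw [eq_div_iff a0, k3])
      obtain ⟨N, k4, k5⟩ := Red.ex_den F {τ}
      obtain ⟨o, k6⟩ := k5 τ (mem_singleton_self _) ⟨p, q, e⟩
      exact ⟨F, N, o, fun _ _ => ⟨k4, k6⟩⟩
    · obtain ⟨F, -⟩ := exists_hex
      exact ⟨F, 0, 0, fun k1 k2 => (h ⟨k1, k2⟩).elim⟩
  choose F N o h1 using h1
  set W : Finset ℂ := ((Icc (-(S : ℤ)) S ×ˢ Icc (-(S : ℤ)) S ×ˢ Icc (-(S : ℤ)) S) ×ˢ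
    ({1, -1} : Finset ℝ)).image fun w => ⟨w.1.2.1 / (2 * w.1.1),
      w.2 * √(w.1.2.2 / w.1.1 - (w.1.2.1 / (2 * w.1.1)) ^ 2)⟩ with hW
  refine ⟨W.image F, W.sup fun τ => N τ + (o τ).re.natAbs + (o τ).im.natAbs,
    fun τ h0 ⟨a, b, c, k1, k2, k3, k4, k5, k6⟩ => ?_⟩
  have hτ : τ ∈ W := by
    have a0 : (a : ℝ) ≠ 0 := by exact_mod_cast k1.ne'
    have e1 : (b : ℝ) / (2 * a) = τ.re := by rw [← k5]; field_simp
    have e2 : √((c : ℝ) / a - (b / (2 * a)) ^ 2) = |τ.im| := by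
      rw [e1, ← k6, mul_div_cancel_right₀ _ a0, Complex.normSq_apply, ← Real.sqrt_sq_eq_abs]
      congr 1
      ring
    have m : (a, b, c) ∈ Icc (-(S : ℤ)) S ×ˢ Icc (-(S : ℤ)) S ×ˢ Icc (-(S : ℤ)) S := by
      rw [abs_le] at k3 k4
      simp only [mem_product, mem_Icc]
      omega
    rcases abs_cases τ.im with h | h
    · exact mem_image.2 ⟨((a, b, c), 1), mem_product.2 ⟨m, by simp⟩,
        Complex.ext e1 (by simp only [e2, h.1, one_mul])⟩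
    · exact mem_image.2 ⟨((a, b, c), -1), mem_product.2 ⟨m, by simp⟩,
        Complex.ext e1 (by simp only [e2, h.1]; ring)⟩
  have k := le_sup (f := fun τ => N τ + (o τ).re.natAbs + (o τ).im.natAbs) hτ
  obtain ⟨t1, t2⟩ := h1 τ h0 ⟨a, b, c, k1, k5, k6⟩
  refine ⟨F τ, mem_image_of_mem _ hτ, N τ, o τ, t1, by omega, ?_, ?_, t2⟩ <;>
    rw [← Int.natCast_natAbs] <;> omega

theorem line {u v : ℂ} (h : (u * (starRingEnd ℂ) v).im = 0) :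
    ∃ (d : ℂ) (l m : ℝ), ‖d‖ = 1 ∧ u = l * d ∧ v = m * d := by
  by_cases hu : u = 0
  · by_cases hv : v = 0
    · exact ⟨1, 0, 0, by simp, by simp [hu], by simp [hv]⟩
    · have : (‖v‖ : ℂ) ≠ 0 := by simpa using hv
      exact ⟨v / ‖v‖, 0, ‖v‖, by simp [hv], by simp [hu], by field_simp⟩
  · have h1 : (‖u‖ : ℂ) ≠ 0 := by simpa using hu
    refine ⟨u / ‖u‖, ‖u‖, (u * (starRingEnd ℂ) v).re / ‖u‖, by simp [hu], by field_simp, ?_⟩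
    have e : ((u * (starRingEnd ℂ) v).re : ℂ) = (starRingEnd ℂ) u * v := by
      rw [Complex.conj_eq_iff_re.1 (Complex.conj_eq_iff_im.2 h), ← Complex.conj_eq_iff_im.2 h,
        map_mul, Complex.conj_conj]
    push_cast
    rw [e]
    field_simp
    linear_combination -v * Complex.mul_conj' u

theorem coll {Q T : Finset ℂ} {u v : ℂ} (h : (u * (starRingEnd ℂ) v).im = 0)
    (hQ : ∀ p ∈ Q, ∃ τ ∈ T, ∃ i j : ℕ, p = τ + i * u + j * v) :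
    Q.card ≤ T.card * (2 * DD Q + 1) := by
  obtain ⟨d, l, m, h1, rfl, rfl⟩ := line h
  refine (card_le_card (t := T.biUnion fun τ => Q.filter fun p => ∃ s : ℝ, p = τ + s * d)
    fun p hp => ?_).trans (card_biUnion_le_card_mul _ _ _ fun τ _ => ?_)
  · obtain ⟨τ, k1, i, j, k2⟩ := hQ p hp
    exact mem_biUnion.2 ⟨τ, k1, mem_filter.2 ⟨hp, i * l + j * m, by rw [k2]; push_cast; ring⟩⟩
  · rcases (Q.filter fun p => ∃ s : ℝ, p = τ + s * d).eq_empty_or_nonempty with e | ⟨o, ho⟩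
    · simp [e]
    rw [← card_erase_add_one ho]
    refine Nat.add_le_add_right (Red.count (mem_filter.1 ho).1 (fun q hq =>
      ⟨(mem_filter.1 (mem_of_mem_erase hq)).1, (ne_of_mem_erase hq).symm⟩) fun r => ?_) 1
    refine Red.quad (α := 1) (-2 * o) (o ^ 2 - (r * d) ^ 2) one_ne_zero fun w hw => ?_
    obtain ⟨k1, k2⟩ := mem_filter.1 hw
    obtain ⟨s, e1⟩ := (mem_filter.1 (mem_of_mem_erase k1)).2
    obtain ⟨s', e2⟩ := (mem_filter.1 ho).2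
    have e3 : o - w = (s' - s : ℝ) * d := by rw [e1, e2]; push_cast; ring
    rw [dist_eq_norm, e3, norm_mul, h1, mul_one, Complex.norm_real, Real.norm_eq_abs] at k2
    have e4 : ((s' - s : ℝ) : ℂ) ^ 2 = r ^ 2 := by rw [← k2]; exact_mod_cast (sq_abs (s' - s)).symm
    linear_combination (o - w + (s' - s : ℝ) * d) * e3 + d ^ 2 * e4

theorem piece {Q T : Finset ℂ} {u v : ℂ} {N₁ N₂ t : ℕ} (hT : T.card ≤ t) (h0 : Q.Nonempty)
    (hQ : ∀ p ∈ Q, ∃ τ ∈ T, ∃ i j : ℕ, i < N₁ ∧ j < N₂ ∧ p = τ + i * u + j * v) :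
    ∃ (τ : ℂ) (X : Finset (ℤ × ℤ)), X ⊆ Ico (0 : ℤ) N₁ ×ˢ Ico (0 : ℤ) N₂ ∧
      (∀ x ∈ X, τ + x.1 * u + x.2 * v ∈ Q) ∧ Q.card ≤ t * X.card := by
  set X : ℂ → Finset (ℤ × ℤ) := fun τ => (Ico (0 : ℤ) N₁ ×ˢ Ico (0 : ℤ) N₂).filter
    fun x => τ + x.1 * u + x.2 * v ∈ Q
  obtain ⟨p, hp⟩ := h0
  obtain ⟨τ, -, h⟩ := exists_max_image T (fun τ => (X τ).card) (let ⟨τ, k, _⟩ := hQ p hp; ⟨τ, k⟩)
  refine ⟨τ, X τ, filter_subset _ _, fun x hx => (mem_filter.1 hx).2, le_trans ?_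
    (Nat.mul_le_mul_right _ hT)⟩
  refine (card_le_card (t := T.biUnion fun σ => (X σ).image fun x => σ + x.1 * u + x.2 * v)
    fun q hq => ?_).trans (card_biUnion_le_card_mul _ _ _ fun σ k => card_image_le.trans (h σ k))
  obtain ⟨σ, k1, i, j, k2, k3, k4⟩ := hQ q hq
  refine mem_biUnion.2 ⟨σ, k1, mem_image.2 ⟨(i, j), mem_filter.2 ⟨?_, ?_⟩, by simp [k4]⟩⟩
  · simp only [mem_product, mem_Ico]
    omega
  · simpa [← k4] using hq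

end UD0x

open Pool.Agent.Lib.MP_ad7336_co in
theorem ud0 (t C : ℕ) (M : ℝ) : ∃ (Φ : Finset IQ) (C' : ℕ), ∀ᶠ n : ℕ in atTop,
    ∀ (Q T : Finset ℂ) (u v : ℂ) (N₁ N₂ : ℕ), Q.card = n → T.card ≤ t → N₁ * N₂ ≤ C * n →
    (∀ p ∈ Q, ∃ τ ∈ T, ∃ i j : ℕ, i < N₁ ∧ j < N₂ ∧ p = τ + i * u + j * v) →
    M * n ≤ DD Q * √(Real.log n) ∨ ∃ F ∈ Φ, ∃ (Q' T' : Finset ℂ) (L : ℕ), Q'.card = n ∧
      DD Q' = DD Q ∧ T'.card ≤ t ∧ L ^ 2 ≤ C' * n ∧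
      ∀ p ∈ Q', ∃ τ ∈ T', ∃ x ∈ F.bx 0 L, p = τ + F.emb x := by
  obtain ⟨S, n₀, hA⟩ := caseA t C M
  obtain ⟨Φ, K, hΦ⟩ := UD0x.fin_tau S
  refine ⟨Φ, 3 * (5 * K ^ 2 * S + 1), ?_⟩
  have t1 : Tendsto (fun n : ℕ => √(Real.log n)) atTop atTop :=
    Real.tendsto_sqrt_atTop.comp (Real.tendsto_log_atTop.comp tendsto_natCast_atTop_atTop)
  filter_upwards [t1.eventually_ge_atTop (4 * t * |M|), eventually_ge_atTop (2 * t + n₀ + 1)]
    with n q1 q2 Q T u v N₁ N₂ h1 h2 h3 h4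
  wlog hw : ‖u‖ * N₁ ≤ ‖v‖ * N₂ generalizing u v N₁ N₂
  · exact this v u N₂ N₁ (by rwa [mul_comm N₂]) (fun p hp =>
      let ⟨τ, a, i, j, b, c, d⟩ := h4 p hp; ⟨τ, a, j, i, c, b, by rw [d]; ring⟩) (not_le.1 hw).le
  by_cases huv : (u * (starRingEnd ℂ) v).im = 0
  · left
    have k := (UD0x.coll huv fun p hp => let ⟨τ, a, i, j, _, _, d⟩ := h4 p hp; ⟨τ, a, i, j, d⟩).trans
      (Nat.mul_le_mul_right _ h2)
    have k1 : n ≤ 4 * t * DD Q := by nlinarith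
    have k2 : (n : ℝ) ≤ 4 * t * DD Q := by exact_mod_cast k1
    have k3 := mul_le_mul_of_nonneg_left k2 (abs_nonneg M)
    have k4 := mul_le_mul_of_nonneg_left q1 (Nat.cast_nonneg (α := ℝ) (DD Q))
    have k5 := mul_le_mul_of_nonneg_right (le_abs_self M) (Nat.cast_nonneg (α := ℝ) n)
    linarith
  obtain ⟨τ, X, x1, x2, x3⟩ := UD0x.piece h2 (card_pos.1 (by omega)) h4
  rcases hA Q u v τ N₁ N₂ X (by omega) huv x1 x2 x3 (h1 ▸ h3) hw with k |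
    ⟨a, b, c, k1, k2, k3, k4, k5, k6, k7, k8⟩
  · exact Or.inl (h1 ▸ k)
  right
  have hu : u ≠ 0 := fun e => huv (by simp [e])
  have hτ : (v / u).im ≠ 0 := fun e => huv (by
    have : u * (starRingEnd ℂ) v = (starRingEnd ℂ) (v / u) * (Complex.normSq u : ℝ) := by
      rw [map_div₀, ← Complex.mul_conj]
      field_simp [(map_ne_zero (starRingEnd ℂ)).2 hu]
    rw [this, Complex.mul_im, Complex.conj_im, e, Complex.ofReal_im]
    simp)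
  obtain ⟨F, f1, N, o, f2, f3, f4, f5, f6⟩ := hΦ _ hτ ⟨a, b, c, k1, k2, k3, k4, k5, k6⟩
  have hl : (N : ℂ) / u ≠ 0 := div_ne_zero (Nat.cast_ne_zero.2 f2) hu
  refine ⟨F, f1, Q.image fun p => (N : ℂ) / u * (p - 0),
    T.image fun s => (N : ℂ) / u * s - F.emb ⟨K * N₂, K * N₂⟩, K * N₁ + 2 * K * N₂ + 1,
    by rw [card_image_of_injective _ fun p q e => sub_left_injective (mul_left_cancel₀ hl e), h1],
    Red.DD_sim Q hl 0, card_image_le.trans h2, ?_, forall_mem_image.2 fun p hp => ?_⟩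
  · rw [h1] at k7 k8
    have a1 := Nat.mul_le_mul_left (K ^ 2) k7
    have a2 := Nat.mul_le_mul_left (K ^ 2) k8
    have a3 : 1 ≤ n := by omega
    zify at a1 a2 a3 ⊢
    nlinarith [sq_nonneg ((K : ℤ) * N₁ - 2 * K * N₂), sq_nonneg ((K : ℤ) * N₁ - 1),
      sq_nonneg (2 * (K : ℤ) * N₂ - 1)]
  · obtain ⟨s, s1, i, j, s2, s3, rfl⟩ := h4 p hp
    refine ⟨_, mem_image_of_mem _ s1, (N * i : ℕ) + j * o + ⟨K * N₂, K * N₂⟩, F.mem_bx.2 ?_, ?_⟩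
    · have b1 : (N : ℤ) * i ≤ K * N₁ := by exact_mod_cast Nat.mul_le_mul f3 s2.le
      have b2 : (0 : ℤ) ≤ N * i := by positivity
      have b3 : (0 : ℤ) ≤ K * N₁ := by positivity
      have j0 : (0 : ℤ) ≤ j := by positivity
      have b4 : ∀ z : ℤ, |z| ≤ K → |j * z| ≤ K * N₂ := fun z hz => by
        rw [abs_mul, abs_of_nonneg j0, mul_comm]
        exact mul_le_mul hz (by exact_mod_cast s3.le) j0 (by positivity)
      have b5 := abs_le.1 (b4 _ f4)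
      have b6 := abs_le.1 (b4 _ f5)
      simp only [QuadraticAlgebra.re_add, QuadraticAlgebra.im_add, QuadraticAlgebra.re_mul,
        QuadraticAlgebra.im_mul, QuadraticAlgebra.re_natCast, QuadraticAlgebra.im_natCast]
      push_cast
      refine ⟨⟨?_, ?_⟩, ?_, ?_⟩ <;> linarith [b5.1, b5.2, b6.1, b6.2]
    · rw [map_add, map_add, map_mul, map_natCast, map_natCast, f6]
      push_cast
      field_simp
      ring

end Pool.Agent.Lib.MP_ad7336_sd
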